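import Pool.Agent.Helper2.AM.Count

/-!
# The diagonal of the modulus of the free resolvent
-/

open Finset Real

noncomputable section

namespace Pool.Agent.Helper2.AM

/-- The modulus of the free resolvent: `1 / |F - E - i ε|`. -/
def wt (F E ε : ℝ) : ℝ := 1 / √((F - E) ^ 2 + ε ^ 2)

lemma wt_pos (F E ε : ℝ) (hε : 0 < ε) : 0 < wt F E ε := by
  unfold wt
  have : 0 < (F - E) ^ 2 + ε ^ 2 := by positivity
  positivity

lemma wt_le_inv (F E ε : ℝ) (hε : 0 < ε) : wt F E ε ≤ 1 / ε := by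
  unfold wt
  apply one_div_le_one_div_of_le hε
  apply le_sqrt_of_sq_le
  nlinarith [sq_nonneg (F - E)]

lemma wt_le_inv_abs (F E ε : ℝ) (t : ℝ) (ht : 0 < t) (h : t ≤ |F - E|) :
    wt F E ε ≤ 1 / t := by
  unfold wt
  apply one_div_le_one_div_of_le ht
  apply le_sqrt_of_sq_le
  have : t ^ 2 ≤ (F - E) ^ 2 := by
    rw [← sq_abs (F - E)]
    exact pow_le_pow_left₀ ht.le h 2
  nlinarith [sq_nonneg ε]

/-- Dyadic decomposition. -/
lemma wt_dyadic (F E ε : ℝ) (hε : 0 < ε) (I : ℕ) (hI : 1 ≤ 2 ^ I * ε) :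
    wt F E ε ≤ ∑ i ∈ range (I + 1), 2 / (2 ^ i * ε) * (if |F - E| ≤ 2 ^ i * ε then 1 else 0)
      + 1 := by
  have hnn : ∀ i ∈ range (I + 1), 0 ≤ 2 / (2 ^ i * ε) * (if |F - E| ≤ 2 ^ i * ε then (1 : ℝ) else 0) := by
    intro i _
    split_ifs <;> positivity
  by_cases h : |F - E| ≤ 2 ^ I * ε
  · have hex : ∃ i, |F - E| ≤ 2 ^ i * ε := ⟨I, h⟩
    classical
    set i := Nat.find hex with hi
    have hi1 : |F - E| ≤ 2 ^ i * ε := Nat.find_spec hex
    have hi2 : i ≤ I := Nat.find_min' hex h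
    have hsingle : 2 / (2 ^ i * ε) ≤ ∑ i ∈ range (I + 1), 2 / (2 ^ i * ε) *
        (if |F - E| ≤ 2 ^ i * ε then (1 : ℝ) else 0) := by
      have := Finset.single_le_sum hnn (mem_range.2 (Nat.lt_succ_of_le hi2))
      rwa [if_pos hi1, mul_one] at this
    have hw : wt F E ε ≤ 2 / (2 ^ i * ε) := by
      rcases Nat.eq_zero_or_pos i with h0 | hpos
      · rw [h0, pow_zero, one_mul]
        refine (wt_le_inv F E ε hε).trans ?_
        gcongr
        norm_num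
      · have hlt : ¬ |F - E| ≤ 2 ^ (i - 1) * ε := Nat.find_min hex (by omega)
        push Not at hlt
        refine (wt_le_inv_abs F E ε _ (by positivity) hlt.le).trans (le_of_eq ?_)
        obtain ⟨j, hj⟩ : ∃ j, i = j + 1 := ⟨i - 1, by omega⟩
        rw [hj, Nat.add_sub_cancel, pow_succ]
        field_simp
    linarith
  · push Not at h
    have h1 : wt F E ε ≤ 1 / 1 := wt_le_inv_abs F E ε 1 one_pos (by linarith)
    have h2 := Finset.sum_nonneg hnn
    linarith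

/-- Sum of the weights from a counting bound. -/
lemma sum_wt_le {ι : Type*} [Fintype ι] (F : ι → ℝ) (E ε : ℝ) (hε : 0 < ε) (C T : ℝ)
    (hT : (Fintype.card ι : ℝ) ≤ T)
    (hcount : ∀ η, ε ≤ η → ((univ.filter fun k => |F k - E| ≤ η).card : ℝ) ≤ C * η * T)
    (I : ℕ) (hI : 1 ≤ 2 ^ I * ε) :
    ∑ k, wt (F k) E ε ≤ (2 * C * (I + 1) + 1) * T := by
  have h1 : ∑ k, wt (F k) E ε ≤ ∑ k, (∑ i ∈ range (I + 1), 2 / (2 ^ i * ε) *
      (if |F k - E| ≤ 2 ^ i * ε then 1 else 0) + 1) :=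
    sum_le_sum fun k _ => wt_dyadic (F k) E ε hε I hI
  refine h1.trans ?_
  rw [sum_add_distrib, sum_comm]
  have h2 : ∀ i ∈ range (I + 1), ∑ k, 2 / (2 ^ i * ε) *
      (if |F k - E| ≤ 2 ^ i * ε then (1 : ℝ) else 0) ≤ 2 * C * T := by
    intro i _
    rw [← mul_sum, ← Finset.sum_filter, sum_const, nsmul_eq_mul, mul_one]
    have hle : ε ≤ 2 ^ i * ε := by
      have : (1 : ℝ) ≤ 2 ^ i := one_le_pow₀ (by norm_num)
      nlinarith
    have h3 := hcount (2 ^ i * ε) hle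
    calc 2 / (2 ^ i * ε) * ((univ.filter fun k => |F k - E| ≤ 2 ^ i * ε).card : ℝ)
        ≤ 2 / (2 ^ i * ε) * (C * (2 ^ i * ε) * T) := by gcongr
      _ = 2 * C * T := by field_simp
  have h4 : ∑ k : ι, (1 : ℝ) ≤ T := by
    rw [sum_const, card_univ, nsmul_eq_mul, mul_one]; exact hT
  calc ∑ i ∈ range (I + 1), ∑ k, 2 / (2 ^ i * ε) *
      (if |F k - E| ≤ 2 ^ i * ε then (1 : ℝ) else 0) + ∑ k : ι, (1 : ℝ)
      ≤ ∑ i ∈ range (I + 1), 2 * C * T + T := add_le_add (sum_le_sum h2) h4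
    _ = (2 * C * (I + 1) + 1) * T := by
      rw [sum_const, card_range, nsmul_eq_mul]; push_cast; ring

/-- The diagonal bound in dimension `m + 3`. -/
theorem diag_bound (m L : ℕ) (E ε : ℝ) (hε : 0 < ε) (hε1 : ε ≤ 1 / 2) (hεL : 1 ≤ ε * L) :
    ∑ k : Fin (m + 3) → Fin L, wt (en L k) E ε ≤
      (12 * ((m + 3) * (12 ^ (m + 2) + 2)) + 2) * log (1 / ε) * L ^ (m + 3) := by
  have hL0 : (0 : ℝ) ≤ L := Nat.cast_nonneg _
  set C : ℝ := (m + 3) * (12 ^ (m + 2) + 2) with hC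
  have hC0 : 0 ≤ C := by positivity
  obtain ⟨I, hI⟩ : ∃ I : ℕ, I = ⌈log (1 / ε) / log 2⌉₊ := ⟨_, rfl⟩
  have hlog2 : 0 < log 2 := log_pos (by norm_num)
  have hlog2' : 1 / 2 ≤ log 2 := by linarith [log_two_gt_d9]
  have hinv : 2 ≤ 1 / ε := by
    rw [le_div_iff₀ hε]; linarith
  have hlogε : log 2 ≤ log (1 / ε) := log_le_log (by norm_num) hinv
  have hI1 : 1 ≤ 2 ^ I * ε := by
    have h1 : log (1 / ε) / log 2 ≤ I := by rw [hI]; exact Nat.le_ceil _
    rw [div_le_iff₀ hlog2] at h1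
    have h2 : 1 / ε ≤ 2 ^ I := by
      have h3 : log (1 / ε) ≤ log ((2 : ℝ) ^ I) := by rw [log_pow]; exact h1
      exact (log_le_log_iff (by positivity) (by positivity)).1 h3
    rw [div_le_iff₀ hε] at h2
    exact h2
  have hI2 : (I : ℝ) ≤ log (1 / ε) / log 2 + 1 := by
    rw [hI]
    exact (Nat.ceil_lt_add_one (div_nonneg (by linarith) hlog2.le)).le
  have h := sum_wt_le (fun k : Fin (m + 3) → Fin L => en L k) E ε hε C ((L : ℝ) ^ (m + 3))
    (by simp) (fun η hη => by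
      have h0 : 0 ≤ η := hε.le.trans hη
      have := count_window m L E η h0 (by nlinarith)
      rw [hC]
      exact this) I hI1
  refine h.trans ?_
  apply mul_le_mul_of_nonneg_right _ (by positivity)
  have h3 : log (1 / ε) / log 2 ≤ 2 * log (1 / ε) := by
    rw [div_le_iff₀ hlog2]
    nlinarith [hlogε, hlog2]
  have h4 : 1 ≤ 2 * log (1 / ε) := by linarith
  have h5 : (I : ℝ) + 1 ≤ 6 * log (1 / ε) := by linarith
  calc 2 * C * (I + 1) + 1 ≤ 2 * C * (6 * log (1 / ε)) + 2 * log (1 / ε) := by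
        have := mul_le_mul_of_nonneg_left h5 (show 0 ≤ 2 * C by positivity)
        linarith
    _ = (12 * C + 2) * log (1 / ε) := by ring

end Pool.Agent.Helper2.AM
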