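import Mathlib

/-!
# Choice of parameters
-/

open Finset Real

noncomputable section

namespace Pool.Agent.Helper2.AM

/-- `κ`. -/
def kap (A M : ℝ) (P : ℕ) : ℝ := 400 * A * M ^ 2 * (P + 2) + 4

/-- `ε = κ λ² log² (1/λ)`. -/
def epsP (A M : ℝ) (P : ℕ) (lam : ℝ) : ℝ := kap A M P * lam ^ 2 * log (1 / lam) ^ 2

/-- Box radius. -/
def RP (d : ℕ) (ε : ℝ) : ℕ := ⌈2 * (d : ℝ) / ε⌉₊

/-- Moment order. -/
def pP (P : ℕ) (lam : ℝ) : ℕ := ⌈(P : ℝ) * log (1 / lam)⌉₊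

variable {lam : ℝ}

lemma log_lower (h0 : 0 < lam) (h1 : lam ≤ 1 / 2) : 69 / 100 ≤ log (1 / lam) := by
  have : log 2 ≤ log (1 / lam) := by
    apply log_le_log (by norm_num)
    rw [le_div_iff₀ h0]; linarith
  linarith [log_two_gt_d9]

lemma kap_ge (A M : ℝ) (P : ℕ) (hA : 0 ≤ A) : 4 ≤ kap A M P := by
  unfold kap
  have : 0 ≤ 400 * A * M ^ 2 * ((P : ℝ) + 2) := by positivity
  linarith

lemma kl_ge (A M : ℝ) (P : ℕ) (hA : 0 ≤ A) (h0 : 0 < lam) (h1 : lam ≤ 1 / 2) :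
    1 ≤ kap A M P * log (1 / lam) ^ 2 := by
  have hk := kap_ge A M P hA
  have hl := log_lower h0 h1
  have h2 : (69 / 100) ^ 2 ≤ log (1 / lam) ^ 2 := pow_le_pow_left₀ (by norm_num) hl 2
  nlinarith

lemma eps_ge (A M : ℝ) (P : ℕ) (hA : 0 ≤ A) (h0 : 0 < lam) (h1 : lam ≤ 1 / 2) :
    lam ^ 2 ≤ epsP A M P lam := by
  unfold epsP
  have := kl_ge A M P hA h0 h1
  have h2 : 0 < lam ^ 2 := by positivity
  nlinarith

lemma eps_pos (A M : ℝ) (P : ℕ) (hA : 0 ≤ A) (h0 : 0 < lam) (h1 : lam ≤ 1 / 2) :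
    0 < epsP A M P lam := lt_of_lt_of_le (by positivity) (eps_ge A M P hA h0 h1)

lemma log_eps_le (A M : ℝ) (P : ℕ) (hA : 0 ≤ A) (h0 : 0 < lam) (h1 : lam ≤ 1 / 2) :
    log (1 / epsP A M P lam) ≤ 2 * log (1 / lam) := by
  have h2 := eps_ge A M P hA h0 h1
  have h3 : 1 / epsP A M P lam ≤ (1 / lam) ^ 2 := by
    rw [div_pow, one_pow]
    exact one_div_le_one_div_of_le (by positivity) h2
  have h4 : log (1 / epsP A M P lam) ≤ log ((1 / lam) ^ 2) := by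
    apply log_le_log _ h3
    have := eps_pos A M P hA h0 h1
    positivity
  rw [log_pow] at h4
  exact_mod_cast h4

lemma R_spec (d : ℕ) (hd : 1 ≤ d) (ε : ℝ) (hε : 0 < ε) (hε1 : ε ≤ 1) :
    1 ≤ RP d ε ∧ 2 * (d : ℝ) / (RP d ε : ℕ) ≤ ε ∧ 1 ≤ ε * (2 * RP d ε + 1 : ℕ) ∧
      ((2 * RP d ε + 1 : ℕ) : ℝ) ≤ (4 * d + 3) / ε := by
  have hd' : (1 : ℝ) ≤ d := by exact_mod_cast hd
  have hx : 0 < 2 * (d : ℝ) / ε := by positivity
  have h1 : 2 * (d : ℝ) / ε ≤ (RP d ε : ℕ) := Nat.le_ceil _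
  have h2 : ((RP d ε : ℕ) : ℝ) < 2 * (d : ℝ) / ε + 1 := Nat.ceil_lt_add_one hx.le
  have h3 : 1 ≤ RP d ε := Nat.one_le_iff_ne_zero.2 (Nat.ceil_pos.2 hx).ne'
  have h3' : (0 : ℝ) < (RP d ε : ℕ) := by exact_mod_cast h3
  have h4 : 2 * (d : ℝ) ≤ ε * (RP d ε : ℕ) := by
    rw [div_le_iff₀ hε] at h1
    linarith
  refine ⟨h3, ?_, ?_, ?_⟩
  · rw [div_le_iff₀ h3']; exact h4
  · push_cast
    nlinarith
  · push_cast
    rw [le_div_iff₀ hε]
    have h5 : ((RP d ε : ℕ) : ℝ) * ε < 2 * (d : ℝ) + ε := by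
      have := mul_lt_mul_of_pos_right h2 hε
      rwa [add_mul, div_mul_cancel₀ _ hε.ne', one_mul] at this
    nlinarith

lemma p_spec (P : ℕ) (hP : 1 ≤ P) (h0 : 0 < lam) (h1 : lam ≤ 1 / 2) :
    pP P lam ≠ 0 ∧ ((pP P lam : ℕ) : ℝ) ≤ (P + 2) * log (1 / lam) ∧
      exp (-((pP P lam : ℕ) : ℝ)) ≤ lam ^ P := by
  have hl := log_lower h0 h1
  have hP' : (1 : ℝ) ≤ P := by exact_mod_cast hP
  have hx : 0 < (P : ℝ) * log (1 / lam) := by positivity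
  have h2 : (P : ℝ) * log (1 / lam) ≤ (pP P lam : ℕ) := Nat.le_ceil _
  have h3 : ((pP P lam : ℕ) : ℝ) < (P : ℝ) * log (1 / lam) + 1 := Nat.ceil_lt_add_one hx.le
  refine ⟨(Nat.ceil_pos.2 hx).ne', ?_, ?_⟩
  · nlinarith
  · have h4 : lam ^ P = exp (-((P : ℝ) * log (1 / lam))) := by
      rw [one_div, log_inv, mul_neg, neg_neg, mul_comm, exp_mul, exp_log h0, rpow_natCast]
    rw [h4]
    exact exp_le_exp.2 (by linarith)

/-- The moment factor is small. -/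
lemma moment_small (A M : ℝ) (P : ℕ) (hA : 0 ≤ A) (hP : 1 ≤ P) (h0 : 0 < lam)
    (h1 : lam ≤ 1 / 2) :
    (64 * (pP P lam : ℕ) * M ^ 2 * (2 * A * log (1 / lam)) * lam ^ 2 / epsP A M P lam) ^
      (pP P lam) ≤ lam ^ P := by
  obtain ⟨hp0, hp1, hp2⟩ := p_spec P hP h0 h1
  have hl := log_lower h0 h1
  have hl0 : 0 < log (1 / lam) := by linarith
  have hk : 0 < kap A M P := by linarith [kap_ge A M P hA]
  have hbase : 64 * (pP P lam : ℕ) * M ^ 2 * (2 * A * log (1 / lam)) * lam ^ 2 /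
      epsP A M P lam ≤ exp (-1) := by
    have e1 : 64 * (pP P lam : ℕ) * M ^ 2 * (2 * A * log (1 / lam)) * lam ^ 2 /
      epsP A M P lam = 128 * A * M ^ 2 * ((pP P lam : ℕ) / log (1 / lam)) / kap A M P := by
      unfold epsP
      field_simp
      ring
    have e2 : ((pP P lam : ℕ) : ℝ) / log (1 / lam) ≤ P + 2 := by
      rw [div_le_iff₀ hl0]; exact hp1
    have e3 : 128 * A * M ^ 2 * ((pP P lam : ℕ) / log (1 / lam)) ≤ 128 * A * M ^ 2 * (P + 2) :=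
      mul_le_mul_of_nonneg_left e2 (by positivity)
    have e4 : (1 / 3 : ℝ) ≤ exp (-1) := by
      rw [exp_neg, ← one_div]
      apply one_div_le_one_div_of_le (exp_pos 1)
      linarith [exp_one_lt_d9]
    rw [e1, div_le_iff₀ hk]
    have e5 : (1 / 3) * kap A M P ≤ exp (-1) * kap A M P :=
      mul_le_mul_of_nonneg_right e4 hk.le
    have e6 : 128 * A * M ^ 2 * ((P : ℝ) + 2) ≤ (1 / 3) * kap A M P := by
      unfold kap
      have : 0 ≤ A * M ^ 2 * ((P : ℝ) + 2) := by positivity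
      linarith
    linarith
  have hnn : 0 ≤ 64 * (pP P lam : ℕ) * M ^ 2 * (2 * A * log (1 / lam)) * lam ^ 2 /
      epsP A M P lam := by
    have := eps_pos A M P hA h0 h1
    positivity
  calc (64 * (pP P lam : ℕ) * M ^ 2 * (2 * A * log (1 / lam)) * lam ^ 2 / epsP A M P lam) ^
      (pP P lam) ≤ (exp (-1)) ^ (pP P lam) := pow_le_pow_left₀ hnn hbase _
    _ = exp (-((pP P lam : ℕ) : ℝ)) := by
      rw [← exp_nat_mul]; congr 1; ring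
    _ ≤ lam ^ P := hp2

/-- The polynomial prefactors are absorbed. -/
lemma prefactor (d K n0 : ℕ) (ρ : ℝ) (h0 : 0 < lam) (h1 : lam ≤ 1 / 2)
    (hn0 : 3 ^ d * (4 * d + 2 * ρ + 1) * (4 * d + 3) ^ d ≤ (2 : ℝ) ^ n0) :
    (3 * (1 / lam) ^ K) ^ d * ((4 * d + 2 * ρ + 1) * (1 / lam) ^ 2) *
      (((4 * d + 3) * (1 / lam) ^ 2) ^ d * lam ^ (K + K * d + 2 + 2 * d + n0)) ≤ lam ^ K := by
  have hinv : (1 / lam) * lam = 1 := by field_simp
  have e1 : (3 * (1 / lam) ^ K) ^ d * ((4 * d + 2 * ρ + 1) * (1 / lam) ^ 2) *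
      (((4 * d + 3) * (1 / lam) ^ 2) ^ d * lam ^ (K + K * d + 2 + 2 * d + n0)) =
      (3 ^ d * (4 * d + 2 * ρ + 1) * (4 * d + 3) ^ d) * lam ^ n0 * lam ^ K *
        (((1 / lam) * lam) ^ (K * d) * ((1 / lam) * lam) ^ 2 * ((1 / lam) * lam) ^ (2 * d)) := by
    rw [mul_pow, mul_pow, mul_pow (1 / lam) lam (K * d), mul_pow (1 / lam) lam 2,
      mul_pow (1 / lam) lam (2 * d), ← pow_mul, ← pow_mul]
    ring
  rw [e1, hinv]
  simp only [one_pow, mul_one]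
  have h2 : (3 ^ d * (4 * d + 2 * ρ + 1) * (4 * d + 3) ^ d) * lam ^ n0 ≤ 1 := by
    calc (3 ^ d * (4 * d + 2 * ρ + 1) * (4 * d + 3) ^ d) * lam ^ n0
        ≤ (2 : ℝ) ^ n0 * (1 / 2) ^ n0 := by
          apply mul_le_mul hn0 (pow_le_pow_left₀ h0.le h1 _) (by positivity) (by positivity)
      _ = 1 := by rw [← mul_pow]; norm_num
  calc (3 ^ d * (4 * d + 2 * ρ + 1) * (4 * d + 3) ^ d) * lam ^ n0 * lam ^ K ≤ 1 * lam ^ K :=
        mul_le_mul_of_nonneg_right h2 (by positivity)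
    _ = lam ^ K := one_mul _

end Pool.Agent.Helper2.AM
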