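import Pool.Agent.Helper2.AM.Final
import Pool.Agent.Helper2.AM.Params

/-!
# Union bound and the sup-norm theorem
-/

open Finset Real Matrix MeasureTheory ProbabilityTheory
open scoped ComplexOrder ENNReal

noncomputable section

set_option linter.unusedSectionVars false

namespace Pool.Agent.Helper2.AM

variable {d : ℕ}

/-- The energy net. -/
def net (ρ ε : ℝ) (J : ℕ) : Finset ℝ := (range (J + 1)).image (fun j : ℕ => -ρ + j * ε)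

lemma net_card (ρ ε : ℝ) (J : ℕ) : (net ρ ε J).card ≤ J + 1 := by
  unfold net
  exact card_image_le.trans (by rw [card_range])

lemma exists_net (d : ℕ) (ρ ε E' : ℝ) (hε : 0 < ε) (h1 : -ρ ≤ E') (h2 : E' ≤ 4 * d + ρ) :
    ∃ E0 ∈ net ρ ε ⌊(4 * d + 2 * ρ) / ε⌋₊, |E' - E0| ≤ ε := by
  have h3 : 0 ≤ (E' + ρ) / ε := div_nonneg (by linarith) hε.le
  refine ⟨-ρ + (⌊(E' + ρ) / ε⌋₊ : ℕ) * ε, ?_, ?_⟩
  · unfold net
    refine Finset.mem_image.2 ⟨⌊(E' + ρ) / ε⌋₊, ?_, rfl⟩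
    rw [mem_range]
    apply Nat.lt_succ_of_le
    apply Nat.floor_le_floor
    exact div_le_div_of_nonneg_right (by linarith) hε.le
  · have h4 := Nat.floor_le h3
    have h5 := Nat.lt_floor_add_one ((E' + ρ) / ε)
    rw [le_div_iff₀ hε] at h4
    rw [div_lt_iff₀ hε] at h5
    rw [abs_of_nonneg (by linarith)]
    linarith

/-- Centres of the boxes. -/
def centres (d : ℕ) (T : ℝ) : Finset (Fin d → ℤ) := Fintype.piFinset fun _ => Icc (-⌊T⌋) ⌊T⌋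

lemma mem_centres (T : ℝ) (x : Fin d → ℤ) (hx : ∀ j, |(x j : ℝ)| ≤ T) : x ∈ centres d T := by
  unfold centres
  rw [Fintype.mem_piFinset]
  intro j
  have h := abs_le.1 (hx j)
  rw [Finset.mem_Icc]
  constructor
  · have : (-(x j) : ℤ) ≤ ⌊T⌋ := by
      rw [Int.le_floor]; push_cast; linarith
    linarith
  · rw [Int.le_floor]; exact h.2

lemma centres_card (T : ℝ) (hT : 1 ≤ T) : ((centres d T).card : ℝ) ≤ (3 * T) ^ d := by
  unfold centres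
  rw [Fintype.card_piFinset]
  simp only [Int.card_Icc, prod_const, card_univ, Fintype.card_fin]
  push_cast
  apply pow_le_pow_left₀ (by positivity)
  have h0 : 0 ≤ ⌊T⌋ := Int.floor_nonneg.2 (by linarith)
  have h1 : (((⌊T⌋ + 1 - -⌊T⌋).toNat : ℕ) : ℝ) = 2 * (⌊T⌋ : ℝ) + 1 := by
    have : ((⌊T⌋ + 1 - -⌊T⌋).toNat : ℤ) = 2 * ⌊T⌋ + 1 := by omega
    exact_mod_cast this
  rw [h1]
  have h2 : (⌊T⌋ : ℝ) ≤ T := Int.floor_le T
  linarith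

variable {Ω : Type*} [MeasurableSpace Ω] {P : Measure Ω} [IsProbabilityMeasure P] {M : ℝ}
  {ω : (Fin d → ℤ) → Ω → ℝ}

/-- Union bound over centres and energies. -/
lemma union_bad (h : IIDPotential P M ω) (R : ℕ) (ε lam : ℝ) (hε : 0 < ε) (hlam : 0 < lam)
    (p : ℕ) (hp : p ≠ 0) (W : ℝ) (hW0 : 0 ≤ W) (S : Finset (Fin d → ℤ)) (Es : Finset ℝ)
    (hW : ∀ E0 ∈ Es, (((2 * R + 1 : ℕ) : ℝ) ^ d)⁻¹ *
        ∑ k : Fin d → Fin (2 * R + 1), wt (en (2 * R + 1) k) E0 ε ≤ W) :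
    P (⋃ x0 ∈ S, ⋃ E0 ∈ Es, bad P ω R E0 ε lam x0) ≤
      ENNReal.ofReal (S.card * Es.card * ((64 * p * M ^ 2 * W * lam ^ 2 / ε) ^ p *
        ((2 * R + 1 : ℕ) : ℝ) ^ d)) := by
  set q : ℝ := (64 * p * M ^ 2 * W * lam ^ 2 / ε) ^ p * ((2 * R + 1 : ℕ) : ℝ) ^ d with hq
  have hq0 : 0 ≤ q := by positivity
  calc P (⋃ x0 ∈ S, ⋃ E0 ∈ Es, bad P ω R E0 ε lam x0)
      ≤ ∑ x0 ∈ S, P (⋃ E0 ∈ Es, bad P ω R E0 ε lam x0) := measure_biUnion_finset_le _ _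
    _ ≤ ∑ x0 ∈ S, ∑ E0 ∈ Es, P (bad P ω R E0 ε lam x0) :=
        Finset.sum_le_sum fun x0 _ => measure_biUnion_finset_le _ _
    _ ≤ ∑ _x0 ∈ S, ∑ _E0 ∈ Es, ENNReal.ofReal q :=
        Finset.sum_le_sum fun x0 _ => Finset.sum_le_sum fun E0 hE0 =>
          prob_bad h R E0 ε lam hε hlam x0 p hp W hW0 (hW E0 hE0)
    _ = ENNReal.ofReal (S.card * Es.card * q) := by
        have e1 : ENNReal.ofReal ((S.card : ℝ) * Es.card * q) =
            ENNReal.ofReal (S.card : ℝ) * ENNReal.ofReal (Es.card : ℝ) * ENNReal.ofReal q := by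
          rw [ENNReal.ofReal_mul (by positivity), ENNReal.ofReal_mul (by positivity)]
        rw [e1, Finset.sum_const, Finset.sum_const, nsmul_eq_mul, nsmul_eq_mul,
          ENNReal.ofReal_natCast, ENNReal.ofReal_natCast, mul_assoc]

/-- The total probability with the chosen parameters. -/
lemma total_bad (hd : 1 ≤ d) (h : IIDPotential P M ω) (A ρ lam : ℝ) (hA : 0 ≤ A) (hρ : 0 ≤ ρ)
    (K n0 : ℕ) (hn0 : 3 ^ d * (4 * d + 2 * ρ + 1) * (4 * d + 3) ^ d ≤ (2 : ℝ) ^ n0)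
    (h0 : 0 < lam) (h1 : lam ≤ 1 / 2) (Q : ℕ) (hQ : Q = K + K * d + 2 + 2 * d + n0)
    (ε : ℝ) (hεdef : ε = epsP A M Q lam) (hε1 : ε ≤ 1)
    (Es : Finset ℝ) (hEs : Es ⊆ net ρ ε ⌊(4 * d + 2 * ρ) / ε⌋₊)
    (hW : ∀ E0 ∈ Es, (((2 * RP d ε + 1 : ℕ) : ℝ) ^ d)⁻¹ *
        ∑ k : Fin d → Fin (2 * RP d ε + 1), wt (en (2 * RP d ε + 1) k) E0 ε ≤
          2 * A * log (1 / lam)) :
    P (⋃ x0 ∈ centres d ((1 / lam) ^ K), ⋃ E0 ∈ Es, bad P ω (RP d ε) E0 ε lam x0) ≤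
      ENNReal.ofReal (lam ^ K) := by
  have hl := log_lower h0 h1
  have hεpos : 0 < ε := by rw [hεdef]; exact eps_pos A M Q hA h0 h1
  have hQ1 : 1 ≤ Q := by omega
  obtain ⟨hp0, -, -⟩ := p_spec (lam := lam) Q hQ1 h0 h1
  obtain ⟨hR1, hR2, hR3, hR4⟩ := R_spec d hd ε hεpos hε1
  have hinvε : 1 / ε ≤ (1 / lam) ^ 2 := by
    rw [div_pow, one_pow]
    apply one_div_le_one_div_of_le (by positivity)
    rw [hεdef]
    exact eps_ge A M Q hA h0 h1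
  have hinv1 : 1 ≤ 1 / lam := by rw [le_div_iff₀ h0]; linarith
  refine (union_bad h (RP d ε) ε lam hεpos h0 (pP Q lam) hp0 (2 * A * log (1 / lam))
    (by positivity) _ _ hW).trans (ENNReal.ofReal_le_ofReal ?_)
  have b1 : ((centres d ((1 / lam) ^ K)).card : ℝ) ≤ (3 * (1 / lam) ^ K) ^ d :=
    centres_card _ (one_le_pow₀ hinv1)
  have b2 : (Es.card : ℝ) ≤ (4 * d + 2 * ρ + 1) * (1 / lam) ^ 2 := by
    have h2 : (Es.card : ℝ) ≤ (⌊(4 * d + 2 * ρ) / ε⌋₊ : ℕ) + 1 := by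
      have := (card_le_card hEs).trans (net_card ρ ε ⌊(4 * d + 2 * ρ) / ε⌋₊)
      exact_mod_cast this
    have h3 : ((⌊(4 * d + 2 * ρ) / ε⌋₊ : ℕ) : ℝ) ≤ (4 * d + 2 * ρ) / ε :=
      Nat.floor_le (by positivity)
    have h4 : (4 * d + 2 * ρ) / ε ≤ (4 * d + 2 * ρ) * (1 / lam) ^ 2 := by
      rw [div_eq_mul_one_div]
      exact mul_le_mul_of_nonneg_left hinvε (by positivity)
    have h5 : 1 ≤ (1 / lam) ^ 2 := one_le_pow₀ hinv1
    nlinarith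
  have b3 : (64 * (pP Q lam : ℕ) * M ^ 2 * (2 * A * log (1 / lam)) * lam ^ 2 / ε) ^
      (pP Q lam) ≤ lam ^ (K + K * d + 2 + 2 * d + n0) := by
    rw [hεdef, ← hQ]
    exact moment_small A M Q hA hQ1 h0 h1
  have b4 : ((2 * RP d ε + 1 : ℕ) : ℝ) ^ d ≤ ((4 * d + 3) * (1 / lam) ^ 2) ^ d := by
    apply pow_le_pow_left₀ (by positivity)
    refine hR4.trans ?_
    rw [div_eq_mul_one_div]
    exact mul_le_mul_of_nonneg_left hinvε (by positivity)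
  have c1 : 0 ≤ (64 * (pP Q lam : ℕ) * M ^ 2 * (2 * A * log (1 / lam)) * lam ^ 2 / ε) ^
      (pP Q lam) := by positivity
  calc ((centres d ((1 / lam) ^ K)).card : ℝ) * Es.card *
        ((64 * (pP Q lam : ℕ) * M ^ 2 * (2 * A * log (1 / lam)) * lam ^ 2 / ε) ^ (pP Q lam) *
          ((2 * RP d ε + 1 : ℕ) : ℝ) ^ d)
      ≤ ((3 * (1 / lam) ^ K) ^ d * ((4 * d + 2 * ρ + 1) * (1 / lam) ^ 2)) *
        (lam ^ (K + K * d + 2 + 2 * d + n0) * ((4 * d + 3) * (1 / lam) ^ 2) ^ d) := by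
        gcongr
    _ = (3 * (1 / lam) ^ K) ^ d * ((4 * d + 2 * ρ + 1) * (1 / lam) ^ 2) *
      (((4 * d + 3) * (1 / lam) ^ 2) ^ d * lam ^ (K + K * d + 2 + 2 * d + n0)) := by ring
    _ ≤ lam ^ K := prefactor d K n0 ρ h0 h1 hn0

end Pool.Agent.Helper2.AM
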