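import Pool.Agent.Helper2.AM.Sine

/-!
# Counting modes in an energy window
-/

open Finset Real

noncomputable section

namespace Pool.Agent.Helper2.AM

/-- A set of naturals of diameter at most `D` has at most `D + 1` elements. -/
lemma card_le_diam (A : Finset ℕ) (D : ℝ) (hD : 0 ≤ D)
    (h : ∀ k1 ∈ A, ∀ k2 ∈ A, k1 ≤ k2 → ((k2 : ℝ) - k1) ≤ D) : (A.card : ℝ) ≤ D + 1 := by
  rcases A.eq_empty_or_nonempty with rfl | hne
  · simp; linarith
  · have h1 : A ⊆ Finset.Icc (A.min' hne) (A.max' hne) := by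
      intro x hx
      rw [Finset.mem_Icc]
      exact ⟨A.min'_le x hx, A.le_max' x hx⟩
    have h2 := Finset.card_le_card h1
    rw [Nat.card_Icc] at h2
    have hle : A.min' hne ≤ A.max' hne := A.min'_le _ (A.max'_mem hne)
    have h3 := h _ (A.min'_mem hne) _ (A.max'_mem hne) hle
    have h4 : (A.card : ℝ) ≤ ((A.max' hne : ℕ) : ℝ) + 1 - (A.min' hne : ℕ) := by
      have : A.card + A.min' hne ≤ A.max' hne + 1 := by omega
      have : (A.card : ℝ) + (A.min' hne : ℕ) ≤ (A.max' hne : ℕ) + 1 := by exact_mod_cast this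
      linarith
    linarith

/-- Mean value bound for the cosine on `[0, π]`. -/
lemma cos_gap (M t1 t2 : ℝ) (h0 : 0 ≤ t1) (h12 : t1 ≤ t2) (h2 : t2 ≤ π)
    (hs1 : M ≤ sin t1) (hs2 : M ≤ sin t2) : M * (t2 - t1) ≤ cos t1 - cos t2 := by
  rcases h12.eq_or_lt with rfl | hlt
  · simp
  obtain ⟨c, hc, hc'⟩ := exists_deriv_eq_slope cos hlt continuous_cos.continuousOn
    differentiable_cos.differentiableOn
  rw [Real.deriv_cos] at hc'
  have hsin : M ≤ sin c := by
    have hconc := strictConcaveOn_sin_Icc.concaveOn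
    have hm := hconc.min_le_of_mem_Icc (x := t1) (y := t2) (z := c) ⟨h0, by linarith⟩
      ⟨by linarith, h2⟩ ⟨hc.1.le, hc.2.le⟩
    exact (le_min hs1 hs2).trans hm
  have h3 : cos t1 - cos t2 = sin c * (t2 - t1) := by
    rw [eq_div_iff (by linarith)] at hc'
    linarith
  rw [h3]
  exact mul_le_mul_of_nonneg_right hsin (by linarith)

/-- One-dimensional count. -/
lemma count_one (L : ℕ) (M a η : ℝ) (hM : 0 < M) (hη : 0 ≤ η) :
    ((univ.filter fun k : Fin L => M ≤ sn L k ∧ |2 * cos (th L k) - a| ≤ η).card : ℝ) ≤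
      η * L / (π * M) + 2 := by
  rcases Nat.eq_zero_or_pos L with rfl | hLpos
  · simp
  have hL : (0 : ℝ) < L := by exact_mod_cast hLpos
  set A := univ.filter fun k : Fin L => M ≤ sn L k ∧ |2 * cos (th L k) - a| ≤ η with hA
  set A1 := (A.filter fun k => th L k ≤ π).image (fun k : Fin L => (k : ℕ)) with hA1
  set A2 := (A.filter fun k => ¬ th L k ≤ π).image (fun k : Fin L => (k : ℕ)) with hA2
  have hD : 0 ≤ η * L / (2 * π * M) := by positivity
  have hthpos : ∀ k : Fin L, 0 ≤ th L k := by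
    intro k; unfold th; positivity
  have hthlt : ∀ k : Fin L, th L k ≤ 2 * π := by
    intro k
    unfold th
    rw [div_le_iff₀ hL]
    have : (k : ℝ) + 1 ≤ L := by exact_mod_cast k.2
    nlinarith [pi_pos]
  have hdiff : ∀ k1 k2 : Fin L, th L k2 - th L k1 = 2 * π * ((k2 : ℝ) - k1) / L := by
    intro k1 k2; unfold th; ring
  have hc1 : (A1.card : ℝ) ≤ η * L / (2 * π * M) + 1 := by
    apply card_le_diam _ _ hD
    intro m1 hm1 m2 hm2 hle
    rw [hA1, Finset.mem_image] at hm1 hm2
    obtain ⟨k1, hk1, rfl⟩ := hm1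
    obtain ⟨k2, hk2, rfl⟩ := hm2
    simp only [hA, mem_filter, mem_univ, true_and] at hk1 hk2
    obtain ⟨⟨hs1, hc1⟩, hp1⟩ := hk1
    obtain ⟨⟨hs2, hc2⟩, hp2⟩ := hk2
    have hle' : (k1 : ℝ) ≤ k2 := by exact_mod_cast hle
    have hth : th L k1 ≤ th L k2 := by
      have := hdiff k1 k2
      have h3 : 0 ≤ 2 * π * ((k2 : ℝ) - k1) / L := by
        apply div_nonneg _ hL.le
        apply mul_nonneg (by positivity)
        linarith
      linarith
    have e1 : sn L k1 = sin (th L k1) :=
      abs_of_nonneg (sin_nonneg_of_nonneg_of_le_pi (hthpos k1) hp1)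
    have e2 : sn L k2 = sin (th L k2) :=
      abs_of_nonneg (sin_nonneg_of_nonneg_of_le_pi (hthpos k2) hp2)
    have hg := cos_gap M _ _ (hthpos k1) hth hp2 (e1 ▸ hs1) (e2 ▸ hs2)
    have b1 := abs_le.1 hc1
    have b2 := abs_le.1 hc2
    rw [hdiff] at hg
    have h4 : M * (2 * π * ((k2 : ℝ) - k1) / L) ≤ η := by linarith
    rw [le_div_iff₀ (by positivity)]
    have h5 : M * (2 * π * ((k2 : ℝ) - k1) / L) * L = ((k2 : ℝ) - k1) * (2 * π * M) := by
      field_simp
    nlinarith
  have hc2 : (A2.card : ℝ) ≤ η * L / (2 * π * M) + 1 := by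
    apply card_le_diam _ _ hD
    intro m1 hm1 m2 hm2 hle
    rw [hA2, Finset.mem_image] at hm1 hm2
    obtain ⟨k1, hk1, rfl⟩ := hm1
    obtain ⟨k2, hk2, rfl⟩ := hm2
    simp only [hA, mem_filter, mem_univ, true_and, not_le] at hk1 hk2
    obtain ⟨⟨hs1, hc1⟩, hp1⟩ := hk1
    obtain ⟨⟨hs2, hc2⟩, hp2⟩ := hk2
    have hle' : (k1 : ℝ) ≤ k2 := by exact_mod_cast hle
    have hth : th L k1 ≤ th L k2 := by
      have := hdiff k1 k2
      have h3 : 0 ≤ 2 * π * ((k2 : ℝ) - k1) / L := by
        apply div_nonneg _ hL.le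
        apply mul_nonneg (by positivity)
        linarith
      linarith
    have f1 : 0 ≤ 2 * π - th L k1 := by linarith [hthlt k1]
    have f2 : 0 ≤ 2 * π - th L k2 := by linarith [hthlt k2]
    have e1 : sn L k1 = sin (2 * π - th L k1) := by
      rw [sin_two_pi_sub, sn, ← abs_neg, ← sin_two_pi_sub]
      exact abs_of_nonneg (sin_nonneg_of_nonneg_of_le_pi f1 (by linarith))
    have e2 : sn L k2 = sin (2 * π - th L k2) := by
      rw [sin_two_pi_sub, sn, ← abs_neg, ← sin_two_pi_sub]
      exact abs_of_nonneg (sin_nonneg_of_nonneg_of_le_pi f2 (by linarith))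
    have hg := cos_gap M _ _ f2 (by linarith) (by linarith) (e2 ▸ hs2) (e1 ▸ hs1)
    rw [cos_two_pi_sub, cos_two_pi_sub] at hg
    have b1 := abs_le.1 hc1
    have b2 := abs_le.1 hc2
    have e3 : 2 * π - th L k1 - (2 * π - th L k2) = 2 * π * ((k2 : ℝ) - k1) / L := by
      rw [← hdiff]; ring
    rw [e3] at hg
    have h4 : M * (2 * π * ((k2 : ℝ) - k1) / L) ≤ η := by linarith
    rw [le_div_iff₀ (by positivity)]
    have h5 : M * (2 * π * ((k2 : ℝ) - k1) / L) * L = ((k2 : ℝ) - k1) * (2 * π * M) := by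
      field_simp
    nlinarith
  have hcard : A.card = A1.card + A2.card := by
    rw [hA1, hA2, Finset.card_image_of_injective _ Fin.val_injective,
      Finset.card_image_of_injective _ Fin.val_injective]
    exact (Finset.card_filter_add_card_filter_not _).symm
  rw [hcard]
  push_cast
  have e : η * L / (π * M) = η * L / (2 * π * M) + η * L / (2 * π * M) := by
    field_simp
    ring
  rw [e]
  linarith

/-- The symbol of the discrete Laplacian. -/
def en {d : ℕ} (L : ℕ) (k : Fin d → Fin L) : ℝ := ∑ j, (2 - 2 * cos (th L (k j)))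

/-- Counting modes with `|e(k) - E| ≤ η` in dimension `n + 2 ≥ 3`, the dimension being written
`m + 3`. -/
lemma count_window (m L : ℕ) (E η : ℝ) (hη : 0 ≤ η) (hηL : 1 ≤ η * L) :
    ((univ.filter fun k : Fin (m + 3) → Fin L => |en L k - E| ≤ η).card : ℝ) ≤
      (m + 3) * (12 ^ (m + 2) + 2) * η * L ^ (m + 3) := by
  have hL : (0 : ℝ) < L := by
    rcases Nat.eq_zero_or_pos L with rfl | h
    · simp at hηL; linarith
    · exact_mod_cast h
  -- reduce to the coordinate with largest sine
  have hcov : (univ.filter fun k : Fin (m + 3) → Fin L => |en L k - E| ≤ η) ⊆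
      univ.biUnion fun j : Fin (m + 3) => univ.filter fun k : Fin (m + 3) → Fin L =>
        |en L k - E| ≤ η ∧ ∀ i, sn L (k i) ≤ sn L (k j) := by
    intro k hk
    rw [mem_filter] at hk
    obtain ⟨j, -, hj⟩ := Finset.exists_max_image (univ : Finset (Fin (m + 3)))
      (fun i => sn L (k i)) ⟨0, mem_univ _⟩
    rw [mem_biUnion]
    exact ⟨j, mem_univ _, by
      rw [mem_filter]
      exact ⟨mem_univ _, hk.2, fun i => hj i (mem_univ _)⟩⟩
  have hone : ∀ j : Fin (m + 3), ((univ.filter fun k : Fin (m + 3) → Fin L =>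
        |en L k - E| ≤ η ∧ ∀ i, sn L (k i) ≤ sn L (k j)).card : ℝ) ≤
      (12 ^ (m + 2) + 2) * η * L ^ (m + 3) := by
    intro j
    -- slice
    have hslice : ((univ.filter fun k : Fin (m + 3) → Fin L =>
        |en L k - E| ≤ η ∧ ∀ i, sn L (k i) ≤ sn L (k j)).card : ℝ) =
        ∑ k' : Fin (m + 2) → Fin L, ((univ.filter fun t : Fin L =>
          |en L (j.insertNth t k' : Fin (m + 3) → Fin L) - E| ≤ η ∧
            ∀ i, sn L ((j.insertNth t k' : Fin (m + 3) → Fin L) i) ≤ sn L t).card : ℝ) := by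
      rw [Finset.card_filter]
      push_cast
      rw [← (Fin.insertNthEquiv (fun _ : Fin (m + 3) => Fin L) j).sum_comp, Fintype.sum_prod_type,
        Finset.sum_comm]
      refine sum_congr rfl fun k' _ => ?_
      rw [Finset.card_filter]
      push_cast
      refine sum_congr rfl fun t _ => ?_
      simp [Fin.insertNthEquiv]
    rw [hslice]
    have hb : ∀ k' : Fin (m + 2) → Fin L, ((univ.filter fun t : Fin L =>
          |en L (j.insertNth t k' : Fin (m + 3) → Fin L) - E| ≤ η ∧
            ∀ i, sn L ((j.insertNth t k' : Fin (m + 3) → Fin L) i) ≤ sn L t).card : ℝ) ≤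
        η * L * ∏ i, (1 / √(sn L (k' i))) + 2 := by
      intro k'
      set M : ℝ := √(sn L (k' 0)) * √(sn L (k' 1)) with hM
      have p0 : 0 < √(sn L (k' 0)) := sqrt_pos.2 (sn_pos L _)
      have p1 : 0 < √(sn L (k' 1)) := sqrt_pos.2 (sn_pos L _)
      have hMpos : 0 < M := mul_pos p0 p1
      have hsub : (univ.filter fun t : Fin L =>
          |en L (j.insertNth t k' : Fin (m + 3) → Fin L) - E| ≤ η ∧
            ∀ i, sn L ((j.insertNth t k' : Fin (m + 3) → Fin L) i) ≤ sn L t) ⊆
          univ.filter fun t : Fin L => M ≤ sn L t ∧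
            |2 * cos (th L t) - (2 + ∑ i, (2 - 2 * cos (th L (k' i))) - E)| ≤ η := by
        intro t ht
        rw [mem_filter] at ht ⊢
        obtain ⟨-, h1, h2⟩ := ht
        refine ⟨mem_univ _, ?_, ?_⟩
        · have a0 := h2 (j.succAbove 0)
          have a1 := h2 (j.succAbove 1)
          rw [Fin.insertNth_apply_succAbove] at a0 a1
          rw [hM]
          calc √(sn L (k' 0)) * √(sn L (k' 1)) ≤ √(sn L t) * √(sn L t) :=
                mul_le_mul (sqrt_le_sqrt a0) (sqrt_le_sqrt a1) p1.le (sqrt_nonneg _)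
            _ = sn L t := mul_self_sqrt (sn_pos L t).le
        · have e : en L (j.insertNth t k' : Fin (m + 3) → Fin L) =
              (2 - 2 * cos (th L t)) + ∑ i, (2 - 2 * cos (th L (k' i))) := by
            unfold en
            rw [Fin.sum_univ_succAbove _ j]
            simp only [Fin.insertNth_apply_same, Fin.insertNth_apply_succAbove]
          rw [e] at h1
          rw [← abs_neg]
          convert h1 using 2
          ring
      have h1 : ((univ.filter fun t : Fin L =>
          |en L (j.insertNth t k' : Fin (m + 3) → Fin L) - E| ≤ η ∧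
            ∀ i, sn L ((j.insertNth t k' : Fin (m + 3) → Fin L) i) ≤ sn L t).card : ℝ) ≤
          η * L / (π * M) + 2 := by
        refine le_trans ?_ (count_one L M (2 + ∑ i, (2 - 2 * cos (th L (k' i))) - E) η hMpos hη)
        exact_mod_cast Finset.card_le_card hsub
      refine h1.trans ?_
      have hprod : 1 / M ≤ ∏ i, (1 / √(sn L (k' i))) := by
        rw [Fin.prod_univ_succ, Fin.prod_univ_succ, ← mul_assoc]
        have e : (1 / √(sn L (k' 0))) * (1 / √(sn L (k' (Fin.succ 0)))) = 1 / M := by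
          rw [hM, show (Fin.succ 0 : Fin (m + 2)) = 1 from rfl]
          field_simp
        rw [e]
        refine le_mul_of_one_le_right (by positivity) ?_
        have hone' : ∀ i : Fin m, (1 : ℝ) ≤ 1 / √(sn L (k' (Fin.succ (Fin.succ i)))) := by
          intro i
          have : √(sn L (k' (Fin.succ (Fin.succ i)))) ≤ 1 := by
            rw [sqrt_le_one]
            exact sn_le_one _ _
          exact (one_le_div (sqrt_pos.2 (sn_pos L _))).2 this
        calc (1 : ℝ) = ∏ _i : Fin m, (1 : ℝ) := by simp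
          _ ≤ _ := Finset.prod_le_prod (fun i _ => zero_le_one) (fun i _ => hone' i)
      have h3 : η * L / (π * M) ≤ η * L * (1 / M) := by
        have hpi : (1 : ℝ) ≤ π := by linarith [pi_gt_three]
        have : η * L / (π * M) = (η * L * (1 / M)) / π := by field_simp
        rw [this]
        exact div_le_self (by positivity) hpi
      have h4 : η * L * (1 / M) ≤ η * L * ∏ i, (1 / √(sn L (k' i))) :=
        mul_le_mul_of_nonneg_left hprod (by positivity)
      linarith
    have hsum : ∑ k' : Fin (m + 2) → Fin L, (η * L * ∏ i, (1 / √(sn L (k' i))) + 2) =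
        η * L * (∑ t : Fin L, 1 / √(sn L t)) ^ (m + 2) + 2 * L ^ (m + 2) := by
      rw [sum_add_distrib, ← mul_sum]
      congr 1
      · congr 1
        have := Finset.prod_univ_sum (fun _ : Fin (m + 2) => (univ : Finset (Fin L)))
          (fun _ t => 1 / √(sn L t))
        rw [Finset.prod_const, Finset.card_univ, Fintype.card_fin, Fintype.piFinset_univ] at this
        exact this.symm
      · rw [sum_const, card_univ]
        simp [mul_comm]
    calc ∑ k' : Fin (m + 2) → Fin L, ((univ.filter fun t : Fin L =>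
          |en L (j.insertNth t k' : Fin (m + 3) → Fin L) - E| ≤ η ∧
            ∀ i, sn L ((j.insertNth t k' : Fin (m + 3) → Fin L) i) ≤ sn L t).card : ℝ)
        ≤ ∑ k' : Fin (m + 2) → Fin L, (η * L * ∏ i, (1 / √(sn L (k' i))) + 2) :=
          sum_le_sum fun k' _ => hb k'
      _ = η * L * (∑ t : Fin L, 1 / √(sn L t)) ^ (m + 2) + 2 * L ^ (m + 2) := hsum
      _ ≤ η * L * (12 * L) ^ (m + 2) + 2 * L ^ (m + 2) := by
          have : (∑ t : Fin L, 1 / √(sn L t)) ^ (m + 2) ≤ (12 * (L : ℝ)) ^ (m + 2) := by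
            apply pow_le_pow_left₀ _ (sum_inv_sqrt_sn L)
            exact sum_nonneg fun t _ => by positivity
          have h0 : 0 ≤ η * L := by positivity
          nlinarith [mul_le_mul_of_nonneg_left this h0]
      _ ≤ η * L * (12 * L) ^ (m + 2) + 2 * (η * L) * L ^ (m + 2) := by
          have : (0 : ℝ) ≤ L ^ (m + 2) := by positivity
          nlinarith
      _ = (12 ^ (m + 2) + 2) * η * L ^ (m + 3) := by ring
  calc ((univ.filter fun k : Fin (m + 3) → Fin L => |en L k - E| ≤ η).card : ℝ)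
      ≤ ((univ.biUnion fun j : Fin (m + 3) => univ.filter fun k : Fin (m + 3) → Fin L =>
        |en L k - E| ≤ η ∧ ∀ i, sn L (k i) ≤ sn L (k j)).card : ℝ) := by
        exact_mod_cast Finset.card_le_card hcov
    _ ≤ ∑ j : Fin (m + 3), ((univ.filter fun k : Fin (m + 3) → Fin L =>
        |en L k - E| ≤ η ∧ ∀ i, sn L (k i) ≤ sn L (k j)).card : ℝ) := by
        exact_mod_cast Finset.card_biUnion_le
    _ ≤ ∑ _j : Fin (m + 3), (12 ^ (m + 2) + 2) * η * L ^ (m + 3) :=
        sum_le_sum fun j _ => hone j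
    _ = _ := by
        rw [sum_const, card_univ, Fintype.card_fin, nsmul_eq_mul]
        push_cast
        ring

end Pool.Agent.Helper2.AM
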