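import Pool.Agent.Helper2.AM.Four

/-!
# The deterministic resolvent argument
-/

open Finset Real Matrix
open scoped ComplexOrder

noncomputable section

set_option linter.unusedSectionVars false

namespace Pool.Agent.Helper2.AM

variable {d : ℕ}

/-- The `ℓ²` norm of a function on the lattice. -/
def l2 (ψ : (Fin d → ℤ) → ℂ) : ℝ := √(∑' x, ‖ψ x‖ ^ 2)

/-- Tent function. -/
def cut (R : ℕ) (y : Fin d → ℤ) : ℝ := max 0 (1 - ‖y‖ / R)

lemma cut_zero (R : ℕ) : cut R (0 : Fin d → ℤ) = 1 := by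
  simp [cut]

lemma cut_nonneg (R : ℕ) (y : Fin d → ℤ) : 0 ≤ cut R y := le_max_left _ _

lemma cut_le_one (R : ℕ) (y : Fin d → ℤ) : cut R y ≤ 1 := by
  unfold cut
  apply max_le zero_le_one
  have : 0 ≤ ‖y‖ / (R : ℝ) := by positivity
  linarith

lemma cut_lip (R : ℕ) (hR : 1 ≤ R) (x y : Fin d → ℤ) : |cut R x - cut R y| ≤ ‖x - y‖ / R := by
  have hR' : (0 : ℝ) < R := by exact_mod_cast hR
  unfold cut
  refine (abs_max_sub_max_le_max _ _ _ _).trans ?_
  rw [sub_self, abs_zero]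
  apply max_le (by positivity)
  have e : 1 - ‖x‖ / (R : ℝ) - (1 - ‖y‖ / R) = -((‖x‖ - ‖y‖) / R) := by ring
  rw [e, abs_neg, abs_div, abs_of_pos hR']
  gcongr
  exact abs_norm_sub_norm_le x y

lemma cut_support (R : ℕ) (hR : 1 ≤ R) (y : Fin d → ℤ) (h : cut R y ≠ 0) (j : Fin d) :
    |y j| ≤ (R : ℤ) - 1 := by
  have hR' : (0 : ℝ) < R := by exact_mod_cast hR
  have h1 : 0 < 1 - ‖y‖ / R := by
    by_contra hcon
    push Not at hcon
    exact h (max_eq_left hcon)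
  have h2 : ‖y‖ < R := by
    have : ‖y‖ / R < 1 := by linarith
    rwa [div_lt_one hR'] at this
  have h3 : ‖y j‖ ≤ ‖y‖ := norm_le_pi_norm y j
  have h4 : ‖y j‖ < R := lt_of_le_of_lt h3 h2
  rw [Int.norm_eq_abs] at h4
  have h5 : |y j| < (R : ℤ) := by exact_mod_cast h4
  omega

lemma norm_single_le (j : Fin d) (e : ℤ) (he : |e| ≤ 1) : ‖(Pi.single j e : Fin d → ℤ)‖ ≤ 1 := by
  rw [pi_norm_le_iff_of_nonneg zero_le_one]
  intro i
  by_cases hij : i = j
  · subst hij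
    rw [Pi.single_eq_same, Int.norm_eq_abs]
    exact_mod_cast he
  · rw [Pi.single_eq_of_ne hij]
    simp

/-- The norm of the restriction to the box. -/
def nb (R : ℕ) (F : (Fin d → ℤ) → ℂ) : ℝ :=
  ‖(WithLp.toLp 2 (fun x : Fin d → Fin (2 * R + 1) => F (pos R x)) :
    EuclideanSpace ℂ (Fin d → Fin (2 * R + 1)))‖

lemma nb_sq (R : ℕ) (F : (Fin d → ℤ) → ℂ) :
    nb R F ^ 2 = ∑ x : Fin d → Fin (2 * R + 1), ‖F (pos R x)‖ ^ 2 := by
  unfold nb
  rw [EuclideanSpace.norm_sq_eq]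

lemma nb_nonneg (R : ℕ) (F : (Fin d → ℤ) → ℂ) : 0 ≤ nb R F := norm_nonneg _

lemma nb_add_le (R : ℕ) (F G : (Fin d → ℤ) → ℂ) :
    nb R (fun y => F y + G y) ≤ nb R F + nb R G := norm_add_le
      (WithLp.toLp 2 (fun x : Fin d → Fin (2 * R + 1) => F (pos R x)) :
        EuclideanSpace ℂ (Fin d → Fin (2 * R + 1)))
      (WithLp.toLp 2 (fun x : Fin d → Fin (2 * R + 1) => G (pos R x)))

lemma nb_sum_le {ι : Type*} (s : Finset ι) (R : ℕ) (F : ι → (Fin d → ℤ) → ℂ) :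
    nb R (fun y => ∑ i ∈ s, F i y) ≤ ∑ i ∈ s, nb R (F i) := by
  classical
  induction s using Finset.induction_on with
  | empty =>
    simp only [Finset.sum_empty]
    have h : nb R (fun _ : Fin d → ℤ => (0 : ℂ)) ^ 2 = 0 := by
      rw [nb_sq]; simp
    rw [pow_eq_zero_iff two_ne_zero] at h
    exact h.le
  | insert i s hi ih =>
    simp_rw [Finset.sum_insert hi]
    exact (nb_add_le R (F i) (fun y => ∑ i ∈ s, F i y)).trans (by linarith)

lemma nb_le_of_le (R : ℕ) (F G : (Fin d → ℤ) → ℂ) (c : ℝ) (hc : 0 ≤ c)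
    (h : ∀ y, ‖F y‖ ≤ c * ‖G y‖) : nb R F ≤ c * nb R G := by
  apply le_of_sq_le_sq _ (mul_nonneg hc (nb_nonneg R G))
  rw [mul_pow, nb_sq, nb_sq, Finset.mul_sum]
  refine Finset.sum_le_sum fun x _ => ?_
  rw [← mul_pow]
  exact pow_le_pow_left₀ (norm_nonneg _) (h _) 2

lemma nb_shift_le_l2 (R : ℕ) (ψ : (Fin d → ℤ) → ℂ) (hψ : Summable fun x => ‖ψ x‖ ^ 2)
    (s : Fin d → ℤ) : nb R (fun y => ψ (y + s)) ≤ l2 ψ := by
  unfold l2
  apply le_sqrt_of_sq_le
  rw [nb_sq, ← tsum_fintype (L := .unconditional _)]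
  exact tsum_comp_le_tsum_of_inj (i := fun x : Fin d → Fin (2 * R + 1) => pos R x + s) hψ
    (fun _ => by positivity) (fun x y h => pos_injective R (add_right_cancel h))

lemma nb_le_l2 (R : ℕ) (ψ : (Fin d → ℤ) → ℂ) (hψ : Summable fun x => ‖ψ x‖ ^ 2) :
    nb R ψ ≤ l2 ψ := by
  have := nb_shift_le_l2 R ψ hψ 0
  simpa using this

/-- The truncated function. -/
def trunc (R : ℕ) (ψ : (Fin d → ℤ) → ℂ) (y : Fin d → ℤ) : ℂ := (cut R y : ℂ) * ψ y

lemma trunc_sup (R : ℕ) (hR : 1 ≤ R) (ψ : (Fin d → ℤ) → ℂ) : Sup ((R : ℤ) - 1) (trunc R ψ) := by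
  intro y hy j
  apply cut_support R hR y _ j
  intro h
  apply hy
  simp [trunc, h]

/-- Commutator identity. -/
lemma schr_trunc (R : ℕ) (V : (Fin d → ℤ) → ℝ) (E : ℝ) (ψ : (Fin d → ℤ) → ℂ) (y : Fin d → ℤ) :
    schr V (trunc R ψ) y - E * trunc R ψ y = (cut R y : ℂ) * (schr V ψ y - E * ψ y) +
      ∑ j : Fin d, (((cut R y - cut R (y + Pi.single j 1) : ℝ) : ℂ) * ψ (y + Pi.single j 1) +
        ((cut R y - cut R (y + Pi.single j (-1)) : ℝ) : ℂ) * ψ (y + Pi.single j (-1))) := by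
  unfold schr trunc
  have h : ∀ j : Fin d, y - Pi.single j 1 = y + Pi.single j (-1) := by
    intro j; rw [Pi.single_neg, sub_eq_add_neg]
  simp_rw [h]
  have e : ∑ j : Fin d, (((cut R y - cut R (y + Pi.single j 1) : ℝ) : ℂ) *
      ψ (y + Pi.single j 1) +
        ((cut R y - cut R (y + Pi.single j (-1)) : ℝ) : ℂ) * ψ (y + Pi.single j (-1))) =
      (∑ j : Fin d, (2 * ((cut R y : ℂ) * ψ y) - (cut R (y + Pi.single j 1) : ℂ) *
        ψ (y + Pi.single j 1) - (cut R (y + Pi.single j (-1)) : ℂ) * ψ (y + Pi.single j (-1)))) -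
      (cut R y : ℂ) * ∑ j : Fin d, (2 * ψ y - ψ (y + Pi.single j 1) -
        ψ (y + Pi.single j (-1))) := by
    rw [Finset.mul_sum, ← Finset.sum_sub_distrib]
    refine Finset.sum_congr rfl fun j _ => ?_
    push_cast
    ring
  rw [e]
  ring

lemma nb_defect (R : ℕ) (hR : 1 ≤ R) (V : (Fin d → ℤ) → ℝ) (E : ℝ) (ψ : (Fin d → ℤ) → ℂ)
    (hψ : Summable fun x => ‖ψ x‖ ^ 2) (hHψ : Summable fun x => ‖schr V ψ x - E * ψ x‖ ^ 2) :
    nb R (fun y => schr V (trunc R ψ) y - E * trunc R ψ y) ≤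
      l2 (fun x => schr V ψ x - E * ψ x) + 2 * d / R * l2 ψ := by
  have hR' : (0 : ℝ) < R := by exact_mod_cast hR
  simp_rw [schr_trunc]
  refine (nb_add_le R _ _).trans ?_
  have h1 : nb R (fun y => (cut R y : ℂ) * (schr V ψ y - E * ψ y)) ≤
      l2 (fun x => schr V ψ x - E * ψ x) := by
    have := nb_le_of_le R (fun y => (cut R y : ℂ) * (schr V ψ y - E * ψ y))
      (fun y => schr V ψ y - E * ψ y) 1 zero_le_one (fun y => by
        rw [norm_mul, Complex.norm_real, Real.norm_eq_abs, abs_of_nonneg (cut_nonneg R y)]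
        exact mul_le_mul_of_nonneg_right (cut_le_one R y) (norm_nonneg _))
    rw [one_mul] at this
    exact this.trans (nb_le_l2 R _ hHψ)
  have h2 : ∀ (j : Fin d) (e : ℤ), |e| ≤ 1 → nb R (fun y => ((cut R y -
      cut R (y + Pi.single j e) : ℝ) : ℂ) * ψ (y + Pi.single j e)) ≤ 1 / R * l2 ψ := by
    intro j e he
    refine (nb_le_of_le R _ (fun y => ψ (y + Pi.single j e)) (1 / R) (by positivity)
      (fun y => ?_)).trans ?_
    · rw [norm_mul, Complex.norm_real, Real.norm_eq_abs]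
      apply mul_le_mul_of_nonneg_right _ (norm_nonneg _)
      refine (cut_lip R hR _ _).trans ?_
      gcongr
      have : y - (y + Pi.single j e) = -(Pi.single j e : Fin d → ℤ) := by abel
      rw [this, norm_neg]
      exact norm_single_le j e he
    · exact mul_le_mul_of_nonneg_left (nb_shift_le_l2 R ψ hψ _) (by positivity)
  have h3 : nb R (fun y => ∑ j : Fin d, (((cut R y - cut R (y + Pi.single j 1) : ℝ) : ℂ) *
      ψ (y + Pi.single j 1) + ((cut R y - cut R (y + Pi.single j (-1)) : ℝ) : ℂ) *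
      ψ (y + Pi.single j (-1)))) ≤ ∑ _j : Fin d, (1 / R * l2 ψ + 1 / R * l2 ψ) := by
    refine (nb_sum_le univ R _).trans (Finset.sum_le_sum fun j _ => ?_)
    exact (nb_add_le R _ _).trans (add_le_add (h2 j 1 (by simp)) (h2 j (-1) (by simp)))
  rw [Finset.sum_const, card_univ, Fintype.card_fin, nsmul_eq_mul] at h3
  calc nb R (fun y => (cut R y : ℂ) * (schr V ψ y - E * ψ y)) + _
      ≤ l2 (fun x => schr V ψ x - E * ψ x) + d * (1 / R * l2 ψ + 1 / R * l2 ψ) :=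
        add_le_add h1 h3
    _ = _ := by ring

end Pool.Agent.Helper2.AM
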