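import Pool.Agent.Helper2.AM.MainLoc
import Pool.Agent.Helper2.LL.Plancherel

/-!
# From approximate eigenfunctions to solutions of the Schrödinger equation
-/

open Finset Real Matrix MeasureTheory FourierTransform
open scoped ComplexOrder ENNReal ContDiff

noncomputable section

set_option linter.unusedSectionVars false

namespace Pool.Agent.Helper2.AM

variable {d : ℕ}

/-! ### Linearity of the Fourier transform -/

lemma ft_int (f : ℝ → ℂ) (hf : Integrable f) (k : ℝ) :
    Integrable (fun v : ℝ => 𝐞 (-(v * k)) • f v) := by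
  have := (Real.fourierIntegral_convergent_iff (f := f) k).2 hf
  simp_rw [mul_comm _ k]
  exact this

lemma ft_add (f g : ℝ → ℂ) (hf : Integrable f) (hg : Integrable g) (k : ℝ) :
    𝓕 (fun t => f t + g t) k = 𝓕 f k + 𝓕 g k := by
  rw [fourier_real_eq, fourier_real_eq, fourier_real_eq]
  simp only [smul_add]
  exact integral_add (ft_int f hf k) (ft_int g hg k)

lemma ft_smul (c : ℂ) (f : ℝ → ℂ) (k : ℝ) : 𝓕 (fun t => c * f t) k = c * 𝓕 f k := by
  rw [fourier_real_eq, fourier_real_eq, ← integral_const_mul]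
  refine integral_congr_ae (Filter.Eventually.of_forall fun t => ?_)
  simp only
  rw [Circle.smul_def, Circle.smul_def, smul_eq_mul, smul_eq_mul]
  ring

lemma ft_sum {ι : Type*} (s : Finset ι) (f : ι → ℝ → ℂ) (hf : ∀ i, Integrable (f i)) (k : ℝ) :
    𝓕 (fun t => ∑ i ∈ s, f i t) k = ∑ i ∈ s, 𝓕 (f i) k := by
  classical
  induction s using Finset.induction_on with
  | empty =>
    simp only [Finset.sum_empty]
    rw [fourier_real_eq]
    simp
  | insert i s hi ih =>
    simp_rw [Finset.sum_insert hi]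
    rw [ft_add _ _ (hf i) (integrable_finsetSum s fun i _ => hf i), ih]

/-- The time cut-off. -/
def gcut (t0 t1 τ t : ℝ) : ℝ :=
  Real.smoothTransition ((t - t0) / τ + 1) * Real.smoothTransition ((t1 - t) / τ + 1)

lemma gcut_diff (t0 t1 τ : ℝ) : ContDiff ℝ 1 (gcut t0 t1 τ) := by
  unfold gcut
  have h : ContDiff ℝ 1 Real.smoothTransition := Real.smoothTransition.contDiff
  apply ContDiff.mul
  · exact h.comp (by fun_prop)
  · exact h.comp (by fun_prop)

lemma gcut_one (t0 t1 τ : ℝ) (hτ : 0 < τ) (t : ℝ) (h0 : t0 ≤ t) (h1 : t ≤ t1) :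
    gcut t0 t1 τ t = 1 := by
  unfold gcut
  rw [Real.smoothTransition.one_of_one_le, Real.smoothTransition.one_of_one_le, one_mul]
  · have : 0 ≤ (t1 - t) / τ := div_nonneg (by linarith) hτ.le
    linarith
  · have : 0 ≤ (t - t0) / τ := div_nonneg (by linarith) hτ.le
    linarith

lemma gcut_zero (t0 t1 τ : ℝ) (hτ : 0 < τ) (t : ℝ) (h : t ≤ t0 - τ ∨ t1 + τ ≤ t) :
    gcut t0 t1 τ t = 0 := by
  unfold gcut
  rcases h with h | h
  · rw [Real.smoothTransition.zero_of_nonpos, zero_mul]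
    have : (t - t0) / τ ≤ -1 := by
      rw [div_le_iff₀ hτ]; linarith
    linarith
  · rw [Real.smoothTransition.zero_of_nonpos (x := (t1 - t) / τ + 1), mul_zero]
    have : (t1 - t) / τ ≤ -1 := by
      rw [div_le_iff₀ hτ]; linarith
    linarith

lemma gcut_nonneg (t0 t1 τ t : ℝ) : 0 ≤ gcut t0 t1 τ t :=
  mul_nonneg (Real.smoothTransition.nonneg _) (Real.smoothTransition.nonneg _)

lemma gcut_le_one (t0 t1 τ t : ℝ) : gcut t0 t1 τ t ≤ 1 := by
  unfold gcut
  calc _ ≤ (1 : ℝ) * 1 := mul_le_mul (Real.smoothTransition.le_one _)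
        (Real.smoothTransition.le_one _) (Real.smoothTransition.nonneg _) zero_le_one
    _ = 1 := one_mul 1

/-- A bound for the derivative of the smooth transition. -/
lemma exists_c0 : ∃ c0 : ℝ, 0 < c0 ∧ ∀ t, |deriv Real.smoothTransition t| ≤ c0 := by
  have hd : ContDiff ℝ 1 Real.smoothTransition := Real.smoothTransition.contDiff
  have hc : Continuous (deriv Real.smoothTransition) := hd.continuous_deriv le_rfl
  obtain ⟨C, hC⟩ := (isCompact_Icc (a := (-1 : ℝ)) (b := 2)).exists_bound_of_continuousOn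
    hc.continuousOn
  refine ⟨max C 1, by positivity, ?_⟩
  intro t
  by_cases ht : t ∈ Set.Icc (-1 : ℝ) 2
  · exact (hC t ht).trans (le_max_left _ _)
  · rw [Set.mem_Icc, not_and_or, not_le, not_le] at ht
    have h0 : deriv Real.smoothTransition t = 0 := by
      rcases ht with h | h
      · have : Real.smoothTransition =ᶠ[nhds t] fun _ => 0 := by
          filter_upwards [Iio_mem_nhds (show t < 0 by linarith)] with u hu
          exact Real.smoothTransition.zero_of_nonpos (le_of_lt hu)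
        rw [this.deriv_eq]
        simp
      · have : Real.smoothTransition =ᶠ[nhds t] fun _ => 1 := by
          filter_upwards [Ioi_mem_nhds (show 1 < t by linarith)] with u hu
          exact Real.smoothTransition.one_of_one_le (le_of_lt hu)
        rw [this.deriv_eq]
        simp
    rw [h0, abs_zero]
    positivity

lemma gcut_deriv (c0 : ℝ) (hc0 : ∀ t, |deriv Real.smoothTransition t| ≤ c0) (t0 t1 τ : ℝ)
    (hτ : 0 < τ) (t : ℝ) : |deriv (gcut t0 t1 τ) t| ≤ 2 * c0 / τ := by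
  have hd : Differentiable ℝ Real.smoothTransition :=
    (Real.smoothTransition.contDiff (n := 1)).differentiable (by norm_num)
  have h1 : HasDerivAt (fun t => Real.smoothTransition ((t - t0) / τ + 1))
      (deriv Real.smoothTransition ((t - t0) / τ + 1) * (1 / τ)) t := by
    have e1 : HasDerivAt (fun t : ℝ => (t - t0) / τ + 1) (1 / τ) t :=
      (((hasDerivAt_id t).sub_const t0).div_const τ).add_const 1
    exact (hd _).hasDerivAt.comp t e1
  have h2 : HasDerivAt (fun t => Real.smoothTransition ((t1 - t) / τ + 1))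
      (deriv Real.smoothTransition ((t1 - t) / τ + 1) * (-1 / τ)) t := by
    have e1 : HasDerivAt (fun t : ℝ => (t1 - t) / τ + 1) (-1 / τ) t :=
      (((hasDerivAt_id t).const_sub t1).div_const τ).add_const 1
    exact (hd _).hasDerivAt.comp t e1
  have h3 := (h1.mul h2).deriv
  have h4 : deriv (gcut t0 t1 τ) t = deriv Real.smoothTransition ((t - t0) / τ + 1) * (1 / τ) *
      Real.smoothTransition ((t1 - t) / τ + 1) + Real.smoothTransition ((t - t0) / τ + 1) *
      (deriv Real.smoothTransition ((t1 - t) / τ + 1) * (-1 / τ)) := h3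
  rw [h4]
  have c0n : 0 ≤ c0 := (abs_nonneg _).trans (hc0 0)
  refine (abs_add_le _ _).trans ?_
  have a1 : |deriv Real.smoothTransition ((t - t0) / τ + 1) * (1 / τ) *
      Real.smoothTransition ((t1 - t) / τ + 1)| ≤ c0 / τ := by
    rw [abs_mul, abs_mul, abs_of_nonneg (Real.smoothTransition.nonneg _),
      abs_of_pos (show 0 < 1 / τ by positivity)]
    calc |deriv Real.smoothTransition ((t - t0) / τ + 1)| * (1 / τ) *
        Real.smoothTransition ((t1 - t) / τ + 1) ≤ c0 * (1 / τ) * 1 := by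
          apply mul_le_mul _ (Real.smoothTransition.le_one _) (Real.smoothTransition.nonneg _)
            (by positivity)
          exact mul_le_mul_of_nonneg_right (hc0 _) (by positivity)
      _ = c0 / τ := by ring
  have a2 : |Real.smoothTransition ((t - t0) / τ + 1) *
      (deriv Real.smoothTransition ((t1 - t) / τ + 1) * (-1 / τ))| ≤ c0 / τ := by
    rw [abs_mul, abs_mul, abs_of_nonneg (Real.smoothTransition.nonneg _), neg_div, abs_neg,
      abs_of_pos (show 0 < 1 / τ by positivity)]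
    calc Real.smoothTransition ((t - t0) / τ + 1) *
        (|deriv Real.smoothTransition ((t1 - t) / τ + 1)| * (1 / τ)) ≤ 1 * (c0 * (1 / τ)) := by
          apply mul_le_mul (Real.smoothTransition.le_one _) _ (by positivity) zero_le_one
          exact mul_le_mul_of_nonneg_right (hc0 _) (by positivity)
      _ = c0 / τ := by ring
  calc _ ≤ c0 / τ + c0 / τ := add_le_add a1 a2
    _ = 2 * c0 / τ := by ring

lemma gcut_deriv_zero (t0 t1 τ : ℝ) (hτ : 0 < τ) (t : ℝ) (h : t < t0 - τ ∨ t1 + τ < t) :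
    deriv (gcut t0 t1 τ) t = 0 := by
  have : gcut t0 t1 τ =ᶠ[nhds t] fun _ => 0 := by
    rcases h with h | h
    · filter_upwards [Iio_mem_nhds h] with u hu
      exact gcut_zero t0 t1 τ hτ u (Or.inl (le_of_lt hu))
    · filter_upwards [Ioi_mem_nhds h] with u hu
      exact gcut_zero t0 t1 τ hτ u (Or.inr (le_of_lt hu))
  rw [this.deriv_eq]
  simp

/-- Continuous functions vanishing outside an interval. -/
lemma cpt_int (f : ℝ → ℂ) (hf : Continuous f) (a b : ℝ) (h : ∀ t, t < a ∨ b < t → f t = 0) :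
    Integrable f ∧ MemLp f 2 := by
  have hc : HasCompactSupport f := by
    apply HasCompactSupport.intro (isCompact_Icc (a := a) (b := b))
    intro t ht
    rw [Set.mem_Icc, not_and_or, not_le, not_le] at ht
    exact h t ht
  exact ⟨hf.integrable_of_hasCompactSupport hc, hf.memLp_of_hasCompactSupport hc⟩

lemma ft_meas (f : ℝ → ℂ) (hf : Integrable f) : Measurable fun k => ‖𝓕 f k‖ₑ ^ 2 := by
  have hc : Continuous (𝓕 f) :=
    VectorFourier.fourierIntegral_continuous (L := innerₗ ℝ) Real.continuous_fourierChar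
      (by exact continuous_inner) hf
  exact (hc.measurable.enorm).pow_const 2

/-- `mass` in `ENNReal`. -/
lemma ofReal_mass (x : Fin d → ℤ) (n : ℕ) (ψ : (Fin d → ℤ) → ℂ) :
    ENNReal.ofReal (mass x n ψ) = ∑ y ∈ cube x n, ‖ψ y‖ₑ ^ 2 := by
  unfold mass
  rw [ENNReal.ofReal_sum_of_nonneg fun _ _ => by positivity]
  refine Finset.sum_congr rfl fun y _ => ?_
  rw [ENNReal.ofReal_pow (norm_nonneg _), ofReal_norm]

/-- Solutions of the Schrödinger equation `i ∂_t φ = H φ`. -/
def IsSol (V : (Fin d → ℤ) → ℝ) (φ : ℝ → (Fin d → ℤ) → ℂ) : Prop :=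
  ∀ t y, HasDerivAt (fun t => φ t y) (-Complex.I * schr V (φ t) y) t

lemma IsSol.cont {V : (Fin d → ℤ) → ℝ} {φ : ℝ → (Fin d → ℤ) → ℂ} (h : IsSol V φ)
    (y : Fin d → ℤ) : Continuous fun t => φ t y :=
  continuous_iff_continuousAt.2 fun t => (h t y).continuousAt

/-- The transformed solution is an approximate eigenfunction. -/
lemma ft_sol (V : (Fin d → ℤ) → ℝ) (φ : ℝ → (Fin d → ℤ) → ℂ) (h : IsSol V φ) (t0 t1 τ : ℝ)
    (hτ : 0 < τ) (k : ℝ) (y : Fin d → ℤ) :
    schr V (fun z => 𝓕 (fun t => (gcut t0 t1 τ t : ℂ) * φ t z) k) y -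
      ((-(2 * π * k) : ℝ) : ℂ) * 𝓕 (fun t => (gcut t0 t1 τ t : ℂ) * φ t y) k =
      -Complex.I * 𝓕 (fun t => ((deriv (gcut t0 t1 τ) t : ℝ) : ℂ) * φ t y) k := by
  set g := gcut t0 t1 τ with hg
  have hgc : Continuous g := (gcut_diff t0 t1 τ).continuous
  have hgd : Differentiable ℝ g := (gcut_diff t0 t1 τ).differentiable (by norm_num)
  have hg'c : Continuous (deriv g) := (gcut_diff t0 t1 τ).continuous_deriv le_rfl
  have hgcc : Continuous fun t => (g t : ℂ) := Complex.continuous_ofReal.comp hgc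
  have hg'cc : Continuous fun t => ((deriv g t : ℝ) : ℂ) := Complex.continuous_ofReal.comp hg'c
  have hF : ∀ z, Integrable (fun t => (g t : ℂ) * φ t z) := by
    intro z
    apply (cpt_int (fun t => (g t : ℂ) * φ t z) (hgcc.mul (h.cont z)) (t0 - τ) (t1 + τ) _).1
    intro t ht
    rw [hg, gcut_zero t0 t1 τ hτ t (ht.imp le_of_lt le_of_lt)]
    simp
  have hG : Integrable (fun t => ((deriv g t : ℝ) : ℂ) * φ t y) := by
    apply (cpt_int (fun t => ((deriv g t : ℝ) : ℂ) * φ t y) (hg'cc.mul (h.cont y)) (t0 - τ)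
      (t1 + τ) _).1
    intro t ht
    rw [hg, gcut_deriv_zero t0 t1 τ hτ t ht]
    simp
  -- the Fourier transform of `g * H φ`
  have hS : schr V (fun z => 𝓕 (fun t => (g t : ℂ) * φ t z) k) y =
      𝓕 (fun t => (g t : ℂ) * schr V (φ t) y) k := by
    obtain ⟨f0, hf0⟩ : ∃ f0 : Fin d → ℝ → ℂ, f0 = fun j t => (2 * ((g t : ℂ) * φ t y) +
        ((-1) * ((g t : ℂ) * φ t (y + Pi.single j 1)) +
          (-1) * ((g t : ℂ) * φ t (y - Pi.single j 1)))) := ⟨_, rfl⟩
    obtain ⟨f1, hf1⟩ : ∃ f1 : ℝ → ℂ, f1 = fun t => (V y : ℂ) * ((g t : ℂ) * φ t y) := ⟨_, rfl⟩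
    have e1 : (fun t => (g t : ℂ) * schr V (φ t) y) = fun t => (∑ j : Fin d, f0 j t) + f1 t := by
      funext t
      unfold schr
      rw [hf0, hf1, mul_add, Finset.mul_sum]
      congr 1
      · refine Finset.sum_congr rfl fun j _ => ?_
        ring
      · ring
    have i2 : ∀ (c : ℂ) z, Integrable (fun t => c * ((g t : ℂ) * φ t z)) := fun c z =>
      (hF z).const_mul c
    have i3 : ∀ (c c' : ℂ) z z', Integrable (fun t => c * ((g t : ℂ) * φ t z) +
        c' * ((g t : ℂ) * φ t z')) := fun c c' z z' => (i2 c z).add (i2 c' z')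
    have i4 : ∀ j, Integrable (f0 j) := by
      intro j
      rw [hf0]
      exact (i2 2 y).add (i3 (-1) (-1) (y + Pi.single j 1) (y - Pi.single j 1))
    have i5 : Integrable (fun t => ∑ j : Fin d, f0 j t) := integrable_finsetSum univ fun j _ => i4 j
    have i6 : Integrable f1 := by rw [hf1]; exact i2 (V y : ℂ) y
    have e2 : ∀ j, 𝓕 (f0 j) k = 2 * 𝓕 (fun t => (g t : ℂ) * φ t y) k +
        ((-1) * 𝓕 (fun t => (g t : ℂ) * φ t (y + Pi.single j 1)) k +
          (-1) * 𝓕 (fun t => (g t : ℂ) * φ t (y - Pi.single j 1)) k) := by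
      intro j
      rw [hf0]
      simp only
      rw [ft_add (fun t => 2 * ((g t : ℂ) * φ t y)) (fun t =>
        (-1) * ((g t : ℂ) * φ t (y + Pi.single j 1)) +
          (-1) * ((g t : ℂ) * φ t (y - Pi.single j 1))) (i2 2 y)
          (i3 (-1) (-1) (y + Pi.single j 1) (y - Pi.single j 1)),
        ft_add (fun t => (-1) * ((g t : ℂ) * φ t (y + Pi.single j 1)))
          (fun t => (-1) * ((g t : ℂ) * φ t (y - Pi.single j 1))) (i2 (-1) (y + Pi.single j 1))
          (i2 (-1) (y - Pi.single j 1)), ft_smul, ft_smul, ft_smul]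
    have e3 : 𝓕 f1 k = (V y : ℂ) * 𝓕 (fun t => (g t : ℂ) * φ t y) k := by
      rw [hf1, ft_smul]
    rw [e1, ft_add _ _ i5 i6, ft_sum univ f0 i4, e3]
    unfold schr
    congr 1
    refine Finset.sum_congr rfl fun j _ => ?_
    rw [e2 j]
    ring
  -- the derivative
  have hder : ∀ t, HasDerivAt (fun t => (g t : ℂ) * φ t y)
      (((deriv g t : ℝ) : ℂ) * φ t y + (-Complex.I) * ((g t : ℂ) * schr V (φ t) y)) t := by
    intro t
    have h1 := ((hgd t).hasDerivAt.ofReal_comp).mul (h t y)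
    refine HasDerivAt.congr_deriv h1 ?_
    ring
  have hdiff : Differentiable ℝ (fun t => (g t : ℂ) * φ t y) := fun t => (hder t).differentiableAt
  have hderiv : deriv (fun t => (g t : ℂ) * φ t y) = fun t =>
      ((deriv g t : ℝ) : ℂ) * φ t y + (-Complex.I) * ((g t : ℂ) * schr V (φ t) y) := by
    funext t; exact (hder t).deriv
  have hSint : Integrable (fun t => (g t : ℂ) * schr V (φ t) y) := by
    have hsc : Continuous fun t => schr V (φ t) y := by
      unfold schr
      apply Continuous.add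
      · apply continuous_finsetSum
        intro j _
        exact ((continuous_const.mul (h.cont y)).sub (h.cont _)).sub (h.cont _)
      · exact continuous_const.mul (h.cont y)
    apply (cpt_int (fun t => (g t : ℂ) * schr V (φ t) y) (hgcc.mul hsc) (t0 - τ) (t1 + τ) _).1
    intro t ht
    rw [hg, gcut_zero t0 t1 τ hτ t (ht.imp le_of_lt le_of_lt)]
    simp
  have hdint : Integrable (deriv (fun t => (g t : ℂ) * φ t y)) := by
    rw [hderiv]
    exact hG.add (hSint.const_mul _)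
  have hft := congrFun (Real.fourier_deriv (hF y) hdiff hdint) k
  rw [hderiv, ft_add _ _ hG (hSint.const_mul _), ft_smul] at hft
  rw [hS]
  have hI : Complex.I * Complex.I = -1 := Complex.I_mul_I
  simp only [smul_eq_mul] at hft
  push_cast
  linear_combination (Complex.I) * hft + (𝓕 (fun t => (g t : ℂ) * schr V (φ t) y) k + 2 * π * k *
    𝓕 (fun t => (g t : ℂ) * φ t y) k) * hI

/-- From the stationary to the time-dependent bound. -/
theorem dyn_bound (c0 : ℝ) (hc0 : ∀ t, |deriv Real.smoothTransition t| ≤ c0)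
    (V : (Fin d → ℤ) → ℝ) (x : Fin d → ℤ) (r Λ : ℕ) (C1 C2 : ℝ) (hC1 : 0 ≤ C1) (hC2 : 0 ≤ C2)
    (hstat : ∀ (E : ℝ) (ψ : (Fin d → ℤ) → ℂ), mass x r ψ ≤ C1 * mass x Λ ψ +
      C2 * mass x Λ (fun y => schr V ψ y - E * ψ y))
    (φ : ℝ → (Fin d → ℤ) → ℂ) (h : IsSol V φ) (t0 t1 τ : ℝ) (hτ : 0 < τ) (ht : t0 ≤ t1) :
    ∫ t in t0..t1, mass x r (φ t) ≤
      (C1 + C2 * (2 * c0 / τ) ^ 2) * ∫ t in (t0 - τ)..(t1 + τ), mass x Λ (φ t) := by
  set g := gcut t0 t1 τ with hg
  have hgc : Continuous g := (gcut_diff t0 t1 τ).continuous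
  have hg'c : Continuous (deriv g) := (gcut_diff t0 t1 τ).continuous_deriv le_rfl
  have hgcc : Continuous fun t => (g t : ℂ) := Complex.continuous_ofReal.comp hgc
  have hg'cc : Continuous fun t => ((deriv g t : ℝ) : ℂ) := Complex.continuous_ofReal.comp hg'c
  have c0n : 0 ≤ c0 := (abs_nonneg _).trans (hc0 0)
  have hF : ∀ z, Integrable (fun t => (g t : ℂ) * φ t z) ∧ MemLp (fun t => (g t : ℂ) * φ t z) 2 := by
    intro z
    apply cpt_int (fun t => (g t : ℂ) * φ t z) (hgcc.mul (h.cont z)) (t0 - τ) (t1 + τ)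
    intro t ht
    rw [hg, gcut_zero t0 t1 τ hτ t (ht.imp le_of_lt le_of_lt)]
    simp
  have hG : ∀ z, Integrable (fun t => ((deriv g t : ℝ) : ℂ) * φ t z) ∧
      MemLp (fun t => ((deriv g t : ℝ) : ℂ) * φ t z) 2 := by
    intro z
    apply cpt_int (fun t => ((deriv g t : ℝ) : ℂ) * φ t z) (hg'cc.mul (h.cont z)) (t0 - τ) (t1 + τ)
    intro t ht
    rw [hg, gcut_deriv_zero t0 t1 τ hτ t ht]
    simp
  have hmc : ∀ n : ℕ, Continuous fun t => mass x n (φ t) := by
    intro n
    unfold mass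
    apply continuous_finsetSum
    intro y _
    exact ((h.cont y).norm).pow 2
  -- pointwise in frequency
  have hpt : ∀ k : ℝ, ∑ y ∈ cube x r, ‖𝓕 (fun t => (g t : ℂ) * φ t y) k‖ₑ ^ 2 ≤
      ENNReal.ofReal C1 * ∑ y ∈ cube x Λ, ‖𝓕 (fun t => (g t : ℂ) * φ t y) k‖ₑ ^ 2 +
      ENNReal.ofReal C2 * ∑ y ∈ cube x Λ,
        ‖𝓕 (fun t => ((deriv g t : ℝ) : ℂ) * φ t y) k‖ₑ ^ 2 := by
    intro k
    have h1 := hstat (-(2 * π * k)) (fun y => 𝓕 (fun t => (g t : ℂ) * φ t y) k)
    have e1 : (fun y => schr V (fun y => 𝓕 (fun t => (g t : ℂ) * φ t y) k) y -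
        ((-(2 * π * k) : ℝ) : ℂ) * 𝓕 (fun t => (g t : ℂ) * φ t y) k) = fun y =>
        -Complex.I * 𝓕 (fun t => ((deriv g t : ℝ) : ℂ) * φ t y) k := by
      funext y
      exact ft_sol V φ h t0 t1 τ hτ k y
    rw [e1] at h1
    have e2 : mass x Λ (fun y => -Complex.I * 𝓕 (fun t => ((deriv g t : ℝ) : ℂ) * φ t y) k) =
        mass x Λ (fun y => 𝓕 (fun t => ((deriv g t : ℝ) : ℂ) * φ t y) k) := by
      unfold mass
      refine Finset.sum_congr rfl fun y _ => ?_
      rw [norm_mul, norm_neg, Complex.norm_I, one_mul]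
    rw [e2] at h1
    have h2 := ENNReal.ofReal_le_ofReal h1
    rw [ENNReal.ofReal_add (mul_nonneg hC1 (mass_nonneg _ _ _))
      (mul_nonneg hC2 (mass_nonneg _ _ _)), ENNReal.ofReal_mul hC1, ENNReal.ofReal_mul hC2,
      ofReal_mass, ofReal_mass, ofReal_mass] at h2
    exact h2
  -- integrate
  have hint : ∑ y ∈ cube x r, ∫⁻ t, ‖(g t : ℂ) * φ t y‖ₑ ^ 2 ≤
      ENNReal.ofReal C1 * (∑ y ∈ cube x Λ, ∫⁻ t, ‖(g t : ℂ) * φ t y‖ₑ ^ 2) +
      ENNReal.ofReal C2 * (∑ y ∈ cube x Λ, ∫⁻ t, ‖((deriv g t : ℝ) : ℂ) * φ t y‖ₑ ^ 2) := by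
    have h1 := lintegral_mono (μ := (volume : Measure ℝ)) hpt
    have mF : ∀ y, Measurable fun k => ‖𝓕 (fun t => (g t : ℂ) * φ t y) k‖ₑ ^ 2 := fun y =>
      ft_meas _ (hF y).1
    have mG : ∀ y, Measurable fun k => ‖𝓕 (fun t => ((deriv g t : ℝ) : ℂ) * φ t y) k‖ₑ ^ 2 :=
      fun y => ft_meas _ (hG y).1
    rw [lintegral_add_left ((Finset.measurable_sum _ fun y _ => mF y).const_mul _),
      lintegral_const_mul _ (Finset.measurable_sum _ fun y _ => mF y),
      lintegral_const_mul _ (Finset.measurable_sum _ fun y _ => mG y),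
      lintegral_finsetSum _ (fun y _ => mF y), lintegral_finsetSum _ (fun y _ => mF y),
      lintegral_finsetSum _ (fun y _ => mG y)] at h1
    have p1 : ∀ y, ∫⁻ k, ‖𝓕 (fun t => (g t : ℂ) * φ t y) k‖ₑ ^ 2 =
        ∫⁻ t, ‖(g t : ℂ) * φ t y‖ₑ ^ 2 := fun y => LL.plancherel _ (hF y).1 (hF y).2
    have p2 : ∀ y, ∫⁻ k, ‖𝓕 (fun t => ((deriv g t : ℝ) : ℂ) * φ t y) k‖ₑ ^ 2 =
        ∫⁻ t, ‖((deriv g t : ℝ) : ℂ) * φ t y‖ₑ ^ 2 := fun y => LL.plancherel _ (hG y).1 (hG y).2
    simp only [p1, p2] at h1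
    exact h1
  -- measurability in time
  have mφ : ∀ y, Measurable fun t => ‖φ t y‖ₑ ^ 2 := fun y =>
    ((h.cont y).measurable.enorm).pow_const 2
  have mgφ : ∀ y, Measurable fun t => ‖(g t : ℂ) * φ t y‖ₑ ^ 2 := fun y =>
    ((hgcc.mul (h.cont y)).measurable.enorm).pow_const 2
  have mg'φ : ∀ y, Measurable fun t => ‖((deriv g t : ℝ) : ℂ) * φ t y‖ₑ ^ 2 := fun y =>
    ((hg'cc.mul (h.cont y)).measurable.enorm).pow_const 2
  -- left-hand side
  have hL : ∫⁻ t in Set.Ioc t0 t1, ENNReal.ofReal (mass x r (φ t)) ≤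
      ∑ y ∈ cube x r, ∫⁻ t, ‖(g t : ℂ) * φ t y‖ₑ ^ 2 := by
    rw [← lintegral_finsetSum _ (fun y _ => mgφ y)]
    calc ∫⁻ t in Set.Ioc t0 t1, ENNReal.ofReal (mass x r (φ t))
        ≤ ∫⁻ t in Set.Ioc t0 t1, ∑ y ∈ cube x r, ‖(g t : ℂ) * φ t y‖ₑ ^ 2 := by
          apply setLIntegral_mono' measurableSet_Ioc
          intro t ht
          rw [ofReal_mass]
          refine Finset.sum_le_sum fun y _ => ?_
          rw [hg, gcut_one t0 t1 τ hτ t ht.1.le ht.2, Complex.ofReal_one, one_mul]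
      _ ≤ _ := setLIntegral_le_lintegral _ _
  -- right-hand sides
  have hR : ∀ (f : ℝ → ℂ) (B : ℝ), 0 ≤ B → (∀ t, ‖f t‖ ≤ B) →
      (∀ t, t < t0 - τ ∨ t1 + τ < t → f t = 0) → Continuous f →
      ∑ y ∈ cube x Λ, ∫⁻ t, ‖f t * φ t y‖ₑ ^ 2 ≤ ENNReal.ofReal (B ^ 2) *
        ∫⁻ t in Set.Icc (t0 - τ) (t1 + τ), ENNReal.ofReal (mass x Λ (φ t)) := by
    intro f B hB hfB hf0 hfc
    have mf : ∀ y, Measurable fun t => ‖f t * φ t y‖ₑ ^ 2 := fun y =>
      ((hfc.mul (h.cont y)).measurable.enorm).pow_const 2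
    rw [← lintegral_finsetSum _ (fun y _ => mf y), ← lintegral_const_mul _
      ((hmc Λ).measurable.ennreal_ofReal), ← lintegral_indicator measurableSet_Icc]
    apply lintegral_mono
    intro t
    simp only
    by_cases ht : t ∈ Set.Icc (t0 - τ) (t1 + τ)
    · rw [Set.indicator_of_mem ht, ofReal_mass, Finset.mul_sum]
      refine Finset.sum_le_sum fun y _ => ?_
      rw [enorm_mul, mul_pow]
      apply mul_le_mul_left
      rw [ENNReal.ofReal_pow hB]
      apply pow_le_pow_left₀ bot_le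
      rw [← ofReal_norm]
      exact ENNReal.ofReal_le_ofReal (hfB t)
    · rw [Set.indicator_of_notMem ht]
      rw [Set.mem_Icc, not_and_or, not_le, not_le] at ht
      rw [hf0 t ht]
      simp
  have hR1 := hR (fun t => (g t : ℂ)) 1 zero_le_one (fun t => by
    rw [Complex.norm_real, Real.norm_eq_abs, abs_of_nonneg (gcut_nonneg _ _ _ _)]
    exact gcut_le_one _ _ _ _) (fun t ht => by
    rw [hg, gcut_zero t0 t1 τ hτ t (ht.imp le_of_lt le_of_lt)]
    simp) hgcc
  have hR2 := hR (fun t => ((deriv g t : ℝ) : ℂ)) (2 * c0 / τ) (by positivity) (fun t => by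
    rw [Complex.norm_real, Real.norm_eq_abs]
    exact gcut_deriv c0 hc0 t0 t1 τ hτ t) (fun t ht => by
    rw [hg, gcut_deriv_zero t0 t1 τ hτ t ht]
    simp) hg'cc
  have hle : t0 - τ ≤ t1 + τ := by linarith
  have hIR0 : 0 ≤ ∫ t in (t0 - τ)..(t1 + τ), mass x Λ (φ t) :=
    intervalIntegral.integral_nonneg hle fun t _ => mass_nonneg _ _ _
  have eL : ∫⁻ t in Set.Ioc t0 t1, ENNReal.ofReal (mass x r (φ t)) =
      ENNReal.ofReal (∫ t in t0..t1, mass x r (φ t)) := by
    rw [intervalIntegral.integral_of_le ht, ofReal_integral_eq_lintegral_ofReal]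
    · exact ((hmc r).intervalIntegrable t0 t1).1
    · exact Filter.Eventually.of_forall fun t => mass_nonneg _ _ _
  have eR : ∫⁻ t in Set.Icc (t0 - τ) (t1 + τ), ENNReal.ofReal (mass x Λ (φ t)) =
      ENNReal.ofReal (∫ t in (t0 - τ)..(t1 + τ), mass x Λ (φ t)) := by
    rw [intervalIntegral.integral_of_le hle, ← integral_Icc_eq_integral_Ioc,
      ofReal_integral_eq_lintegral_ofReal]
    · exact (hmc Λ).integrableOn_Icc
    · exact Filter.Eventually.of_forall fun t => mass_nonneg _ _ _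
  rw [eL] at hL
  rw [eR, one_pow, ENNReal.ofReal_one, one_mul] at hR1
  rw [eR] at hR2
  have hfin : ENNReal.ofReal (∫ t in t0..t1, mass x r (φ t)) ≤
      ENNReal.ofReal ((C1 + C2 * (2 * c0 / τ) ^ 2) *
        ∫ t in (t0 - τ)..(t1 + τ), mass x Λ (φ t)) := by
    refine (hL.trans hint).trans ?_
    have e1 : (C1 + C2 * (2 * c0 / τ) ^ 2) * (∫ t in (t0 - τ)..(t1 + τ), mass x Λ (φ t)) =
        C1 * (∫ t in (t0 - τ)..(t1 + τ), mass x Λ (φ t)) +
        C2 * ((2 * c0 / τ) ^ 2 * ∫ t in (t0 - τ)..(t1 + τ), mass x Λ (φ t)) := by ring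
    rw [e1, ENNReal.ofReal_add (by positivity) (by positivity), ENNReal.ofReal_mul hC1,
      ENNReal.ofReal_mul hC2, ENNReal.ofReal_mul (by positivity)]
    exact add_le_add (mul_le_mul_right hR1 _) (mul_le_mul_right hR2 _)
  exact (ENNReal.ofReal_le_ofReal_iff (by positivity)).1 hfin

end Pool.Agent.Helper2.AM
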