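import Pool.Agent.Helper2.AM.Prob

/-!
# Parameters and union bound
-/

open Finset Real Matrix MeasureTheory ProbabilityTheory
open scoped ComplexOrder ENNReal

noncomputable section

set_option linter.unusedSectionVars false

namespace Pool.Agent.Helper2.AM

variable {d : ℕ}

/-- Squared `ℓ²` norm. -/
def nrm2 (ψ : (Fin d → ℤ) → ℂ) : ℝ := ∑' x, ‖ψ x‖ ^ 2

lemma nrm2_nonneg (ψ : (Fin d → ℤ) → ℂ) : 0 ≤ nrm2 ψ := tsum_nonneg fun _ => by positivity

lemma l2_sq (ψ : (Fin d → ℤ) → ℂ) : l2 ψ ^ 2 = nrm2 ψ := sq_sqrt (nrm2_nonneg ψ)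

lemma l2_nonneg (ψ : (Fin d → ℤ) → ℂ) : 0 ≤ l2 ψ := sqrt_nonneg _

lemma nrm2_shift (ψ : (Fin d → ℤ) → ℂ) (x0 : Fin d → ℤ) :
    nrm2 (fun y => ψ (x0 + y)) = nrm2 ψ :=
  (Equiv.addLeft x0).tsum_eq (fun y => ‖ψ y‖ ^ 2)

lemma schr_shift (V : (Fin d → ℤ) → ℝ) (ψ : (Fin d → ℤ) → ℂ) (x0 y : Fin d → ℤ) :
    schr (fun y => V (x0 + y)) (fun y => ψ (x0 + y)) y = schr V ψ (x0 + y) := by
  unfold schr
  simp only [add_assoc, add_sub_assoc]

/-- `(H - E) ψ` is square summable for a bounded potential. -/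
lemma summable_schr (V : (Fin d → ℤ) → ℝ) (S : ℝ) (hV : ∀ y, |V y| ≤ S) (E : ℝ)
    (ψ : (Fin d → ℤ) → ℂ) (hψ : Summable fun x => ‖ψ x‖ ^ 2) :
    Summable fun x => ‖schr V ψ x - E * ψ x‖ ^ 2 := by
  have hS : 0 ≤ S := (abs_nonneg _).trans (hV 0)
  -- pointwise bound
  have h1 : ∀ x, ‖schr V ψ x - E * ψ x‖ ^ 2 ≤ (2 * d + 1) *
      ((∑ j : Fin d, (‖ψ (x + Pi.single j 1)‖ ^ 2 + ‖ψ (x - Pi.single j 1)‖ ^ 2)) +
        (2 * d + S + |E|) ^ 2 * ‖ψ x‖ ^ 2) := by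
    intro x
    have e1 : schr V ψ x - E * ψ x = (2 * d + V x - E : ℝ) * ψ x -
        ∑ j : Fin d, (ψ (x + Pi.single j 1) + ψ (x - Pi.single j 1)) := by
      unfold schr
      simp_rw [Finset.sum_sub_distrib, Finset.sum_add_distrib]
      rw [Finset.sum_const, card_univ, Fintype.card_fin, nsmul_eq_mul]
      push_cast
      ring
    have e2 : ‖schr V ψ x - E * ψ x‖ ≤ (2 * d + S + |E|) * ‖ψ x‖ +
        ∑ j : Fin d, (‖ψ (x + Pi.single j 1)‖ + ‖ψ (x - Pi.single j 1)‖) := by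
      rw [e1]
      refine (norm_sub_le _ _).trans (add_le_add ?_ ?_)
      · rw [norm_mul, Complex.norm_real, Real.norm_eq_abs]
        apply mul_le_mul_of_nonneg_right _ (norm_nonneg _)
        have := hV x
        calc |2 * (d : ℝ) + V x - E| ≤ |2 * (d : ℝ) + V x| + |E| := abs_sub _ _
          _ ≤ |2 * (d : ℝ)| + |V x| + |E| := by linarith [abs_add_le (2 * (d : ℝ)) (V x)]
          _ ≤ 2 * d + S + |E| := by
            rw [abs_of_nonneg (by positivity : (0 : ℝ) ≤ 2 * d)]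
            linarith
      · refine (norm_sum_le _ _).trans (Finset.sum_le_sum fun j _ => norm_add_le _ _)
    -- Cauchy-Schwarz for `2 d + 1` terms
    set A : ℝ := (2 * d + S + |E|) * ‖ψ x‖ with hA
    have hA0 : 0 ≤ A := by positivity
    have e3 : (∑ j : Fin d, (‖ψ (x + Pi.single j 1)‖ + ‖ψ (x - Pi.single j 1)‖)) ^ 2 ≤
        2 * d * ∑ j : Fin d, (‖ψ (x + Pi.single j 1)‖ ^ 2 + ‖ψ (x - Pi.single j 1)‖ ^ 2) := by
      have h2 := sq_sum_le_card_mul_sum_sq (s := (univ : Finset (Fin d)))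
        (f := fun j => ‖ψ (x + Pi.single j 1)‖ + ‖ψ (x - Pi.single j 1)‖)
      rw [card_univ, Fintype.card_fin] at h2
      refine h2.trans ?_
      rw [mul_comm 2 (d : ℝ), mul_assoc]
      apply mul_le_mul_of_nonneg_left _ (Nat.cast_nonneg _)
      rw [Finset.mul_sum]
      refine Finset.sum_le_sum fun j _ => ?_
      nlinarith [sq_nonneg (‖ψ (x + Pi.single j 1)‖ - ‖ψ (x - Pi.single j 1)‖)]
    set T : ℝ := ∑ j : Fin d, (‖ψ (x + Pi.single j 1)‖ + ‖ψ (x - Pi.single j 1)‖) with hT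
    have hT0 : 0 ≤ T := Finset.sum_nonneg fun j _ => by positivity
    set Q : ℝ := ∑ j : Fin d, (‖ψ (x + Pi.single j 1)‖ ^ 2 + ‖ψ (x - Pi.single j 1)‖ ^ 2) with hQ
    have hQ0 : 0 ≤ Q := Finset.sum_nonneg fun j _ => by positivity
    have e4 : ‖schr V ψ x - E * ψ x‖ ^ 2 ≤ (A + T) ^ 2 := pow_le_pow_left₀ (norm_nonneg _) e2 2
    have hd0 : (0 : ℝ) ≤ d := Nat.cast_nonneg _
    -- `(A + T)² ≤ (2d+1) (A² + T²/(2d))`
    have e5 : (A + T) ^ 2 ≤ (2 * d + 1) * (Q + A ^ 2) := by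
      rcases Nat.eq_zero_or_pos d with hd | hd
      · subst hd
        have : T = 0 := by rw [hT]; simp
        rw [this]
        simp
        linarith
      · have hdpos : (0 : ℝ) < d := by exact_mod_cast hd
        have h3 : 0 ≤ (2 * d * A - T) ^ 2 := sq_nonneg _
        have h4 : 2 * (2 * d) * (A * T) ≤ (2 * d) ^ 2 * A ^ 2 + T ^ 2 := by nlinarith
        have h5 : 2 * d * (A + T) ^ 2 ≤ 2 * d * ((2 * d + 1) * (Q + A ^ 2)) := by
          have h6 : T ^ 2 ≤ 2 * d * Q := e3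
          nlinarith [mul_le_mul_of_nonneg_left h6 (show (0:ℝ) ≤ 2 * d + 1 by positivity)]
        exact le_of_mul_le_mul_left h5 (by positivity)
    have e6 : A ^ 2 = (2 * d + S + |E|) ^ 2 * ‖ψ x‖ ^ 2 := by rw [hA]; ring
    rw [e6] at e5
    exact e4.trans e5
  refine Summable.of_nonneg_of_le (fun _ => by positivity) h1 ?_
  apply Summable.mul_left
  apply Summable.add
  · apply summable_sum
    intro j _
    apply Summable.add
    · exact hψ.comp_injective (i := fun x => x + Pi.single j 1) (add_left_injective _)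
    · exact hψ.comp_injective (i := fun x => x - Pi.single j 1) (sub_left_injective)
  · exact hψ.mul_left _

/-- The good inequality, at one point. -/
theorem point_bound (R : ℕ) (hR : 1 ≤ R) (V : (Fin d → ℤ) → ℝ) (x0 : Fin d → ℤ)
    (v : (Fin d → Fin (2 * R + 1)) → ℝ) (c0 lam E E0 ε W : ℝ) (hε : 0 < ε) (hlam : 0 < lam)
    (hV : ∀ x, V (x0 + pos R x) = lam * v x + c0)
    (hX : ∀ u, nsq ((∑ x, ((v x : ℝ) : ℂ) • ro (av R E0 ε x)) *ᵥ u) ≤
      (1 / (2 * lam)) ^ 2 * nsq u)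
    (hRε : 2 * d / R ≤ ε) (hE : |E - c0 - E0| ≤ ε)
    (hW : (((2 * R + 1 : ℕ) : ℝ) ^ d)⁻¹ *
        ∑ k : Fin d → Fin (2 * R + 1), wt (en (2 * R + 1) k) E0 ε ≤ W)
    (ψ : (Fin d → ℤ) → ℂ) (hψ : Summable fun x => ‖ψ x‖ ^ 2)
    (hHψ : Summable fun x => ‖schr V ψ x - E * ψ x‖ ^ 2) :
    ‖ψ x0‖ ^ 2 ≤ W * (8 / ε * nrm2 (fun x => schr V ψ x - E * ψ x) + 72 * ε * nrm2 ψ) := by
  have hψ' : Summable fun x => ‖(fun y => ψ (x0 + y)) x‖ ^ 2 :=
    hψ.comp_injective (i := fun y => x0 + y) (add_right_injective x0)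
  have hHψ' : Summable fun x => ‖schr (fun y => V (x0 + y)) (fun y => ψ (x0 + y)) x -
      E * (fun y => ψ (x0 + y)) x‖ ^ 2 := by
    simp_rw [schr_shift]
    exact hHψ.comp_injective (i := fun y => x0 + y) (add_right_injective x0)
  have h := det_bound R hR (fun y => V (x0 + y)) v c0 lam E E0 ε hε hlam hV hX
    (fun y => ψ (x0 + y)) hψ' hHψ'
  simp only [add_zero] at h
  have e1 : l2 (fun y => ψ (x0 + y)) = l2 ψ := by
    unfold l2
    congr 1
    exact nrm2_shift ψ x0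
  have e2 : l2 (fun x => schr (fun y => V (x0 + y)) (fun y => ψ (x0 + y)) x -
      E * ψ (x0 + x)) = l2 (fun x => schr V ψ x - E * ψ x) := by
    simp_rw [schr_shift]
    unfold l2
    congr 1
    exact nrm2_shift (fun x => schr V ψ x - E * ψ x) x0
  rw [e1, e2] at h
  refine h.trans ?_
  set A := l2 (fun x => schr V ψ x - E * ψ x) with hA
  set B := l2 ψ with hB
  have hA0 : 0 ≤ A := l2_nonneg _
  have hB0 : 0 ≤ B := l2_nonneg _
  have hsum : 2 * (d : ℝ) / R + |E - c0 - E0| + ε ≤ 3 * ε := by linarith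
  have h0 : 0 ≤ 2 * (d : ℝ) / R + |E - c0 - E0| + ε := by positivity
  have h1 : (A + (2 * d / R + |E - c0 - E0| + ε) * B) ^ 2 ≤ 2 * A ^ 2 + 18 * ε ^ 2 * B ^ 2 := by
    have h2 : A + (2 * d / R + |E - c0 - E0| + ε) * B ≤ A + 3 * ε * B := by
      have := mul_le_mul_of_nonneg_right hsum hB0
      linarith
    have h3 : 0 ≤ A + (2 * d / R + |E - c0 - E0| + ε) * B := by positivity
    have h4 := pow_le_pow_left₀ h3 h2 2
    nlinarith [sq_nonneg (A - 3 * ε * B)]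
  have hWnn : 0 ≤ (((2 * R + 1 : ℕ) : ℝ) ^ d)⁻¹ *
        ∑ k : Fin d → Fin (2 * R + 1), wt (en (2 * R + 1) k) E0 ε := by
    apply mul_nonneg (by positivity)
    exact Finset.sum_nonneg fun k _ => (wt_pos _ _ _ hε).le
  have h5 : (4 / ε) * (A + (2 * d / R + |E - c0 - E0| + ε) * B) ^ 2 ≤
      8 / ε * nrm2 (fun x => schr V ψ x - E * ψ x) + 72 * ε * nrm2 ψ := by
    rw [← l2_sq, ← l2_sq, ← hA, ← hB]
    calc (4 / ε) * (A + (2 * d / R + |E - c0 - E0| + ε) * B) ^ 2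
        ≤ (4 / ε) * (2 * A ^ 2 + 18 * ε ^ 2 * B ^ 2) :=
          mul_le_mul_of_nonneg_left h1 (by positivity)
      _ = 8 / ε * A ^ 2 + 72 * ε * B ^ 2 := by field_simp; ring
  exact mul_le_mul hW h5 (by positivity) (hWnn.trans hW)

end Pool.Agent.Helper2.AM
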