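import Pool.Agent.Helper2.AM.Modes

/-!
# Fourier coefficients of functions supported in a box
-/

open Finset Real Matrix
open scoped ComplexOrder

noncomputable section

set_option linter.unusedSectionVars false

namespace Pool.Agent.Helper2.AM

variable {d : ℕ}

/-- The discrete Schrödinger operator with potential `V` on `ℤ^d`:
`(Hψ)(x) = ∑_j (2ψ(x) - ψ(x+e_j) - ψ(x-e_j)) + V(x)ψ(x)`. -/
def schr (V : (Fin d → ℤ) → ℝ) (ψ : (Fin d → ℤ) → ℂ) (x : Fin d → ℤ) : ℂ :=
  ∑ j : Fin d, (2 * ψ x - ψ (x + Pi.single j 1) - ψ (x - Pi.single j 1)) + (V x : ℂ) * ψ x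

/-- Support in the box of radius `r`. -/
def Sup (r : ℤ) (F : (Fin d → ℤ) → ℂ) : Prop := ∀ y, F y ≠ 0 → ∀ j, |y j| ≤ r

lemma exists_pos (R : ℕ) (y : Fin d → ℤ) (hy : ∀ j, |y j| ≤ (R : ℤ)) :
    ∃ x : Fin d → Fin (2 * R + 1), pos R x = y := by
  refine ⟨fun j => ⟨(y j + R).toNat, ?_⟩, ?_⟩
  · have := abs_le.1 (hy j)
    omega
  · funext j
    have := abs_le.1 (hy j)
    simp only [pos]
    omega

/-- Sums over the lattice of functions supported in the box. -/
lemma boxsum (R : ℕ) (G : (Fin d → ℤ) → ℂ) (hG : Sup (R : ℤ) G) :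
    ∑' y, G y = ∑ x : Fin d → Fin (2 * R + 1), G (pos R x) := by
  classical
  rw [tsum_eq_sum (s := univ.image (pos R))]
  · rw [Finset.sum_image]
    intro x _ y _ h
    exact pos_injective R h
  · intro y hy
    by_contra hne
    obtain ⟨x, hx⟩ := exists_pos R y (hG y hne)
    exact hy (Finset.mem_image.2 ⟨x, mem_univ _, hx⟩)

/-- Unnormalised Fourier coefficient. -/
def FS (R : ℕ) (F : (Fin d → ℤ) → ℂ) (k : Fin d → Fin (2 * R + 1)) : ℂ :=
  ∑ x, F (pos R x) * ph (2 * R + 1) (pos R x) k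

lemma FS_eq_tsum (R : ℕ) (F : (Fin d → ℤ) → ℂ) (hF : Sup (R : ℤ) F)
    (k : Fin d → Fin (2 * R + 1)) : FS R F k = ∑' y, F y * ph (2 * R + 1) y k := by
  unfold FS
  refine (boxsum R (fun y => F y * ph (2 * R + 1) y k) ?_).symm
  intro y hy
  exact hF y (left_ne_zero_of_mul hy)

lemma FS_shift (R : ℕ) (F : (Fin d → ℤ) → ℂ) (s : Fin d → ℤ) (hF : Sup (R : ℤ) F)
    (hF' : Sup (R : ℤ) (fun y => F (y + s))) (k : Fin d → Fin (2 * R + 1)) :
    FS R (fun y => F (y + s)) k = ph (2 * R + 1) (-s) k * FS R F k := by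
  rw [FS_eq_tsum R _ hF', FS_eq_tsum R F hF, ← tsum_mul_left]
  rw [← (Equiv.addRight s).tsum_eq (fun y => ph (2 * R + 1) (-s) k * (F y * ph (2 * R + 1) y k))]
  refine tsum_congr fun y => ?_
  simp only [Equiv.coe_addRight]
  have h1 : ph (2 * R + 1) (y + s) k * ph (2 * R + 1) (-s) k = ph (2 * R + 1) y k := by
    rw [← ph_add]
    congr 1
    abel
  rw [← h1]
  ring

lemma sup_shift (R : ℕ) (_hR : 1 ≤ R) (F : (Fin d → ℤ) → ℂ) (hF : Sup ((R : ℤ) - 1) F) (j : Fin d)
    (e : ℤ) (he : |e| ≤ 1) : Sup (R : ℤ) (fun y => F (y + Pi.single j e)) := by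
  intro y hy i
  have h1 := hF _ hy i
  have h2 : |(Pi.single j e : Fin d → ℤ) i| ≤ 1 := by
    by_cases hij : i = j
    · subst hij; simpa using he
    · rw [Pi.single_eq_of_ne hij]; simp
  rw [Pi.add_apply] at h1
  generalize (Pi.single j e : Fin d → ℤ) i = t at h1 h2
  have a1 := abs_le.1 h1
  have a2 := abs_le.1 h2
  rw [abs_le]
  constructor <;> linarith [a1.1, a1.2, a2.1, a2.2]

lemma sup_mono {r s : ℤ} (hrs : r ≤ s) (F : (Fin d → ℤ) → ℂ) (hF : Sup r F) : Sup s F :=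
  fun y hy j => (hF y hy j).trans hrs

lemma ph_single (L : ℕ) (j : Fin d) (e : ℤ) (k : Fin d → Fin L) :
    ph L (Pi.single j e) k = ph1 L e (k j) := by
  unfold ph
  rw [Finset.prod_eq_single j]
  · rw [Pi.single_eq_same]
  · intro i _ hij
    rw [Pi.single_eq_of_ne hij]
    simp [ph1]
  · intro h; exact absurd (mem_univ j) h

lemma ph1_pair (L : ℕ) (k : Fin L) : ph1 L (-1) k + ph1 L 1 k = 2 * (cos (th L k) : ℝ) := by
  unfold ph1
  push_cast
  rw [Complex.two_cos]
  simp only [mul_neg, mul_one, neg_neg]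

/-- The Laplacian is diagonal in the modes. -/
lemma FS_lap (R : ℕ) (hR : 1 ≤ R) (F : (Fin d → ℤ) → ℂ) (hF : Sup ((R : ℤ) - 1) F)
    (k : Fin d → Fin (2 * R + 1)) :
    FS R (fun y => ∑ j : Fin d, (2 * F y - F (y + Pi.single j 1) - F (y - Pi.single j 1))) k =
      (en (2 * R + 1) k : ℝ) * FS R F k := by
  have hF0 : Sup (R : ℤ) F := sup_mono (by omega) F hF
  have h1 : FS R (fun y => ∑ j : Fin d, (2 * F y - F (y + Pi.single j 1) -
      F (y - Pi.single j 1))) k = ∑ j : Fin d, (2 * FS R F k -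
        FS R (fun y => F (y + Pi.single j 1)) k - FS R (fun y => F (y + Pi.single j (-1))) k) := by
    unfold FS
    simp_rw [Finset.mul_sum, Finset.sum_mul]
    rw [Finset.sum_comm]
    refine Finset.sum_congr rfl fun j _ => ?_
    rw [← Finset.sum_sub_distrib, ← Finset.sum_sub_distrib]
    refine Finset.sum_congr rfl fun x _ => ?_
    have : pos R x - Pi.single j 1 = pos R x + Pi.single j (-1) := by
      rw [Pi.single_neg, sub_eq_add_neg]
    rw [this]
    ring
  rw [h1]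
  have h2 : ∀ j : Fin d, (2 * FS R F k - FS R (fun y => F (y + Pi.single j 1)) k -
      FS R (fun y => F (y + Pi.single j (-1))) k) =
      ((2 - 2 * cos (th (2 * R + 1) (k j)) : ℝ) : ℂ) * FS R F k := by
    intro j
    rw [FS_shift R F _ hF0 (sup_shift R hR F hF j 1 (by simp)),
      FS_shift R F _ hF0 (sup_shift R hR F hF j (-1) (by simp)), ← Pi.single_neg, ← Pi.single_neg,
      ph_single, ph_single, neg_neg]
    have h3 := ph1_pair (2 * R + 1) (k j)
    push_cast at h3 ⊢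
    linear_combination (-(FS R F k)) * h3
  simp_rw [h2]
  rw [← Finset.sum_mul]
  congr 1
  unfold en
  push_cast
  rfl

/-- Fourier coefficients of `(H - E) F`. -/
lemma FS_schr (R : ℕ) (hR : 1 ≤ R) (V : (Fin d → ℤ) → ℝ) (E : ℝ) (F : (Fin d → ℤ) → ℂ)
    (hF : Sup ((R : ℤ) - 1) F) (k : Fin d → Fin (2 * R + 1)) :
    FS R (fun y => schr V F y - E * F y) k =
      ((en (2 * R + 1) k - E : ℝ) : ℂ) * FS R F k + FS R (fun y => (V y : ℂ) * F y) k := by
  have h := FS_lap R hR F hF k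
  have h1 : FS R (fun y => schr V F y - E * F y) k =
      FS R (fun y => ∑ j : Fin d, (2 * F y - F (y + Pi.single j 1) - F (y - Pi.single j 1))) k +
        FS R (fun y => (V y : ℂ) * F y) k - E * FS R F k := by
    unfold FS schr
    rw [Finset.mul_sum, ← Finset.sum_add_distrib, ← Finset.sum_sub_distrib]
    refine Finset.sum_congr rfl fun x _ => ?_
    ring
  rw [h1, h]
  push_cast
  ring

end Pool.Agent.Helper2.AM
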