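import Pool.Agent.Helper2.AM.Dyn

/-!
# Good sets of realisations
-/

open Finset Real Matrix MeasureTheory ProbabilityTheory
open scoped ComplexOrder ENNReal

noncomputable section

set_option linter.unusedSectionVars false

namespace Pool.Agent.Helper2.AM

variable {d : ℕ}

/-- Main theorem with a measurable good set. -/
theorem good_loc (d a : ℕ) (hd : 1 ≤ d) (ha : 1 ≤ a) (A : ℝ) (hA : 2 ≤ A) (S T : Set ℝ)
    (hWB : WB d a A S) (δ : ℝ) (hδ : 0 < δ) (hT : ∀ E ∈ T, ∀ E0, |E - E0| ≤ δ → E0 ∈ S)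
    (M : ℝ) (K : ℕ) :
    ∃ C : ℝ, 0 < C ∧ ∀ (Ω : Type) [MeasurableSpace Ω] (P : Measure Ω) [IsProbabilityMeasure P]
      (ω : (Fin d → ℤ) → Ω → ℝ), IIDPotential P M ω →
      ∀ lam t : ℝ, 0 < lam → lam ≤ 1 / 2 → 1 ≤ t →
      ∃ G : Set Ω, MeasurableSet G ∧ P Gᶜ ≤ ENNReal.ofReal ((lam / t) ^ K) ∧
      ∀ s ∈ G, ∀ (n r : ℕ) (x : Fin d → ℤ), (∀ j, |x j| ≤ n) → 1 ≤ r → (r : ℝ) ≤ (1 / lam) ^ 2 →
        ∀ E ∈ T, ∀ ψ : (Fin d → ℤ) → ℂ,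
        mass x r ψ ≤ C * (r ^ a * (lam ^ 2 * log (1 / lam) ^ 2 * log ((n + 2) * t / lam) *
            mass x ⌊(1 / lam) ^ 2⌋₊ ψ +
          mass x ⌊(1 / lam) ^ 2⌋₊ (fun y => schr (fun y => lam * ω y s) ψ y - E * ψ y) /
            (lam ^ 2 * log ((n + 2) * t / lam)))) := by
  obtain ⟨C, hC0, hC⟩ := main_loc d a hd ha A hA S T hWB δ hδ hT M K
  refine ⟨C, hC0, ?_⟩
  intro Ω _ P _ ω h lam t h0 h1 ht
  have hb := hC Ω P ω h lam t h0 h1 ht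
  set B := {s | ∃ (n r : ℕ) (x : Fin d → ℤ) (E : ℝ) (ψ : (Fin d → ℤ) → ℂ),
        E ∈ T ∧ (∀ j, |x j| ≤ n) ∧ 1 ≤ r ∧ (r : ℝ) ≤ (1 / lam) ^ 2 ∧
        C * (r ^ a * (lam ^ 2 * log (1 / lam) ^ 2 * log ((n + 2) * t / lam) *
            mass x ⌊(1 / lam) ^ 2⌋₊ ψ +
          mass x ⌊(1 / lam) ^ 2⌋₊ (fun y => schr (fun y => lam * ω y s) ψ y - E * ψ y) /
            (lam ^ 2 * log ((n + 2) * t / lam)))) < mass x r ψ} with hB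
  refine ⟨(toMeasurable P B)ᶜ, (measurableSet_toMeasurable P B).compl, ?_, ?_⟩
  · rw [compl_compl, measure_toMeasurable]
    exact hb
  · intro s hs n r x hx hr hrl E hE ψ
    by_contra hcon
    push Not at hcon
    apply hs
    apply subset_toMeasurable P B
    exact ⟨n, r, x, E, ψ, hE, hx, hr, hrl, hcon⟩

/-- Dynamical version (all energies). -/
theorem good_dyn (d a : ℕ) (hd : 1 ≤ d) (ha : 1 ≤ a) (A : ℝ) (hA : 2 ≤ A)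
    (hWB : WB d a A Set.univ) (M : ℝ) (K : ℕ) :
    ∃ C : ℝ, 0 < C ∧ ∀ (Ω : Type) [MeasurableSpace Ω] (P : Measure Ω) [IsProbabilityMeasure P]
      (ω : (Fin d → ℤ) → Ω → ℝ), IIDPotential P M ω →
      ∀ lam t : ℝ, 0 < lam → lam ≤ 1 / 2 → 1 ≤ t →
      ∃ G : Set Ω, MeasurableSet G ∧ P Gᶜ ≤ ENNReal.ofReal ((lam / t) ^ K) ∧
      ∀ s ∈ G, ∀ (n r : ℕ) (x : Fin d → ℤ), (∀ j, |x j| ≤ n) → 1 ≤ r → (r : ℝ) ≤ (1 / lam) ^ 2 →
        ∀ φ : ℝ → (Fin d → ℤ) → ℂ, IsSol (fun y => lam * ω y s) φ → ∀ t0 t1 : ℝ, t0 ≤ t1 →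
        ∫ u in t0..t1, mass x r (φ u) ≤
          C * r ^ a * (lam ^ 2 * log (1 / lam) ^ 2 * log ((n + 2) * t / lam)) *
            ∫ u in (t0 - (1 / lam) ^ 2)..(t1 + (1 / lam) ^ 2), mass x ⌊(1 / lam) ^ 2⌋₊ (φ u) := by
  obtain ⟨C, hC0, hC⟩ := good_loc d a hd ha A hA Set.univ Set.univ hWB 1 one_pos
    (fun _ _ _ _ => Set.mem_univ _) M K
  obtain ⟨c0, hc00, hc0⟩ := exists_c0
  refine ⟨C * (1 + 5 * c0 ^ 2), by positivity, ?_⟩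
  intro Ω _ P _ ω h lam t h0 h1 ht
  obtain ⟨G, hG1, hG2, hG3⟩ := hC Ω P ω h lam t h0 h1 ht
  refine ⟨G, hG1, hG2, ?_⟩
  intro s hs n r x hx hr hrl φ hφ t0 t1 ht01
  have hN : 2 ≤ ((n : ℝ) + 2) * t := by
    have : (0 : ℝ) ≤ n := Nat.cast_nonneg n
    nlinarith
  have hl := log_lower h0 h1
  have hl2 := ell_lower h0 h1 hN
  unfold ell at hl2
  set l := log (1 / lam) with hldef
  set L := log ((n + 2) * t / lam) with hLdef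
  have hl0 : 0 < l := by linarith
  have hL0 : 0 < L := by linarith
  have hr1 : (1 : ℝ) ≤ r := by exact_mod_cast hr
  have hlam : 0 < lam ^ 2 := by positivity
  have hτ : 0 < (1 / lam) ^ 2 := by positivity
  have h1' := dyn_bound c0 hc0 (fun y => lam * ω y s) x r ⌊(1 / lam) ^ 2⌋₊
    (C * (r ^ a * (lam ^ 2 * l ^ 2 * L))) (C * (r ^ a * (1 / (lam ^ 2 * L))))
    (by positivity) (by positivity) (fun E ψ => by
      refine (hG3 s hs n r x hx hr hrl E (Set.mem_univ _) ψ).trans (le_of_eq ?_)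
      ring) φ hφ t0 t1 ((1 / lam) ^ 2) hτ ht01
  refine h1'.trans ?_
  have hI : 0 ≤ ∫ u in (t0 - (1 / lam) ^ 2)..(t1 + (1 / lam) ^ 2),
      mass x ⌊(1 / lam) ^ 2⌋₊ (φ u) :=
    intervalIntegral.integral_nonneg (by linarith) fun t _ => mass_nonneg _ _ _
  apply mul_le_mul_of_nonneg_right _ hI
  have e1 : C * (r ^ a * (1 / (lam ^ 2 * L))) * (2 * c0 / (1 / lam) ^ 2) ^ 2 =
      C * r ^ a * (4 * c0 ^ 2 * lam ^ 2 / L) := by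
    field_simp
    ring
  have e2 : 4 * c0 ^ 2 * lam ^ 2 / L ≤ 5 * c0 ^ 2 * (lam ^ 2 * l ^ 2 * L) := by
    rw [div_le_iff₀ hL0]
    have h3 : (69 / 100) ^ 2 ≤ l ^ 2 := pow_le_pow_left₀ (by norm_num) hl 2
    have h4 : (138 / 100) ^ 2 ≤ L ^ 2 := pow_le_pow_left₀ (by norm_num) hl2 2
    have h5 : (69 / 100) ^ 2 * (138 / 100) ^ 2 ≤ l ^ 2 * L ^ 2 :=
      mul_le_mul h3 h4 (by norm_num) (by positivity)
    have h6 : 4 ≤ 5 * (l ^ 2 * L ^ 2) := by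
      have : (4 : ℝ) / 5 ≤ (69 / 100) ^ 2 * (138 / 100) ^ 2 := by norm_num
      linarith
    calc 4 * c0 ^ 2 * lam ^ 2 = 4 * (c0 ^ 2 * lam ^ 2) := by ring
      _ ≤ 5 * (l ^ 2 * L ^ 2) * (c0 ^ 2 * lam ^ 2) := mul_le_mul_of_nonneg_right h6 (by positivity)
      _ = _ := by ring
  rw [e1]
  have e3 : C * r ^ a * (4 * c0 ^ 2 * lam ^ 2 / L) ≤
      C * r ^ a * (5 * c0 ^ 2 * (lam ^ 2 * l ^ 2 * L)) := mul_le_mul_of_nonneg_left e2 (by positivity)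
  calc C * (r ^ a * (lam ^ 2 * l ^ 2 * L)) + C * r ^ a * (4 * c0 ^ 2 * lam ^ 2 / L)
      ≤ C * (r ^ a * (lam ^ 2 * l ^ 2 * L)) + C * r ^ a * (5 * c0 ^ 2 * (lam ^ 2 * l ^ 2 * L)) := by
        linarith
    _ = _ := by ring

end Pool.Agent.Helper2.AM
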