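import Pool.Agent.Helper2.AM.Box
import Pool.Agent.Helper2.AM.Final

/-!
# The local bound for a good box
-/

open Finset Real Matrix
open scoped ComplexOrder

noncomputable section

set_option linter.unusedSectionVars false

namespace Pool.Agent.Helper2.AM

variable {d : ℕ}

/-- The layers of the box within distance `r` of the centre. -/
def lay (R r : ℕ) : Finset (Fin (2 * R + 1)) := univ.filter fun y => |(y : ℤ) - R| ≤ r

lemma lay_card (R r : ℕ) : (lay R r).card ≤ 2 * r + 1 := by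
  have h : (lay R r).image (fun y : Fin (2 * R + 1) => (y : ℤ) - R) ⊆
      Finset.Icc (-(r : ℤ)) r := by
    intro z hz
    rw [Finset.mem_image] at hz
    obtain ⟨y, hy, rfl⟩ := hz
    rw [Finset.mem_Icc, ← abs_le]
    exact (Finset.mem_filter.1 hy).2
  have h2 := Finset.card_le_card h
  rw [Finset.card_image_of_injective _ (fun a b hab => by
    apply Fin.ext
    have : (a : ℤ) - R = (b : ℤ) - R := hab
    omega), Int.card_Icc] at h2
  refine h2.trans (le_of_eq ?_)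
  omega

/-- Weighted norm of a combination of the vectors `a_x`. -/
lemma nsq_comb (R : ℕ) (E0 ε : ℝ) (hε : 0 < ε) (c : (Fin d → Fin (2 * R + 1)) → ℂ) :
    nsq (fun k => ∑ x, c x * av R E0 ε x k) =
      ∑ k, wt (en (2 * R + 1) k) E0 ε * ‖(Bm d R *ᵥ c) k‖ ^ 2 := by
  unfold nsq
  refine Finset.sum_congr rfl fun k _ => ?_
  have h1 : ∑ x, c x * av R E0 ε x k =
      ((√(wt (en (2 * R + 1) k) E0 ε) : ℝ) : ℂ) * (Bm d R *ᵥ c) k := by
    rw [mulVec, dotProduct, Finset.mul_sum]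
    refine Finset.sum_congr rfl fun x _ => ?_
    simp only [av, Bm, of_apply]
    ring
  simp only
  rw [h1, norm_mul, mul_pow, Complex.norm_real, Real.norm_eq_abs, sq_abs,
    sq_sqrt (wt_pos _ _ _ hε).le]

/-- Duality: mass of `f` on a small cube. -/
lemma cube_dual (R : ℕ) (E0 ε B : ℝ) (hε : 0 < ε) (u : (Fin d → Fin (2 * R + 1)) → ℂ)
    (c : (Fin d → Fin (2 * R + 1)) → ℂ) (hB : 0 ≤ B)
    (hc : ∀ x, c x ≠ 0 → c x = star (av R E0 ε x) ⬝ᵥ u)
    (hW : ∑ k, wt (en (2 * R + 1) k) E0 ε * ‖(Bm d R *ᵥ c) k‖ ^ 2 ≤ B * nsq c) :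
    nsq c ≤ B * nsq u := by
  set b : (Fin d → Fin (2 * R + 1)) → ℂ := fun k => ∑ x, c x * av R E0 ε x k with hb
  have h1 : star b ⬝ᵥ u = ((nsq c : ℝ) : ℂ) := by
    have e1 : star b ⬝ᵥ u = ∑ x, star (c x) * (star (av R E0 ε x) ⬝ᵥ u) := by
      simp only [dotProduct, Pi.star_apply, hb, star_sum, star_mul', Finset.sum_mul]
      rw [Finset.sum_comm]
      refine Finset.sum_congr rfl fun x _ => ?_
      rw [Finset.mul_sum]
      refine Finset.sum_congr rfl fun k _ => ?_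
      ring
    rw [e1]
    unfold nsq
    rw [Complex.ofReal_sum]
    refine Finset.sum_congr rfl fun x _ => ?_
    by_cases hx : c x = 0
    · rw [hx]; simp
    · rw [← hc x hx, Complex.star_def, Complex.conj_mul']
      push_cast
      rfl
  have h2 := dot_sq_le b u
  rw [h1, Complex.norm_real, Real.norm_eq_abs, sq_abs, hb, nsq_comb R E0 ε hε c] at h2
  have hc0 : 0 ≤ nsq c := Finset.sum_nonneg fun i _ => by positivity
  have hu0 : 0 ≤ nsq u := Finset.sum_nonneg fun i _ => by positivity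
  have h3 : nsq c ^ 2 ≤ B * nsq c * nsq u := h2.trans (mul_le_mul_of_nonneg_right hW hu0)
  rcases hc0.eq_or_lt with h | h
  · rw [← h]; positivity
  · have h4 : nsq c * nsq c ≤ nsq c * (B * nsq u) := by nlinarith
    exact le_of_mul_le_mul_left h4 h

lemma cut_ge_half (R r : ℕ) (hR : 1 ≤ R) (hr : 2 * r ≤ R) (y : Fin d → ℤ)
    (hy : ∀ j, |y j| ≤ r) : 1 / 2 ≤ cut R y := by
  have hR' : (0 : ℝ) < R := by exact_mod_cast hR
  have h1 : ‖y‖ ≤ r := by
    rw [pi_norm_le_iff_of_nonneg (by positivity)]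
    intro i
    rw [Int.norm_eq_abs]
    exact_mod_cast hy i
  unfold cut
  refine le_trans ?_ (le_max_right _ _)
  have h2 : ‖y‖ / R ≤ 1 / 2 := by
    rw [div_le_iff₀ hR']
    have : (2 * r : ℝ) ≤ R := by exact_mod_cast hr
    linarith
  linarith

/-- The local bound for a good box, centred at the origin. -/
theorem cube_bound_zero (a : ℕ) (A : ℝ) (S : Set ℝ) (hWB : WB d a A S) (hA : 0 ≤ A)
    (R r : ℕ) (hR : 1 ≤ R) (hr : 2 * r ≤ R) (V : (Fin d → ℤ) → ℝ)
    (v : (Fin d → Fin (2 * R + 1)) → ℝ) (c0 lam E E0 ε : ℝ) (hE0 : E0 ∈ S) (hε : 0 < ε)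
    (hε1 : ε ≤ 1 / 2) (hεL : 1 ≤ ε * (2 * R + 1 : ℕ)) (hlam : 0 < lam)
    (hV : ∀ x, V (pos R x) = lam * v x + c0)
    (hX : ∀ u, nsq ((∑ x, ((v x : ℝ) : ℂ) • ro (av R E0 ε x)) *ᵥ u) ≤
      (1 / (2 * lam)) ^ 2 * nsq u) (hRε : 2 * d / R ≤ ε) (hE : |E - c0 - E0| ≤ ε)
    (ψ : (Fin d → ℤ) → ℂ) :
    mass 0 r ψ ≤ 4 * (A * (2 * r + 1 : ℕ) ^ a * log (1 / ε)) *
      (8 / ε * mass 0 (R + 1) (fun y => schr V ψ y - E * ψ y) + 72 * ε * mass 0 (R + 1) ψ) := by
  obtain ⟨u, hu1, hu2⟩ := det_core_loc R hR V v c0 lam E E0 ε hε hlam hV hX ψ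
  have hlog : 0 ≤ log (1 / ε) := log_nonneg (by rw [le_div_iff₀ hε]; linarith)
  set f := trunc R ψ with hf
  set c : (Fin d → Fin (2 * R + 1)) → ℂ := fun x =>
    if ∀ j, |pos R x j| ≤ r then f (pos R x) else 0 with hc
  set B : ℝ := A * (2 * r + 1 : ℕ) ^ a * log (1 / ε) with hB
  have hB0 : 0 ≤ B := by positivity
  have h1 : nsq c ≤ B * nsq u := by
    apply cube_dual R E0 ε B hε u c hB0
    · intro x hx
      rw [hc] at hx ⊢
      simp only at hx ⊢
      split_ifs at hx ⊢ with h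
      · exact hu1 x
      · exact absurd rfl hx
    · apply hWB R E0 ε hE0 hε hε1 hεL (2 * r + 1) (fun _ => lay R r) (by omega) (by omega)
        (fun _ => lay_card R r) c
      intro j x hx
      rw [hc]
      simp only
      rw [if_neg]
      intro h
      apply hx
      unfold lay
      rw [Finset.mem_filter]
      exact ⟨mem_univ _, h j⟩
  -- recover the mass of `ψ`
  have h2 : mass 0 r ψ ≤ 4 * nsq c := by
    have e1 : mass 0 r ψ ≤ ∑ x : Fin d → Fin (2 * R + 1),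
        (if ∀ j, |pos R x j| ≤ r then ‖ψ (pos R x)‖ ^ 2 else 0) := by
      unfold mass
      rw [← Finset.sum_filter]
      have himg : cube (0 : Fin d → ℤ) r ⊆ (univ.filter fun x : Fin d → Fin (2 * R + 1) =>
          ∀ j, |pos R x j| ≤ r).image (pos R) := by
        intro y hy
        rw [mem_cube] at hy
        have hy' : ∀ j, |y j| ≤ (r : ℤ) := fun j => by
          have := hy j
          rwa [Pi.zero_apply, sub_zero] at this
        obtain ⟨z, hz⟩ := exists_pos R y (fun j => (hy' j).trans (by exact_mod_cast (by omega)))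
        rw [Finset.mem_image]
        refine ⟨z, ?_, hz⟩
        rw [Finset.mem_filter, hz]
        exact ⟨mem_univ _, hy'⟩
      refine (Finset.sum_le_sum_of_subset_of_nonneg himg fun _ _ _ => by positivity).trans ?_
      rw [Finset.sum_image (fun a _ b _ h => pos_injective R h)]
    refine e1.trans ?_
    unfold nsq
    rw [Finset.mul_sum]
    refine Finset.sum_le_sum fun x _ => ?_
    rw [hc]
    simp only
    split_ifs with h
    · have h3 := cut_ge_half R r hR hr (pos R x) h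
      rw [hf]
      unfold trunc
      rw [norm_mul, Complex.norm_real, Real.norm_eq_abs, abs_of_nonneg (cut_nonneg R _), mul_pow]
      have h4 : 1 ≤ 4 * cut R (pos R x) ^ 2 := by nlinarith
      calc ‖ψ (pos R x)‖ ^ 2 = 1 * ‖ψ (pos R x)‖ ^ 2 := (one_mul _).symm
        _ ≤ (4 * cut R (pos R x) ^ 2) * ‖ψ (pos R x)‖ ^ 2 :=
          mul_le_mul_of_nonneg_right h4 (by positivity)
        _ = _ := by ring
    · simp
  -- the right-hand side
  have h3 : nsq u ≤ 8 / ε * mass 0 (R + 1) (fun y => schr V ψ y - E * ψ y) +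
      72 * ε * mass 0 (R + 1) ψ := by
    refine hu2.trans ?_
    rw [← nb_sq_mass_zero, ← nb_sq_mass_zero]
    set a' := nb (R + 1) (fun x => schr V ψ x - E * ψ x) with ha'
    set b' := nb (R + 1) ψ with hb'
    have ha0 : 0 ≤ a' := nb_nonneg _ _
    have hb0 : 0 ≤ b' := nb_nonneg _ _
    have hsum : 2 * (d : ℝ) / R + |E - c0 - E0| + ε ≤ 3 * ε := by linarith
    have h0 : 0 ≤ 2 * (d : ℝ) / R + |E - c0 - E0| + ε := by positivity
    have h1 : (a' + (2 * d / R + |E - c0 - E0| + ε) * b') ^ 2 ≤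
        2 * a' ^ 2 + 18 * ε ^ 2 * b' ^ 2 := by
      have h2 : a' + (2 * d / R + |E - c0 - E0| + ε) * b' ≤ a' + 3 * ε * b' := by
        have := mul_le_mul_of_nonneg_right hsum hb0
        linarith
      have h3 : 0 ≤ a' + (2 * d / R + |E - c0 - E0| + ε) * b' := by positivity
      have h4 := pow_le_pow_left₀ h3 h2 2
      nlinarith [sq_nonneg (a' - 3 * ε * b')]
    calc (4 / ε) * (a' + (2 * d / R + |E - c0 - E0| + ε) * b') ^ 2
        ≤ (4 / ε) * (2 * a' ^ 2 + 18 * ε ^ 2 * b' ^ 2) :=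
          mul_le_mul_of_nonneg_left h1 (by positivity)
      _ = 8 / ε * a' ^ 2 + 72 * ε * b' ^ 2 := by field_simp; ring
  calc mass 0 r ψ ≤ 4 * nsq c := h2
    _ ≤ 4 * (B * nsq u) := by linarith
    _ ≤ 4 * (B * (8 / ε * mass 0 (R + 1) (fun y => schr V ψ y - E * ψ y) +
      72 * ε * mass 0 (R + 1) ψ)) := by gcongr
    _ = _ := by ring

lemma mass_shift (x : Fin d → ℤ) (n : ℕ) (ψ : (Fin d → ℤ) → ℂ) :
    mass 0 n (fun y => ψ (x + y)) = mass x n ψ := by
  rw [← nb_sq_mass_zero, nb_sq_mass]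

/-- The local bound for a good box. -/
theorem cube_bound (a : ℕ) (A : ℝ) (S : Set ℝ) (hWB : WB d a A S) (hA : 0 ≤ A)
    (R r : ℕ) (hR : 1 ≤ R) (hr : 2 * r ≤ R) (V : (Fin d → ℤ) → ℝ) (x0 : Fin d → ℤ)
    (v : (Fin d → Fin (2 * R + 1)) → ℝ) (c0 lam E E0 ε : ℝ) (hE0 : E0 ∈ S) (hε : 0 < ε)
    (hε1 : ε ≤ 1 / 2) (hεL : 1 ≤ ε * (2 * R + 1 : ℕ)) (hlam : 0 < lam)
    (hV : ∀ x, V (x0 + pos R x) = lam * v x + c0)
    (hX : ∀ u, nsq ((∑ x, ((v x : ℝ) : ℂ) • ro (av R E0 ε x)) *ᵥ u) ≤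
      (1 / (2 * lam)) ^ 2 * nsq u) (hRε : 2 * d / R ≤ ε) (hE : |E - c0 - E0| ≤ ε)
    (ψ : (Fin d → ℤ) → ℂ) :
    mass x0 r ψ ≤ 4 * (A * (2 * r + 1 : ℕ) ^ a * log (1 / ε)) *
      (8 / ε * mass x0 (R + 1) (fun y => schr V ψ y - E * ψ y) + 72 * ε * mass x0 (R + 1) ψ) := by
  have h := cube_bound_zero a A S hWB hA R r hR hr (fun y => V (x0 + y)) v c0 lam E E0 ε hE0 hε
    hε1 hεL hlam hV hX hRε hE (fun y => ψ (x0 + y))
  rw [mass_shift, mass_shift] at h
  have e : (fun y => schr (fun y => V (x0 + y)) (fun y => ψ (x0 + y)) y - E * ψ (x0 + y)) =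
      fun y => (fun z => schr V ψ z - E * ψ z) (x0 + y) := by
    funext y
    rw [schr_shift]
  have e2 := mass_shift x0 (R + 1) (fun z => schr V ψ z - E * ψ z)
  rw [e, e2] at h
  exact h

end Pool.Agent.Helper2.AM
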