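import Pool.Agent.Helper2.AM.Good

/-!
# Local spreading of all approximate eigenfunctions up to the kinetic scale, at all energies
(helper file of the hand-in MP_28b024_mp.BeyondKinetic)
-/

open Real MeasureTheory ProbabilityTheory

noncomputable section

namespace Pool.Agent.Helper2.AM.LM

/-- The Anderson Hamiltonian `-Δ + λ v` acting on functions on `ℤ^d`. -/
def ham {d : ℕ} (lam : ℝ) (v : (Fin d → ℤ) → ℝ) (ψ : (Fin d → ℤ) → ℂ) (x : Fin d → ℤ) : ℂ :=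
  ∑ j : Fin d, (2 * ψ x - ψ (x + Pi.single j 1) - ψ (x - Pi.single j 1)) +
    ((lam * v x : ℝ) : ℂ) * ψ x

/-- The mass of `ψ` in the cube of radius `r` around `x`. -/
def mass {d : ℕ} (x : Fin d → ℤ) (r : ℕ) (ψ : (Fin d → ℤ) → ℂ) : ℝ :=
  ∑ y ∈ Fintype.piFinset fun j => Finset.Icc (x j - r) (x j + r), ‖ψ y‖ ^ 2

/-- Independent, identically distributed random variables `ω x`, `x ∈ ℤ^d`, with `|ω x| ≤ M`
almost surely. -/
structure IIDBounded {d : ℕ} {Ω : Type} [MeasurableSpace Ω] (P : Measure Ω) (M : ℝ)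
    (ω : (Fin d → ℤ) → Ω → ℝ) : Prop where
  indep : iIndepFun ω P
  ident : ∀ x, IdentDistrib (ω x) (ω 0) P P
  bdd : ∀ x, ∀ᵐ s ∂P, |ω x s| ≤ M

open Classical in
/-- The growth factor: `r` when the energy `E` has distance at least `δ` from the critical
energies `0, 4, ..., 4d` of the free operator, `r²` in general. -/
def growth (d : ℕ) (δ E : ℝ) (r : ℕ) : ℝ :=
  if ∀ i : ℕ, i ≤ d → δ ≤ |E - 4 * i| then r else (r : ℝ) ^ 2

theorem local_mass (d : ℕ) (hd : 3 ≤ d) (δ : ℝ) (hδ : 0 < δ) (M : ℝ) (K : ℕ) :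
    ∃ C : ℝ, 0 < C ∧ ∀ (Ω : Type) [MeasurableSpace Ω] (P : Measure Ω) [IsProbabilityMeasure P]
      (ω : (Fin d → ℤ) → Ω → ℝ), IIDBounded P M ω →
      ∀ lam t : ℝ, 0 < lam → lam ≤ 1 / 2 → 1 ≤ t →
      ∃ G : Set Ω, MeasurableSet G ∧ P Gᶜ ≤ ENNReal.ofReal ((lam / t) ^ K) ∧
      ∀ s ∈ G, ∀ (n r : ℕ) (x : Fin d → ℤ), (∀ j, |x j| ≤ n) → 1 ≤ r → (r : ℝ) ≤ (1 / lam) ^ 2 →
        ∀ (E : ℝ) (ψ : (Fin d → ℤ) → ℂ),
        mass x r ψ ≤ C * growth d δ E r *
          (lam ^ 2 * log (1 / lam) ^ 2 * log ((n + 2) * t / lam) * mass x ⌊(1 / lam) ^ 2⌋₊ ψ +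
            mass x ⌊(1 / lam) ^ 2⌋₊ (fun y => ham lam (fun z => ω z s) ψ y - E * ψ y) /
              (lam ^ 2 * log ((n + 2) * t / lam))) := by
  obtain ⟨m, rfl⟩ : ∃ m, d = m + 3 := ⟨d - 3, by omega⟩
  obtain ⟨C1, hC1, h1C⟩ := AM.good_loc (m + 3) 2 (by omega) (by norm_num) _
    (by have : (0 : ℝ) ≤ 12 * ((m + 3) * 1875) := by positivity
        linarith) Set.univ Set.univ (AM.WB_all m) 1 one_pos
    (fun _ _ _ _ => Set.mem_univ _) M (K + 1)
  obtain ⟨C2, hC2, h2C⟩ := AM.good_loc (m + 3) 1 (by omega) le_rfl _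
    (by have hd' : (0 : ℝ) < ((m + 3 : ℕ) : ℝ) := by positivity
        have : 0 ≤ 12 * (((m + 3 : ℕ) : ℝ) * (1 / √((δ / 2) / (8 * ((m + 3 : ℕ) : ℝ))) + 2)
          + 2 / (δ / 2)) := by positivity
        linarith) (AM.bulk (m + 3) (δ / 2)) (AM.bulk (m + 3) δ)
    (AM.WB_bulk (by omega) (δ / 2) (by positivity)) (δ / 2) (by positivity)
    (fun E hE E0 hE0 i hi => by
      have h1 := hE i hi
      have h2 : |E - 4 * i| ≤ |E - E0| + |E0 - 4 * i| := by
        have : E - 4 * (i : ℝ) = (E - E0) + (E0 - 4 * i) := by ring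
        rw [this]
        exact abs_add_le _ _
      linarith) M (K + 1)
  refine ⟨max C1 C2, lt_max_of_lt_left hC1, ?_⟩
  intro Ω _ P _ ω h lam t h0 h1 ht
  obtain ⟨G, hG1, hG2, hG3⟩ := h1C Ω P ω ⟨h.indep, h.ident, h.bdd⟩ lam t h0 h1 ht
  obtain ⟨G', hG1', hG2', hG3'⟩ := h2C Ω P ω ⟨h.indep, h.ident, h.bdd⟩ lam t h0 h1 ht
  have hlt : lam / t ≤ 1 / 2 := by
    rw [div_le_iff₀ (by linarith)]
    nlinarith
  have hlt0 : 0 ≤ lam / t := by positivity
  refine ⟨G ∩ G', hG1.inter hG1', ?_, ?_⟩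
  · rw [Set.compl_inter]
    refine (measure_union_le _ _).trans ((add_le_add hG2 hG2').trans ?_)
    rw [← ENNReal.ofReal_add (by positivity) (by positivity)]
    apply ENNReal.ofReal_le_ofReal
    rw [pow_succ]
    nlinarith [pow_nonneg hlt0 K]
  · intro s hs n r x hx hr hrl E ψ
    have hlam : 0 < log (1 / lam) := Real.log_pos (by
      rw [lt_div_iff₀ h0]; linarith)
    have harg : 1 ≤ ((n : ℝ) + 2) * t / lam := by
      rw [le_div_iff₀ h0]
      have : (0 : ℝ) ≤ n := Nat.cast_nonneg n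
      nlinarith
    have hlog : 0 ≤ log (((n : ℝ) + 2) * t / lam) := Real.log_nonneg harg
    have hm : ∀ (y : Fin (m + 3) → ℤ) (ρ : ℕ) (f : (Fin (m + 3) → ℤ) → ℂ), 0 ≤ mass y ρ f :=
      fun y ρ f => Finset.sum_nonneg fun _ _ => by positivity
    have hX : 0 ≤ lam ^ 2 * log (1 / lam) ^ 2 * log ((n + 2) * t / lam) *
        mass x ⌊(1 / lam) ^ 2⌋₊ ψ +
          mass x ⌊(1 / lam) ^ 2⌋₊ (fun y => ham lam (fun z => ω z s) ψ y - E * ψ y) /
            (lam ^ 2 * log ((n + 2) * t / lam)) :=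
      add_nonneg (mul_nonneg (by positivity) (hm _ _ _))
        (div_nonneg (hm _ _ _) (by positivity))
    unfold growth
    split_ifs with hE
    · have h2 := hG3' s hs.2 n r x hx hr hrl E hE ψ
      rw [← mul_assoc, pow_one] at h2
      refine h2.trans (mul_le_mul_of_nonneg_right ?_ hX)
      exact mul_le_mul_of_nonneg_right (le_max_right _ _) (by positivity)
    · have h2 := hG3 s hs.1 n r x hx hr hrl E (Set.mem_univ _) ψ
      rw [← mul_assoc] at h2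
      refine h2.trans (mul_le_mul_of_nonneg_right ?_ hX)
      exact mul_le_mul_of_nonneg_right (le_max_left _ _) (by positivity)

end Pool.Agent.Helper2.AM.LM
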