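import Pool.Agent.Helper2.AM.Params

/-!
# Parameters depending on the distance to the origin
-/

open Finset Real

noncomputable section

namespace Pool.Agent.Helper2.AM

/-- `log (N / λ)`. -/
def ell (lam N : ℝ) : ℝ := log (N / lam)

/-- `κ`. -/
def kp (d : ℕ) (A M : ℝ) (P : ℕ) : ℝ := 400 * A * M ^ 2 * (P + 2) + 20 * d + 4

/-- `ε = κ λ² log (1/λ) log (N/λ)`. -/
def epsN (d : ℕ) (A M : ℝ) (P : ℕ) (lam N : ℝ) : ℝ :=
  kp d A M P * lam ^ 2 * log (1 / lam) * ell lam N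

/-- Moment order. -/
def pN (P : ℕ) (lam N : ℝ) : ℕ := ⌈(P : ℝ) * ell lam N⌉₊

variable {lam N : ℝ}

lemma ell_lower (h0 : 0 < lam) (h1 : lam ≤ 1 / 2) (hN : 2 ≤ N) : 138 / 100 ≤ ell lam N := by
  unfold ell
  have h2 : (4 : ℝ) ≤ N / lam := by
    rw [le_div_iff₀ h0]
    linarith
  have h3 : log 4 ≤ log (N / lam) := log_le_log (by norm_num) h2
  have h4 : log (4 : ℝ) = 2 * log 2 := by
    rw [show (4 : ℝ) = 2 ^ 2 by norm_num, log_pow]; norm_num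
  rw [h4] at h3
  linarith [log_two_gt_d9]

lemma kp_ge (d : ℕ) (A M : ℝ) (P : ℕ) (hA : 0 ≤ A) : 20 * (d : ℝ) + 4 ≤ kp d A M P := by
  unfold kp
  have : 0 ≤ 400 * A * M ^ 2 * ((P : ℝ) + 2) := by positivity
  linarith

lemma kp_ge4 (d : ℕ) (A M : ℝ) (P : ℕ) (hA : 0 ≤ A) : 4 ≤ kp d A M P := by
  have := kp_ge d A M P hA
  have : (0 : ℝ) ≤ d := Nat.cast_nonneg d
  linarith

lemma ll_ge (h0 : 0 < lam) (h1 : lam ≤ 1 / 2) (hN : 2 ≤ N) :
    95 / 100 ≤ log (1 / lam) * ell lam N := by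
  have hl := log_lower h0 h1
  have hl2 := ell_lower h0 h1 hN
  have := mul_le_mul hl hl2 (by norm_num) (by linarith)
  linarith

lemma epsN_ge (d : ℕ) (A M : ℝ) (P : ℕ) (hA : 0 ≤ A) (h0 : 0 < lam) (h1 : lam ≤ 1 / 2) (hN : 2 ≤ N) :
    (19 * d + 3) * lam ^ 2 ≤ epsN d A M P lam N := by
  unfold epsN
  have hk := kp_ge d A M P hA
  have hll := ll_ge h0 h1 hN
  have h2 : 0 < lam ^ 2 := by positivity
  have hd : (0 : ℝ) ≤ d := Nat.cast_nonneg d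
  have h3 : (20 * (d : ℝ) + 4) * (95 / 100) ≤ kp d A M P * (log (1 / lam) * ell lam N) :=
    mul_le_mul hk hll (by norm_num) (by linarith)
  have h4 : 19 * (d : ℝ) + 3 ≤ kp d A M P * (log (1 / lam) * ell lam N) := by linarith
  calc (19 * (d : ℝ) + 3) * lam ^ 2 ≤ kp d A M P * (log (1 / lam) * ell lam N) * lam ^ 2 :=
        mul_le_mul_of_nonneg_right h4 h2.le
    _ = _ := by ring

lemma epsN_ge' (d : ℕ) (A M : ℝ) (P : ℕ) (hA : 0 ≤ A) (h0 : 0 < lam) (h1 : lam ≤ 1 / 2) (hN : 2 ≤ N) :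
    lam ^ 2 ≤ epsN d A M P lam N := by
  have h2 := epsN_ge d A M P hA h0 h1 hN
  have h3 : 0 < lam ^ 2 := by positivity
  have hd : (0 : ℝ) ≤ d := Nat.cast_nonneg d
  nlinarith [mul_nonneg hd h3.le]

lemma epsN_pos (d : ℕ) (A M : ℝ) (P : ℕ) (hA : 0 ≤ A) (h0 : 0 < lam) (h1 : lam ≤ 1 / 2) (hN : 2 ≤ N) :
    0 < epsN d A M P lam N := lt_of_lt_of_le (by positivity) (epsN_ge' d A M P hA h0 h1 hN)

lemma log_epsN_le (d : ℕ) (A M : ℝ) (P : ℕ) (hA : 0 ≤ A) (h0 : 0 < lam) (h1 : lam ≤ 1 / 2)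
    (hN : 2 ≤ N) : log (1 / epsN d A M P lam N) ≤ 2 * log (1 / lam) := by
  have h2 := epsN_ge' d A M P hA h0 h1 hN
  have h3 : 1 / epsN d A M P lam N ≤ (1 / lam) ^ 2 := by
    rw [div_pow, one_pow]
    exact one_div_le_one_div_of_le (by positivity) h2
  have h4 : log (1 / epsN d A M P lam N) ≤ log ((1 / lam) ^ 2) := by
    apply log_le_log _ h3
    have := epsN_pos d A M P hA h0 h1 hN
    positivity
  rw [log_pow] at h4
  exact_mod_cast h4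

/-- The box fits in the cube of radius `λ⁻²`. -/
lemma R_fits (d : ℕ) (A M : ℝ) (P : ℕ) (hA : 0 ≤ A) (h0 : 0 < lam) (h1 : lam ≤ 1 / 2)
    (hN : 2 ≤ N) : RP d (epsN d A M P lam N) + 1 ≤ ⌊(1 / lam) ^ 2⌋₊ := by
  have h2 := epsN_ge d A M P hA h0 h1 hN
  have hε := epsN_pos d A M P hA h0 h1 hN
  have hd : (0 : ℝ) ≤ d := Nat.cast_nonneg d
  have hl2 : 0 < lam ^ 2 := by positivity
  have h4 : 4 ≤ (1 / lam) ^ 2 := by
    have : 2 ≤ 1 / lam := by rw [le_div_iff₀ h0]; linarith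
    nlinarith
  have h3 : 2 * (d : ℝ) / epsN d A M P lam N ≤ 1 / 8 * (1 / lam) ^ 2 := by
    rw [div_le_iff₀ hε]
    have e : 1 / 8 * (1 / lam) ^ 2 * ((19 * d + 3) * lam ^ 2) = 1 / 8 * (19 * d + 3) := by
      field_simp
    calc 2 * (d : ℝ) ≤ 1 / 8 * (19 * d + 3) := by linarith
      _ = 1 / 8 * (1 / lam) ^ 2 * ((19 * d + 3) * lam ^ 2) := e.symm
      _ ≤ 1 / 8 * (1 / lam) ^ 2 * epsN d A M P lam N :=
        mul_le_mul_of_nonneg_left h2 (by positivity)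
  apply Nat.le_floor
  unfold RP
  push_cast
  have h5 : ((⌈2 * (d : ℝ) / epsN d A M P lam N⌉₊ : ℕ) : ℝ) <
      2 * (d : ℝ) / epsN d A M P lam N + 1 := Nat.ceil_lt_add_one (by positivity)
  linarith

lemma pN_spec (P : ℕ) (hP : 1 ≤ P) (h0 : 0 < lam) (h1 : lam ≤ 1 / 2) (hN : 2 ≤ N) :
    pN P lam N ≠ 0 ∧ ((pN P lam N : ℕ) : ℝ) ≤ (P + 2) * ell lam N ∧
      exp (-((pN P lam N : ℕ) : ℝ)) ≤ (lam / N) ^ P := by
  have hl := ell_lower h0 h1 hN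
  have hP' : (1 : ℝ) ≤ P := by exact_mod_cast hP
  have hx : 0 < (P : ℝ) * ell lam N := by positivity
  have h2 : (P : ℝ) * ell lam N ≤ (pN P lam N : ℕ) := Nat.le_ceil _
  have h3 : ((pN P lam N : ℕ) : ℝ) < (P : ℝ) * ell lam N + 1 := Nat.ceil_lt_add_one hx.le
  refine ⟨(Nat.ceil_pos.2 hx).ne', ?_, ?_⟩
  · nlinarith
  · have hpos : 0 < lam / N := by positivity
    have h4 : (lam / N) ^ P = exp (-((P : ℝ) * ell lam N)) := by
      have e1 : -((P : ℝ) * ell lam N) = (P : ℝ) * log (lam / N) := by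
        unfold ell
        rw [← inv_div N lam, log_inv]
        ring
      rw [e1, mul_comm, exp_mul, exp_log hpos, rpow_natCast]
    rw [h4]
    exact exp_le_exp.2 (by linarith)

/-- The moment factor is small. -/
lemma moment_smallN (d : ℕ) (A M : ℝ) (P : ℕ) (hA : 0 ≤ A) (hP : 1 ≤ P) (h0 : 0 < lam)
    (h1 : lam ≤ 1 / 2) (hN : 2 ≤ N) :
    (64 * (pN P lam N : ℕ) * M ^ 2 * (2 * A * log (1 / lam)) * lam ^ 2 / epsN d A M P lam N) ^
      (pN P lam N) ≤ (lam / N) ^ P := by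
  obtain ⟨hp0, hp1, hp2⟩ := pN_spec P hP h0 h1 hN
  have hl := log_lower h0 h1
  have hl0 : 0 < log (1 / lam) := by linarith
  have hl2 := ell_lower h0 h1 hN
  have hl20 : 0 < ell lam N := by linarith
  have hk : 0 < kp d A M P := by linarith [kp_ge4 d A M P hA]
  have hbase : 64 * (pN P lam N : ℕ) * M ^ 2 * (2 * A * log (1 / lam)) * lam ^ 2 /
      epsN d A M P lam N ≤ exp (-1) := by
    have e1 : 64 * (pN P lam N : ℕ) * M ^ 2 * (2 * A * log (1 / lam)) * lam ^ 2 /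
      epsN d A M P lam N = 128 * A * M ^ 2 * ((pN P lam N : ℕ) / ell lam N) / kp d A M P := by
      unfold epsN
      field_simp
      ring
    have e2 : ((pN P lam N : ℕ) : ℝ) / ell lam N ≤ P + 2 := by
      rw [div_le_iff₀ hl20]; exact hp1
    have e3 : 128 * A * M ^ 2 * ((pN P lam N : ℕ) / ell lam N) ≤ 128 * A * M ^ 2 * (P + 2) :=
      mul_le_mul_of_nonneg_left e2 (by positivity)
    have e4 : (1 / 3 : ℝ) ≤ exp (-1) := by
      rw [exp_neg, ← one_div]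
      apply one_div_le_one_div_of_le (exp_pos 1)
      linarith [exp_one_lt_d9]
    rw [e1, div_le_iff₀ hk]
    have e5 : (1 / 3) * kp d A M P ≤ exp (-1) * kp d A M P :=
      mul_le_mul_of_nonneg_right e4 hk.le
    have e6 : 128 * A * M ^ 2 * ((P : ℝ) + 2) ≤ (1 / 3) * kp d A M P := by
      unfold kp
      have : 0 ≤ A * M ^ 2 * ((P : ℝ) + 2) := by positivity
      have : (0 : ℝ) ≤ d := Nat.cast_nonneg d
      linarith
    linarith
  have hnn : 0 ≤ 64 * (pN P lam N : ℕ) * M ^ 2 * (2 * A * log (1 / lam)) * lam ^ 2 /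
      epsN d A M P lam N := by
    have := epsN_pos d A M P hA h0 h1 hN
    positivity
  calc (64 * (pN P lam N : ℕ) * M ^ 2 * (2 * A * log (1 / lam)) * lam ^ 2 /
      epsN d A M P lam N) ^ (pN P lam N) ≤ (exp (-1)) ^ (pN P lam N) :=
        pow_le_pow_left₀ hnn hbase _
    _ = exp (-((pN P lam N : ℕ) : ℝ)) := by
      rw [← exp_nat_mul]; congr 1; ring
    _ ≤ (lam / N) ^ P := hp2

/-- The polynomial prefactors are absorbed. -/
lemma prefactorN (d K n0 : ℕ) (ρ t : ℝ) (h0 : 0 < lam) (h1 : lam ≤ 1 / 2) (hρ : 0 ≤ ρ) (n : ℕ)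
    (ht : 1 ≤ t) (P : ℕ) (hP : P = K + 2 + 2 * d + n0 + (d + 2)) :
    ((2 * (n + 2)) ^ d * ((4 * d + 2 * ρ + 1) * (1 / lam) ^ 2)) *
      ((lam / ((n + 2) * t)) ^ P * ((4 * d + 3) * (1 / lam) ^ 2) ^ d) ≤
      (2 ^ d * (4 * d + 2 * ρ + 1) * (4 * d + 3) ^ d) * ((lam / t) ^ K * lam ^ n0) *
        (1 / (n + 2) ^ 2) := by
  have hinv : (1 / lam) * lam = 1 := by field_simp
  have ht0 : 0 < t := by linarith
  have hn : (0 : ℝ) < (n : ℝ) + 2 := by positivity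
  have hn1 : (1 : ℝ) ≤ (n : ℝ) + 2 := by
    have : (0 : ℝ) ≤ n := Nat.cast_nonneg n
    linarith
  have e1 : ((2 * ((n : ℝ) + 2)) ^ d * ((4 * d + 2 * ρ + 1) * (1 / lam) ^ 2)) *
      ((lam / ((n + 2) * t)) ^ P * ((4 * d + 3) * (1 / lam) ^ 2) ^ d) =
      (2 ^ d * (4 * d + 2 * ρ + 1) * (4 * d + 3) ^ d) * ((lam / t) ^ K * lam ^ n0) *
        (1 / (n + 2) ^ 2) *
        (((1 / lam) * lam) ^ 2 * ((1 / lam) * lam) ^ (2 * d) *
          (lam ^ (d + 2) * ((1 / t) ^ (2 + 2 * d + n0 + (d + 2)) *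
            (1 / (n + 2)) ^ (K + 2 + 2 * d + n0))) *
          (((n : ℝ) + 2) ^ d * (1 / (n + 2)) ^ d)) := by
    have e3 : (1 : ℝ) / ((n : ℝ) + 2) ^ 2 = (1 / ((n : ℝ) + 2)) ^ 2 := by rw [div_pow, one_pow]
    have e4 : lam / (((n : ℝ) + 2) * t) = lam * (1 / ((n : ℝ) + 2)) * (1 / t) := by
      field_simp
    rw [hP, e3, e4, div_eq_mul_one_div lam t]
    generalize (1 : ℝ) / ((n : ℝ) + 2) = y
    generalize (1 : ℝ) / lam = z
    generalize (1 : ℝ) / t = u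
    generalize ((n : ℝ) + 2) = w
    rw [mul_pow 2 w d, mul_pow z lam 2, mul_pow z lam (2 * d), mul_pow (4 * (d : ℝ) + 3) _ d,
      mul_pow (lam * y) u, mul_pow lam y, mul_pow lam u, ← pow_mul z 2 d]
    ring
  rw [e1, hinv]
  have e2 : ((n : ℝ) + 2) ^ d * (1 / (n + 2)) ^ d = 1 := by
    rw [← mul_pow, mul_one_div, div_self hn.ne', one_pow]
  rw [e2]
  simp only [one_pow, mul_one, one_mul]
  have h2 : lam ^ (d + 2) * ((1 / t) ^ (2 + 2 * d + n0 + (d + 2)) *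
      (1 / ((n : ℝ) + 2)) ^ (K + 2 + 2 * d + n0)) ≤ 1 := by
    have h3 : lam ^ (d + 2) ≤ 1 := pow_le_one₀ h0.le (by linarith)
    have h4 : (1 / ((n : ℝ) + 2)) ^ (K + 2 + 2 * d + n0) ≤ 1 := by
      apply pow_le_one₀ (by positivity)
      rw [div_le_one hn]; exact hn1
    have h5 : (1 / t) ^ (2 + 2 * d + n0 + (d + 2)) ≤ 1 := by
      apply pow_le_one₀ (by positivity)
      rw [div_le_one ht0]; exact ht
    have h6 : (1 / t) ^ (2 + 2 * d + n0 + (d + 2)) * (1 / ((n : ℝ) + 2)) ^ (K + 2 + 2 * d + n0) ≤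
        1 * 1 := mul_le_mul h5 h4 (by positivity) zero_le_one
    calc lam ^ (d + 2) * ((1 / t) ^ (2 + 2 * d + n0 + (d + 2)) *
      (1 / ((n : ℝ) + 2)) ^ (K + 2 + 2 * d + n0)) ≤ 1 * (1 * 1) :=
          mul_le_mul h3 h6 (by positivity) zero_le_one
      _ = 1 := by norm_num
  have h5 : 0 ≤ (2 ^ d * (4 * d + 2 * ρ + 1) * (4 * (d : ℝ) + 3) ^ d) *
      ((lam / t) ^ K * lam ^ n0) * (1 / ((n : ℝ) + 2) ^ 2) := by positivity
  exact mul_le_of_le_one_right h5 h2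

end Pool.Agent.Helper2.AM
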