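import Pool.Agent.Helper2.AM.Union

/-!
# The sup-norm theorem in dimension at least three
-/

open Finset Real Matrix MeasureTheory ProbabilityTheory
open scoped ComplexOrder ENNReal

noncomputable section

set_option linter.unusedSectionVars false

namespace Pool.Agent.Helper2.AM

variable {d : ℕ}

/-- The conclusion at a point from the basic inequality. -/
lemma conclude (A M lam ε a b t W : ℝ) (Q : ℕ) (hA : 2 ≤ A) (h0 : 0 < lam) (h1 : lam ≤ 1 / 2)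
    (hε : ε = epsP A M Q lam) (ha : 0 ≤ a) (hb : 0 ≤ b) (hW : W ≤ 2 * A * log (1 / lam))
    (ht : t ≤ W * (8 / ε * a + 72 * ε * b)) :
    t ≤ 144 * A * kap A M Q * (lam ^ 2 * log (1 / lam) ^ 3 * b +
      a / (lam ^ 2 * log (1 / lam))) := by
  have hl := log_lower h0 h1
  have hl0 : 0 < log (1 / lam) := by linarith
  have hA0 : 0 ≤ A := by linarith
  have hk := kap_ge A M Q hA0
  have hk0 : 0 < kap A M Q := by linarith
  have hε0 : 0 < ε := by rw [hε]; exact eps_pos A M Q hA0 h0 h1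
  have h2 : t ≤ 2 * A * log (1 / lam) * (8 / ε * a + 72 * ε * b) :=
    ht.trans (mul_le_mul_of_nonneg_right hW (by positivity))
  have e1 : 2 * A * log (1 / lam) * (8 / ε * a + 72 * ε * b) =
      144 * A * kap A M Q * (lam ^ 2 * log (1 / lam) ^ 3 * b) +
        16 * A / kap A M Q * (a / (lam ^ 2 * log (1 / lam))) := by
    rw [hε]
    unfold epsP
    field_simp
    ring
  have h3 : 16 * A / kap A M Q ≤ 144 * A * kap A M Q := by
    rw [div_le_iff₀ hk0]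
    nlinarith [mul_le_mul hk hk (by norm_num) (by linarith)]
  have h4 : 0 ≤ a / (lam ^ 2 * log (1 / lam)) := by positivity
  calc t ≤ _ := h2
    _ = _ := e1
    _ ≤ 144 * A * kap A M Q * (lam ^ 2 * log (1 / lam) ^ 3 * b) +
        144 * A * kap A M Q * (a / (lam ^ 2 * log (1 / lam))) := by
      have := mul_le_mul_of_nonneg_right h3 h4
      linarith
    _ = _ := by ring

/-- The trivial case of a large `ε`. -/
lemma conclude_trivial (A M lam a b t : ℝ) (Q : ℕ) (hA : 2 ≤ A) (h0 : 0 < lam) (h1 : lam ≤ 1 / 2)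
    (hε : 1 / 2 < epsP A M Q lam) (ha : 0 ≤ a) (hb : 0 ≤ b) (ht : t ≤ b) :
    t ≤ 144 * A * kap A M Q * (lam ^ 2 * log (1 / lam) ^ 3 * b +
      a / (lam ^ 2 * log (1 / lam))) := by
  have hl := log_lower h0 h1
  have hl0 : 0 < log (1 / lam) := by linarith
  have hA0 : 0 ≤ A := by linarith
  have hk := kap_ge A M Q hA0
  have hk0 : 0 < kap A M Q := by linarith
  have h4 : 0 ≤ 144 * A * kap A M Q * (a / (lam ^ 2 * log (1 / lam))) := by positivity
  have h5 : 1 ≤ 144 * A * kap A M Q * (lam ^ 2 * log (1 / lam) ^ 3) := by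
    unfold epsP at hε
    have h6 : 1 / 2 * (69 / 100) ≤ kap A M Q * lam ^ 2 * log (1 / lam) ^ 2 * log (1 / lam) :=
      mul_le_mul hε.le hl (by norm_num) (by positivity)
    calc (1 : ℝ) ≤ 144 * 2 * (1 / 2 * (69 / 100)) := by norm_num
      _ ≤ 144 * A * (kap A M Q * lam ^ 2 * log (1 / lam) ^ 2 * log (1 / lam)) := by
        apply mul_le_mul (by linarith) h6 (by norm_num) (by positivity)
      _ = _ := by ring
  have h6 := mul_le_mul_of_nonneg_right h5 hb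
  calc t ≤ 1 * b := by rw [one_mul]; exact ht
    _ ≤ 144 * A * kap A M Q * (lam ^ 2 * log (1 / lam) ^ 3) * b := h6
    _ ≤ _ := by
      have : 144 * A * kap A M Q * (lam ^ 2 * log (1 / lam) ^ 3 * b +
          a / (lam ^ 2 * log (1 / lam))) = 144 * A * kap A M Q * (lam ^ 2 * log (1 / lam) ^ 3) * b
          + 144 * A * kap A M Q * (a / (lam ^ 2 * log (1 / lam))) := by ring
      rw [this]
      linarith

lemma norm_sq_le_nrm2 (ψ : (Fin d → ℤ) → ℂ) (hψ : Summable fun x => ‖ψ x‖ ^ 2)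
    (x : Fin d → ℤ) : ‖ψ x‖ ^ 2 ≤ nrm2 ψ :=
  hψ.le_tsum x (fun _ _ => by positivity)

/-- On the complement of the bad events, `X` is small for every energy near the net, and
deterministically outside the window. -/
lemma good_energy {Ω : Type*} [MeasurableSpace Ω] {P : Measure Ω} [IsProbabilityMeasure P] {M : ℝ}
    {ω : (Fin d → ℤ) → Ω → ℝ} (h : IIDPotential P M ω) (R : ℕ) (ε lam ρ : ℝ) (hε : 0 < ε)
    (h0 : 0 < lam) (h1 : lam ≤ 1 / 2) (hρ : ρ = 1 + 4 * |M|) (x0 : Fin d → ℤ) (s : Ω)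
    (hs : ∀ y, |ω y s| ≤ M)
    (hgood : ∀ E0 ∈ net ρ ε ⌊(4 * d + 2 * ρ) / ε⌋₊, s ∉ bad P ω R E0 ε lam x0) (E' : ℝ) :
    ∃ E0, |E' - E0| ≤ ε ∧ (E0 ∈ net ρ ε ⌊(4 * d + 2 * ρ) / ε⌋₊ ∨
      ∀ k : Fin d → Fin (2 * R + 1), wt (en (2 * R + 1) k) E0 ε ≤ 1) ∧
      ∀ u, nsq (Xs P ω R E0 ε x0 s *ᵥ u) ≤ (1 / (2 * lam)) ^ 2 * nsq u := by
  by_cases hE : -ρ ≤ E' ∧ E' ≤ 4 * d + ρ
  · obtain ⟨E0, hE0, hE0'⟩ := exists_net d ρ ε E' hε hE.1 hE.2
    refine ⟨E0, hE0', Or.inl hE0, ?_⟩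
    intro u
    have := hgood E0 hE0
    unfold bad at this
    rw [Set.mem_ofPred_eq, not_exists] at this
    exact not_lt.1 (this u)
  · have hM := h.M_nonneg
    have hρ1 : 1 ≤ ρ := by rw [hρ]; linarith [abs_nonneg M]
    have hρ0 : 0 < ρ := by linarith
    have hE' : E' < -ρ ∨ 4 * d + ρ < E' := by
      rcases lt_or_ge E' (-ρ) with h2 | h2
      · exact Or.inl h2
      · right
        by_contra h3
        exact hE ⟨h2, not_lt.1 h3⟩
    have hw : ∀ k : Fin d → Fin (2 * R + 1), wt (en (2 * R + 1) k) E' ε ≤ 1 / ρ :=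
      fun k => wt_outer _ k E' ε ρ hρ0 hE'
    have hρ2 : 1 / ρ ≤ 1 := by rw [div_le_one hρ0]; exact hρ1
    refine ⟨E', by rw [sub_self, abs_zero]; exact hε.le, Or.inr fun k => (hw k).trans hρ2, ?_⟩
    intro u
    have h2 := X_det R E' ε (2 * M) (1 / ρ) hε (by positivity) hw
      (fun x => ω (x0 + pos R x) s - mean P ω) (fun x => by
        calc |ω (x0 + pos R x) s - mean P ω| ≤ |ω (x0 + pos R x) s| + |mean P ω| := abs_sub _ _
          _ ≤ M + M := add_le_add (hs _) h.abs_mean_le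
          _ = 2 * M := by ring) u
    refine h2.trans ?_
    apply mul_le_mul_of_nonneg_right _ (Finset.sum_nonneg fun i _ => by positivity)
    apply pow_le_pow_left₀ (by positivity)
    rw [mul_one_div, div_le_div_iff₀ hρ0 (by positivity), hρ, abs_of_nonneg hM]
    nlinarith

/-- Sup-norm bound for all approximate eigenvectors in dimension at least three. -/
theorem sup_bound (m : ℕ) (M : ℝ) (K : ℕ) :
    ∃ C : ℝ, 0 < C ∧ ∀ (Ω : Type) [MeasurableSpace Ω] (P : Measure Ω) [IsProbabilityMeasure P]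
      (ω : (Fin (m + 3) → ℤ) → Ω → ℝ), IIDPotential P M ω →
      ∀ lam : ℝ, 0 < lam → lam ≤ 1 / 2 →
      P {s | ∃ (x : Fin (m + 3) → ℤ) (E : ℝ) (ψ : (Fin (m + 3) → ℤ) → ℂ),
        (∀ j, |(x j : ℝ)| ≤ (1 / lam) ^ K) ∧ (Summable fun y => ‖ψ y‖ ^ 2) ∧
        C * (lam ^ 2 * log (1 / lam) ^ 3 * nrm2 ψ +
          nrm2 (fun y => schr (fun y => lam * ω y s) ψ y - E * ψ y) /
            (lam ^ 2 * log (1 / lam))) < ‖ψ x‖ ^ 2} ≤ ENNReal.ofReal (lam ^ K) := by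
  set A : ℝ := 12 * ((m + 3) * (12 ^ (m + 2) + 2)) + 2 with hAdef
  have hA2 : 2 ≤ A := by
    rw [hAdef]
    have : (0 : ℝ) ≤ 12 * ((m + 3) * (12 ^ (m + 2) + 2)) := by positivity
    linarith
  have hA0 : 0 ≤ A := by linarith
  set ρ : ℝ := 1 + 4 * |M| with hρdef
  have hρ0 : 0 ≤ ρ := by positivity
  obtain ⟨n0, hn0⟩ : ∃ n0 : ℕ, 3 ^ (m + 3) * (4 * ((m + 3 : ℕ) : ℝ) + 2 * ρ + 1) *
      (4 * ((m + 3 : ℕ) : ℝ) + 3) ^ (m + 3) ≤ (2 : ℝ) ^ n0 := by
    obtain ⟨n, hn⟩ := pow_unbounded_of_one_lt (3 ^ (m + 3) * (4 * ((m + 3 : ℕ) : ℝ) + 2 * ρ + 1) *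
      (4 * ((m + 3 : ℕ) : ℝ) + 3) ^ (m + 3)) (by norm_num : (1 : ℝ) < 2)
    exact ⟨n, hn.le⟩
  obtain ⟨Q, hQ⟩ : ∃ Q : ℕ, Q = K + K * (m + 3) + 2 + 2 * (m + 3) + n0 := ⟨_, rfl⟩
  have hk0 : 0 < kap A M Q := by linarith [kap_ge A M Q hA0]
  refine ⟨144 * A * kap A M Q, by positivity, ?_⟩
  intro Ω _ P _ ω h lam h0 h1
  rcases le_or_gt (epsP A M Q lam) (1 / 2) with hε | hε
  · -- main case
    set ε := epsP A M Q lam with hεdef
    have hε0 : 0 < ε := eps_pos A M Q hA0 h0 h1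
    obtain ⟨hR1, hR2, hR3, hR4⟩ := R_spec (m + 3) (by omega) ε hε0 (by linarith)
    have hWall : ∀ E0 : ℝ, (((2 * RP (m + 3) ε + 1 : ℕ) : ℝ) ^ (m + 3))⁻¹ *
        ∑ k : Fin (m + 3) → Fin (2 * RP (m + 3) ε + 1), wt (en (2 * RP (m + 3) ε + 1) k) E0 ε ≤
          2 * A * log (1 / lam) := by
      intro E0
      have h2 := diag_bound m (2 * RP (m + 3) ε + 1) E0 ε hε0 hε hR3
      have hL : (0 : ℝ) < ((2 * RP (m + 3) ε + 1 : ℕ) : ℝ) ^ (m + 3) := by positivity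
      rw [inv_mul_le_iff₀ hL]
      refine h2.trans ?_
      have h3 := log_eps_le A M Q hA0 h0 h1
      rw [← hAdef, mul_comm (A * log (1 / ε))]
      apply mul_le_mul_of_nonneg_left _ hL.le
      calc A * log (1 / ε) ≤ A * (2 * log (1 / lam)) := mul_le_mul_of_nonneg_left h3 hA0
        _ = 2 * A * log (1 / lam) := by ring
    set Es := net ρ ε ⌊(4 * ((m + 3 : ℕ) : ℝ) + 2 * ρ) / ε⌋₊ with hEs
    have htot := total_bad (by omega) h A ρ lam hA0 hρ0 K n0 hn0 h0 h1 Q hQ ε hεdef (by linarith)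
      Es (subset_refl _) (fun E0 _ => hWall E0)
    have hnull : P {s | ¬ ∀ y, |ω y s| ≤ M} = 0 := by
      have : ∀ᵐ s ∂P, ∀ y, |ω y s| ≤ M := ae_all_iff.2 h.bdd
      exact this
    have hsub : {s | ∃ (x : Fin (m + 3) → ℤ) (E : ℝ) (ψ : (Fin (m + 3) → ℤ) → ℂ),
        (∀ j, |(x j : ℝ)| ≤ (1 / lam) ^ K) ∧ (Summable fun y => ‖ψ y‖ ^ 2) ∧
        144 * A * kap A M Q * (lam ^ 2 * log (1 / lam) ^ 3 * nrm2 ψ +
          nrm2 (fun y => schr (fun y => lam * ω y s) ψ y - E * ψ y) /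
            (lam ^ 2 * log (1 / lam))) < ‖ψ x‖ ^ 2} ⊆
        {s | ¬ ∀ y, |ω y s| ≤ M} ∪ ⋃ x0 ∈ centres (m + 3) ((1 / lam) ^ K), ⋃ E0 ∈ Es,
          bad P ω (RP (m + 3) ε) E0 ε lam x0 := by
      rintro s ⟨x, E, ψ, hx, hψ, hlt⟩
      by_contra hcon
      rw [Set.mem_union, not_or] at hcon
      obtain ⟨hc1, hc2⟩ := hcon
      rw [Set.mem_ofPred_eq, not_not] at hc1
      have hc3 : ∀ E0 ∈ Es, s ∉ bad P ω (RP (m + 3) ε) E0 ε lam x := by
        intro E0 hE0 hbad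
        apply hc2
        rw [Set.mem_iUnion₂]
        refine ⟨x, mem_centres _ x hx, ?_⟩
        rw [Set.mem_iUnion₂]
        exact ⟨E0, hE0, hbad⟩
      obtain ⟨E0, hE1, -, hE3⟩ := good_energy h (RP (m + 3) ε) ε lam ρ hε0 h0 h1 hρdef x s hc1 hc3
        (E - lam * mean P ω)
      have hHψ : Summable fun y => ‖schr (fun y => lam * ω y s) ψ y - E * ψ y‖ ^ 2 := by
        apply summable_schr _ (lam * M) _ E ψ hψ
        intro y
        rw [abs_mul, abs_of_pos h0]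
        exact mul_le_mul_of_nonneg_left (hc1 y) h0.le
      have hpt := point_bound (RP (m + 3) ε) hR1 (fun y => lam * ω y s) x
        (fun y => ω (x + pos _ y) s - mean P ω) (lam * mean P ω) lam E E0 ε
        (2 * A * log (1 / lam)) hε0 h0 (fun y => by ring) hE3 hR2 hE1 (hWall E0) ψ hψ hHψ
      have hl := log_lower h0 h1
      have hfin := conclude A M lam ε _ _ _ _ Q hA2 h0 h1 hεdef (nrm2_nonneg _) (nrm2_nonneg ψ)
        le_rfl hpt
      exact absurd hfin (not_le.2 hlt)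
    calc P _ ≤ P ({s | ¬ ∀ y, |ω y s| ≤ M} ∪ ⋃ x0 ∈ centres (m + 3) ((1 / lam) ^ K), ⋃ E0 ∈ Es,
          bad P ω (RP (m + 3) ε) E0 ε lam x0) := measure_mono hsub
      _ ≤ P {s | ¬ ∀ y, |ω y s| ≤ M} + P (⋃ x0 ∈ centres (m + 3) ((1 / lam) ^ K), ⋃ E0 ∈ Es,
          bad P ω (RP (m + 3) ε) E0 ε lam x0) := measure_union_le _ _
      _ ≤ 0 + ENNReal.ofReal (lam ^ K) := add_le_add hnull.le htot
      _ = ENNReal.ofReal (lam ^ K) := zero_add _
  · -- trivial case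
    have hempty : {s | ∃ (x : Fin (m + 3) → ℤ) (E : ℝ) (ψ : (Fin (m + 3) → ℤ) → ℂ),
        (∀ j, |(x j : ℝ)| ≤ (1 / lam) ^ K) ∧ (Summable fun y => ‖ψ y‖ ^ 2) ∧
        144 * A * kap A M Q * (lam ^ 2 * log (1 / lam) ^ 3 * nrm2 ψ +
          nrm2 (fun y => schr (fun y => lam * ω y s) ψ y - E * ψ y) /
            (lam ^ 2 * log (1 / lam))) < ‖ψ x‖ ^ 2} = ∅ := by
      ext s
      simp only [Set.mem_ofPred_eq, Set.mem_empty_iff_false, iff_false]
      rintro ⟨x, E, ψ, hx, hψ, hlt⟩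
      have hfin := conclude_trivial A M lam
        (nrm2 (fun y => schr (fun y => lam * ω y s) ψ y - E * ψ y)) (nrm2 ψ) (‖ψ x‖ ^ 2) Q hA2 h0 h1
        hε (nrm2_nonneg _) (nrm2_nonneg ψ) (norm_sq_le_nrm2 ψ hψ x)
      exact absurd hfin (not_le.2 hlt)
    rw [hempty, measure_empty]
    exact bot_le

end Pool.Agent.Helper2.AM
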