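import Pool.Agent.Helper2.AM.LocBound
import Pool.Agent.Helper2.AM.ParamsN
import Pool.Agent.Helper2.AM.ThmA

/-!
# The main theorem, abstract form
-/

open Finset Real Matrix MeasureTheory ProbabilityTheory
open scoped ComplexOrder ENNReal

noncomputable section

set_option linter.unusedSectionVars false

namespace Pool.Agent.Helper2.AM

variable {d : ℕ}

/-- `‖a_x‖²` from the window bound. -/
lemma WB_diag (a : ℕ) (A : ℝ) (S : Set ℝ) (hWB : WB d a A S) (R : ℕ) (E0 ε : ℝ) (hE0 : E0 ∈ S)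
    (hε : 0 < ε) (hε1 : ε ≤ 1 / 2) (hεL : 1 ≤ ε * (2 * R + 1 : ℕ)) :
    (((2 * R + 1 : ℕ) : ℝ) ^ d)⁻¹ *
        ∑ k : Fin d → Fin (2 * R + 1), wt (en (2 * R + 1) k) E0 ε ≤ A * log (1 / ε) := by
  classical
  set x0 : Fin d → Fin (2 * R + 1) := fun _ => 0 with hx0
  have h := hWB R E0 ε hE0 hε hε1 hεL 1 (fun _ => {0}) le_rfl (by omega) (fun _ => by simp)
    (Pi.single x0 1) (by
      intro j x hx
      rw [Pi.single_eq_of_ne]
      intro h
      apply hx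
      rw [h, hx0]
      simp)
  have e1 : ∀ k, (Bm d R *ᵥ (Pi.single x0 1)) k = bv R x0 k := by
    intro k
    rw [mulVec_single_one]
    simp [Bm]
  have e2 : nsq (Pi.single x0 (1 : ℂ) : (Fin d → Fin (2 * R + 1)) → ℂ) = 1 := by
    unfold nsq
    rw [Finset.sum_eq_single x0]
    · simp
    · intro b _ hb
      rw [Pi.single_eq_of_ne hb]
      simp
    · intro h
      exact absurd (mem_univ _) h
  rw [e2] at h
  simp only [e1, bv_normSq, Nat.cast_one, one_pow, mul_one] at h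
  rw [← Finset.sum_mul, mul_comm] at h
  exact h

/-- The list of energies used for the net. -/
def Esn (S : Set ℝ) (d : ℕ) (ρ ε : ℝ) : Finset ℝ :=
  open Classical in (net ρ ε ⌊(4 * d + 2 * ρ) / ε⌋₊).filter (· ∈ S)

lemma mem_Esn (S : Set ℝ) (d : ℕ) (ρ ε E : ℝ) :
    E ∈ Esn S d ρ ε ↔ E ∈ net ρ ε ⌊(4 * d + 2 * ρ) / ε⌋₊ ∧ E ∈ S := by
  classical
  unfold Esn
  rw [Finset.mem_filter]

lemma card_Esn (S : Set ℝ) (d : ℕ) (ρ ε : ℝ) :
    (Esn S d ρ ε).card ≤ ⌊(4 * d + 2 * ρ) / ε⌋₊ + 1 := by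
  classical
  unfold Esn
  exact (Finset.card_filter_le _ _).trans (net_card ρ ε ⌊(4 * d + 2 * ρ) / ε⌋₊)

variable {Ω : Type*} [MeasurableSpace Ω] {P : Measure Ω} [IsProbabilityMeasure P] {M : ℝ}
  {ω : (Fin d → ℤ) → Ω → ℝ}

lemma cube_card (n : ℕ) : (((cube (0 : Fin d → ℤ) n).card : ℕ) : ℝ) ≤ (2 * ((n : ℝ) + 2)) ^ d := by
  unfold cube
  rw [Fintype.card_piFinset]
  simp only [Int.card_Icc, prod_const, card_univ, Fintype.card_fin, Pi.zero_apply]
  push_cast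
  apply pow_le_pow_left₀ (by positivity)
  have h1 : (((0 + (n : ℤ) + 1 - (0 - n)).toNat : ℕ) : ℝ) = 2 * (n : ℝ) + 1 := by
    have : ((0 + (n : ℤ) + 1 - (0 - n)).toNat : ℤ) = 2 * n + 1 := by omega
    exact_mod_cast this
  rw [h1]
  linarith

/-- Probability of a bad centre at distance at most `n`. -/
lemma prob_layer (hd : 1 ≤ d) (a : ℕ) (A : ℝ) (S : Set ℝ) (hWB : WB d a A S)
    (h : IIDPotential P M ω) (ρ lam t : ℝ) (hA : 0 ≤ A) (hρ : 0 ≤ ρ)
    (K n0 : ℕ) (h0 : 0 < lam) (h1 : lam ≤ 1 / 2) (Q : ℕ) (hQ : Q = K + 2 + 2 * d + n0 + (d + 2))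
    (n : ℕ) (ht : 1 ≤ t) (ε : ℝ) (hεdef : ε = epsN d A M Q lam ((n + 2) * t))
    (hε1 : ε ≤ 1 / 2) :
    P (⋃ x0 ∈ cube (0 : Fin d → ℤ) n, ⋃ E0 ∈ Esn S d ρ ε, bad P ω (RP d ε) E0 ε lam x0) ≤
      ENNReal.ofReal ((2 ^ d * (4 * d + 2 * ρ + 1) * (4 * d + 3) ^ d) *
        ((lam / t) ^ K * lam ^ n0) * (1 / ((n : ℝ) + 2) ^ 2)) := by
  have hl := log_lower h0 h1
  have hN : 2 ≤ ((n : ℝ) + 2) * t := by
    have : (0 : ℝ) ≤ n := Nat.cast_nonneg n
    nlinarith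
  have hεpos : 0 < ε := by rw [hεdef]; exact epsN_pos d A M Q hA h0 h1 hN
  have hQ1 : 1 ≤ Q := by omega
  obtain ⟨hp0, -, -⟩ := pN_spec (lam := lam) Q hQ1 h0 h1 hN
  obtain ⟨hR1, hR2, hR3, hR4⟩ := R_spec d hd ε hεpos (by linarith)
  have hinvε : 1 / ε ≤ (1 / lam) ^ 2 := by
    rw [div_pow, one_pow]
    apply one_div_le_one_div_of_le (by positivity)
    rw [hεdef]
    exact epsN_ge' d A M Q hA h0 h1 hN
  have hinv1 : 1 ≤ 1 / lam := by rw [le_div_iff₀ h0]; linarith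
  have hW : ∀ E0 ∈ Esn S d ρ ε, (((2 * RP d ε + 1 : ℕ) : ℝ) ^ d)⁻¹ *
        ∑ k : Fin d → Fin (2 * RP d ε + 1), wt (en (2 * RP d ε + 1) k) E0 ε ≤
          2 * A * log (1 / lam) := by
    intro E0 hE0
    have hE0' : E0 ∈ S := ((mem_Esn S d ρ ε E0).1 hE0).2
    refine (WB_diag a A S hWB (RP d ε) E0 ε hE0' hεpos hε1 hR3).trans ?_
    have h3 := log_epsN_le d A M Q hA h0 h1 hN
    rw [← hεdef] at h3
    calc A * log (1 / ε) ≤ A * (2 * log (1 / lam)) := mul_le_mul_of_nonneg_left h3 hA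
      _ = 2 * A * log (1 / lam) := by ring
  refine (union_bad h (RP d ε) ε lam hεpos h0 (pN Q lam ((n + 2) * t)) hp0 (2 * A * log (1 / lam))
    (by positivity) _ _ hW).trans (ENNReal.ofReal_le_ofReal ?_)
  have b1 : ((cube (0 : Fin d → ℤ) n).card : ℝ) ≤ (2 * ((n : ℝ) + 2)) ^ d := cube_card n
  have b2 : ((Esn S d ρ ε).card : ℝ) ≤ (4 * d + 2 * ρ + 1) * (1 / lam) ^ 2 := by
    have h2 : ((Esn S d ρ ε).card : ℝ) ≤ (⌊(4 * d + 2 * ρ) / ε⌋₊ : ℕ) + 1 := by
      exact_mod_cast card_Esn S d ρ ε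
    have h3 : ((⌊(4 * d + 2 * ρ) / ε⌋₊ : ℕ) : ℝ) ≤ (4 * d + 2 * ρ) / ε :=
      Nat.floor_le (by positivity)
    have h4 : (4 * d + 2 * ρ) / ε ≤ (4 * d + 2 * ρ) * (1 / lam) ^ 2 := by
      rw [div_eq_mul_one_div]
      exact mul_le_mul_of_nonneg_left hinvε (by positivity)
    have h5 : 1 ≤ (1 / lam) ^ 2 := one_le_pow₀ hinv1
    nlinarith
  have b3 : (64 * (pN Q lam ((n + 2) * t) : ℕ) * M ^ 2 * (2 * A * log (1 / lam)) * lam ^ 2 / ε) ^
      (pN Q lam ((n + 2) * t)) ≤ (lam / ((n + 2) * t)) ^ Q := by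
    rw [hεdef]
    exact moment_smallN d A M Q hA hQ1 h0 h1 hN
  have b4 : ((2 * RP d ε + 1 : ℕ) : ℝ) ^ d ≤ ((4 * d + 3) * (1 / lam) ^ 2) ^ d := by
    apply pow_le_pow_left₀ (by positivity)
    refine hR4.trans ?_
    rw [div_eq_mul_one_div]
    exact mul_le_mul_of_nonneg_left hinvε (by positivity)
  have c1 : 0 ≤ (64 * (pN Q lam ((n + 2) * t) : ℕ) * M ^ 2 * (2 * A * log (1 / lam)) * lam ^ 2 / ε) ^
      (pN Q lam ((n + 2) * t)) := by positivity
  calc ((cube (0 : Fin d → ℤ) n).card : ℝ) * (Esn S d ρ ε).card *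
        ((64 * (pN Q lam ((n + 2) * t) : ℕ) * M ^ 2 * (2 * A * log (1 / lam)) * lam ^ 2 / ε) ^ (pN Q lam ((n + 2) * t)) *
          ((2 * RP d ε + 1 : ℕ) : ℝ) ^ d)
      ≤ ((2 * ((n : ℝ) + 2)) ^ d * ((4 * d + 2 * ρ + 1) * (1 / lam) ^ 2)) *
        ((lam / ((n + 2) * t)) ^ Q * ((4 * d + 3) * (1 / lam) ^ 2) ^ d) := by
        gcongr
    _ ≤ _ := prefactorN d K n0 ρ t h0 h1 hρ n ht Q hQ

/-- On the complement of the bad events, `X` is small for every energy near the net, and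
deterministically outside the window. -/
lemma good_energyS (h : IIDPotential P M ω) (R : ℕ) (ε lam ρ : ℝ) (hε : 0 < ε)
    (h0 : 0 < lam) (h1 : lam ≤ 1 / 2) (hρ : ρ = 1 + 4 * |M|) (x0 : Fin d → ℤ) (s : Ω)
    (hs : ∀ y, |ω y s| ≤ M) (S : Set ℝ)
    (hgood : ∀ E0 ∈ Esn S d ρ ε, s ∉ bad P ω R E0 ε lam x0) (E' : ℝ)
    (hE' : ∀ E0, |E' - E0| ≤ ε → E0 ∈ S) :
    ∃ E0, |E' - E0| ≤ ε ∧
      ∀ u, nsq (Xs P ω R E0 ε x0 s *ᵥ u) ≤ (1 / (2 * lam)) ^ 2 * nsq u := by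
  by_cases hE : -ρ ≤ E' ∧ E' ≤ 4 * d + ρ
  · obtain ⟨E0, hE0, hE0'⟩ := exists_net d ρ ε E' hε hE.1 hE.2
    refine ⟨E0, hE0', ?_⟩
    intro u
    have := hgood E0 ((mem_Esn S d ρ ε E0).2 ⟨hE0, hE' E0 hE0'⟩)
    unfold bad at this
    rw [Set.mem_ofPred_eq, not_exists] at this
    exact not_lt.1 (this u)
  · have hM := h.M_nonneg
    have hρ1 : 1 ≤ ρ := by rw [hρ]; linarith [abs_nonneg M]
    have hρ0 : 0 < ρ := by linarith
    have hE'' : E' < -ρ ∨ 4 * d + ρ < E' := by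
      rcases lt_or_ge E' (-ρ) with h2 | h2
      · exact Or.inl h2
      · right
        by_contra h3
        exact hE ⟨h2, not_lt.1 h3⟩
    have hw : ∀ k : Fin d → Fin (2 * R + 1), wt (en (2 * R + 1) k) E' ε ≤ 1 / ρ :=
      fun k => wt_outer _ k E' ε ρ hρ0 hE''
    refine ⟨E', by rw [sub_self, abs_zero]; exact hε.le, ?_⟩
    intro u
    have h2 := X_det R E' ε (2 * M) (1 / ρ) hε (by positivity) hw
      (fun x => ω (x0 + pos R x) s - mean P ω) (fun x => by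
        calc |ω (x0 + pos R x) s - mean P ω| ≤ |ω (x0 + pos R x) s| + |mean P ω| := abs_sub _ _
          _ ≤ M + M := add_le_add (hs _) h.abs_mean_le
          _ = 2 * M := by ring) u
    refine h2.trans ?_
    apply mul_le_mul_of_nonneg_right _ (Finset.sum_nonneg fun i _ => by positivity)
    apply pow_le_pow_left₀ (by positivity)
    rw [mul_one_div, div_le_div_iff₀ hρ0 (by positivity), hρ, abs_of_nonneg hM]
    nlinarith

/-- The conclusion in the main regime. -/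
lemma conclN (d a : ℕ) (A M lam N ε α β t : ℝ) (Q r : ℕ) (hA : 2 ≤ A) (h0 : 0 < lam)
    (h1 : lam ≤ 1 / 2) (hN : 2 ≤ N) (hr : 1 ≤ r)
    (hε : ε = epsN d A M Q lam N) (hα : 0 ≤ α) (hβ : 0 ≤ β)
    (ht : t ≤ 4 * (A * (2 * r + 1 : ℕ) ^ a * log (1 / ε)) * (8 / ε * α + 72 * ε * β)) :
    t ≤ 576 * 3 ^ a * A * kp d A M Q * (r ^ a * (lam ^ 2 * log (1 / lam) ^ 2 * ell lam N * β +
      α / (lam ^ 2 * ell lam N))) := by
  have hl := log_lower h0 h1
  have hl0 : 0 < log (1 / lam) := by linarith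
  have hl2 := ell_lower h0 h1 hN
  have hl20 : 0 < ell lam N := by linarith
  have hA0 : 0 ≤ A := by linarith
  have hk := kp_ge4 d A M Q hA0
  have hk0 : 0 < kp d A M Q := by linarith
  have hε0 : 0 < ε := by rw [hε]; exact epsN_pos d A M Q hA0 h0 h1 hN
  have hr' : (1 : ℝ) ≤ r := by exact_mod_cast hr
  have hlogε : log (1 / ε) ≤ 2 * log (1 / lam) := by rw [hε]; exact log_epsN_le d A M Q hA0 h0 h1 hN
  have h3r : ((2 * r + 1 : ℕ) : ℝ) ^ a ≤ (3 * r) ^ a := by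
    apply pow_le_pow_left₀ (by positivity)
    push_cast
    linarith
  have hX : 0 ≤ 8 / ε * α + 72 * ε * β := by positivity
  have h2 : t ≤ 4 * (A * (3 * r) ^ a * (2 * log (1 / lam))) * (8 / ε * α + 72 * ε * β) := by
    refine ht.trans (mul_le_mul_of_nonneg_right ?_ hX)
    apply mul_le_mul_of_nonneg_left _ (by norm_num)
    calc A * ((2 * r + 1 : ℕ) : ℝ) ^ a * log (1 / ε) ≤
          A * ((2 * r + 1 : ℕ) : ℝ) ^ a * (2 * log (1 / lam)) :=
          mul_le_mul_of_nonneg_left hlogε (by positivity)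
      _ ≤ A * (3 * r) ^ a * (2 * log (1 / lam)) := by
          apply mul_le_mul_of_nonneg_right _ (by positivity)
          exact mul_le_mul_of_nonneg_left h3r hA0
  have e1 : 4 * (A * (3 * r) ^ a * (2 * log (1 / lam))) * (8 / ε * α + 72 * ε * β) =
      576 * 3 ^ a * A * kp d A M Q * (r ^ a * (lam ^ 2 * log (1 / lam) ^ 2 * ell lam N * β)) +
        64 * 3 ^ a * A / kp d A M Q * (r ^ a * (α / (lam ^ 2 * ell lam N))) := by
    rw [hε, mul_pow]
    unfold epsN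
    field_simp
    ring
  have h3 : 64 * 3 ^ a * A / kp d A M Q ≤ 576 * 3 ^ a * A * kp d A M Q := by
    rw [div_le_iff₀ hk0]
    have h4 : 1 ≤ kp d A M Q * kp d A M Q := by nlinarith
    have h5 : (0 : ℝ) ≤ 3 ^ a * A := by positivity
    nlinarith [mul_le_mul_of_nonneg_left h4 h5]
  have h4 : 0 ≤ (r : ℝ) ^ a * (α / (lam ^ 2 * ell lam N)) := by positivity
  calc t ≤ _ := h2
    _ = _ := e1
    _ ≤ 576 * 3 ^ a * A * kp d A M Q * (r ^ a * (lam ^ 2 * log (1 / lam) ^ 2 * ell lam N * β)) +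
        576 * 3 ^ a * A * kp d A M Q * (r ^ a * (α / (lam ^ 2 * ell lam N))) := by
      have := mul_le_mul_of_nonneg_right h3 h4
      linarith
    _ = _ := by ring

/-- **Main theorem**, abstract form. -/
theorem main_loc (d a : ℕ) (hd : 1 ≤ d) (ha : 1 ≤ a) (A : ℝ) (hA : 2 ≤ A) (S T : Set ℝ)
    (hWB : WB d a A S) (δ : ℝ) (hδ : 0 < δ) (hT : ∀ E ∈ T, ∀ E0, |E - E0| ≤ δ → E0 ∈ S)
    (M : ℝ) (K : ℕ) :
    ∃ C : ℝ, 0 < C ∧ ∀ (Ω : Type) [MeasurableSpace Ω] (P : Measure Ω) [IsProbabilityMeasure P]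
      (ω : (Fin d → ℤ) → Ω → ℝ), IIDPotential P M ω →
      ∀ lam t : ℝ, 0 < lam → lam ≤ 1 / 2 → 1 ≤ t →
      P {s | ∃ (n r : ℕ) (x : Fin d → ℤ) (E : ℝ) (ψ : (Fin d → ℤ) → ℂ),
        E ∈ T ∧ (∀ j, |x j| ≤ n) ∧ 1 ≤ r ∧ (r : ℝ) ≤ (1 / lam) ^ 2 ∧
        C * (r ^ a * (lam ^ 2 * log (1 / lam) ^ 2 * log ((n + 2) * t / lam) *
            mass x ⌊(1 / lam) ^ 2⌋₊ ψ +
          mass x ⌊(1 / lam) ^ 2⌋₊ (fun y => schr (fun y => lam * ω y s) ψ y - E * ψ y) /
            (lam ^ 2 * log ((n + 2) * t / lam)))) < mass x r ψ} ≤ ENNReal.ofReal ((lam / t) ^ K) := by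
  have hA0 : 0 ≤ A := by linarith
  set ρ : ℝ := 1 + 4 * |M| with hρdef
  have hρ0 : 0 ≤ ρ := by positivity
  have hsum2 : Summable fun n : ℕ => 1 / ((n : ℝ) + 2) ^ 2 := by
    have := (summable_nat_add_iff 2).2 (Real.summable_one_div_nat_pow.2 (le_refl 2))
    simpa using this
  set S2 : ℝ := ∑' n : ℕ, 1 / ((n : ℝ) + 2) ^ 2 with hS2
  obtain ⟨n0, hn0⟩ : ∃ n0 : ℕ, 2 ^ d * (4 * (d : ℝ) + 2 * ρ + 1) *
      (4 * (d : ℝ) + 3) ^ d * S2 ≤ (2 : ℝ) ^ n0 := by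
    obtain ⟨n, hn⟩ := pow_unbounded_of_one_lt (2 ^ d * (4 * (d : ℝ) + 2 * ρ + 1) *
      (4 * (d : ℝ) + 3) ^ d * S2) (by norm_num : (1 : ℝ) < 2)
    exact ⟨n, hn.le⟩
  obtain ⟨Q, hQ⟩ : ∃ Q : ℕ, Q = K + 2 + 2 * d + n0 + (d + 2) := ⟨_, rfl⟩
  have hk4 := kp_ge4 d A M Q hA0
  have hk0 : 0 < kp d A M Q := by linarith
  set ε1 : ℝ := min (1 / 2) (δ / 2) with hε1def
  have hε10 : 0 < ε1 := lt_min (by norm_num) (by linarith)
  set C : ℝ := 576 * 3 ^ a * A * kp d A M Q + 2 * kp d A M Q / ε1 + 4 * (2 * M / δ) ^ 2 with hC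
  have hC1 : 576 * 3 ^ a * A * kp d A M Q ≤ C := by
    have : 0 ≤ 2 * kp d A M Q / ε1 + 4 * (2 * M / δ) ^ 2 := by positivity
    linarith
  have hC1' : 2 * kp d A M Q ≤ C := by
    have h3 : (1 : ℝ) ≤ 3 ^ a := one_le_pow₀ (by norm_num)
    have h4 : 2 * 1 ≤ A * 3 ^ a := mul_le_mul hA h3 (by norm_num) hA0
    have : 2 * kp d A M Q ≤ 576 * 3 ^ a * A * kp d A M Q := by
      have := mul_le_mul_of_nonneg_right h4 hk0.le
      nlinarith
    linarith
  have hC2 : 2 * kp d A M Q / ε1 ≤ C := by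
    have : 0 ≤ 576 * 3 ^ a * A * kp d A M Q + 4 * (2 * M / δ) ^ 2 := by positivity
    linarith
  have hC3 : 4 * (2 * M / δ) ^ 2 ≤ C := by
    have : 0 ≤ 576 * 3 ^ a * A * kp d A M Q + 2 * kp d A M Q / ε1 := by positivity
    linarith
  have hC0 : 0 < C := lt_of_lt_of_le (by positivity) hC1'
  refine ⟨C, hC0, ?_⟩
  intro Ω _ P _ ω h lam t h0 h1 ht
  have hM := h.M_nonneg
  have ht0 : 0 < t := by linarith
  have hNn : ∀ n : ℕ, 2 ≤ ((n : ℝ) + 2) * t := by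
    intro n
    have : (0 : ℝ) ≤ n := Nat.cast_nonneg n
    nlinarith
  have hl := log_lower h0 h1
  have hl0 : 0 < log (1 / lam) := by linarith
  have hfloor : ((⌊(1 / lam) ^ 2⌋₊ : ℕ) : ℝ) ≤ (1 / lam) ^ 2 := Nat.floor_le (by positivity)
  -- trivial conclusion
  have triv : ∀ (n r : ℕ) (x : Fin d → ℤ) (ψ : (Fin d → ℤ) → ℂ) (β : ℝ), 0 ≤ β →
      1 ≤ r → (r : ℝ) ≤ (1 / lam) ^ 2 →
      1 ≤ C * (r ^ a * (lam ^ 2 * log (1 / lam) ^ 2 * ell lam ((n + 2) * t))) →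
      mass x r ψ ≤ C * (r ^ a * (lam ^ 2 * log (1 / lam) ^ 2 * ell lam ((n + 2) * t) *
            mass x ⌊(1 / lam) ^ 2⌋₊ ψ + β / (lam ^ 2 * ell lam ((n + 2) * t)))) := by
    intro n r x ψ β hβ hr hrl h2
    have hl2 := ell_lower h0 h1 (hNn n)
    have hl20 : 0 < ell lam ((n + 2) * t) := by linarith
    have hm0 : 0 ≤ mass x ⌊(1 / lam) ^ 2⌋₊ ψ := mass_nonneg _ _ _
    have h3 : mass x r ψ ≤ mass x ⌊(1 / lam) ^ 2⌋₊ ψ :=
      mass_mono _ _ _ _ _ (cube_mono x (Nat.le_floor hrl))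
    have h4 : 0 ≤ C * (r ^ a * (β / (lam ^ 2 * ell lam ((n + 2) * t)))) := by positivity
    calc mass x r ψ ≤ 1 * mass x ⌊(1 / lam) ^ 2⌋₊ ψ := by rw [one_mul]; exact h3
      _ ≤ C * (r ^ a * (lam ^ 2 * log (1 / lam) ^ 2 * ell lam ((n + 2) * t))) *
          mass x ⌊(1 / lam) ^ 2⌋₊ ψ := mul_le_mul_of_nonneg_right h2 hm0
      _ ≤ C * (r ^ a * (lam ^ 2 * log (1 / lam) ^ 2 * ell lam ((n + 2) * t))) *
          mass x ⌊(1 / lam) ^ 2⌋₊ ψ + C * (r ^ a * (β / (lam ^ 2 * ell lam ((n + 2) * t)))) := by linarith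
      _ = _ := by ring
  have hlog3 : 32 / 100 ≤ log (1 / lam) ^ 2 * log (1 / lam) := by
    have : (69 / 100 : ℝ) ^ 3 ≤ log (1 / lam) ^ 3 := pow_le_pow_left₀ (by norm_num) hl 3
    nlinarith
  have hellog : ∀ n : ℕ, log (1 / lam) ≤ ell lam ((n + 2) * t) := by
    intro n
    unfold ell
    apply log_le_log (by positivity)
    apply div_le_div_of_nonneg_right _ h0.le
    linarith [hNn n]
  have hrone : ∀ r : ℕ, 1 ≤ r → (1 : ℝ) ≤ (r : ℝ) ^ a := fun r hr =>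
    one_le_pow₀ (by exact_mod_cast hr)
  rcases le_or_gt (lam * M) (δ / 2) with hlM | hlM
  · -- main case
    have hnull : P {s | ¬ ∀ y, |ω y s| ≤ M} = 0 := by
      have : ∀ᵐ s ∂P, ∀ y, |ω y s| ≤ M := ae_all_iff.2 h.bdd
      exact this
    set badn : ℕ → Set Ω := fun n => if epsN d A M Q lam ((n + 2) * t) ≤ ε1 then
      ⋃ x0 ∈ cube (0 : Fin d → ℤ) n, ⋃ E0 ∈ Esn S d ρ (epsN d A M Q lam ((n + 2) * t)),
        bad P ω (RP d (epsN d A M Q lam ((n + 2) * t))) E0 (epsN d A M Q lam ((n + 2) * t)) lam x0 else ∅ with hbadn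
    have hbadn_le : ∀ n, P (badn n) ≤ ENNReal.ofReal
        ((2 ^ d * (4 * (d : ℝ) + 2 * ρ + 1) * (4 * (d : ℝ) + 3) ^ d) *
        ((lam / t) ^ K * lam ^ n0) * (1 / ((n : ℝ) + 2) ^ 2)) := by
      intro n
      rw [hbadn]
      simp only
      split_ifs with hn
      · exact prob_layer hd a A S hWB h ρ lam t hA0 hρ0 K n0 h0 h1 Q hQ n ht _ rfl
          (hn.trans (min_le_left _ _))
      · rw [measure_empty]; exact bot_le
    have htot : P (⋃ n, badn n) ≤ ENNReal.ofReal ((lam / t) ^ K) := by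
      refine (measure_iUnion_le _).trans ((ENNReal.tsum_le_tsum hbadn_le).trans ?_)
      rw [← ENNReal.ofReal_tsum_of_nonneg (fun n => by positivity) (hsum2.mul_left _)]
      apply ENNReal.ofReal_le_ofReal
      rw [tsum_mul_left, ← hS2]
      have h2 : (2 ^ d * (4 * (d : ℝ) + 2 * ρ + 1) * (4 * (d : ℝ) + 3) ^ d * S2) * lam ^ n0 ≤ 1 := by
        have hS20 : 0 ≤ S2 := tsum_nonneg fun n => by positivity
        calc (2 ^ d * (4 * (d : ℝ) + 2 * ρ + 1) * (4 * (d : ℝ) + 3) ^ d * S2) * lam ^ n0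
            ≤ (2 : ℝ) ^ n0 * (1 / 2) ^ n0 := by
              apply mul_le_mul hn0 (pow_le_pow_left₀ h0.le h1 _) (by positivity) (by positivity)
          _ = 1 := by rw [← mul_pow]; norm_num
      calc (2 ^ d * (4 * (d : ℝ) + 2 * ρ + 1) * (4 * (d : ℝ) + 3) ^ d) *
            ((lam / t) ^ K * lam ^ n0) * S2 =
          ((2 ^ d * (4 * (d : ℝ) + 2 * ρ + 1) * (4 * (d : ℝ) + 3) ^ d * S2) * lam ^ n0) *
            (lam / t) ^ K := by ring
        _ ≤ 1 * (lam / t) ^ K := mul_le_mul_of_nonneg_right h2 (by positivity)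
        _ = (lam / t) ^ K := one_mul _
    have hsub : {s | ∃ (n r : ℕ) (x : Fin d → ℤ) (E : ℝ) (ψ : (Fin d → ℤ) → ℂ),
        E ∈ T ∧ (∀ j, |x j| ≤ n) ∧ 1 ≤ r ∧ (r : ℝ) ≤ (1 / lam) ^ 2 ∧
        C * (r ^ a * (lam ^ 2 * log (1 / lam) ^ 2 * log ((n + 2) * t / lam) *
            mass x ⌊(1 / lam) ^ 2⌋₊ ψ +
          mass x ⌊(1 / lam) ^ 2⌋₊ (fun y => schr (fun y => lam * ω y s) ψ y - E * ψ y) /
            (lam ^ 2 * log ((n + 2) * t / lam)))) < mass x r ψ} ⊆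
        {s | ¬ ∀ y, |ω y s| ≤ M} ∪ ⋃ n, badn n := by
      rintro s ⟨n, r, x, E, ψ, hET, hx, hr, hrl, hlt⟩
      by_contra hcon
      rw [Set.mem_union, not_or] at hcon
      obtain ⟨hc1, hc2⟩ := hcon
      rw [Set.mem_ofPred_eq, not_not] at hc1
      apply absurd hlt
      rw [not_lt]
      change mass x r ψ ≤ C * (r ^ a * (lam ^ 2 * log (1 / lam) ^ 2 * ell lam ((n + 2) * t) *
            mass x ⌊(1 / lam) ^ 2⌋₊ ψ +
          mass x ⌊(1 / lam) ^ 2⌋₊ (fun y => schr (fun y => lam * ω y s) ψ y - E * ψ y) /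
            (lam ^ 2 * ell lam ((n + 2) * t))))
      have hl2 := ell_lower h0 h1 (hNn n)
      have hl20 : 0 < ell lam ((n + 2) * t) := by linarith
      have hα0 := mass_nonneg x ⌊(1 / lam) ^ 2⌋₊
        (fun y => schr (fun y => lam * ω y s) ψ y - E * ψ y)
      have hr1 : (1 : ℝ) ≤ r := by exact_mod_cast hr
      rcases le_or_gt (epsN d A M Q lam ((n + 2) * t)) ε1 with hεn | hεn
      · set ε := epsN d A M Q lam ((n + 2) * t) with hεdef
        have hε0 : 0 < ε := epsN_pos d A M Q hA0 h0 h1 (hNn n)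
        have hεhalf : ε ≤ 1 / 2 := hεn.trans (min_le_left _ _)
        have hεδ : ε ≤ δ / 2 := hεn.trans (min_le_right _ _)
        obtain ⟨hR1, hR2, hR3, hR4⟩ := R_spec d hd ε hε0 (by linarith)
        rcases le_or_gt (2 * r) (RP d ε) with hrR | hrR
        · -- the good inequality
          have hc3 : ∀ E0 ∈ Esn S d ρ ε, s ∉ bad P ω (RP d ε) E0 ε lam x := by
            intro E0 hE0 hbad
            apply hc2
            rw [Set.mem_iUnion]
            refine ⟨n, ?_⟩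
            rw [hbadn]
            simp only
            rw [if_pos hεn, Set.mem_iUnion₂]
            refine ⟨x, by rw [mem_cube]; intro j; simpa using hx j, ?_⟩
            rw [Set.mem_iUnion₂]
            exact ⟨E0, hE0, hbad⟩
          have hS' : ∀ E0, |(E - lam * mean P ω) - E0| ≤ ε → E0 ∈ S := by
            intro E0 hE0
            apply hT E hET
            have e : E - E0 = ((E - lam * mean P ω) - E0) + lam * mean P ω := by ring
            rw [e]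
            refine (abs_add_le _ _).trans ?_
            rw [abs_mul, abs_of_pos h0]
            have := mul_le_mul_of_nonneg_left h.abs_mean_le h0.le
            linarith
          obtain ⟨E0, hE1, hE3⟩ := good_energyS h (RP d ε) ε lam ρ hε0 h0 h1 hρdef x s hc1 S hc3
            (E - lam * mean P ω) hS'
          have hpt := cube_bound a A S hWB hA0 (RP d ε) r hR1 hrR (fun y => lam * ω y s) x
            (fun y => ω (x + pos _ y) s - mean P ω) (lam * mean P ω) lam E E0 ε (hS' E0 hE1)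
            hε0 hεhalf hR3 h0 (fun y => by ring) hE3 hR2 hE1 ψ
          have hfit : RP d ε + 1 ≤ ⌊(1 / lam) ^ 2⌋₊ := R_fits d A M Q hA0 h0 h1 (hNn n)
          have hm1 : mass x (RP d ε + 1) ψ ≤ mass x ⌊(1 / lam) ^ 2⌋₊ ψ :=
            mass_mono _ _ _ _ _ (cube_mono x hfit)
          have hm2 : mass x (RP d ε + 1) (fun y => schr (fun y => lam * ω y s) ψ y - E * ψ y) ≤
              mass x ⌊(1 / lam) ^ 2⌋₊ (fun y => schr (fun y => lam * ω y s) ψ y - E * ψ y) :=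
            mass_mono _ _ _ _ _ (cube_mono x hfit)
          have hlogε : 0 ≤ log (1 / ε) := log_nonneg (by rw [le_div_iff₀ hε0]; linarith)
          have hfin := conclN d a A M lam _ ε _ _ (mass x r ψ) Q r hA h0 h1 (hNn n) hr hεdef hα0
            (mass_nonneg x ⌊(1 / lam) ^ 2⌋₊ ψ) (hpt.trans (by gcongr))
          refine hfin.trans (mul_le_mul_of_nonneg_right hC1 ?_)
          have := mass_nonneg x ⌊(1 / lam) ^ 2⌋₊ ψ
          positivity
        · -- large `r`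
          apply triv n r x ψ _ hα0 hr hrl
          have hRlow : 2 * (d : ℝ) / ε ≤ (RP d ε : ℕ) := Nat.le_ceil _
          have hd' : (1 : ℝ) ≤ d := by exact_mod_cast hd
          have h2r : ((RP d ε : ℕ) : ℝ) < 2 * r := by exact_mod_cast hrR
          have h5 : 1 / ε ≤ r := by
            have h6 : 2 * (1 / ε) ≤ 2 * (d : ℝ) / ε := by
              rw [mul_one_div]
              exact div_le_div_of_nonneg_right (by linarith) hε0.le
            linarith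
          have h6 : 1 ≤ r * ε := by
            rwa [div_le_iff₀ hε0] at h5
          have h7 : (r : ℝ) ≤ (r : ℝ) ^ a := le_self_pow₀ hr1 (by omega)
          have h8 : (r : ℝ) * ε = kp d A M Q * (r * (lam ^ 2 * log (1 / lam) * ell lam ((n + 2) * t))) := by
            rw [hεdef]; unfold epsN; ring
          have h9 : 0 ≤ (r : ℝ) * (lam ^ 2 * log (1 / lam) * ell lam ((n + 2) * t)) := by positivity
          calc (1 : ℝ) ≤ 2 * (69 / 100) * 1 := by norm_num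
            _ ≤ 2 * log (1 / lam) * (r * ε) := by
              apply mul_le_mul (by linarith) h6 zero_le_one (by positivity)
            _ = 2 * kp d A M Q * (r * (lam ^ 2 * log (1 / lam) ^ 2 * ell lam ((n + 2) * t))) := by
              rw [h8]; ring
            _ ≤ C * (r ^ a * (lam ^ 2 * log (1 / lam) ^ 2 * ell lam ((n + 2) * t))) := by
              apply mul_le_mul hC1' _ (by positivity) hC0.le
              exact mul_le_mul_of_nonneg_right h7 (by positivity)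
      · -- large `ε`
        apply triv n r x ψ _ hα0 hr hrl
        have h5 : 0 < kp d A M Q * lam ^ 2 * log (1 / lam) * ell lam ((n + 2) * t) := by positivity
        have h6 : ε1 < kp d A M Q * lam ^ 2 * log (1 / lam) * ell lam ((n + 2) * t) := hεn
        calc (1 : ℝ) ≤ 2 * (69 / 100) := by norm_num
          _ ≤ 2 * log (1 / lam) := by linarith
          _ = 2 * kp d A M Q / ε1 * (1 * (ε1 * log (1 / lam) / kp d A M Q)) := by
            field_simp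
          _ ≤ C * (r ^ a * (lam ^ 2 * log (1 / lam) ^ 2 * ell lam ((n + 2) * t))) := by
            apply mul_le_mul hC2 _ (by positivity) hC0.le
            apply mul_le_mul (hrone r hr) _ (by positivity) (by positivity)
            rw [div_le_iff₀ hk0]
            calc ε1 * log (1 / lam) ≤
                  (kp d A M Q * lam ^ 2 * log (1 / lam) * ell lam ((n + 2) * t)) * log (1 / lam) :=
                  mul_le_mul_of_nonneg_right h6.le hl0.le
              _ = _ := by ring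
    calc P _ ≤ P ({s | ¬ ∀ y, |ω y s| ≤ M} ∪ ⋃ n, badn n) := measure_mono hsub
      _ ≤ P {s | ¬ ∀ y, |ω y s| ≤ M} + P (⋃ n, badn n) := measure_union_le _ _
      _ ≤ 0 + ENNReal.ofReal ((lam / t) ^ K) := add_le_add hnull.le htot
      _ = ENNReal.ofReal ((lam / t) ^ K) := zero_add _
  · -- large `λ`
    have hempty : {s | ∃ (n r : ℕ) (x : Fin d → ℤ) (E : ℝ) (ψ : (Fin d → ℤ) → ℂ),
        E ∈ T ∧ (∀ j, |x j| ≤ n) ∧ 1 ≤ r ∧ (r : ℝ) ≤ (1 / lam) ^ 2 ∧
        C * (r ^ a * (lam ^ 2 * log (1 / lam) ^ 2 * log ((n + 2) * t / lam) *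
            mass x ⌊(1 / lam) ^ 2⌋₊ ψ +
          mass x ⌊(1 / lam) ^ 2⌋₊ (fun y => schr (fun y => lam * ω y s) ψ y - E * ψ y) /
            (lam ^ 2 * log ((n + 2) * t / lam)))) < mass x r ψ} = ∅ := by
      ext s
      simp only [Set.mem_ofPred_eq, Set.mem_empty_iff_false, iff_false]
      rintro ⟨n, r, x, E, ψ, hET, hx, hr, hrl, hlt⟩
      apply absurd hlt
      rw [not_lt]
      change mass x r ψ ≤ C * (r ^ a * (lam ^ 2 * log (1 / lam) ^ 2 * ell lam ((n + 2) * t) *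
            mass x ⌊(1 / lam) ^ 2⌋₊ ψ +
          mass x ⌊(1 / lam) ^ 2⌋₊ (fun y => schr (fun y => lam * ω y s) ψ y - E * ψ y) /
            (lam ^ 2 * ell lam ((n + 2) * t))))
      have hα0 := mass_nonneg x ⌊(1 / lam) ^ 2⌋₊
        (fun y => schr (fun y => lam * ω y s) ψ y - E * ψ y)
      apply triv n r x ψ _ hα0 hr hrl
      have hl2 := hellog n
      have h5 : 1 ≤ (2 * M / δ) ^ 2 * lam ^ 2 := by
        have h6 : 1 ≤ 2 * M / δ * lam := by
          rw [div_mul_eq_mul_div, le_div_iff₀ hδ]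
          linarith
        calc (1 : ℝ) ≤ (2 * M / δ * lam) ^ 2 := one_le_pow₀ h6
          _ = _ := by ring
      have h6 : 32 / 100 ≤ log (1 / lam) ^ 2 * ell lam ((n + 2) * t) :=
        hlog3.trans (mul_le_mul_of_nonneg_left hl2 (by positivity))
      have h7 : 0 < ell lam ((n + 2) * t) := by linarith
      calc (1 : ℝ) ≤ 4 * (1 * (32 / 100)) := by norm_num
        _ ≤ 4 * ((2 * M / δ) ^ 2 * lam ^ 2 * (log (1 / lam) ^ 2 * ell lam ((n + 2) * t))) := by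
          apply mul_le_mul_of_nonneg_left _ (by norm_num)
          exact mul_le_mul h5 h6 (by norm_num) (by linarith)
        _ = 4 * (2 * M / δ) ^ 2 * (1 * (lam ^ 2 * log (1 / lam) ^ 2 * ell lam ((n + 2) * t))) := by ring
        _ ≤ C * (r ^ a * (lam ^ 2 * log (1 / lam) ^ 2 * ell lam ((n + 2) * t))) := by
          apply mul_le_mul hC3 _ (by positivity) hC0.le
          exact mul_le_mul_of_nonneg_right (hrone r hr) (by positivity)
    rw [hempty, measure_empty]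
    exact bot_le

end Pool.Agent.Helper2.AM
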