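import Pool.Agent.Helper2.AM.Spec

/-!
# Sums of weighted rank-one matrices
-/

open Matrix Finset
open scoped ComplexOrder

noncomputable section

set_option linter.unusedSectionVars false

namespace Pool.Agent.Helper2.AM

variable {ι : Type*} [Fintype ι] [DecidableEq ι] {N : ℕ}

/-- Rank-one projection-like matrix `|a⟩⟨a|`. -/
def ro (a : ι → ℂ) : Matrix ι ι ℂ := vecMulVec a (star a)

/-- `X = ∑_x v_x |a_x⟩⟨a_x|`. -/
def Xm (a : Fin N → ι → ℂ) (v : Fin N → ℝ) : Matrix ι ι ℂ := ∑ x, ((v x : ℝ) : ℂ) • ro (a x)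

lemma ro_herm (a : ι → ℂ) : (ro a).IsHermitian := by
  unfold ro Matrix.IsHermitian
  rw [conjTranspose_vecMulVec, star_star]

lemma Xm_herm (a : Fin N → ι → ℂ) (v : Fin N → ℝ) : (Xm a v).IsHermitian := by
  unfold Xm Matrix.IsHermitian
  rw [conjTranspose_sum]
  refine Finset.sum_congr rfl fun x _ => ?_
  rw [conjTranspose_smul, (ro_herm (a x)).eq, Complex.star_def, Complex.conj_ofReal]

lemma trace_ro_mul (a : ι → ℂ) (Y : Matrix ι ι ℂ) :
    trace (ro a * Y) = star a ⬝ᵥ (Y *ᵥ a) := by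
  rw [trace_mul_comm, ro, mul_vecMulVec, trace_vecMulVec, dotProduct_comm]

/-- Expansion of the trace. -/
lemma trace_Xm_pow_succ (a : Fin N → ι → ℂ) (v : Fin N → ℝ) (n : ℕ) :
    (trace (Xm a v ^ (n + 1))).re = ∑ x, v x * qf (Xm a v ^ n) (a x) := by
  have h1 : Xm a v ^ (n + 1) = ∑ x, ((v x : ℝ) : ℂ) • (ro (a x) * Xm a v ^ n) := by
    rw [pow_succ']
    conv_lhs => rw [show Xm a v * Xm a v ^ n = (∑ x, ((v x : ℝ) : ℂ) • ro (a x)) * Xm a v ^ n
      from rfl]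
    rw [Finset.sum_mul]
    refine Finset.sum_congr rfl fun x _ => ?_
    rw [smul_mul_assoc]
  rw [h1, trace_sum, Complex.re_sum]
  refine Finset.sum_congr rfl fun x _ => ?_
  rw [trace_smul, trace_ro_mul, smul_eq_mul, Complex.re_ofReal_mul]
  rfl

/-- Telescoping. -/
lemma pow_sub_pow_telescope (S T : Matrix ι ι ℂ) (n : ℕ) :
    S ^ (n + 1) - T ^ (n + 1) = ∑ q ∈ range (n + 1), S ^ q * (S - T) * T ^ (n - q) := by
  induction n with
  | zero => simp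
  | succ n ih =>
    rw [Finset.sum_range_succ']
    have h1 : ∀ q, S ^ (q + 1) * (S - T) * T ^ (n + 1 - (q + 1)) =
        S * (S ^ q * (S - T) * T ^ (n - q)) := by
      intro q
      rw [pow_succ', show n + 1 - (q + 1) = n - q by omega]
      noncomm_ring
    simp_rw [h1]
    rw [← Finset.mul_sum, ← ih, pow_zero, one_mul, Nat.sub_zero, pow_succ' S (n + 1),
      pow_succ' T (n + 1)]
    noncomm_ring

lemma mulVec_ro (a : ι → ℂ) (Y Z : Matrix ι ι ℂ) :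
    star a ⬝ᵥ ((Y * ro a * Z) *ᵥ a) = (star a ⬝ᵥ (Y *ᵥ a)) * (star a ⬝ᵥ (Z *ᵥ a)) := by
  have h1 : (Y * ro a * Z) *ᵥ a = (star a ⬝ᵥ (Z *ᵥ a)) • (Y *ᵥ a) := by
    rw [← mulVec_mulVec, ← mulVec_mulVec, ro, vecMulVec_mulVec, op_smul_eq_smul, mulVec_smul]
  rw [h1, dotProduct_smul, smul_eq_mul, mul_comm]

/-- Difference of the quadratic forms for a rank-one difference. -/
lemma qf_sub {S T : Matrix ι ι ℂ} (hS : S.IsHermitian) (hT : T.IsHermitian) (a : ι → ℂ)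
    (s : ℝ) (hst : S - T = ((s : ℝ) : ℂ) • ro a) (n : ℕ) :
    qf (S ^ (n + 1)) a - qf (T ^ (n + 1)) a =
      s * ∑ q ∈ range (n + 1), qf (S ^ q) a * qf (T ^ (n - q)) a := by
  have h1 : star a ⬝ᵥ ((S ^ (n + 1) - T ^ (n + 1)) *ᵥ a) =
      ((s * ∑ q ∈ range (n + 1), qf (S ^ q) a * qf (T ^ (n - q)) a : ℝ) : ℂ) := by
    rw [pow_sub_pow_telescope, hst, sum_mulVec, dotProduct_sum, Finset.mul_sum,
      Complex.ofReal_sum]
    refine Finset.sum_congr rfl fun q _ => ?_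
    rw [mul_smul_comm, smul_mul_assoc, smul_mulVec, dotProduct_smul, mulVec_ro, qf_im hS, qf_im hT]
    push_cast
    simp
  rw [sub_mulVec, dotProduct_sub, qf_im hS, qf_im hT] at h1
  exact_mod_cast h1

/-- The per-site inequality. -/
lemma site_ineq {S T : Matrix ι ι ℂ} (hS : S.IsHermitian) (hT : T.IsHermitian) (a : ι → ℂ)
    (s : ℝ) (hst : S - T = ((s : ℝ) : ℂ) • ro a) (r : ℕ) :
    s * (qf (S ^ (2 * r + 1)) a - qf (T ^ (2 * r + 1)) a) ≤
      s ^ 2 * (nsq a * (((2 * r + 1 : ℕ) / 2 : ℝ) * (qf (S ^ (2 * r)) a + qf (T ^ (2 * r)) a))) := by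
  rw [qf_sub hS hT a s hst (2 * r)]
  have h1 := sum_qf_mul_le hS hT a r
  calc s * (s * ∑ q ∈ range (2 * r + 1), qf (S ^ q) a * qf (T ^ (2 * r - q)) a)
      = s ^ 2 * ∑ q ∈ range (2 * r + 1), qf (S ^ q) a * qf (T ^ (2 * r - q)) a := by ring
    _ ≤ _ := mul_le_mul_of_nonneg_left h1 (sq_nonneg s)

/-- `∑_x ⟨a_x, Y a_x⟩ ≤ B tr Y` when `∑_x |a_x⟩⟨a_x| = diag w` with `w ≤ B`. -/
lemma sum_qf_le_trace (a : Fin N → ι → ℂ) (w : ι → ℝ) (B : ℝ) (hw : ∀ k, w k ≤ B)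
    (ha : ∑ x, ro (a x) = diagonal (fun k => ((w k : ℝ) : ℂ))) {S : Matrix ι ι ℂ}
    (hS : S.IsHermitian) (r : ℕ) :
    ∑ x, qf (S ^ (2 * r)) (a x) ≤ B * (trace (S ^ (2 * r))).re := by
  have h1 : ∑ x, qf (S ^ (2 * r)) (a x) = (trace ((∑ x, ro (a x)) * S ^ (2 * r))).re := by
    rw [Finset.sum_mul, trace_sum, Complex.re_sum]
    refine Finset.sum_congr rfl fun x _ => ?_
    rw [trace_ro_mul]
    rfl
  have h2 : ∀ k, 0 ≤ ((S ^ (2 * r)) k k).re := by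
    intro k
    have h3 := qf_even_nonneg hS (Pi.single k 1) r
    have h4 : qf (S ^ (2 * r)) (Pi.single k 1) = ((S ^ (2 * r)) k k).re := by
      unfold qf
      have : star (Pi.single k (1 : ℂ) : ι → ℂ) = Pi.single k 1 := by
        rw [← Pi.single_star, star_one]
      rw [this, single_one_dotProduct, mulVec_single_one]
      rfl
    rwa [h4] at h3
  rw [h1, ha, trace, trace, Complex.re_sum, Complex.re_sum, Finset.mul_sum]
  refine Finset.sum_le_sum fun k _ => ?_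
  rw [diag_apply, diag_apply, diagonal_mul, Complex.re_ofReal_mul]
  exact mul_le_mul_of_nonneg_right (hw k) (h2 k)

end Pool.Agent.Helper2.AM
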