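import Pool.Agent.Helper2.AM.Diag
import Pool.Agent.Helper2.AM.Site

/-!
# Fourier modes on a box
-/

open Finset Real Matrix
open scoped ComplexOrder

noncomputable section

set_option linter.unusedSectionVars false

namespace Pool.Agent.Helper2.AM

variable {d : ℕ}

/-- One-dimensional phase `exp (-i θ_k y)`. -/
def ph1 (L : ℕ) (y : ℤ) (k : Fin L) : ℂ := Complex.exp (-(th L k * y : ℝ) * Complex.I)

/-- The phase `exp (-i ∑_j θ_{k_j} y_j)`. -/
def ph (L : ℕ) (y : Fin d → ℤ) (k : Fin d → Fin L) : ℂ := ∏ j, ph1 L (y j) (k j)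

lemma ph1_norm (L : ℕ) (y : ℤ) (k : Fin L) : ‖ph1 L y k‖ = 1 := by
  unfold ph1
  rw [← Complex.ofReal_neg]
  exact Complex.norm_exp_ofReal_mul_I _

lemma ph_norm (L : ℕ) (y : Fin d → ℤ) (k : Fin d → Fin L) : ‖ph L y k‖ = 1 := by
  unfold ph
  rw [norm_prod]
  exact Finset.prod_eq_one fun j _ => ph1_norm L _ _

lemma ph1_add (L : ℕ) (y z : ℤ) (k : Fin L) : ph1 L (y + z) k = ph1 L y k * ph1 L z k := by
  unfold ph1
  rw [← Complex.exp_add]
  congr 1
  push_cast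
  ring

lemma ph_add (L : ℕ) (y z : Fin d → ℤ) (k : Fin d → Fin L) :
    ph L (y + z) k = ph L y k * ph L z k := by
  unfold ph
  rw [← Finset.prod_mul_distrib]
  refine Finset.prod_congr rfl fun j _ => ?_
  rw [Pi.add_apply, ph1_add]

lemma ph1_conj (L : ℕ) (y : ℤ) (k : Fin L) : star (ph1 L y k) = ph1 L (-y) k := by
  unfold ph1
  rw [Complex.star_def, ← Complex.exp_conj]
  congr 1
  simp

lemma ph_conj (L : ℕ) (y : Fin d → ℤ) (k : Fin d → Fin L) :
    star (ph L y k) = ph L (-y) k := by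
  unfold ph
  rw [star_prod]
  refine Finset.prod_congr rfl fun j _ => ?_
  rw [ph1_conj, Pi.neg_apply]

/-- Orthogonality in one dimension. -/
lemma sum_ph1 (L : ℕ) (y : ℤ) (hy : |y| < L) (hy0 : y ≠ 0) : ∑ k : Fin L, ph1 L y k = 0 := by
  have hLpos : 0 < L := by
    rcases Nat.eq_zero_or_pos L with h | h
    · subst h
      simp at hy
      exact absurd hy (not_lt.2 (abs_nonneg y))
    · exact h
  have hL : (L : ℂ) ≠ 0 := by
    exact_mod_cast hLpos.ne'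
  set ζ : ℂ := Complex.exp (-(2 * π * y / L : ℝ) * Complex.I) with hζ
  have h1 : ∀ k : Fin L, ph1 L y k =
      Complex.exp (-(2 * π * (1 / 4) * y / L : ℝ) * Complex.I) * ζ ^ (k : ℕ) := by
    intro k
    rw [hζ, ← Complex.exp_nat_mul, ← Complex.exp_add]
    unfold ph1 th
    congr 1
    push_cast
    field_simp
    ring
  have hζ1 : ζ ≠ 1 := by
    intro h
    rw [hζ, Complex.exp_eq_one_iff] at h
    obtain ⟨n, hn⟩ := h
    have h2 : (-(2 * π * y / L : ℝ) : ℂ) = n * (2 * π) := by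
      have hI : Complex.I ≠ 0 := Complex.I_ne_zero
      apply mul_right_cancel₀ hI
      rw [hn]
      ring
    have h3 : -(2 * π * y / L : ℝ) = n * (2 * π) := by
      exact_mod_cast h2
    have hLr : (L : ℝ) ≠ 0 := by exact_mod_cast hLpos.ne'
    have h4 : (-(y : ℝ)) = n * L := by
      have hpi : (2 * π) ≠ 0 := by positivity
      field_simp at h3
      nlinarith [h3, pi_pos]
    have h5 : -y = n * L := by exact_mod_cast h4
    have hn0 : n ≠ 0 := by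
      rintro rfl
      apply hy0
      linarith
    have h6 : (1 : ℤ) ≤ |n| := Int.one_le_abs hn0
    have h7 : |y| = |n| * L := by
      rw [← abs_neg, h5, abs_mul, Nat.abs_cast]
    have h8 : (0 : ℤ) < L := by exact_mod_cast hLpos
    nlinarith
  have hζL : ζ ^ L = 1 := by
    rw [hζ, ← Complex.exp_nat_mul, Complex.exp_eq_one_iff]
    refine ⟨-y, ?_⟩
    push_cast
    field_simp
  simp_rw [h1]
  rw [← Finset.mul_sum, Fin.sum_univ_eq_sum_range (fun k => ζ ^ k) L,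
    geom_sum_eq hζ1, hζL, sub_self, zero_div, mul_zero]

/-- The lattice position of a site of the box. -/
def pos (R : ℕ) (x : Fin d → Fin (2 * R + 1)) : Fin d → ℤ := fun j => (x j : ℤ) - R

lemma pos_injective (R : ℕ) : Function.Injective (pos R : (Fin d → Fin (2 * R + 1)) → _) := by
  intro x y h
  funext j
  have := congrFun h j
  unfold pos at this
  apply Fin.ext
  omega

/-- Normalised modes. -/
def bv (R : ℕ) (x k : Fin d → Fin (2 * R + 1)) : ℂ :=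
  ((√(((2 * R + 1 : ℕ) : ℝ) ^ d))⁻¹ : ℝ) * ph (2 * R + 1) (pos R x) k

lemma sum_ph (R : ℕ) (x y : Fin d → Fin (2 * R + 1)) :
    ∑ k : Fin d → Fin (2 * R + 1), ph (2 * R + 1) (pos R x - pos R y) k =
      if x = y then (((2 * R + 1 : ℕ) : ℂ)) ^ d else 0 := by
  unfold ph
  have h1 := Finset.prod_univ_sum (fun _ : Fin d => (univ : Finset (Fin (2 * R + 1))))
    (fun j k => ph1 (2 * R + 1) ((pos R x - pos R y) j) k)
  rw [Fintype.piFinset_univ] at h1
  rw [← h1]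
  split_ifs with hxy
  · subst hxy
    simp [ph1]
  · obtain ⟨j, hj⟩ := Function.ne_iff.1 hxy
    apply Finset.prod_eq_zero (mem_univ j)
    apply sum_ph1
    · simp only [Pi.sub_apply, pos]
      have h1 := (x j).2
      have h2 := (y j).2
      rw [abs_lt]
      constructor <;> push_cast <;> omega
    · simp only [Pi.sub_apply, pos]
      intro h
      apply hj
      apply Fin.ext
      omega

/-- The matrix of the modes. -/
def Bm (d R : ℕ) : Matrix (Fin d → Fin (2 * R + 1)) (Fin d → Fin (2 * R + 1)) ℂ :=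
  Matrix.of fun k x => bv R x k

lemma norm_const_sq (d R : ℕ) :
    (((√(((2 * R + 1 : ℕ) : ℝ) ^ d))⁻¹ : ℝ) : ℂ) * (((√(((2 * R + 1 : ℕ) : ℝ) ^ d))⁻¹ : ℝ) : ℂ) *
      (((2 * R + 1 : ℕ) : ℂ)) ^ d = 1 := by
  have h0 : (0 : ℝ) < ((2 * R + 1 : ℕ) : ℝ) ^ d := by positivity
  have h1 : (√(((2 * R + 1 : ℕ) : ℝ) ^ d))⁻¹ * (√(((2 * R + 1 : ℕ) : ℝ) ^ d))⁻¹ *
      ((2 * R + 1 : ℕ) : ℝ) ^ d = 1 := by
    rw [← mul_inv, mul_self_sqrt h0.le, inv_mul_cancel₀ h0.ne']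
  exact_mod_cast h1

lemma Bm_orth (d R : ℕ) : (Bm d R)ᴴ * Bm d R = 1 := by
  ext x y
  rw [mul_apply]
  simp only [conjTranspose_apply, Bm, of_apply, bv]
  have h1 : ∀ k : Fin d → Fin (2 * R + 1),
      star ((((√(((2 * R + 1 : ℕ) : ℝ) ^ d))⁻¹ : ℝ) : ℂ) * ph (2 * R + 1) (pos R x) k) *
      ((((√(((2 * R + 1 : ℕ) : ℝ) ^ d))⁻¹ : ℝ) : ℂ) * ph (2 * R + 1) (pos R y) k) =
      ((((√(((2 * R + 1 : ℕ) : ℝ) ^ d))⁻¹ : ℝ) : ℂ) *
        (((√(((2 * R + 1 : ℕ) : ℝ) ^ d))⁻¹ : ℝ) : ℂ)) *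
        ph (2 * R + 1) (pos R y - pos R x) k := by
    intro k
    rw [star_mul', ph_conj, Complex.star_def, Complex.conj_ofReal, sub_eq_add_neg, ph_add]
    ring
  simp_rw [h1]
  rw [← Finset.mul_sum, sum_ph]
  by_cases hxy : x = y
  · subst hxy
    rw [if_pos rfl, norm_const_sq, one_apply_eq]
  · rw [if_neg (Ne.symm hxy), mul_zero, one_apply_ne hxy]

lemma Bm_orth' (d R : ℕ) : Bm d R * (Bm d R)ᴴ = 1 := mul_eq_one_comm.1 (Bm_orth d R)

/-- Weighted modes. -/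
def av (R : ℕ) (E ε : ℝ) (x k : Fin d → Fin (2 * R + 1)) : ℂ :=
  (√(wt (en (2 * R + 1) k) E ε) : ℝ) * bv R x k

lemma sum_ro_av (R : ℕ) (E ε : ℝ) (hε : 0 < ε) :
    ∑ x, ro (av (d := d) R E ε x) =
      diagonal (fun k => ((wt (en (2 * R + 1) k) E ε : ℝ) : ℂ)) := by
  ext k k'
  rw [Matrix.sum_apply]
  have h1 : ∀ x : Fin d → Fin (2 * R + 1), ro (av R E ε x) k k' =
      ((√(wt (en (2 * R + 1) k) E ε) : ℝ) : ℂ) * ((√(wt (en (2 * R + 1) k') E ε) : ℝ) : ℂ) *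
        (Bm d R k x * (Bm d R)ᴴ x k') := by
    intro x
    simp only [ro, vecMulVec_apply, av, Pi.star_apply, star_mul', Bm, of_apply,
      conjTranspose_apply, Complex.star_def, Complex.conj_ofReal]
    ring
  simp_rw [h1]
  rw [← Finset.mul_sum, ← mul_apply, Bm_orth']
  by_cases hk : k = k'
  · subst hk
    rw [one_apply_eq, mul_one, diagonal_apply_eq, ← Complex.ofReal_mul,
      mul_self_sqrt (wt_pos _ _ _ hε).le]
  · rw [one_apply_ne hk, mul_zero, diagonal_apply_ne _ hk]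

lemma bv_normSq (R : ℕ) (x k : Fin d → Fin (2 * R + 1)) :
    ‖bv R x k‖ ^ 2 = (((2 * R + 1 : ℕ) : ℝ) ^ d)⁻¹ := by
  unfold bv
  have h0 : (0 : ℝ) < ((2 * R + 1 : ℕ) : ℝ) ^ d := by positivity
  rw [norm_mul, ph_norm, mul_one, Complex.norm_real, Real.norm_eq_abs, sq_abs, inv_pow,
    sq_sqrt h0.le]

lemma nsq_av (R : ℕ) (E ε : ℝ) (hε : 0 < ε) (x : Fin d → Fin (2 * R + 1)) :
    nsq (av R E ε x) = (((2 * R + 1 : ℕ) : ℝ) ^ d)⁻¹ *
      ∑ k : Fin d → Fin (2 * R + 1), wt (en (2 * R + 1) k) E ε := by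
  unfold nsq
  rw [Finset.mul_sum]
  refine Finset.sum_congr rfl fun k _ => ?_
  unfold av
  rw [norm_mul, mul_pow, bv_normSq, Complex.norm_real, Real.norm_eq_abs, sq_abs,
    sq_sqrt (wt_pos _ _ _ hε).le]
  ring

end Pool.Agent.Helper2.AM
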