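import Pool.Agent.Helper2.AM.Site

/-!
# Moments of random sums of rank-one matrices
-/

open Matrix Finset MeasureTheory
open scoped ComplexOrder ENNReal

noncomputable section

set_option linter.unusedSectionVars false

namespace Pool.Agent.Helper2.AM

variable {ι : Type*} [Fintype ι] [DecidableEq ι] {N : ℕ}

lemma Xm_continuous (a : Fin N → ι → ℂ) : Continuous (fun v : Fin N → ℝ => Xm a v) := by
  unfold Xm
  fun_prop

lemma qf_continuous (a : Fin N → ι → ℂ) (n : ℕ) (c : ι → ℂ) :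
    Continuous (fun v : Fin N → ℝ => qf (Xm a v ^ n) c) := by
  unfold qf
  have h := (Xm_continuous a).pow n
  exact Complex.continuous_re.comp (continuous_const.dotProduct (h.matrix_mulVec continuous_const))

lemma trace_continuous (a : Fin N → ι → ℂ) (n : ℕ) :
    Continuous (fun v : Fin N → ℝ => (trace (Xm a v ^ n)).re) := by
  have h := (Xm_continuous a).pow n
  exact Complex.continuous_re.comp h.matrix_trace

variable (ν : Measure ℝ) [IsProbabilityMeasure ν] (b : ℝ)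

/-- Product measure. -/
abbrev pm (N : ℕ) : Measure (Fin N → ℝ) := Measure.pi (fun _ : Fin N => ν)

lemma ae_bdd (hb : ∀ᵐ s ∂ν, |s| ≤ b) (N : ℕ) : ∀ᵐ v ∂(pm ν N), ∀ i, |v i| ≤ b := by
  rw [ae_all_iff]
  intro i
  exact (Measure.quasiMeasurePreserving_eval (fun _ : Fin N => ν) i).ae hb

lemma cont_integrable (hb : ∀ᵐ s ∂ν, |s| ≤ b) (g : (Fin N → ℝ) → ℝ) (hg : Continuous g) :
    Integrable g (pm ν N) := by
  have hK : IsCompact (Set.pi Set.univ (fun _ : Fin N => Set.Icc (-b) b)) :=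
    isCompact_univ_pi fun _ => isCompact_Icc
  obtain ⟨C, hC⟩ := hK.exists_bound_of_continuousOn hg.continuousOn
  refine Integrable.of_bound hg.aestronglyMeasurable C ?_
  filter_upwards [ae_bdd ν b hb N] with v hv
  apply hC
  intro i _
  exact abs_le.1 (hv i)

/-- Dropping the zeroth coordinate. -/
def tl (v : Fin (N + 1) → ℝ) : Fin N → ℝ := fun x => v x.succ

lemma tl_continuous : Continuous (tl : (Fin (N + 1) → ℝ) → Fin N → ℝ) := by
  unfold tl
  fun_prop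

lemma succ_mp : MeasurePreserving (fun v : Fin (N + 1) → ℝ => (v 0, tl v)) (pm ν (N + 1))
    (ν.prod (pm ν N)) := by
  have h := measurePreserving_piFinSuccAbove (fun _ : Fin (N + 1) => ν) 0
  exact h

lemma tl_mp : MeasurePreserving (tl : (Fin (N + 1) → ℝ) → Fin N → ℝ) (pm ν (N + 1)) (pm ν N) :=
  (measurePreserving_snd (μ := ν) (ν := pm ν N)).comp (succ_mp ν)

lemma integral_tl (g : (Fin N → ℝ) → ℝ) (hg : Continuous g) :
    ∫ v, g (tl v) ∂(pm ν (N + 1)) = ∫ v, g v ∂(pm ν N) := by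
  rw [← (tl_mp (N := N) ν).map_eq]
  exact (integral_map tl_continuous.aemeasurable hg.aestronglyMeasurable).symm

lemma integral_zero_mul (hmean : ∫ s, s ∂ν = 0) (g : (Fin N → ℝ) → ℝ) (hg : Continuous g) :
    ∫ v, v 0 * g (tl v) ∂(pm ν (N + 1)) = 0 := by
  have h1 : ∫ v, v 0 * g (tl v) ∂(pm ν (N + 1)) = ∫ q : ℝ × (Fin N → ℝ), q.1 * g q.2
      ∂(ν.prod (pm ν N)) := by
    rw [← (succ_mp (N := N) ν).map_eq]
    have m1 : AEMeasurable (fun v : Fin (N + 1) → ℝ => (v 0, tl v)) (pm ν (N + 1)) :=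
      (succ_mp (N := N) ν).measurable.aemeasurable
    have m2 : AEStronglyMeasurable (fun q : ℝ × (Fin N → ℝ) => q.1 * g q.2)
        (Measure.map (fun v : Fin (N + 1) → ℝ => (v 0, tl v)) (pm ν (N + 1))) :=
      (continuous_fst.mul (hg.comp continuous_snd)).aestronglyMeasurable
    exact (integral_map m1 m2).symm
  rw [h1, integral_prod_mul (fun s : ℝ => s) g, hmean, zero_mul]

lemma perm_mp (σ : Equiv.Perm (Fin N)) :
    MeasurePreserving (fun v : Fin N → ℝ => v ∘ σ) (pm ν N) (pm ν N) := by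
  have h := measurePreserving_piCongrLeft (α := fun _ : Fin N => ℝ) (fun _ : Fin N => ν) σ⁻¹
  have e : (fun z : Fin N → ℝ => z ∘ σ) =
      ⇑(MeasurableEquiv.piCongrLeft (fun _ : Fin N => ℝ) σ⁻¹) := by
    funext z
    funext j
    have := Equiv.piCongrLeft_apply (P := fun _ : Fin N => ℝ) (e := σ⁻¹) z j
    rw [MeasurableEquiv.coe_piCongrLeft, this, eq_rec_constant]
    rfl
  rw [e]
  exact h

lemma integral_permR (σ : Equiv.Perm (Fin N)) (g : (Fin N → ℝ) → ℝ) (hg : Continuous g) :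
    ∫ v, g (v ∘ σ) ∂(pm ν N) = ∫ v, g v ∂(pm ν N) := by
  conv_rhs => rw [← (perm_mp (N := N) ν σ).map_eq]
  exact (integral_map (perm_mp (N := N) ν σ).measurable.aemeasurable hg.aestronglyMeasurable).symm

/-- Change of one coordinate of the matrix. -/
lemma Xm_swap (a : Fin N → ι → ℂ) (v : Fin (N + 1) → ℝ) (x : Fin N) :
    Xm a (tl v) - Xm a (tl (v ∘ Equiv.swap 0 x.succ)) = ((v x.succ - v 0 : ℝ) : ℂ) • ro (a x) := by
  unfold Xm
  rw [← Finset.sum_sub_distrib, Finset.sum_eq_single x]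
  · rw [← sub_smul]
    congr 1
    simp [tl]
  · intro y _ hy
    have h1 : tl (v ∘ Equiv.swap 0 x.succ) y = tl v y := by
      simp only [tl, Function.comp_apply]
      rw [Equiv.swap_apply_of_ne_of_ne (Fin.succ_ne_zero y)]
      intro h
      exact hy (Fin.succ_injective _ h)
    rw [h1, sub_self]
  · intro h
    exact absurd (Finset.mem_univ x) h

/-- The resampling bound for one site. -/
lemma site_moment (hb : ∀ᵐ s ∂ν, |s| ≤ b) (hmean : ∫ s, s ∂ν = 0)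
    (a : Fin N → ι → ℂ) (w0 : ℝ) (x : Fin N) (hw0 : nsq (a x) ≤ w0) (r : ℕ) :
    ∫ v, v x * qf (Xm a v ^ (2 * r + 1)) (a x) ∂(pm ν N) ≤
      2 * b ^ 2 * (2 * r + 1) * w0 * ∫ v, qf (Xm a v ^ (2 * r)) (a x) ∂(pm ν N) := by
  set φ : (Fin N → ℝ) → ℝ := fun v => qf (Xm a v ^ (2 * r + 1)) (a x) with hφ
  set ψ : (Fin N → ℝ) → ℝ := fun v => qf (Xm a v ^ (2 * r)) (a x) with hψ
  have hφc : Continuous φ := qf_continuous a _ _
  have hψc : Continuous ψ := qf_continuous a _ _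
  have hψ0 : ∀ v, 0 ≤ ψ v := fun v => qf_even_nonneg (Xm_herm a v) _ _
  set σ : Equiv.Perm (Fin (N + 1)) := Equiv.swap 0 x.succ with hσ
  have hcσ : Continuous (fun v : Fin (N + 1) → ℝ => v ∘ σ) := by
    apply continuous_pi
    intro i
    exact continuous_apply (σ i)
  have hc0 : Continuous (fun v : Fin (N + 1) → ℝ => v 0) := continuous_apply 0
  have hcx : Continuous (fun v : Fin (N + 1) → ℝ => v x.succ) := continuous_apply _
  have hφt : Continuous (fun v : Fin (N + 1) → ℝ => φ (tl v)) := hφc.comp tl_continuous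
  have hψt : Continuous (fun v : Fin (N + 1) → ℝ => ψ (tl v)) := hψc.comp tl_continuous
  have hφs : Continuous (fun v : Fin (N + 1) → ℝ => φ (tl (v ∘ σ))) :=
    hφt.comp hcσ
  have hψs : Continuous (fun v : Fin (N + 1) → ℝ => ψ (tl (v ∘ σ))) :=
    hψt.comp hcσ
  -- pass to `N + 1` coordinates
  have e1 : ∫ v, v x * φ v ∂(pm ν N) = ∫ v, (v x.succ - v 0) * φ (tl v) ∂(pm ν (N + 1)) := by
    rw [← integral_tl ν (fun v => v x * φ v) ((continuous_apply x).mul hφc)]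
    have h1 : ∫ v, (v x.succ - v 0) * φ (tl v) ∂(pm ν (N + 1)) =
        ∫ v, v x.succ * φ (tl v) ∂(pm ν (N + 1)) - ∫ v, v 0 * φ (tl v) ∂(pm ν (N + 1)) := by
      have i1 : Integrable (fun v : Fin (N + 1) → ℝ => v x.succ * φ (tl v)) (pm ν (N + 1)) :=
        cont_integrable ν b hb _ (hcx.mul hφt)
      have i2 : Integrable (fun v : Fin (N + 1) → ℝ => v 0 * φ (tl v)) (pm ν (N + 1)) :=
        cont_integrable ν b hb _ (hc0.mul hφt)
      rw [← integral_sub i1 i2]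
      refine integral_congr_ae (Filter.Eventually.of_forall fun v => ?_)
      simp only
      ring
    rw [h1, integral_zero_mul ν hmean φ hφc, sub_zero]
    rfl
  have e2 : ∫ v, (v x.succ - v 0) * φ (tl v) ∂(pm ν (N + 1)) =
      ∫ v, (v 0 - v x.succ) * φ (tl (v ∘ σ)) ∂(pm ν (N + 1)) := by
    rw [← integral_permR ν σ (fun v => (v x.succ - v 0) * φ (tl v)) ((hcx.sub hc0).mul hφt)]
    refine integral_congr_ae (Filter.Eventually.of_forall fun v => ?_)
    simp [hσ]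
  have e3 : ∫ v, v x * φ v ∂(pm ν N) =
      (1 / 2) * ∫ v, (v x.succ - v 0) * (φ (tl v) - φ (tl (v ∘ σ))) ∂(pm ν (N + 1)) := by
    have h1 : ∫ v, (v x.succ - v 0) * (φ (tl v) - φ (tl (v ∘ σ))) ∂(pm ν (N + 1)) =
        ∫ v, (v x.succ - v 0) * φ (tl v) ∂(pm ν (N + 1)) +
        ∫ v, (v 0 - v x.succ) * φ (tl (v ∘ σ)) ∂(pm ν (N + 1)) := by
      have i1 : Integrable (fun v : Fin (N + 1) → ℝ => (v x.succ - v 0) * φ (tl v))
          (pm ν (N + 1)) := cont_integrable ν b hb _ ((hcx.sub hc0).mul hφt)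
      have i2 : Integrable (fun v : Fin (N + 1) → ℝ => (v 0 - v x.succ) * φ (tl (v ∘ σ)))
          (pm ν (N + 1)) := cont_integrable ν b hb _ ((hc0.sub hcx).mul hφs)
      rw [← integral_add i1 i2]
      refine integral_congr_ae (Filter.Eventually.of_forall fun v => ?_)
      simp only
      ring
    rw [h1, ← e2, ← e1]
    ring
  rw [e3]
  -- pointwise bound
  set K : ℝ := 4 * b ^ 2 * (w0 * ((2 * r + 1 : ℕ) / 2 : ℝ)) with hK
  have e4 : ∫ v, (v x.succ - v 0) * (φ (tl v) - φ (tl (v ∘ σ))) ∂(pm ν (N + 1)) ≤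
      ∫ v, K * (ψ (tl v) + ψ (tl (v ∘ σ))) ∂(pm ν (N + 1)) := by
    apply integral_mono_ae (cont_integrable ν b hb _ ((hcx.sub hc0).mul (hφt.sub hφs)))
      (cont_integrable ν b hb _ (continuous_const.mul (hψt.add hψs)))
    filter_upwards [ae_bdd ν b hb (N + 1)] with v hv
    have h1 := site_ineq (Xm_herm a (tl v)) (Xm_herm a (tl (v ∘ σ))) (a x) (v x.succ - v 0)
      (Xm_swap a v x) r
    refine h1.trans ?_
    have h2 : (v x.succ - v 0) ^ 2 ≤ 4 * b ^ 2 := by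
      have h3 := abs_le.1 (hv x.succ)
      have h4 := abs_le.1 (hv 0)
      nlinarith
    have h5 : 0 ≤ ψ (tl v) + ψ (tl (v ∘ σ)) := add_nonneg (hψ0 _) (hψ0 _)
    have h6 : 0 ≤ nsq (a x) := Finset.sum_nonneg fun i _ => by positivity
    have h7 : 0 ≤ ((2 * r + 1 : ℕ) / 2 : ℝ) := by positivity
    have h8 : nsq (a x) * (((2 * r + 1 : ℕ) / 2 : ℝ) * (ψ (tl v) + ψ (tl (v ∘ σ)))) ≤
        w0 * (((2 * r + 1 : ℕ) / 2 : ℝ) * (ψ (tl v) + ψ (tl (v ∘ σ)))) :=
      mul_le_mul_of_nonneg_right hw0 (mul_nonneg h7 h5)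
    have h9 : 0 ≤ nsq (a x) * (((2 * r + 1 : ℕ) / 2 : ℝ) * (ψ (tl v) + ψ (tl (v ∘ σ)))) :=
      mul_nonneg h6 (mul_nonneg h7 h5)
    calc (v x.succ - v 0) ^ 2 * (nsq (a x) * (((2 * r + 1 : ℕ) / 2 : ℝ) *
          (ψ (tl v) + ψ (tl (v ∘ σ)))))
        ≤ (4 * b ^ 2) * (w0 * (((2 * r + 1 : ℕ) / 2 : ℝ) * (ψ (tl v) + ψ (tl (v ∘ σ))))) :=
          mul_le_mul h2 h8 h9 (by positivity)
      _ = K * (ψ (tl v) + ψ (tl (v ∘ σ))) := by rw [hK]; ring
  have e5 : ∫ v, K * (ψ (tl v) + ψ (tl (v ∘ σ))) ∂(pm ν (N + 1)) =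
      2 * K * ∫ v, ψ v ∂(pm ν N) := by
    rw [integral_const_mul, integral_add (cont_integrable ν b hb _ hψt)
      (cont_integrable ν b hb _ hψs), integral_permR ν σ (fun v => ψ (tl v)) hψt,
      integral_tl ν ψ hψc]
    ring
  rw [e5] at e4
  calc (1 / 2) * ∫ v, (v x.succ - v 0) * (φ (tl v) - φ (tl (v ∘ σ))) ∂(pm ν (N + 1))
      ≤ (1 / 2) * (2 * K * ∫ v, ψ v ∂(pm ν N)) := by linarith
    _ = 2 * b ^ 2 * (2 * r + 1) * w0 * ∫ v, ψ v ∂(pm ν N) := by
      rw [hK]; push_cast; ring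

/-- One step of the trace recursion. -/
lemma trace_step (hb : ∀ᵐ s ∂ν, |s| ≤ b) (hmean : ∫ s, s ∂ν = 0)
    (a : Fin N → ι → ℂ) (w0 B : ℝ) (w : ι → ℝ) (hw0 : ∀ x, nsq (a x) ≤ w0) (hw0' : 0 ≤ w0)
    (hw : ∀ k, w k ≤ B) (ha : ∑ x, ro (a x) = diagonal (fun k => ((w k : ℝ) : ℂ))) (r : ℕ) :
    ∫ v, (trace (Xm a v ^ (2 * (r + 1)))).re ∂(pm ν N) ≤
      2 * b ^ 2 * (2 * r + 1) * w0 * B * ∫ v, (trace (Xm a v ^ (2 * r))).re ∂(pm ν N) := by
  have h1 : ∫ v, (trace (Xm a v ^ (2 * (r + 1)))).re ∂(pm ν N) =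
      ∑ x, ∫ v, v x * qf (Xm a v ^ (2 * r + 1)) (a x) ∂(pm ν N) := by
    rw [← integral_finsetSum]
    · refine integral_congr_ae (Filter.Eventually.of_forall fun v => ?_)
      exact trace_Xm_pow_succ a v (2 * r + 1)
    · intro x _
      exact cont_integrable ν b hb _ ((continuous_apply x).mul (qf_continuous a _ _))
  rw [h1]
  have hc : 0 ≤ 2 * b ^ 2 * (2 * r + 1) * w0 := by positivity
  calc ∑ x, ∫ v, v x * qf (Xm a v ^ (2 * r + 1)) (a x) ∂(pm ν N)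
      ≤ ∑ x, 2 * b ^ 2 * (2 * r + 1) * w0 * ∫ v, qf (Xm a v ^ (2 * r)) (a x) ∂(pm ν N) :=
        Finset.sum_le_sum fun x _ => site_moment ν b hb hmean a w0 x (hw0 x) r
    _ = 2 * b ^ 2 * (2 * r + 1) * w0 * ∫ v, ∑ x, qf (Xm a v ^ (2 * r)) (a x) ∂(pm ν N) := by
        rw [integral_finsetSum, Finset.mul_sum]
        intro x _
        exact cont_integrable ν b hb _ (qf_continuous a _ _)
    _ ≤ 2 * b ^ 2 * (2 * r + 1) * w0 * ∫ v, B * (trace (Xm a v ^ (2 * r))).re ∂(pm ν N) := by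
        apply mul_le_mul_of_nonneg_left _ hc
        apply integral_mono
        · apply integrable_finsetSum
          intro x _
          exact cont_integrable ν b hb _ (qf_continuous a _ _)
        · exact cont_integrable ν b hb _ (continuous_const.mul (trace_continuous a _))
        · intro v
          exact sum_qf_le_trace a w B hw ha (Xm_herm a v) r
    _ = _ := by rw [integral_const_mul]; ring

/-- Moment bound. -/
theorem trace_moment (hb : ∀ᵐ s ∂ν, |s| ≤ b) (hmean : ∫ s, s ∂ν = 0)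
    (a : Fin N → ι → ℂ) (w0 B : ℝ) (w : ι → ℝ) (hw0 : ∀ x, nsq (a x) ≤ w0) (hw0' : 0 ≤ w0)
    (hB : 0 ≤ B)
    (hw : ∀ k, w k ≤ B) (ha : ∑ x, ro (a x) = diagonal (fun k => ((w k : ℝ) : ℂ))) (p : ℕ) :
    ∀ r ≤ p, ∫ v, (trace (Xm a v ^ (2 * r))).re ∂(pm ν N) ≤
      (4 * p * b ^ 2 * w0 * B) ^ r * Fintype.card ι := by
  intro r
  induction r with
  | zero =>
    intro _
    simp
  | succ r ih =>
    intro hr
    have h1 := trace_step ν b hb hmean a w0 B w hw0 hw0' hw ha r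
    have h2 := ih (by omega)
    have h3 : (2 * (r : ℝ) + 1) ≤ 2 * p := by
      have : (r : ℝ) + 1 ≤ p := by exact_mod_cast hr
      linarith
    have hc : 0 ≤ 2 * b ^ 2 * (2 * r + 1) * w0 * B := by positivity
    have hc' : 2 * b ^ 2 * (2 * r + 1) * w0 * B ≤ 4 * p * b ^ 2 * w0 * B := by
      have h4 : 0 ≤ 2 * b ^ 2 * (w0 * B) := by positivity
      calc 2 * b ^ 2 * (2 * r + 1) * w0 * B = 2 * b ^ 2 * (w0 * B) * (2 * r + 1) := by ring
        _ ≤ 2 * b ^ 2 * (w0 * B) * (2 * p) := mul_le_mul_of_nonneg_left h3 h4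
        _ = _ := by ring
    have h5 : 0 ≤ (4 * p * b ^ 2 * w0 * B) ^ r * Fintype.card ι := by positivity
    calc ∫ v, (trace (Xm a v ^ (2 * (r + 1)))).re ∂(pm ν N)
        ≤ 2 * b ^ 2 * (2 * r + 1) * w0 * B * ∫ v, (trace (Xm a v ^ (2 * r))).re ∂(pm ν N) := h1
      _ ≤ 2 * b ^ 2 * (2 * r + 1) * w0 * B * ((4 * p * b ^ 2 * w0 * B) ^ r * Fintype.card ι) :=
          mul_le_mul_of_nonneg_left h2 hc
      _ ≤ 4 * p * b ^ 2 * w0 * B * ((4 * p * b ^ 2 * w0 * B) ^ r * Fintype.card ι) :=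
          mul_le_mul_of_nonneg_right hc' h5
      _ = _ := by ring

/-- With high probability `‖X‖ ≤ c`. -/
theorem norm_prob (hb : ∀ᵐ s ∂ν, |s| ≤ b) (hmean : ∫ s, s ∂ν = 0)
    (a : Fin N → ι → ℂ) (w0 B : ℝ) (w : ι → ℝ) (hw0 : ∀ x, nsq (a x) ≤ w0) (hw0' : 0 ≤ w0)
    (hB : 0 ≤ B)
    (hw : ∀ k, w k ≤ B) (ha : ∑ x, ro (a x) = diagonal (fun k => ((w k : ℝ) : ℂ))) (p : ℕ)
    (hp : p ≠ 0) (c : ℝ) (hc : 0 < c) :
    (pm ν N) {v | ∃ u : ι → ℂ, c ^ 2 * nsq u < nsq (Xm a v *ᵥ u)} ≤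
      ENNReal.ofReal ((4 * p * b ^ 2 * w0 * B / c ^ 2) ^ p * Fintype.card ι) := by
  have h1 := trace_moment ν b hb hmean a w0 B w hw0 hw0' hB hw ha p p le_rfl
  have hsub : {v | ∃ u : ι → ℂ, c ^ 2 * nsq u < nsq (Xm a v *ᵥ u)} ⊆
      {v | c ^ (2 * p) ≤ (trace (Xm a v ^ (2 * p))).re} := by
    intro v hv
    obtain ⟨u, hu⟩ := hv
    by_contra hcon
    rw [Set.mem_ofPred_eq, not_le] at hcon
    exact absurd (norm_le_of_trace (Xm_herm a v) p hp c hc.le hcon.le u) (not_le.2 hu)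
  refine (measure_mono hsub).trans ?_
  have hnn : ∀ v : Fin N → ℝ, 0 ≤ (trace (Xm a v ^ (2 * p))).re := by
    intro v
    obtain ⟨U, lam, hU, hU', hUq⟩ := spectral_powers (Xm_herm a v)
    rw [hUq, trace_mul_comm, ← mul_assoc, hU', one_mul, trace_diagonal, ← Complex.ofReal_sum,
      Complex.ofReal_re]
    refine Finset.sum_nonneg fun i _ => ?_
    rw [pow_mul]; positivity
  have hint := cont_integrable ν b hb _ (trace_continuous a (2 * p))
  have hmk := mul_meas_ge_le_integral_of_nonneg (Filter.Eventually.of_forall hnn) hint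
    (c ^ (2 * p))
  have hcp : 0 < c ^ (2 * p) := by positivity
  have h2 : (pm ν N).real {v | c ^ (2 * p) ≤ (trace (Xm a v ^ (2 * p))).re} ≤
      (4 * p * b ^ 2 * w0 * B / c ^ 2) ^ p * Fintype.card ι := by
    have h3 : c ^ (2 * p) * (pm ν N).real {v | c ^ (2 * p) ≤ (trace (Xm a v ^ (2 * p))).re} ≤
        (4 * p * b ^ 2 * w0 * B) ^ p * Fintype.card ι := hmk.trans h1
    rw [div_pow, ← pow_mul, div_mul_eq_mul_div, le_div_iff₀ hcp, mul_comm]
    exact h3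
  rw [← ENNReal.ofReal_toReal (measure_ne_top (pm ν N) _)]
  exact ENNReal.ofReal_le_ofReal h2

end Pool.Agent.Helper2.AM
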