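import Pool.Agent.Helper2.AM.Resolv

/-!
# Energies outside the window
-/

open Finset Real Matrix
open scoped ComplexOrder

noncomputable section

set_option linter.unusedSectionVars false

namespace Pool.Agent.Helper2.AM

variable {d : ℕ}

/-- Deterministic bound for `X`. -/
lemma X_det (R : ℕ) (E0 ε b W : ℝ) (hε : 0 < ε) (hW : 0 ≤ W)
    (hw : ∀ k : Fin d → Fin (2 * R + 1), wt (en (2 * R + 1) k) E0 ε ≤ W)
    (v : (Fin d → Fin (2 * R + 1)) → ℝ) (hv : ∀ x, |v x| ≤ b)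
    (u : (Fin d → Fin (2 * R + 1)) → ℂ) :
    nsq ((∑ x, ((v x : ℝ) : ℂ) • ro (av R E0 ε x)) *ᵥ u) ≤ (b * W) ^ 2 * nsq u := by
  set w : (Fin d → Fin (2 * R + 1)) → ℝ := fun k => wt (en (2 * R + 1) k) E0 ε with hwdef
  have hwpos : ∀ k, 0 < w k := fun k => wt_pos _ _ _ hε
  set c : (Fin d → Fin (2 * R + 1)) → ℂ := fun x => star (av R E0 ε x) ⬝ᵥ u with hc
  set vc : (Fin d → Fin (2 * R + 1)) → ℂ := fun x => ((v x : ℝ) : ℂ) * c x with hvc
  have h1 : ∀ k, ((∑ x, ((v x : ℝ) : ℂ) • ro (av R E0 ε x)) *ᵥ u) k =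
      ((√(w k) : ℝ) : ℂ) * (Bm d R *ᵥ vc) k := by
    intro k
    rw [sum_mulVec, Finset.sum_apply, mulVec, dotProduct, Finset.mul_sum]
    refine Finset.sum_congr rfl fun x _ => ?_
    rw [smul_mulVec, Pi.smul_apply, ro, vecMulVec_mulVec, op_smul_eq_smul, Pi.smul_apply,
      smul_eq_mul, smul_eq_mul]
    simp only [av, Bm, of_apply, hvc, hc]
    ring
  have h2 : nsq ((∑ x, ((v x : ℝ) : ℂ) • ro (av R E0 ε x)) *ᵥ u) ≤ W * nsq vc := by
    rw [← nsq_Bm d R vc]
    unfold nsq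
    rw [Finset.mul_sum]
    refine Finset.sum_le_sum fun k _ => ?_
    rw [h1, norm_mul, mul_pow, Complex.norm_real, Real.norm_eq_abs, sq_abs, sq_sqrt (hwpos k).le]
    exact mul_le_mul_of_nonneg_right (hw k) (by positivity)
  have h3 : nsq vc ≤ b ^ 2 * nsq c := by
    unfold nsq
    rw [Finset.mul_sum]
    refine Finset.sum_le_sum fun x _ => ?_
    rw [hvc]
    simp only
    rw [norm_mul, mul_pow, Complex.norm_real, Real.norm_eq_abs]
    have := pow_le_pow_left₀ (abs_nonneg _) (hv x) 2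
    exact mul_le_mul_of_nonneg_right this (by positivity)
  have h4 : nsq c ≤ W * nsq u := by
    -- `c = Bᴴ (√w u)`
    set su : (Fin d → Fin (2 * R + 1)) → ℂ := fun k => ((√(w k) : ℝ) : ℂ) * u k with hsu
    have e1 : Bm d R *ᵥ c = su := by
      have : c = (Bm d R)ᴴ *ᵥ su := by
        funext x
        simp only [hc, hsu, mulVec, dotProduct, Pi.star_apply, av, star_mul', conjTranspose_apply,
          Bm, of_apply]
        refine Finset.sum_congr rfl fun k _ => ?_
        rw [Complex.star_def, Complex.conj_ofReal]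
        ring
      rw [this, mulVec_mulVec, Bm_orth', one_mulVec]
    rw [← nsq_Bm d R c, e1]
    unfold nsq
    rw [Finset.mul_sum]
    refine Finset.sum_le_sum fun k _ => ?_
    rw [hsu]
    simp only
    rw [norm_mul, mul_pow, Complex.norm_real, Real.norm_eq_abs, sq_abs, sq_sqrt (hwpos k).le]
    exact mul_le_mul_of_nonneg_right (hw k) (by positivity)
  calc nsq ((∑ x, ((v x : ℝ) : ℂ) • ro (av R E0 ε x)) *ᵥ u) ≤ W * nsq vc := h2
    _ ≤ W * (b ^ 2 * nsq c) := mul_le_mul_of_nonneg_left h3 hW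
    _ ≤ W * (b ^ 2 * (W * nsq u)) := by gcongr
    _ = (b * W) ^ 2 * nsq u := by ring

lemma en_nonneg (L : ℕ) (k : Fin d → Fin L) : 0 ≤ en L k := by
  unfold en
  refine Finset.sum_nonneg fun j _ => ?_
  linarith [cos_le_one (th L (k j))]

lemma en_le (L : ℕ) (k : Fin d → Fin L) : en L k ≤ 4 * d := by
  unfold en
  calc ∑ j, (2 - 2 * cos (th L (k j))) ≤ ∑ _j : Fin d, (4 : ℝ) :=
        Finset.sum_le_sum fun j _ => by linarith [neg_one_le_cos (th L (k j))]
    _ = 4 * d := by rw [Finset.sum_const, card_univ, Fintype.card_fin, nsmul_eq_mul]; ring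

/-- Weights are small outside the window. -/
lemma wt_outer (L : ℕ) (k : Fin d → Fin L) (E0 ε ρ : ℝ) (hρ : 0 < ρ)
    (hE : E0 < -ρ ∨ 4 * d + ρ < E0) : wt (en L k) E0 ε ≤ 1 / ρ := by
  apply wt_le_inv_abs _ _ _ _ hρ
  have h1 := en_nonneg L k
  have h2 := en_le L k
  rcases hE with h | h
  · rw [abs_of_nonneg (by linarith)]; linarith
  · rw [abs_of_nonpos (by linarith)]; linarith

end Pool.Agent.Helper2.AM
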