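import Pool.Agent.Helper2.AM.Outer
import Pool.Agent.Helper2.AM.Moment

/-!
# Probability of a bad box
-/

open Finset Real Matrix MeasureTheory ProbabilityTheory
open scoped ComplexOrder ENNReal

noncomputable section

set_option linter.unusedSectionVars false

namespace Pool.Agent.Helper2.AM

variable {d : ℕ}

/-- The values of the random potential: independent, identically distributed, bounded by `M`. -/
structure IIDPotential {Ω : Type*} [MeasurableSpace Ω] (P : Measure Ω) (M : ℝ)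
    (ω : (Fin d → ℤ) → Ω → ℝ) : Prop where
  indep : iIndepFun ω P
  ident : ∀ x, IdentDistrib (ω x) (ω 0) P P
  bdd : ∀ x, ∀ᵐ s ∂P, |ω x s| ≤ M

variable {Ω : Type*} [MeasurableSpace Ω] {P : Measure Ω} [IsProbabilityMeasure P] {M : ℝ}
  {ω : (Fin d → ℤ) → Ω → ℝ}

lemma IIDPotential.M_nonneg (h : IIDPotential P M ω) : 0 ≤ M := by
  obtain ⟨s, hs⟩ := (h.bdd 0).exists
  exact (abs_nonneg _).trans hs

/-- The common mean. -/
def mean (P : Measure Ω) (ω : (Fin d → ℤ) → Ω → ℝ) : ℝ := ∫ s, ω 0 s ∂P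

lemma IIDPotential.integrable (h : IIDPotential P M ω) : Integrable (ω 0) P :=
  Integrable.of_bound (h.ident 0).aemeasurable_fst.aestronglyMeasurable M (by
    filter_upwards [h.bdd 0] with s hs
    rwa [Real.norm_eq_abs])

lemma IIDPotential.abs_mean_le (h : IIDPotential P M ω) : |mean P ω| ≤ M := by
  unfold mean
  have := norm_integral_le_of_norm_le_const (μ := P) (f := ω 0) (C := M) (by
    filter_upwards [h.bdd 0] with s hs
    rwa [Real.norm_eq_abs])
  simpa using this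

/-- The matrix `X` for the box centred at `x0`. -/
def Xs (P : Measure Ω) (ω : (Fin d → ℤ) → Ω → ℝ) (R : ℕ) (E0 ε : ℝ) (x0 : Fin d → ℤ) (s : Ω) :
    Matrix (Fin d → Fin (2 * R + 1)) (Fin d → Fin (2 * R + 1)) ℂ :=
  ∑ x, ((ω (x0 + pos R x) s - mean P ω : ℝ) : ℂ) • ro (av R E0 ε x)

/-- The bad event for a box and an energy. -/
def bad (P : Measure Ω) (ω : (Fin d → ℤ) → Ω → ℝ) (R : ℕ) (E0 ε lam : ℝ) (x0 : Fin d → ℤ) :
    Set Ω :=
  {s | ∃ u, (1 / (2 * lam)) ^ 2 * nsq u < nsq (Xs P ω R E0 ε x0 s *ᵥ u)}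

theorem prob_bad (h : IIDPotential P M ω) (R : ℕ) (E0 ε lam : ℝ) (hε : 0 < ε) (hlam : 0 < lam)
    (x0 : Fin d → ℤ) (p : ℕ) (hp : p ≠ 0) (W : ℝ) (hW0 : 0 ≤ W)
    (hW : (((2 * R + 1 : ℕ) : ℝ) ^ d)⁻¹ *
        ∑ k : Fin d → Fin (2 * R + 1), wt (en (2 * R + 1) k) E0 ε ≤ W) :
    P (bad P ω R E0 ε lam x0) ≤
      ENNReal.ofReal ((64 * p * M ^ 2 * W * lam ^ 2 / ε) ^ p * ((2 * R + 1 : ℕ) : ℝ) ^ d) := by
  classical
  have hM := h.M_nonneg
  obtain ⟨N, e⟩ : ∃ N, Nonempty (Fin N ≃ (Fin d → Fin (2 * R + 1))) :=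
    ⟨Fintype.card (Fin d → Fin (2 * R + 1)), ⟨(Fintype.equivFin _).symm⟩⟩
  obtain ⟨e⟩ := e
  set ν : Measure ℝ := P.map (fun s => ω 0 s - mean P ω) with hν
  have hm0 : AEMeasurable (fun s => ω 0 s - mean P ω) P :=
    (h.ident 0).aemeasurable_fst.sub_const _
  have : IsProbabilityMeasure ν := Measure.isProbabilityMeasure_map hm0
  have hνb : ∀ᵐ t ∂ν, |t| ≤ 2 * M := by
    rw [hν, ae_map_iff hm0 (measurableSet_le (by fun_prop) measurable_const)]
    filter_upwards [h.bdd 0] with s hs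
    calc |ω 0 s - mean P ω| ≤ |ω 0 s| + |mean P ω| := abs_sub _ _
      _ ≤ M + M := add_le_add hs h.abs_mean_le
      _ = 2 * M := by ring
  have hνm : ∫ t, t ∂ν = 0 := by
    rw [hν, integral_map hm0 (by fun_prop), integral_sub h.integrable (integrable_const _)]
    simp [mean]
  set g : Fin N → (Fin d → ℤ) := fun i => x0 + pos R (e i) with hg
  have hginj : Function.Injective g := by
    intro i j hij
    exact e.injective (pos_injective R (add_left_cancel hij))
  have hind : iIndepFun (fun i : Fin N => fun s => ω (g i) s - mean P ω) P := by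
    have h1 := h.indep.precomp hginj
    exact h1.comp (fun _ t => t - mean P ω) (fun _ => by fun_prop)
  have hmeas : ∀ i : Fin N, AEMeasurable (fun s => ω (g i) s - mean P ω) P := fun i =>
    (h.ident _).aemeasurable_fst.sub_const _
  have hlaw : P.map (fun s (i : Fin N) => ω (g i) s - mean P ω) = pm ν N := by
    rw [(iIndepFun_iff_map_fun_eq_pi_map hmeas).1 hind]
    congr 1
    funext i
    have h1 := (h.ident (g i)).comp (u := fun t => t - mean P ω) (by fun_prop)
    exact h1.map_eq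
  set a : Fin N → (Fin d → Fin (2 * R + 1)) → ℂ := fun i => av R E0 ε (e i) with ha
  have hro : ∑ i, ro (a i) = diagonal (fun k => ((wt (en (2 * R + 1) k) E0 ε : ℝ) : ℂ)) := by
    rw [← sum_ro_av R E0 ε hε]
    exact e.sum_comp (fun x => ro (av R E0 ε x))
  have hns : ∀ i, nsq (a i) ≤ W := by
    intro i
    rw [ha]
    simp only
    rw [nsq_av R E0 ε hε]
    exact hW
  have hXeq : ∀ s, Xs P ω R E0 ε x0 s = Xm a (fun i => ω (g i) s - mean P ω) := by
    intro s
    unfold Xs Xm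
    exact (e.sum_comp (fun x => ((ω (x0 + pos R x) s - mean P ω : ℝ) : ℂ) •
      ro (av R E0 ε x))).symm
  have hc : 0 < 1 / (2 * lam) := by positivity
  have hprob := norm_prob ν (2 * M) hνb hνm a W (1 / ε) _ hns hW0 (by positivity)
    (fun k => wt_le_inv _ _ _ hε) hro p hp (1 / (2 * lam)) hc
  have hsub : bad P ω R E0 ε lam x0 = (fun s (i : Fin N) => ω (g i) s - mean P ω) ⁻¹'
      {v | ∃ u, (1 / (2 * lam)) ^ 2 * nsq u < nsq (Xm a v *ᵥ u)} := by
    ext s
    unfold bad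
    simp only [Set.mem_ofPred_eq, Set.mem_preimage, hXeq]
  rw [hsub]
  refine (Measure.le_map_apply (aemeasurable_pi_lambda _ hmeas) _).trans ?_
  rw [hlaw]
  refine hprob.trans (ENNReal.ofReal_le_ofReal (le_of_eq ?_))
  congr 1
  · congr 1
    field_simp
    ring
  · simp

end Pool.Agent.Helper2.AM
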