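import Pool.Agent.Helper2.AM.Det

/-!
# The deterministic resolvent argument, second part
-/

open Finset Real Matrix
open scoped ComplexOrder

noncomputable section

set_option linter.unusedSectionVars false

namespace Pool.Agent.Helper2.AM

variable {d : ℕ}

/-- Euclidean norm of a vector. -/
def nr {ι : Type*} [Fintype ι] (a : ι → ℂ) : ℝ := ‖(WithLp.toLp 2 a : EuclideanSpace ℂ ι)‖

lemma nr_sq {ι : Type*} [Fintype ι] (a : ι → ℂ) : nr a ^ 2 = nsq a := by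
  unfold nr nsq
  rw [EuclideanSpace.norm_sq_eq]

lemma nr_nonneg {ι : Type*} [Fintype ι] (a : ι → ℂ) : 0 ≤ nr a := norm_nonneg _

lemma nr_add_le {ι : Type*} [Fintype ι] (a b : ι → ℂ) : nr (a + b) ≤ nr a + nr b :=
  norm_add_le (WithLp.toLp 2 a : EuclideanSpace ℂ ι) (WithLp.toLp 2 b)

lemma nr_sub_le {ι : Type*} [Fintype ι] (a b : ι → ℂ) : nr (a - b) ≤ nr a + nr b :=
  norm_sub_le (WithLp.toLp 2 a : EuclideanSpace ℂ ι) (WithLp.toLp 2 b)

lemma nr_smul {ι : Type*} [Fintype ι] (c : ℝ) (hc : 0 ≤ c) (a : ι → ℂ) :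
    nr ((c : ℂ) • a) = c * nr a := by
  unfold nr
  rw [WithLp.toLp_smul, norm_smul, Complex.norm_real, Real.norm_eq_abs, abs_of_nonneg hc]

/-- Parseval for the modes. -/
lemma nsq_Bm (d R : ℕ) (c : (Fin d → Fin (2 * R + 1)) → ℂ) : nsq (Bm d R *ᵥ c) = nsq c := by
  have h : ∀ a : (Fin d → Fin (2 * R + 1)) → ℂ, ((nsq a : ℝ) : ℂ) = star a ⬝ᵥ a := by
    intro a
    unfold nsq
    simp only [dotProduct, Pi.star_apply, Complex.ofReal_sum]
    refine Finset.sum_congr rfl fun i _ => ?_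
    rw [Complex.star_def, Complex.conj_mul']
    push_cast
    rfl
  have h1 : ((nsq (Bm d R *ᵥ c) : ℝ) : ℂ) = ((nsq c : ℝ) : ℂ) := by
    rw [h, h, star_mulVec, dotProduct_mulVec, vecMul_vecMul, Bm_orth, vecMul_one]
  exact_mod_cast h1

theorem det_core (R : ℕ) (hR : 1 ≤ R) (V : (Fin d → ℤ) → ℝ)
    (v : (Fin d → Fin (2 * R + 1)) → ℝ) (c0 lam E E0 ε : ℝ) (hε : 0 < ε) (hlam : 0 < lam)
    (hV : ∀ x, V (pos R x) = lam * v x + c0)
    (hX : ∀ u, nsq ((∑ x, ((v x : ℝ) : ℂ) • ro (av R E0 ε x)) *ᵥ u) ≤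
      (1 / (2 * lam)) ^ 2 * nsq u)
    (ψ : (Fin d → ℤ) → ℂ) (hψ : Summable fun x => ‖ψ x‖ ^ 2)
    (hHψ : Summable fun x => ‖schr V ψ x - E * ψ x‖ ^ 2) :
    ∃ u : (Fin d → Fin (2 * R + 1)) → ℂ,
      (∀ x, trunc R ψ (pos R x) = star (av R E0 ε x) ⬝ᵥ u) ∧
      nsq u ≤ (4 / ε) * (l2 (fun x => schr V ψ x - E * ψ x) +
        (2 * d / R + |E - c0 - E0| + ε) * l2 ψ) ^ 2 := by
  set f := trunc R ψ with hf
  have hfs : Sup ((R : ℤ) - 1) f := trunc_sup R hR ψ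
  set w : (Fin d → Fin (2 * R + 1)) → ℝ := fun k => wt (en (2 * R + 1) k) E0 ε with hw
  have hwpos : ∀ k, 0 < w k := fun k => wt_pos _ _ _ hε
  have hswpos : ∀ k, 0 < √(w k) := fun k => sqrt_pos.2 (hwpos k)
  have hsw : ∀ k, ((√(w k) : ℝ) : ℂ) ≠ 0 := fun k => by exact_mod_cast (hswpos k).ne'
  have hsw2 : ∀ k, ((√(w k) : ℝ) : ℂ) * ((√(w k) : ℝ) : ℂ) = (w k : ℂ) := by
    intro k
    rw [← Complex.ofReal_mul, mul_self_sqrt (hwpos k).le]
  set fp : (Fin d → Fin (2 * R + 1)) → ℂ := fun x => f (pos R x) with hfp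
  set fh : (Fin d → Fin (2 * R + 1)) → ℂ := Bm d R *ᵥ fp with hfh
  -- normalised Fourier coefficients
  have hB : ∀ (F : (Fin d → ℤ) → ℂ) (k : Fin d → Fin (2 * R + 1)),
      (Bm d R *ᵥ fun x => F (pos R x)) k =
        (((√(((2 * R + 1 : ℕ) : ℝ) ^ d))⁻¹ : ℝ) : ℂ) * FS R F k := by
    intro F k
    unfold FS
    rw [mulVec, dotProduct, Finset.mul_sum]
    refine Finset.sum_congr rfl fun x _ => ?_
    simp only [Bm, of_apply, bv]
    ring
  set u : (Fin d → Fin (2 * R + 1)) → ℂ := fun k => fh k / ((√(w k) : ℝ) : ℂ) with hu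
  have hswu : ∀ k, ((√(w k) : ℝ) : ℂ) * u k = fh k := by
    intro k
    rw [hu]
    simp only
    rw [mul_div_cancel₀ _ (hsw k)]
  -- (1) recovery of the values
  have h1 : ∀ x, f (pos R x) = star (av R E0 ε x) ⬝ᵥ u := by
    intro x
    have e1 : star (av R E0 ε x) ⬝ᵥ u = ((Bm d R)ᴴ *ᵥ fh) x := by
      simp only [dotProduct, mulVec, Pi.star_apply, av, star_mul', conjTranspose_apply, Bm,
        of_apply]
      refine Finset.sum_congr rfl fun k _ => ?_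
      have := hswu k
      rw [← this, Complex.star_def, Complex.conj_ofReal]
      ring
    rw [e1, hfh, mulVec_mulVec, Bm_orth, one_mulVec]
  refine ⟨u, h1, ?_⟩
  -- (2) the action of X
  set X : Matrix (Fin d → Fin (2 * R + 1)) (Fin d → Fin (2 * R + 1)) ℂ :=
    ∑ x, ((v x : ℝ) : ℂ) • ro (av R E0 ε x) with hXdef
  have h2 : ∀ k, (X *ᵥ u) k = ((√(w k) : ℝ) : ℂ) *
      ∑ x, ((v x : ℝ) : ℂ) * f (pos R x) * bv R x k := by
    intro k
    rw [hXdef, sum_mulVec, Finset.sum_apply, Finset.mul_sum]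
    refine Finset.sum_congr rfl fun x _ => ?_
    rw [smul_mulVec, Pi.smul_apply, ro, vecMulVec_mulVec, ← h1 x, op_smul_eq_smul, Pi.smul_apply,
      smul_eq_mul, smul_eq_mul]
    simp only [av]
    ring
  -- (3) the equation
  set zc : ℂ := ((E - c0 - E0 : ℝ) : ℂ) - ε * Complex.I with hzc
  set h : (Fin d → ℤ) → ℂ := fun y => (schr V f y - E * f y) + zc * f y with hh
  set hp : (Fin d → Fin (2 * R + 1)) → ℂ := fun x => h (pos R x) with hhp
  have h3 : ∀ k, (Bm d R *ᵥ hp) k =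
      (((en (2 * R + 1) k - E0 : ℝ) : ℂ) - ε * Complex.I) * fh k +
        lam * ∑ x, ((v x : ℝ) : ℂ) * f (pos R x) * bv R x k := by
    intro k
    have e1 : (Bm d R *ᵥ hp) k = (Bm d R *ᵥ fun x => (schr V f (pos R x) - E * f (pos R x))) k +
        zc * fh k := by
      rw [hfh, hhp]
      simp only [mulVec, dotProduct]
      rw [Finset.mul_sum, ← Finset.sum_add_distrib]
      refine Finset.sum_congr rfl fun x _ => ?_
      rw [hh, hfp]
      ring
    have e2 : (Bm d R *ᵥ fun x => (schr V f (pos R x) - E * f (pos R x))) k =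
        ((en (2 * R + 1) k - E : ℝ) : ℂ) * fh k +
          (Bm d R *ᵥ fun x => (V (pos R x) : ℂ) * f (pos R x)) k := by
      rw [hB (fun y => schr V f y - E * f y) k, hB (fun y => (V y : ℂ) * f y) k,
        FS_schr R hR V E f hfs k, hfh, hfp, hB f k]
      ring
    have e3 : (Bm d R *ᵥ fun x => (V (pos R x) : ℂ) * f (pos R x)) k =
        lam * (∑ x, ((v x : ℝ) : ℂ) * f (pos R x) * bv R x k) + c0 * fh k := by
      rw [hfh]
      simp only [mulVec, dotProduct]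
      rw [Finset.mul_sum, Finset.mul_sum, ← Finset.sum_add_distrib]
      refine Finset.sum_congr rfl fun x _ => ?_
      rw [hV, hfp]
      simp only [Bm, of_apply]
      push_cast
      ring
    rw [e1, e2, e3, hzc]
    push_cast
    ring
  -- the modulus-one factor
  set θ : (Fin d → Fin (2 * R + 1)) → ℂ := fun k =>
    (((en (2 * R + 1) k - E0 : ℝ) : ℂ) - ε * Complex.I) * (w k : ℂ) with hθ
  have hθ1 : ∀ k, ‖θ k‖ = 1 := by
    intro k
    rw [hθ]
    simp only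
    have hpos : 0 < (en (2 * R + 1) k - E0) ^ 2 + ε ^ 2 := by positivity
    have hnz : ‖(((en (2 * R + 1) k - E0 : ℝ) : ℂ) - ε * Complex.I)‖ =
        √((en (2 * R + 1) k - E0) ^ 2 + ε ^ 2) := by
      have e : (((en (2 * R + 1) k - E0 : ℝ) : ℂ) - ε * Complex.I) =
          ((en (2 * R + 1) k - E0 : ℝ) : ℂ) + ((-ε : ℝ) : ℂ) * Complex.I := by
        push_cast; ring
      rw [e, Complex.norm_add_mul_I, neg_sq]
    rw [norm_mul, hnz, Complex.norm_real, Real.norm_eq_abs, abs_of_pos (hwpos k), hw]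
    simp only [wt]
    rw [mul_one_div, div_self (sqrt_pos.2 hpos).ne']
  have h4 : (fun k => θ k * u k) = (fun k => ((√(w k) : ℝ) : ℂ) * (Bm d R *ᵥ hp) k) -
      ((lam : ℝ) : ℂ) • (X *ᵥ u) := by
    funext k
    rw [Pi.sub_apply, Pi.smul_apply, h2, h3, smul_eq_mul, hθ]
    simp only
    rw [← hsw2 k, ← hswu k]
    ring
  have h5 : nr u = nr (fun k => θ k * u k) := by
    have : nr u ^ 2 = nr (fun k => θ k * u k) ^ 2 := by
      rw [nr_sq, nr_sq]
      unfold nsq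
      refine Finset.sum_congr rfl fun k _ => ?_
      rw [norm_mul, hθ1, one_mul]
    exact (pow_left_inj₀ (nr_nonneg _) (nr_nonneg _) two_ne_zero).1 this
  have h6 : nr (X *ᵥ u) ≤ 1 / (2 * lam) * nr u := by
    apply le_of_sq_le_sq _ (by have := nr_nonneg u; positivity)
    rw [mul_pow, nr_sq, nr_sq]
    exact hX u
  set sh : (Fin d → Fin (2 * R + 1)) → ℂ := fun k => ((√(w k) : ℝ) : ℂ) * (Bm d R *ᵥ hp) k with hsh
  have h7 : nr u ≤ 2 * nr sh := by
    have e1 : nr u ≤ nr sh + lam * nr (X *ᵥ u) := by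
      rw [h5, h4, ← nr_smul lam hlam.le]
      exact nr_sub_le _ _
    have e2 : lam * nr (X *ᵥ u) ≤ 1 / 2 * nr u := by
      calc lam * nr (X *ᵥ u) ≤ lam * (1 / (2 * lam) * nr u) :=
            mul_le_mul_of_nonneg_left h6 hlam.le
        _ = 1 / 2 * nr u := by field_simp
    linarith
  have h8 : nsq sh ≤ (1 / ε) * nb R h ^ 2 := by
    have e1 : nsq sh ≤ (1 / ε) * nsq (Bm d R *ᵥ hp) := by
      unfold nsq
      rw [Finset.mul_sum]
      refine Finset.sum_le_sum fun k _ => ?_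
      rw [hsh]
      simp only
      rw [norm_mul, mul_pow, Complex.norm_real, Real.norm_eq_abs, sq_abs, sq_sqrt (hwpos k).le]
      exact mul_le_mul_of_nonneg_right (wt_le_inv _ _ _ hε) (by positivity)
    rw [nsq_Bm] at e1
    rwa [nb_sq]
  have h9 : nb R h ≤ l2 (fun x => schr V ψ x - E * ψ x) +
        (2 * d / R + |E - c0 - E0| + ε) * l2 ψ := by
    have e1 := nb_add_le R (fun y => schr V f y - E * f y) (fun y => zc * f y)
    have e2 := nb_defect R hR V E ψ hψ hHψ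
    have e3 : nb R (fun y => zc * f y) ≤ (|E - c0 - E0| + ε) * l2 ψ := by
      refine (nb_le_of_le R _ ψ (|E - c0 - E0| + ε) (by positivity) (fun y => ?_)).trans
        (mul_le_mul_of_nonneg_left (nb_le_l2 R ψ hψ) (by positivity))
      rw [norm_mul]
      apply mul_le_mul _ _ (norm_nonneg _) (by positivity)
      · rw [hzc]
        refine (norm_sub_le _ _).trans ?_
        rw [Complex.norm_real, Real.norm_eq_abs, norm_mul, Complex.norm_I, mul_one,
          Complex.norm_real, Real.norm_eq_abs, abs_of_pos hε]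
      · rw [hf]
        unfold trunc
        rw [norm_mul, Complex.norm_real, Real.norm_eq_abs, abs_of_nonneg (cut_nonneg R y)]
        calc cut R y * ‖ψ y‖ ≤ 1 * ‖ψ y‖ :=
              mul_le_mul_of_nonneg_right (cut_le_one R y) (norm_nonneg _)
          _ = ‖ψ y‖ := one_mul _
    calc nb R h ≤ nb R (fun y => schr V f y - E * f y) + nb R (fun y => zc * f y) := e1
      _ ≤ _ := add_le_add e2 e3
      _ = _ := by ring
  have h10 : nsq u ≤ 4 * nsq sh := by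
    rw [← nr_sq, ← nr_sq]
    calc nr u ^ 2 ≤ (2 * nr sh) ^ 2 := pow_le_pow_left₀ (nr_nonneg u) h7 2
      _ = 4 * nr sh ^ 2 := by ring
  calc nsq u ≤ 4 * nsq sh := h10
    _ ≤ 4 * ((1 / ε) * nb R h ^ 2) := by linarith
    _ ≤ 4 * ((1 / ε) * (l2 (fun x => schr V ψ x - E * ψ x) +
        (2 * d / R + |E - c0 - E0| + ε) * l2 ψ) ^ 2) := by
      have := pow_le_pow_left₀ (nb_nonneg R h) h9 2
      gcongr
    _ = _ := by ring

/-- Cauchy-Schwarz. -/
lemma dot_sq_le {ι : Type*} [Fintype ι] (a u : ι → ℂ) : ‖star a ⬝ᵥ u‖ ^ 2 ≤ nsq a * nsq u := by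
  have h1 : star a ⬝ᵥ u = inner ℂ (WithLp.toLp 2 a : EuclideanSpace ℂ ι) (WithLp.toLp 2 u) := by
    rw [EuclideanSpace.inner_toLp_toLp, dotProduct_comm]
  rw [h1, ← nr_sq, ← nr_sq, ← mul_pow]
  exact pow_le_pow_left₀ (norm_nonneg _) (norm_inner_le_norm _ _) 2

theorem det_bound (R : ℕ) (hR : 1 ≤ R) (V : (Fin d → ℤ) → ℝ)
    (v : (Fin d → Fin (2 * R + 1)) → ℝ) (c0 lam E E0 ε : ℝ) (hε : 0 < ε) (hlam : 0 < lam)
    (hV : ∀ x, V (pos R x) = lam * v x + c0)
    (hX : ∀ u, nsq ((∑ x, ((v x : ℝ) : ℂ) • ro (av R E0 ε x)) *ᵥ u) ≤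
      (1 / (2 * lam)) ^ 2 * nsq u)
    (ψ : (Fin d → ℤ) → ℂ) (hψ : Summable fun x => ‖ψ x‖ ^ 2)
    (hHψ : Summable fun x => ‖schr V ψ x - E * ψ x‖ ^ 2) :
    ‖ψ 0‖ ^ 2 ≤ ((((2 * R + 1 : ℕ) : ℝ) ^ d)⁻¹ *
        ∑ k : Fin d → Fin (2 * R + 1), wt (en (2 * R + 1) k) E0 ε) *
      ((4 / ε) * (l2 (fun x => schr V ψ x - E * ψ x) +
        (2 * d / R + |E - c0 - E0| + ε) * l2 ψ) ^ 2) := by
  obtain ⟨u, hu1, hu2⟩ := det_core R hR V v c0 lam E E0 ε hε hlam hV hX ψ hψ hHψ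
  obtain ⟨x0, hx0⟩ := exists_pos (d := d) R 0 (by simp)
  have h1 : ψ 0 = star (av R E0 ε x0) ⬝ᵥ u := by
    rw [← hu1, hx0]
    simp [trunc, cut_zero]
  rw [h1, ← nsq_av R E0 ε hε x0]
  refine (dot_sq_le _ _).trans ?_
  exact mul_le_mul_of_nonneg_left hu2 (Finset.sum_nonneg fun i _ => by positivity)

end Pool.Agent.Helper2.AM
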