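import Mathlib

/-!
# Sums over shifted Fourier modes in one dimension
-/

open Finset Real

noncomputable section

namespace Pool.Agent.Helper2.AM

/-- One-dimensional modes (with a quarter shift). -/
def th (L : ℕ) (k : Fin L) : ℝ := 2 * π * ((k : ℝ) + 1 / 4) / L

/-- `|sin θ_k|`. -/
def sn (L : ℕ) (k : Fin L) : ℝ := |sin (th L k)|

/-- `∑_{j<m} 1/√(4j+1) ≤ 2 √m`. -/
lemma sum_inv_sqrt (m : ℕ) : ∑ j ∈ range m, 1 / √(4 * (j : ℝ) + 1) ≤ 2 * √m := by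
  induction m with
  | zero => simp
  | succ m ih =>
    rw [sum_range_succ]
    have h1 : 1 / √(4 * (m : ℝ) + 1) ≤ 2 * (√((m : ℝ) + 1) - √m) := by
      have hm : (0 : ℝ) ≤ m := Nat.cast_nonneg m
      have ha : 0 ≤ √(m : ℝ) := sqrt_nonneg _
      have hb : 0 < √((m : ℝ) + 1) := sqrt_pos.2 (by linarith)
      have hc : 0 < √(4 * (m : ℝ) + 1) := sqrt_pos.2 (by linarith)
      have ha2 : √(m : ℝ) ^ 2 = m := sq_sqrt hm
      have hb2 : √((m : ℝ) + 1) ^ 2 = m + 1 := sq_sqrt (by linarith)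
      have hc2 : √(4 * (m : ℝ) + 1) ^ 2 = 4 * m + 1 := sq_sqrt (by linarith)
      rw [div_le_iff₀ hc]
      have hsum : √((m : ℝ) + 1) + √(m : ℝ) ≤ 2 * √(4 * (m : ℝ) + 1) := by
        apply le_of_sq_le_sq _ (by positivity)
        nlinarith [sq_nonneg (√((m : ℝ) + 1) - √(m : ℝ))]
      have hd : (√((m : ℝ) + 1) - √m) * (√((m : ℝ) + 1) + √m) = 1 := by nlinarith
      have he : 0 < √((m : ℝ) + 1) - √m := by
        by_contra hcon
        push Not at hcon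
        have : (√((m : ℝ) + 1) - √m) * (√((m : ℝ) + 1) + √m) ≤ 0 :=
          mul_nonpos_of_nonpos_of_nonneg hcon (by positivity)
        linarith
      nlinarith
    push_cast
    linarith

lemma sum_odd_neg (L : ℕ) (c : ℤ) (hc : c < 0) :
    ∑ k ∈ range L, 1 / √(|4 * (k : ℝ) - c|) ≤ 2 * √L := by
  refine le_trans (sum_le_sum fun k _ => ?_) (sum_inv_sqrt L)
  have h1 : (c : ℝ) ≤ -1 := by
    have : c ≤ -1 := by omega
    exact_mod_cast this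
  have hk : (0 : ℝ) ≤ k := Nat.cast_nonneg k
  apply one_div_le_one_div_of_le (sqrt_pos.2 (by linarith))
  apply sqrt_le_sqrt
  rw [abs_of_nonneg (by linarith)]
  linarith

lemma sum_odd_big (L : ℕ) (c : ℤ) (hc : 4 * (L : ℤ) - 4 < c) :
    ∑ k ∈ range L, 1 / √(|4 * (k : ℝ) - c|) ≤ 2 * √L := by
  rw [← sum_range_reflect]
  refine le_trans (sum_le_sum fun k hk => ?_) (sum_inv_sqrt L)
  rw [mem_range] at hk
  have h1 : (4 * (L : ℝ) - 4) + 1 ≤ c := by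
    have : 4 * (L : ℤ) - 4 + 1 ≤ c := by omega
    exact_mod_cast this
  have hk' : ((L - 1 - k : ℕ) : ℝ) = (L : ℝ) - 1 - k := by
    rw [Nat.cast_sub (by omega), Nat.cast_sub (by omega)]
    simp
  have hk0 : (0 : ℝ) ≤ k := Nat.cast_nonneg k
  apply one_div_le_one_div_of_le (sqrt_pos.2 (by linarith))
  apply sqrt_le_sqrt
  rw [hk', abs_of_nonpos (by linarith)]
  linarith

/-- `∑_{k<L} 1/√|4k-c| ≤ 4√L` for odd `c`. -/
lemma sum_odd (L : ℕ) (c : ℤ) (hc : Odd c) :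
    ∑ k ∈ range L, 1 / √(|4 * (k : ℝ) - c|) ≤ 4 * √L := by
  have hL : 0 ≤ √(L : ℝ) := sqrt_nonneg _
  rcases lt_or_ge c 0 with h0 | h0
  · linarith [sum_odd_neg L c h0]
  rcases lt_or_ge (4 * (L : ℤ) - 4) c with h1 | h1
  · linarith [sum_odd_big L c h1]
  obtain ⟨t, ht⟩ := hc
  -- split at `k0 = c / 4`
  obtain ⟨k0, hk0⟩ : ∃ k0 : ℕ, (k0 : ℤ) = c / 4 := ⟨(c / 4).toNat, by omega⟩
  obtain ⟨m, hm⟩ : ∃ m : ℕ, L = (k0 + 1) + m := ⟨L - (k0 + 1), by omega⟩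
  rw [hm, sum_range_add]
  have a1 := sum_odd_big (k0 + 1) c (by push_cast; omega)
  have a2 := sum_odd_neg m (c - 4 * ((k0 : ℤ) + 1)) (by omega)
  have e : ∑ k ∈ range m, 1 / √(|4 * (((k0 + 1 + k : ℕ)) : ℝ) - c|) =
      ∑ k ∈ range m, 1 / √(|4 * (k : ℝ) - ((c - 4 * ((k0 : ℤ) + 1) : ℤ) : ℝ)|) := by
    refine sum_congr rfl fun k _ => ?_
    congr 3
    push_cast
    ring
  rw [e]
  have b1 : √((k0 + 1 : ℕ) : ℝ) ≤ √((k0 + 1 + m : ℕ) : ℝ) := by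
    apply sqrt_le_sqrt
    push_cast
    linarith [(Nat.cast_nonneg m : (0 : ℝ) ≤ m)]
  have b2 : √(m : ℝ) ≤ √((k0 + 1 + m : ℕ) : ℝ) := by
    apply sqrt_le_sqrt
    push_cast
    linarith [(Nat.cast_nonneg k0 : (0 : ℝ) ≤ k0)]
  linarith

/-- Lower bound for `|sin (π t)|`. -/
lemma abs_sin_lower (t : ℝ) (h0 : 0 ≤ t) (h2 : t ≤ 2) :
    2 * |t| ≤ |sin (π * t)| ∨ 2 * |1 - t| ≤ |sin (π * t)| ∨ 2 * |2 - t| ≤ |sin (π * t)| := by
  have key : ∀ s : ℝ, 0 ≤ s → s ≤ 1 / 2 → 2 * |s| ≤ |sin (π * s)| := by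
    intro s hs hs'
    have h := mul_le_sin (x := π * s) (by positivity) (by nlinarith [pi_pos])
    rw [abs_of_nonneg hs]
    refine le_trans (le_of_eq ?_) (h.trans (le_abs_self _))
    field_simp
  rcases le_or_gt t (1 / 2) with h | h
  · exact Or.inl (key t h0 h)
  rcases le_or_gt t 1 with h' | h'
  · refine Or.inr (Or.inl ?_)
    have := key (1 - t) (by linarith) (by linarith)
    rwa [show π * (1 - t) = π - π * t by ring, sin_pi_sub] at this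
  rcases le_or_gt t (3 / 2) with h'' | h''
  · refine Or.inr (Or.inl ?_)
    have := key (t - 1) (by linarith) (by linarith)
    rw [show π * (t - 1) = π * t - π by ring, sin_sub_pi, abs_neg] at this
    rwa [abs_sub_comm]
  · refine Or.inr (Or.inr ?_)
    have := key (2 - t) (by linarith) (by linarith)
    rwa [show π * (2 - t) = 2 * π - π * t by ring, sin_two_pi_sub, abs_neg] at this

lemma th_eq (L : ℕ) (k : Fin L) : th L k = π * ((4 * (k : ℝ) + 1) / (2 * L)) := by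
  unfold th
  have : (L : ℝ) ≠ 0 := by
    have := k.pos
    positivity
  field_simp
  norm_num

/-- Pointwise bound for `1/√|sin θ_k|`. -/
lemma inv_sqrt_sn_le (L : ℕ) (k : Fin L) :
    0 < sn L k ∧ 1 / √(sn L k) ≤ √L * (1 / √(|4 * (k : ℝ) - (-1 : ℤ)|) +
      1 / √(|4 * (k : ℝ) - (2 * L - 1 : ℤ)|) + 1 / √(|4 * (k : ℝ) - (4 * L - 1 : ℤ)|)) := by
  have hL : (0 : ℝ) < L := by
    have := k.pos
    exact_mod_cast this
  have hkL : (k : ℝ) + 1 ≤ L := by exact_mod_cast k.2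
  have hk0 : (0 : ℝ) ≤ k := Nat.cast_nonneg _
  set t : ℝ := (4 * (k : ℝ) + 1) / (2 * L) with ht
  have ht0 : 0 ≤ t := by positivity
  have ht2 : t ≤ 2 := by
    rw [ht, div_le_iff₀ (by positivity)]
    nlinarith
  have hsn : sn L k = |sin (π * t)| := by
    unfold sn
    rw [th_eq]
  have gen : ∀ (u : ℝ) (c : ℤ), Odd c → 2 * |u| = |4 * (k : ℝ) - c| / L → 2 * |u| ≤ sn L k →
      0 < sn L k ∧ 1 / √(sn L k) ≤ √L * (1 / √(|4 * (k : ℝ) - c|)) := by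
    intro u c hc hu hle
    have hpos : 0 < |4 * (k : ℝ) - c| := by
      rw [abs_pos]
      intro h
      have h' : (4 * (k : ℤ) - c : ℤ) = 0 := by exact_mod_cast h
      obtain ⟨m, hm⟩ := hc
      omega
    have h1 : 0 < 2 * |u| := by rw [hu]; positivity
    refine ⟨lt_of_lt_of_le h1 hle, ?_⟩
    calc 1 / √(sn L k) ≤ 1 / √(2 * |u|) :=
          one_div_le_one_div_of_le (sqrt_pos.2 h1) (sqrt_le_sqrt hle)
      _ = √L * (1 / √(|4 * (k : ℝ) - c|)) := by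
        rw [hu, sqrt_div hpos.le]
        have : √(L : ℝ) ≠ 0 := (sqrt_pos.2 hL).ne'
        have : √(|4 * (k : ℝ) - c|) ≠ 0 := (sqrt_pos.2 hpos).ne'
        field_simp
  have hn1 : 0 ≤ 1 / √(|4 * (k : ℝ) - (-1 : ℤ)|) := by positivity
  have hn2 : 0 ≤ 1 / √(|4 * (k : ℝ) - (2 * L - 1 : ℤ)|) := by positivity
  have hn3 : 0 ≤ 1 / √(|4 * (k : ℝ) - (4 * L - 1 : ℤ)|) := by positivity
  have hsL : 0 ≤ √(L : ℝ) := sqrt_nonneg _
  have hlow := abs_sin_lower t ht0 ht2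
  rw [← hsn] at hlow
  rcases hlow with h | h | h
  · obtain ⟨g1, g2⟩ := gen t (-1) (by decide) (by
      rw [abs_of_nonneg ht0, ht]
      push_cast
      rw [abs_of_nonneg (by linarith)]
      field_simp
      ring) h
    exact ⟨g1, g2.trans (mul_le_mul_of_nonneg_left (by linarith) hsL)⟩
  · obtain ⟨g1, g2⟩ := gen (1 - t) (2 * L - 1) (⟨(L : ℤ) - 1, by ring⟩) (by
      have e : 1 - t = (-(4 * (k : ℝ) - (2 * L - 1))) / (2 * L) := by
        rw [ht]; field_simp; ring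
      rw [e, abs_div, abs_neg, abs_of_pos (show (0 : ℝ) < 2 * L by positivity)]
      push_cast
      field_simp) h
    exact ⟨g1, g2.trans (mul_le_mul_of_nonneg_left (by linarith) hsL)⟩
  · obtain ⟨g1, g2⟩ := gen (2 - t) (4 * L - 1) (⟨2 * (L : ℤ) - 1, by ring⟩) (by
      have e : 2 - t = (-(4 * (k : ℝ) - (4 * L - 1))) / (2 * L) := by
        rw [ht]; field_simp; ring
      rw [e, abs_div, abs_neg, abs_of_pos (show (0 : ℝ) < 2 * L by positivity)]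
      push_cast
      field_simp) h
    exact ⟨g1, g2.trans (mul_le_mul_of_nonneg_left (by linarith) hsL)⟩

lemma sn_pos (L : ℕ) (k : Fin L) : 0 < sn L k := (inv_sqrt_sn_le L k).1

lemma sn_le_one (L : ℕ) (k : Fin L) : sn L k ≤ 1 := abs_sin_le_one _

/-- `∑_k 1/√|sin θ_k| ≤ 12 L`. -/
lemma sum_inv_sqrt_sn (L : ℕ) : ∑ k : Fin L, 1 / √(sn L k) ≤ 12 * L := by
  have h1 : ∑ k : Fin L, 1 / √(sn L k) ≤ ∑ k : Fin L, √L * (1 / √(|4 * ((k : ℕ) : ℝ) - (-1 : ℤ)|) +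
      1 / √(|4 * ((k : ℕ) : ℝ) - (2 * L - 1 : ℤ)|) +
      1 / √(|4 * ((k : ℕ) : ℝ) - (4 * L - 1 : ℤ)|)) :=
    sum_le_sum fun k _ => (inv_sqrt_sn_le L k).2
  refine h1.trans ?_
  rw [← mul_sum, sum_add_distrib, sum_add_distrib,
    Fin.sum_univ_eq_sum_range (fun k : ℕ => 1 / √(|4 * (k : ℝ) - (-1 : ℤ)|)) L,
    Fin.sum_univ_eq_sum_range (fun k : ℕ => 1 / √(|4 * (k : ℝ) - (2 * L - 1 : ℤ)|)) L,
    Fin.sum_univ_eq_sum_range (fun k : ℕ => 1 / √(|4 * (k : ℝ) - (4 * L - 1 : ℤ)|)) L]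
  have a1 := sum_odd L (-1) (by decide)
  have a2 := sum_odd L (2 * L - 1) ⟨(L : ℤ) - 1, by ring⟩
  have a3 := sum_odd L (4 * L - 1) ⟨2 * (L : ℤ) - 1, by ring⟩
  have hsL : 0 ≤ √(L : ℝ) := sqrt_nonneg _
  have hsL2 : √(L : ℝ) * √(L : ℝ) = L := mul_self_sqrt (Nat.cast_nonneg _)
  calc √(L : ℝ) * (∑ k ∈ range L, 1 / √(|4 * (k : ℝ) - (-1 : ℤ)|) +
        ∑ k ∈ range L, 1 / √(|4 * (k : ℝ) - (2 * L - 1 : ℤ)|) +
        ∑ k ∈ range L, 1 / √(|4 * (k : ℝ) - (4 * L - 1 : ℤ)|))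
      ≤ √(L : ℝ) * (4 * √L + 4 * √L + 4 * √L) :=
        mul_le_mul_of_nonneg_left (by linarith) hsL
    _ = 12 * (√(L : ℝ) * √(L : ℝ)) := by ring
    _ = 12 * L := by rw [hsL2]

end Pool.Agent.Helper2.AM
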