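import Pool.Agent.Helper2.AM.Weight
import Pool.Agent.Helper2.AM.Resolv

/-!
# Fourier coefficients of functions supported in a small cube
-/

open Finset Real Matrix
open scoped ComplexOrder

noncomputable section

set_option linter.unusedSectionVars false

namespace Pool.Agent.Helper2.AM

variable {d : ℕ}

/-- One-dimensional Parseval identity. -/
lemma parseval_one (R : ℕ) (b : Fin (2 * R + 1) → ℂ) :
    ∑ t : Fin (2 * R + 1), ‖∑ y : Fin (2 * R + 1), ph1 (2 * R + 1) ((y : ℤ) - R) t * b y‖ ^ 2 =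
      (2 * R + 1 : ℕ) * ∑ y, ‖b y‖ ^ 2 := by
  have h : ∀ a : Fin (2 * R + 1) → ℂ, ((nsq a : ℝ) : ℂ) = star a ⬝ᵥ a := by
    intro a
    unfold nsq
    simp only [dotProduct, Pi.star_apply, Complex.ofReal_sum]
    refine Finset.sum_congr rfl fun i _ => ?_
    rw [Complex.star_def, Complex.conj_mul']
    push_cast
    rfl
  set M : Matrix (Fin (2 * R + 1)) (Fin (2 * R + 1)) ℂ :=
    Matrix.of fun t y => ph1 (2 * R + 1) ((y : ℤ) - R) t with hM
  have horth : Mᴴ * M = ((2 * R + 1 : ℕ) : ℂ) • (1 : Matrix _ _ ℂ) := by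
    ext x y
    rw [mul_apply]
    simp only [conjTranspose_apply, hM, of_apply, Matrix.smul_apply, smul_eq_mul]
    have h1 : ∀ t : Fin (2 * R + 1), star (ph1 (2 * R + 1) ((x : ℤ) - R) t) *
        ph1 (2 * R + 1) ((y : ℤ) - R) t = ph1 (2 * R + 1) ((y : ℤ) - x) t := by
      intro t
      rw [ph1_conj, ← ph1_add]
      congr 1
      ring
    simp_rw [h1]
    by_cases hxy : x = y
    · subst hxy
      rw [one_apply_eq, mul_one, sub_self]
      simp [ph1]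
    · rw [one_apply_ne hxy, mul_zero]
      apply sum_ph1
      · have h1 := x.2
        have h2 := y.2
        rw [abs_lt]
        constructor <;> push_cast <;> omega
      · intro h
        apply hxy
        apply Fin.ext
        omega
  have h1 : ((nsq (M *ᵥ b) : ℝ) : ℂ) = (((2 * R + 1 : ℕ) * nsq b : ℝ) : ℂ) := by
    rw [h, star_mulVec, dotProduct_mulVec, vecMul_vecMul, horth, vecMul_smul, vecMul_one,
      smul_dotProduct, Complex.ofReal_mul, h, smul_eq_mul, Complex.ofReal_natCast]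
  have h2 : nsq (M *ᵥ b) = (2 * R + 1 : ℕ) * nsq b := by exact_mod_cast h1
  exact h2

/-- Fourier coefficient at a frequency whose `j`-th coordinate is changed. -/
lemma coeff_update (R : ℕ) (c : (Fin d → Fin (2 * R + 1)) → ℂ) (j : Fin d)
    (k : Fin d → Fin (2 * R + 1)) (t : Fin (2 * R + 1)) :
    (Bm d R *ᵥ c) (Function.update k j t) =
      ∑ y : Fin (2 * R + 1), ph1 (2 * R + 1) ((y : ℤ) - R) t *
        ∑ x ∈ univ.filter (fun x : Fin d → Fin (2 * R + 1) => x j = y),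
          (((√(((2 * R + 1 : ℕ) : ℝ) ^ d))⁻¹ : ℝ) : ℂ) *
            (∏ i ∈ univ.erase j, ph1 (2 * R + 1) (pos R x i) (k i)) * c x := by
  have h1 : (Bm d R *ᵥ c) (Function.update k j t) =
      ∑ x : Fin d → Fin (2 * R + 1), ph1 (2 * R + 1) ((x j : ℤ) - R) t *
        ((((√(((2 * R + 1 : ℕ) : ℝ) ^ d))⁻¹ : ℝ) : ℂ) *
            (∏ i ∈ univ.erase j, ph1 (2 * R + 1) (pos R x i) (k i)) * c x) := by
    rw [mulVec, dotProduct]
    refine Finset.sum_congr rfl fun x _ => ?_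
    simp only [Bm, of_apply, bv]
    unfold ph
    rw [← Finset.mul_prod_erase univ _ (mem_univ j)]
    have e : ∏ i ∈ univ.erase j, ph1 (2 * R + 1) (pos R x i) (Function.update k j t i) =
        ∏ i ∈ univ.erase j, ph1 (2 * R + 1) (pos R x i) (k i) := by
      refine Finset.prod_congr rfl fun i hi => ?_
      rw [Function.update_of_ne (Finset.ne_of_mem_erase hi)]
    rw [e, Function.update_self]
    unfold pos
    ring
  rw [h1, ← Finset.sum_fiberwise univ (fun x : Fin d → Fin (2 * R + 1) => x j)]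
  refine Finset.sum_congr rfl fun y _ => ?_
  rw [Finset.mul_sum]
  refine Finset.sum_congr rfl fun x hx => ?_
  rw [(Finset.mem_filter.1 hx).2]

/-- The coefficients of a function supported in few layers vary slowly. -/
lemma slice_sup (R : ℕ) (c : (Fin d → Fin (2 * R + 1)) → ℂ) (j : Fin d)
    (Q : Finset (Fin (2 * R + 1))) (hc : ∀ x, x j ∉ Q → c x = 0)
    (k : Fin d → Fin (2 * R + 1)) (s : Fin (2 * R + 1)) :
    ‖(Bm d R *ᵥ c) (Function.update k j s)‖ ^ 2 ≤ (Q.card / ((2 * R + 1 : ℕ) : ℝ)) *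
      ∑ t, ‖(Bm d R *ᵥ c) (Function.update k j t)‖ ^ 2 := by
  set b : Fin (2 * R + 1) → ℂ := fun y =>
    ∑ x ∈ univ.filter (fun x : Fin d → Fin (2 * R + 1) => x j = y),
      (((√(((2 * R + 1 : ℕ) : ℝ) ^ d))⁻¹ : ℝ) : ℂ) *
        (∏ i ∈ univ.erase j, ph1 (2 * R + 1) (pos R x i) (k i)) * c x with hb
  have hL : (0 : ℝ) < ((2 * R + 1 : ℕ) : ℝ) := by positivity
  have hb0 : ∀ y, y ∉ Q → b y = 0 := by
    intro y hy
    rw [hb]
    apply Finset.sum_eq_zero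
    intro x hx
    rw [hc x (by rw [(Finset.mem_filter.1 hx).2]; exact hy), mul_zero]
  have hco : ∀ t, (Bm d R *ᵥ c) (Function.update k j t) =
      ∑ y : Fin (2 * R + 1), ph1 (2 * R + 1) ((y : ℤ) - R) t * b y := fun t =>
    coeff_update R c j k t
  have h1 : ∑ t, ‖(Bm d R *ᵥ c) (Function.update k j t)‖ ^ 2 = (2 * R + 1 : ℕ) * ∑ y, ‖b y‖ ^ 2 := by
    simp_rw [hco]
    exact parseval_one R b
  have h2 : ‖(Bm d R *ᵥ c) (Function.update k j s)‖ ≤ ∑ y ∈ Q, ‖b y‖ := by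
    rw [hco]
    have e : ∑ y : Fin (2 * R + 1), ph1 (2 * R + 1) ((y : ℤ) - R) s * b y =
        ∑ y ∈ Q, ph1 (2 * R + 1) ((y : ℤ) - R) s * b y := by
      symm
      apply Finset.sum_subset (Finset.subset_univ Q)
      intro y _ hy
      rw [hb0 y hy, mul_zero]
    rw [e]
    refine (norm_sum_le _ _).trans (le_of_eq ?_)
    refine Finset.sum_congr rfl fun y _ => ?_
    rw [norm_mul, ph1_norm, one_mul]
  have h3 : (∑ y ∈ Q, ‖b y‖) ^ 2 ≤ Q.card * ∑ y ∈ Q, ‖b y‖ ^ 2 := by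
    exact sq_sum_le_card_mul_sum_sq
  have h4 : ∑ y ∈ Q, ‖b y‖ ^ 2 ≤ ∑ y, ‖b y‖ ^ 2 :=
    Finset.sum_le_sum_of_subset_of_nonneg (Finset.subset_univ Q) fun _ _ _ => by positivity
  rw [h1]
  calc ‖(Bm d R *ᵥ c) (Function.update k j s)‖ ^ 2 ≤ (∑ y ∈ Q, ‖b y‖) ^ 2 :=
        pow_le_pow_left₀ (norm_nonneg _) h2 2
    _ ≤ Q.card * ∑ y ∈ Q, ‖b y‖ ^ 2 := h3
    _ ≤ Q.card * ∑ y, ‖b y‖ ^ 2 := mul_le_mul_of_nonneg_left h4 (by positivity)
    _ = (Q.card / ((2 * R + 1 : ℕ) : ℝ)) * ((2 * R + 1 : ℕ) * ∑ y, ‖b y‖ ^ 2) := by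
      field_simp

/-- Exchange of a coordinate. -/
lemma sum_exchange {L : ℕ} (j : Fin d) (F G : (Fin d → Fin L) → ℝ) :
    ∑ k, ∑ t, F k * G (Function.update k j t) = ∑ k, ∑ t, F (Function.update k j t) * G k := by
  rw [← Fintype.sum_prod_type' (fun (k : Fin d → Fin L) (t : Fin L) =>
      F k * G (Function.update k j t)),
    ← Fintype.sum_prod_type' (fun (k : Fin d → Fin L) (t : Fin L) =>
      F (Function.update k j t) * G k)]
  have hinv : Function.Involutive (fun p : (Fin d → Fin L) × Fin L =>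
      (Function.update p.1 j p.2, p.1 j)) := by
    intro p
    simp
  rw [← Equiv.sum_comp hinv.toPerm]
  refine Finset.sum_congr rfl fun p _ => ?_
  simp [Function.Involutive.toPerm]

/-- Averaging a weight over one coordinate. -/
lemma slice_avg (R : ℕ) (c : (Fin d → Fin (2 * R + 1)) → ℂ) (j : Fin d)
    (Q : Finset (Fin (2 * R + 1))) (hc : ∀ x, x j ∉ Q → c x = 0)
    (F : (Fin d → Fin (2 * R + 1)) → ℝ) (hF : ∀ k, 0 ≤ F k) :
    ∑ k, F k * ‖(Bm d R *ᵥ c) k‖ ^ 2 ≤ (Q.card / ((2 * R + 1 : ℕ) : ℝ)) *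
      ∑ k, (∑ t, F (Function.update k j t)) * ‖(Bm d R *ᵥ c) k‖ ^ 2 := by
  have h1 : ∑ k, F k * ‖(Bm d R *ᵥ c) k‖ ^ 2 ≤ ∑ k, F k * ((Q.card / ((2 * R + 1 : ℕ) : ℝ)) *
      ∑ t, ‖(Bm d R *ᵥ c) (Function.update k j t)‖ ^ 2) := by
    refine Finset.sum_le_sum fun k _ => mul_le_mul_of_nonneg_left ?_ (hF k)
    have := slice_sup R c j Q hc k (k j)
    rwa [Function.update_eq_self] at this
  refine h1.trans (le_of_eq ?_)
  have h2 := sum_exchange j F (fun k => ‖(Bm d R *ᵥ c) k‖ ^ 2)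
  have h3 : ∑ k, F k * ((Q.card / ((2 * R + 1 : ℕ) : ℝ)) *
      ∑ t, ‖(Bm d R *ᵥ c) (Function.update k j t)‖ ^ 2) = (Q.card / ((2 * R + 1 : ℕ) : ℝ)) *
      ∑ k, ∑ t, F k * ‖(Bm d R *ᵥ c) (Function.update k j t)‖ ^ 2 := by
    rw [Finset.mul_sum]
    refine Finset.sum_congr rfl fun k _ => ?_
    rw [← Finset.mul_sum]
    ring
  rw [h3, h2]
  congr 1
  refine Finset.sum_congr rfl fun k _ => ?_
  rw [Finset.sum_mul]

/-- The weight `1 / √ sin`. -/
lemma slice_sqrt (R : ℕ) (c : (Fin d → Fin (2 * R + 1)) → ℂ) (j : Fin d)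
    (Q : Finset (Fin (2 * R + 1))) (hc : ∀ x, x j ∉ Q → c x = 0) (q : ℕ) (hQ : Q.card ≤ q)
    (hq : 1 ≤ q) (hqL : q ≤ 2 * R + 1)
    (g : (Fin d → Fin (2 * R + 1)) → ℝ) (hg : ∀ k, 0 ≤ g k)
    (hg' : ∀ k t, g (Function.update k j t) = g k) :
    ∑ k, g k * (1 / √(sn (2 * R + 1) (k j))) * ‖(Bm d R *ᵥ c) k‖ ^ 2 ≤
      25 * √q * ∑ k, g k * ‖(Bm d R *ᵥ c) k‖ ^ 2 := by
  have hq' : (0 : ℝ) < q := by exact_mod_cast hq
  have hL : (0 : ℝ) < ((2 * R + 1 : ℕ) : ℝ) := by positivity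
  set σ : ℝ := 1 / q with hσ
  have hσ0 : 0 < σ := by positivity
  set F : (Fin d → Fin (2 * R + 1)) → ℝ := fun k =>
    g k * (if sn (2 * R + 1) (k j) < σ then 1 / √(sn (2 * R + 1) (k j)) else 0) with hF
  have hF0 : ∀ k, 0 ≤ F k := by
    intro k
    apply mul_nonneg (hg k)
    split_ifs <;> positivity
  have h1 : ∀ k, g k * (1 / √(sn (2 * R + 1) (k j))) ≤ F k + √q * g k := by
    intro k
    have hs := sn_pos (2 * R + 1) (k j)
    rw [hF]
    simp only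
    split_ifs with h
    · have : 0 ≤ √(q : ℝ) * g k := mul_nonneg (sqrt_nonneg _) (hg k)
      linarith
    · push Not at h
      have h2 : 1 / √(sn (2 * R + 1) (k j)) ≤ √q := by
        rw [div_le_iff₀ (sqrt_pos.2 hs), ← sqrt_mul hq'.le]
        rw [one_le_sqrt]
        rw [hσ, div_le_iff₀ hq'] at h
        linarith
      rw [mul_zero, zero_add, mul_comm]
      exact mul_le_mul_of_nonneg_right h2 (hg k)
  have h2 : ∀ k, ∑ t, F (Function.update k j t) ≤ g k * (24 * (((2 * R + 1 : ℕ) : ℝ) * √σ)) := by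
    intro k
    rw [hF]
    simp only [hg', Function.update_self]
    rw [← Finset.mul_sum, ← Finset.sum_filter]
    apply mul_le_mul_of_nonneg_left _ (hg k)
    apply sum_inv_sqrt_sn_trunc
    rw [hσ, div_mul_eq_mul_div, one_mul, le_div_iff₀ hq', one_mul]
    exact_mod_cast hqL
  have h3 := slice_avg R c j Q hc F hF0
  set S := ∑ k, g k * ‖(Bm d R *ᵥ c) k‖ ^ 2 with hS
  have hS0 : 0 ≤ S := Finset.sum_nonneg fun k _ => mul_nonneg (hg k) (by positivity)
  have h4 : ∑ k, (∑ t, F (Function.update k j t)) * ‖(Bm d R *ᵥ c) k‖ ^ 2 ≤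
      24 * (((2 * R + 1 : ℕ) : ℝ) * √σ) * S := by
    rw [hS, Finset.mul_sum]
    refine Finset.sum_le_sum fun k _ => ?_
    calc (∑ t, F (Function.update k j t)) * ‖(Bm d R *ᵥ c) k‖ ^ 2
        ≤ g k * (24 * (((2 * R + 1 : ℕ) : ℝ) * √σ)) * ‖(Bm d R *ᵥ c) k‖ ^ 2 :=
          mul_le_mul_of_nonneg_right (h2 k) (by positivity)
      _ = _ := by ring
  have h5 : (Q.card / ((2 * R + 1 : ℕ) : ℝ)) * (24 * (((2 * R + 1 : ℕ) : ℝ) * √σ) * S) ≤
      24 * √q * S := by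
    have e1 : (Q.card / ((2 * R + 1 : ℕ) : ℝ)) * (24 * (((2 * R + 1 : ℕ) : ℝ) * √σ) * S) =
        24 * (Q.card * √σ) * S := by
      field_simp
    rw [e1]
    apply mul_le_mul_of_nonneg_right _ hS0
    apply mul_le_mul_of_nonneg_left _ (by norm_num)
    have hQ' : (Q.card : ℝ) ≤ q := by exact_mod_cast hQ
    calc (Q.card : ℝ) * √σ ≤ q * √σ := mul_le_mul_of_nonneg_right hQ' (sqrt_nonneg _)
      _ = √q := by
        rw [hσ, sqrt_div' _ hq'.le, sqrt_one, mul_one_div, div_sqrt]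
  calc ∑ k, g k * (1 / √(sn (2 * R + 1) (k j))) * ‖(Bm d R *ᵥ c) k‖ ^ 2
      ≤ ∑ k, (F k + √q * g k) * ‖(Bm d R *ᵥ c) k‖ ^ 2 :=
        Finset.sum_le_sum fun k _ => mul_le_mul_of_nonneg_right (h1 k) (by positivity)
    _ = ∑ k, F k * ‖(Bm d R *ᵥ c) k‖ ^ 2 + √q * S := by
        rw [hS, Finset.mul_sum, ← Finset.sum_add_distrib]
        refine Finset.sum_congr rfl fun k _ => ?_
        ring
    _ ≤ 24 * √q * S + √q * S := by
        have h6 := mul_le_mul_of_nonneg_left h4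
          (show 0 ≤ (Q.card / ((2 * R + 1 : ℕ) : ℝ)) by positivity)
        linarith [h3.trans (h6.trans h5)]
    _ = 25 * √q * S := by ring

end Pool.Agent.Helper2.AM
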