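import Mathlib

/-!
# Quadratic forms of powers of Hermitian matrices
-/

open Matrix Finset
open scoped ComplexOrder

noncomputable section

namespace Pool.Agent.Helper2.AM

variable {ι : Type*} [Fintype ι] [DecidableEq ι]

/-- The quadratic form `⟨a, Y a⟩` (real part). -/
def qf (Y : Matrix ι ι ℂ) (a : ι → ℂ) : ℝ := (star a ⬝ᵥ (Y *ᵥ a)).re

/-- Squared norm of a vector. -/
def nsq (a : ι → ℂ) : ℝ := ∑ i, ‖a i‖ ^ 2

/-- Spectral data of a Hermitian matrix, in the form used below. -/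
lemma spectral_powers {S : Matrix ι ι ℂ} (hS : S.IsHermitian) :
    ∃ (U : Matrix ι ι ℂ) (lam : ι → ℝ), U * star U = 1 ∧ star U * U = 1 ∧
      ∀ q : ℕ, S ^ q = U * diagonal (fun i => ((lam i ^ q : ℝ) : ℂ)) * star U := by
  obtain ⟨U, lam, h2, h1, h3⟩ : ∃ (U : Matrix ι ι ℂ) (lam : ι → ℝ), U * star U = 1 ∧
      star U * U = 1 ∧ S = U * diagonal (fun i => ((lam i : ℝ) : ℂ)) * star U := by
    refine ⟨hS.eigenvectorUnitary, hS.eigenvalues, Unitary.coe_mul_star_self _,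
      Unitary.coe_star_mul_self _, ?_⟩
    conv_lhs => rw [hS.spectral_theorem, Unitary.conjStarAlgAut_apply]
    rfl
  refine ⟨U, lam, h2, h1, ?_⟩
  intro q
  induction q with
  | zero =>
    simp only [pow_zero, Complex.ofReal_one]
    rw [show (diagonal fun _ : ι => (1 : ℂ)) = 1 from diagonal_one, mul_one, h2]
  | succ q ih =>
    rw [pow_succ, ih]
    conv_lhs => rw [h3]
    rw [show ∀ A B C D : Matrix ι ι ℂ, A * B * star U * (U * C * D) =
      A * (B * (star U * U) * C) * D from fun A B C D => by noncomm_ring]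
    rw [h1, mul_one, diagonal_mul_diagonal]
    congr 3
    funext i
    push_cast
    ring

lemma qf_spectral {U : Matrix ι ι ℂ} (a : ι → ℂ) (c : ι → ℝ) :
    star a ⬝ᵥ ((U * diagonal (fun i => ((c i : ℝ) : ℂ)) * star U) *ᵥ a) =
      ((∑ i, c i * ‖(star U *ᵥ a) i‖ ^ 2 : ℝ) : ℂ) := by
  set b := star U *ᵥ a with hb
  have h1 : (U * diagonal (fun i => ((c i : ℝ) : ℂ)) * star U) *ᵥ a =
      U *ᵥ (diagonal (fun i => ((c i : ℝ) : ℂ)) *ᵥ b) := by
    rw [hb, mulVec_mulVec, mulVec_mulVec]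
  have h2 : star a ᵥ* U = star b := by
    rw [hb, star_mulVec, star_eq_conjTranspose, conjTranspose_conjTranspose]
  rw [h1, dotProduct_mulVec, h2]
  simp only [dotProduct, mulVec_diagonal, Pi.star_apply, Complex.ofReal_sum, Complex.ofReal_mul]
  refine Finset.sum_congr rfl fun i _ => ?_
  have h3 : star (b i) * b i = ((‖b i‖ ^ 2 : ℝ) : ℂ) := by
    rw [Complex.star_def, Complex.conj_mul']
    push_cast
    rfl
  calc star (b i) * ((c i : ℂ) * b i) = (c i : ℂ) * (star (b i) * b i) := by ring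
    _ = _ := by rw [h3]

lemma nsq_unitary {U : Matrix ι ι ℂ} (hU : U * star U = 1) (a : ι → ℂ) :
    ∑ i, ‖(star U *ᵥ a) i‖ ^ 2 = nsq a := by
  have h1 := qf_spectral (U := U) a (fun _ => 1)
  have h2 : (U * diagonal (fun _ : ι => (((1 : ℝ)) : ℂ)) * star U) = 1 := by
    simp only [Complex.ofReal_one]
    rw [show (diagonal fun _ : ι => (1 : ℂ)) = 1 from diagonal_one, mul_one, hU]
  rw [h2, one_mulVec] at h1
  have h3 : star a ⬝ᵥ a = ((nsq a : ℝ) : ℂ) := by
    unfold nsq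
    simp only [dotProduct, Pi.star_apply, Complex.ofReal_sum]
    refine Finset.sum_congr rfl fun i _ => ?_
    rw [Complex.star_def, Complex.conj_mul']
    push_cast
    rfl
  rw [h3] at h1
  have h4 : (nsq a : ℝ) = ∑ i, 1 * ‖(star U *ᵥ a) i‖ ^ 2 := by exact_mod_cast h1
  rw [h4]
  simp

/-- Scalar inequality behind the trace estimate. -/
lemma scalar_sum_le (s t : ℝ) (r : ℕ) :
    ∑ q ∈ range (2 * r + 1), s ^ q * t ^ (2 * r - q) ≤
      ((2 * r + 1 : ℕ) / 2 : ℝ) * (s ^ (2 * r) + t ^ (2 * r)) := by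
  have h1 : ∑ q ∈ range (2 * r + 1), s ^ q * t ^ (2 * r - q) =
      ∑ q ∈ range (2 * r + 1), s ^ (2 * r - q) * t ^ q := by
    rw [← Finset.sum_range_reflect]
    refine Finset.sum_congr rfl fun q hq => ?_
    rw [mem_range] at hq
    have e1 : 2 * r + 1 - 1 - q = 2 * r - q := by omega
    have e2 : 2 * r - (2 * r - q) = q := by omega
    rw [e1, e2]
  have h2 : ∀ q ∈ range (2 * r + 1), s ^ q * t ^ (2 * r - q) + s ^ (2 * r - q) * t ^ q ≤
      s ^ (2 * r) + t ^ (2 * r) := by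
    intro q hq
    rw [mem_range] at hq
    have key : ∀ m n : ℕ, ∀ x y : ℝ, 0 ≤ x → 0 ≤ y →
        x ^ m * y ^ n + x ^ n * y ^ m ≤ x ^ (m + n) + y ^ (m + n) := by
      intro m n x y hx hy
      have : 0 ≤ (x ^ m - y ^ m) * (x ^ n - y ^ n) := by
        rcases le_total x y with h | h
        · exact mul_nonneg_of_nonpos_of_nonpos (sub_nonpos.2 (pow_le_pow_left₀ hx h _))
            (sub_nonpos.2 (pow_le_pow_left₀ hx h _))
        · exact mul_nonneg (sub_nonneg.2 (pow_le_pow_left₀ hy h _))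
            (sub_nonneg.2 (pow_le_pow_left₀ hy h _))
      rw [pow_add, pow_add]
      nlinarith
    have h3 := key q (2 * r - q) |s| |t| (abs_nonneg _) (abs_nonneg _)
    have e1 : q + (2 * r - q) = 2 * r := by omega
    rw [e1] at h3
    have e2 : |s| ^ (2 * r) = s ^ (2 * r) := by rw [pow_mul, pow_mul, sq_abs]
    have e3 : |t| ^ (2 * r) = t ^ (2 * r) := by rw [pow_mul, pow_mul, sq_abs]
    rw [e2, e3] at h3
    have h4 : s ^ q * t ^ (2 * r - q) ≤ |s| ^ q * |t| ^ (2 * r - q) := by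
      rw [← abs_pow, ← abs_pow, ← abs_mul]; exact le_abs_self _
    have h5 : s ^ (2 * r - q) * t ^ q ≤ |s| ^ (2 * r - q) * |t| ^ q := by
      rw [← abs_pow, ← abs_pow, ← abs_mul]; exact le_abs_self _
    linarith
  have h3 : 2 * ∑ q ∈ range (2 * r + 1), s ^ q * t ^ (2 * r - q) ≤
      (2 * r + 1 : ℕ) * (s ^ (2 * r) + t ^ (2 * r)) := by
    calc 2 * ∑ q ∈ range (2 * r + 1), s ^ q * t ^ (2 * r - q)
        = ∑ q ∈ range (2 * r + 1), (s ^ q * t ^ (2 * r - q) + s ^ (2 * r - q) * t ^ q) := by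
          rw [Finset.sum_add_distrib, ← h1]; ring
      _ ≤ ∑ q ∈ range (2 * r + 1), (s ^ (2 * r) + t ^ (2 * r)) := Finset.sum_le_sum h2
      _ = _ := by rw [Finset.sum_const, card_range, nsmul_eq_mul]
  linarith

/-- The key inequality for two Hermitian matrices. -/
lemma sum_qf_mul_le {S T : Matrix ι ι ℂ} (hS : S.IsHermitian) (hT : T.IsHermitian) (a : ι → ℂ)
    (r : ℕ) :
    ∑ q ∈ range (2 * r + 1), qf (S ^ q) a * qf (T ^ (2 * r - q)) a ≤
      nsq a * (((2 * r + 1 : ℕ) / 2 : ℝ) * (qf (S ^ (2 * r)) a + qf (T ^ (2 * r)) a)) := by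
  obtain ⟨U, lam, hU, -, hUq⟩ := spectral_powers hS
  obtain ⟨W, mu, hW, -, hWq⟩ := spectral_powers hT
  set α : ι → ℝ := fun i => ‖(star U *ᵥ a) i‖ ^ 2 with hα
  set β : ι → ℝ := fun i => ‖(star W *ᵥ a) i‖ ^ 2 with hβ
  have hSq : ∀ q, qf (S ^ q) a = ∑ i, lam i ^ q * α i := by
    intro q
    unfold qf
    rw [hUq, qf_spectral, Complex.ofReal_re]
  have hTq : ∀ q, qf (T ^ q) a = ∑ i, mu i ^ q * β i := by
    intro q
    unfold qf
    rw [hWq, qf_spectral, Complex.ofReal_re]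
  have hαs : ∑ i, α i = nsq a := nsq_unitary hU a
  have hβs : ∑ i, β i = nsq a := nsq_unitary hW a
  have hα0 : ∀ i, 0 ≤ α i := fun i => by positivity
  have hβ0 : ∀ i, 0 ≤ β i := fun i => by positivity
  have h1 : ∑ q ∈ range (2 * r + 1), qf (S ^ q) a * qf (T ^ (2 * r - q)) a =
      ∑ i, ∑ j, α i * β j * ∑ q ∈ range (2 * r + 1), lam i ^ q * mu j ^ (2 * r - q) := by
    simp_rw [hSq, hTq, Finset.sum_mul_sum, Finset.mul_sum]
    rw [Finset.sum_comm]
    refine Finset.sum_congr rfl fun i _ => ?_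
    rw [Finset.sum_comm]
    refine Finset.sum_congr rfl fun j _ => ?_
    refine Finset.sum_congr rfl fun q _ => ?_
    ring
  have h2 : ∑ i, ∑ j, α i * β j * ∑ q ∈ range (2 * r + 1), lam i ^ q * mu j ^ (2 * r - q) ≤
      ∑ i, ∑ j, α i * β j * (((2 * r + 1 : ℕ) / 2 : ℝ) * (lam i ^ (2 * r) + mu j ^ (2 * r))) := by
    refine Finset.sum_le_sum fun i _ => Finset.sum_le_sum fun j _ => ?_
    exact mul_le_mul_of_nonneg_left (scalar_sum_le _ _ r) (mul_nonneg (hα0 i) (hβ0 j))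
  rw [h1]
  refine h2.trans (le_of_eq ?_)
  rw [hSq, hTq]
  have h3 : ∀ i j, α i * β j * (((2 * r + 1 : ℕ) / 2 : ℝ) * (lam i ^ (2 * r) + mu j ^ (2 * r))) =
      ((2 * r + 1 : ℕ) / 2 : ℝ) * (lam i ^ (2 * r) * α i) * β j +
      ((2 * r + 1 : ℕ) / 2 : ℝ) * α i * (mu j ^ (2 * r) * β j) := by
    intro i j; ring
  simp_rw [h3, Finset.sum_add_distrib, ← Finset.mul_sum, hβs, ← Finset.sum_mul, ← Finset.mul_sum,
    hαs]
  ring

/-- Nonnegativity of even forms. -/
lemma qf_even_nonneg {S : Matrix ι ι ℂ} (hS : S.IsHermitian) (a : ι → ℂ) (r : ℕ) :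
    0 ≤ qf (S ^ (2 * r)) a := by
  obtain ⟨U, lam, hU, -, hUq⟩ := spectral_powers hS
  unfold qf
  rw [hUq, qf_spectral, Complex.ofReal_re]
  refine Finset.sum_nonneg fun i _ => ?_
  rw [pow_mul]
  positivity

/-- The form is real. -/
lemma qf_im {S : Matrix ι ι ℂ} (hS : S.IsHermitian) (a : ι → ℂ) (q : ℕ) :
    star a ⬝ᵥ (S ^ q *ᵥ a) = ((qf (S ^ q) a : ℝ) : ℂ) := by
  obtain ⟨U, lam, hU, -, hUq⟩ := spectral_powers hS
  unfold qf
  rw [hUq, qf_spectral, Complex.ofReal_re]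

/-- A bound for the trace of an even power bounds the matrix. -/
lemma norm_le_of_trace {S : Matrix ι ι ℂ} (hS : S.IsHermitian) (p : ℕ) (hp : p ≠ 0) (c : ℝ)
    (_hc : 0 ≤ c) (htr : (trace (S ^ (2 * p))).re ≤ c ^ (2 * p)) (u : ι → ℂ) :
    nsq (S *ᵥ u) ≤ c ^ 2 * nsq u := by
  obtain ⟨U, lam, hU, hU', hUq⟩ := spectral_powers hS
  have h1 : (trace (S ^ (2 * p))).re = ∑ i, lam i ^ (2 * p) := by
    rw [hUq, trace_mul_comm, ← mul_assoc, hU', one_mul, trace_diagonal, ← Complex.ofReal_sum,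
      Complex.ofReal_re]
  rw [h1] at htr
  have h2 : ∀ i, lam i ^ 2 ≤ c ^ 2 := by
    intro i
    have h3 : lam i ^ (2 * p) ≤ c ^ (2 * p) := by
      refine le_trans ?_ htr
      refine Finset.single_le_sum (f := fun i => lam i ^ (2 * p)) (fun j _ => ?_)
        (Finset.mem_univ i)
      rw [pow_mul]; positivity
    rw [pow_mul, pow_mul] at h3
    exact le_of_pow_le_pow_left₀ hp (by positivity) h3
  have h4 : nsq (S *ᵥ u) = (star u ⬝ᵥ (S ^ 2 *ᵥ u)).re := by
    have e1 : star u ⬝ᵥ (S ^ 2 *ᵥ u) = star (S *ᵥ u) ⬝ᵥ (S *ᵥ u) := by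
      rw [pow_two, ← mulVec_mulVec, dotProduct_mulVec, star_mulVec, hS.eq]
    rw [e1]
    unfold nsq
    simp only [dotProduct, Pi.star_apply, Complex.re_sum]
    refine Finset.sum_congr rfl fun i _ => ?_
    rw [Complex.star_def, Complex.conj_mul']
    norm_cast
  rw [h4, hUq, qf_spectral, Complex.ofReal_re, ← nsq_unitary hU u, Finset.mul_sum]
  refine Finset.sum_le_sum fun i _ => ?_
  exact mul_le_mul_of_nonneg_right (h2 i) (by positivity)

end Pool.Agent.Helper2.AM
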