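import Pool.Agent.Helper2.AM.Good

/-!
# Weak disorder, `d ≥ 3`: local spreading in time of all solutions of the Schrödinger equation
-/

open Real MeasureTheory ProbabilityTheory Pool.Agent.Helper2

noncomputable section

namespace Pool.Agent.Results.MP_28b024_mp.TimeAverage

/-- The Anderson Hamiltonian `-Δ + λ v` acting on functions on `ℤ^d`. -/
def ham {d : ℕ} (lam : ℝ) (v : (Fin d → ℤ) → ℝ) (ψ : (Fin d → ℤ) → ℂ) (x : Fin d → ℤ) : ℂ :=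
  ∑ j : Fin d, (2 * ψ x - ψ (x + Pi.single j 1) - ψ (x - Pi.single j 1)) +
    ((lam * v x : ℝ) : ℂ) * ψ x

/-- The mass of `ψ` in the cube of radius `r` around `x`. -/
def mass {d : ℕ} (x : Fin d → ℤ) (r : ℕ) (ψ : (Fin d → ℤ) → ℂ) : ℝ :=
  ∑ y ∈ Fintype.piFinset fun j => Finset.Icc (x j - r) (x j + r), ‖ψ y‖ ^ 2

/-- Independent, identically distributed random variables `ω x`, `x ∈ ℤ^d`, with `|ω x| ≤ M`
almost surely. -/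
structure IIDBounded {d : ℕ} {Ω : Type} [MeasurableSpace Ω] (P : Measure Ω) (M : ℝ)
    (ω : (Fin d → ℤ) → Ω → ℝ) : Prop where
  indep : iIndepFun ω P
  ident : ∀ x, IdentDistrib (ω x) (ω 0) P P
  bdd : ∀ x, ∀ᵐ s ∂P, |ω x s| ≤ M

/-- `φ` solves the Schrödinger equation `i ∂φ/∂τ = (-Δ + λ v) φ`, pointwise on `ℤ^d`, for all
times. -/
def IsSolution {d : ℕ} (lam : ℝ) (v : (Fin d → ℤ) → ℝ) (φ : ℝ → (Fin d → ℤ) → ℂ) : Prop :=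
  ∀ τ y, HasDerivAt (fun τ => φ τ y) (-Complex.I * ham lam v (φ τ) y) τ

theorem result (d : ℕ) (hd : 3 ≤ d) (M : ℝ) (K : ℕ) :
    ∃ C : ℝ, 0 < C ∧ ∀ (Ω : Type) [MeasurableSpace Ω] (P : Measure Ω) [IsProbabilityMeasure P]
      (ω : (Fin d → ℤ) → Ω → ℝ), IIDBounded P M ω →
      ∀ lam t : ℝ, 0 < lam → lam ≤ 1 / 2 → 1 ≤ t →
      ∃ G : Set Ω, MeasurableSet G ∧ P Gᶜ ≤ ENNReal.ofReal ((lam / t) ^ K) ∧
      ∀ s ∈ G, ∀ (n r : ℕ) (x : Fin d → ℤ), (∀ j, |x j| ≤ n) → 1 ≤ r → (r : ℝ) ≤ (1 / lam) ^ 2 →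
        ∀ φ : ℝ → (Fin d → ℤ) → ℂ, IsSolution lam (fun z => ω z s) φ →
        ∀ τ₀ τ₁ : ℝ, τ₀ ≤ τ₁ →
        ∫ τ in τ₀..τ₁, mass x r (φ τ) ≤
          C * r ^ 2 * (lam ^ 2 * log (1 / lam) ^ 2 * log ((n + 2) * t / lam)) *
            ∫ τ in (τ₀ - (1 / lam) ^ 2)..(τ₁ + (1 / lam) ^ 2), mass x ⌊(1 / lam) ^ 2⌋₊ (φ τ) := by
  obtain ⟨m, rfl⟩ : ∃ m, d = m + 3 := ⟨d - 3, by omega⟩
  obtain ⟨C, hC0, hC⟩ := AM.good_dyn (m + 3) 2 (by omega) (by norm_num) _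
    (by have : (0 : ℝ) ≤ 12 * ((m + 3) * 1875) := by positivity
        linarith) (AM.WB_all m) M K
  refine ⟨C, hC0, ?_⟩
  intro Ω _ P _ ω h lam t h0 h1 ht
  obtain ⟨G, hG1, hG2, hG3⟩ := hC Ω P ω ⟨h.indep, h.ident, h.bdd⟩ lam t h0 h1 ht
  refine ⟨G, hG1, hG2, ?_⟩
  intro s hs n r x hx hr hrl φ hφ τ₀ τ₁ hτ
  exact hG3 s hs n r x hx hr hrl φ hφ τ₀ τ₁ hτ

end Pool.Agent.Results.MP_28b024_mp.TimeAverage
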