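import Pool.Agent.Helper2.AM.Diag
import Pool.Agent.Helper2.AM.Modes

/-!
# Weighted dyadic sums and one-dimensional weighted estimates
-/

open Finset Real Matrix
open scoped ComplexOrder

noncomputable section

set_option linter.unusedSectionVars false

namespace Pool.Agent.Helper2.AM

/-- Weighted version of the dyadic bound. -/
lemma sum_wt_weighted {ι : Type*} [Fintype ι] (F g : ι → ℝ) (hg : ∀ k, 0 ≤ g k) (E ε : ℝ)
    (hε : 0 < ε) (C T : ℝ) (hT : ∑ k, g k ≤ T)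
    (hcount : ∀ η, ε ≤ η → ∑ k ∈ univ.filter (fun k => |F k - E| ≤ η), g k ≤ C * η * T)
    (I : ℕ) (hI : 1 ≤ 2 ^ I * ε) :
    ∑ k, wt (F k) E ε * g k ≤ (2 * C * (I + 1) + 1) * T := by
  have h1 : ∑ k, wt (F k) E ε * g k ≤ ∑ k, (∑ i ∈ range (I + 1), 2 / (2 ^ i * ε) *
      (if |F k - E| ≤ 2 ^ i * ε then 1 else 0) + 1) * g k :=
    sum_le_sum fun k _ => mul_le_mul_of_nonneg_right (wt_dyadic (F k) E ε hε I hI) (hg k)
  refine h1.trans ?_
  have h0 : ∑ k, (∑ i ∈ range (I + 1), 2 / (2 ^ i * ε) *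
      (if |F k - E| ≤ 2 ^ i * ε then (1 : ℝ) else 0) + 1) * g k =
      ∑ i ∈ range (I + 1), ∑ k, 2 / (2 ^ i * ε) *
      (if |F k - E| ≤ 2 ^ i * ε then (1 : ℝ) else 0) * g k + ∑ k, g k := by
    rw [sum_comm, ← sum_add_distrib]
    refine sum_congr rfl fun k _ => ?_
    rw [add_mul, one_mul, sum_mul]
  rw [h0]
  have h2 : ∀ i ∈ range (I + 1), ∑ k, 2 / (2 ^ i * ε) *
      (if |F k - E| ≤ 2 ^ i * ε then (1 : ℝ) else 0) * g k ≤ 2 * C * T := by
    intro i _
    have e1 : ∑ k, 2 / (2 ^ i * ε) * (if |F k - E| ≤ 2 ^ i * ε then (1 : ℝ) else 0) * g k =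
        2 / (2 ^ i * ε) * ∑ k ∈ univ.filter (fun k => |F k - E| ≤ 2 ^ i * ε), g k := by
      rw [mul_sum, sum_filter]
      refine sum_congr rfl fun k _ => ?_
      split_ifs <;> ring
    rw [e1]
    have hle : ε ≤ 2 ^ i * ε := by
      have : (1 : ℝ) ≤ 2 ^ i := one_le_pow₀ (by norm_num)
      nlinarith
    have h3 := hcount (2 ^ i * ε) hle
    calc 2 / (2 ^ i * ε) * ∑ k ∈ univ.filter (fun k => |F k - E| ≤ 2 ^ i * ε), g k
        ≤ 2 / (2 ^ i * ε) * (C * (2 ^ i * ε) * T) := by gcongr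
      _ = 2 * C * T := by field_simp
  calc ∑ i ∈ range (I + 1), ∑ k, 2 / (2 ^ i * ε) *
      (if |F k - E| ≤ 2 ^ i * ε then (1 : ℝ) else 0) * g k + ∑ k, g k
      ≤ ∑ i ∈ range (I + 1), 2 * C * T + T := add_le_add (sum_le_sum h2) hT
    _ = (2 * C * (I + 1) + 1) * T := by
      rw [sum_const, card_range, nsmul_eq_mul]; push_cast; ring

/-- The weighted bound with a logarithm. -/
lemma sum_wt_log {ι : Type*} [Fintype ι] (F g : ι → ℝ) (hg : ∀ k, 0 ≤ g k) (E ε : ℝ)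
    (hε : 0 < ε) (hε1 : ε ≤ 1 / 2) (C T : ℝ) (hC0 : 0 ≤ C) (hT0 : 0 ≤ T) (hT : ∑ k, g k ≤ T)
    (hcount : ∀ η, ε ≤ η → ∑ k ∈ univ.filter (fun k => |F k - E| ≤ η), g k ≤ C * η * T) :
    ∑ k, wt (F k) E ε * g k ≤ (12 * C + 2) * log (1 / ε) * T := by
  obtain ⟨I, hI⟩ : ∃ I : ℕ, I = ⌈log (1 / ε) / log 2⌉₊ := ⟨_, rfl⟩
  have hlog2 : 0 < log 2 := log_pos (by norm_num)
  have hlog2' : 1 / 2 ≤ log 2 := by linarith [log_two_gt_d9]
  have hinv : 2 ≤ 1 / ε := by
    rw [le_div_iff₀ hε]; linarith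
  have hlogε : log 2 ≤ log (1 / ε) := log_le_log (by norm_num) hinv
  have hI1 : 1 ≤ 2 ^ I * ε := by
    have h1 : log (1 / ε) / log 2 ≤ I := by rw [hI]; exact Nat.le_ceil _
    rw [div_le_iff₀ hlog2] at h1
    have h2 : 1 / ε ≤ 2 ^ I := by
      have h3 : log (1 / ε) ≤ log ((2 : ℝ) ^ I) := by rw [log_pow]; exact h1
      exact (log_le_log_iff (by positivity) (by positivity)).1 h3
    rw [div_le_iff₀ hε] at h2
    exact h2
  have hI2 : (I : ℝ) ≤ log (1 / ε) / log 2 + 1 := by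
    rw [hI]
    exact (Nat.ceil_lt_add_one (div_nonneg (by linarith) hlog2.le)).le
  refine (sum_wt_weighted F g hg E ε hε C T hT hcount I hI1).trans ?_
  apply mul_le_mul_of_nonneg_right _ hT0
  have h3 : log (1 / ε) / log 2 ≤ 2 * log (1 / ε) := by
    rw [div_le_iff₀ hlog2]
    nlinarith [hlogε, hlog2]
  have h4 : 1 ≤ 2 * log (1 / ε) := by linarith
  have h5 : (I : ℝ) + 1 ≤ 6 * log (1 / ε) := by linarith
  calc 2 * C * (I + 1) + 1 ≤ 2 * C * (6 * log (1 / ε)) + 2 * log (1 / ε) := by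
        have := mul_le_mul_of_nonneg_left h5 (show 0 ≤ 2 * C by positivity)
        linarith
    _ = (12 * C + 2) * log (1 / ε) := by ring

/-- Truncated version of `sum_odd`. -/
lemma sum_odd_trunc (L : ℕ) (c : ℤ) (hc : Odd c) (Y : ℝ) (hY : 1 ≤ Y) :
    ∑ k ∈ (range L).filter (fun k : ℕ => |4 * (k : ℝ) - c| ≤ Y), 1 / √(|4 * (k : ℝ) - c|) ≤
      8 * √Y := by
  set S := (range L).filter (fun k : ℕ => |4 * (k : ℝ) - c| ≤ Y) with hS
  rcases S.eq_empty_or_nonempty with he | hne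
  · rw [he, sum_empty]; positivity
  set a := S.min' hne with ha
  set b := S.max' hne with hb
  have haS := S.min'_mem hne
  have hbS := S.max'_mem hne
  rw [← ha] at haS
  rw [← hb] at hbS
  have hab : a ≤ b := S.min'_le _ hbS
  have ha' : |4 * (a : ℝ) - c| ≤ Y := (mem_filter.1 haS).2
  have hb' : |4 * (b : ℝ) - c| ≤ Y := (mem_filter.1 hbS).2
  obtain ⟨m, hm⟩ : ∃ m : ℕ, b = a + m := ⟨b - a, by omega⟩
  have hmY : (m : ℝ) + 1 ≤ 2 * Y := by
    have h1 := abs_le.1 ha'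
    have h2 := abs_le.1 hb'
    have h3 : (b : ℝ) = a + m := by exact_mod_cast hm
    have h4 : 4 * (m : ℝ) ≤ 2 * Y := by linarith
    linarith
  have hsub : S ⊆ (range (m + 1)).image (fun j => a + j) := by
    intro k hk
    rw [mem_image]
    have h1 : a ≤ k := S.min'_le k hk
    have h2 : k ≤ b := S.le_max' k hk
    exact ⟨k - a, by rw [mem_range]; omega, by omega⟩
  have hodd : Odd (c - 4 * (a : ℤ)) := by
    obtain ⟨t, ht⟩ := hc
    exact ⟨t - 2 * a, by omega⟩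
  calc ∑ k ∈ S, 1 / √(|4 * (k : ℝ) - c|)
      ≤ ∑ k ∈ (range (m + 1)).image (fun j => a + j), 1 / √(|4 * (k : ℝ) - c|) :=
        sum_le_sum_of_subset_of_nonneg hsub fun _ _ _ => by positivity
    _ = ∑ j ∈ range (m + 1), 1 / √(|4 * (j : ℝ) - (c - 4 * (a : ℤ) : ℤ)|) := by
        rw [sum_image (by intro x _ y _ h; exact Nat.add_left_cancel h)]
        refine sum_congr rfl fun j _ => ?_
        congr 3
        push_cast
        ring
    _ ≤ 4 * √((m + 1 : ℕ) : ℝ) := sum_odd (m + 1) _ hodd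
    _ ≤ 4 * √(4 * Y) := by
        gcongr
        push_cast
        linarith
    _ = 8 * √Y := by
        rw [show 4 * Y = 2 ^ 2 * Y by ring, sqrt_mul (by norm_num), sqrt_sq (by norm_num)]
        ring

/-- `∑_{sin θ_k < σ} 1/√|sin θ_k| ≤ 24 L √σ`, `σ ≥ 1 / L`. -/
lemma sum_inv_sqrt_sn_trunc (L : ℕ) (σ : ℝ) (hσ : 1 ≤ σ * L) :
    ∑ k ∈ univ.filter (fun k : Fin L => sn L k < σ), 1 / √(sn L k) ≤ 24 * (L * √σ) := by
  have hL0 : (0 : ℝ) ≤ L := Nat.cast_nonneg _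
  have hLpos : (0 : ℝ) < L := by
    rcases hL0.eq_or_lt with h | h
    · rw [← h] at hσ; norm_num at hσ
    · exact h
  have hσ0 : 0 < σ := by
    by_contra h
    push Not at h
    nlinarith
  -- pointwise: one of the three terms, with truncation
  have hpt : ∀ k : Fin L, sn L k < σ → 1 / √(sn L k) ≤ √L * (
      (if |4 * ((k : ℕ) : ℝ) - (-1 : ℤ)| ≤ σ * L then 1 / √(|4 * ((k : ℕ) : ℝ) - (-1 : ℤ)|) else 0) +
      (if |4 * ((k : ℕ) : ℝ) - (2 * L - 1 : ℤ)| ≤ σ * L then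
        1 / √(|4 * ((k : ℕ) : ℝ) - (2 * L - 1 : ℤ)|) else 0) +
      (if |4 * ((k : ℕ) : ℝ) - (4 * L - 1 : ℤ)| ≤ σ * L then
        1 / √(|4 * ((k : ℕ) : ℝ) - (4 * L - 1 : ℤ)|) else 0)) := by
    intro k hk
    have hkL : (k : ℝ) + 1 ≤ L := by exact_mod_cast k.2
    have hk0 : (0 : ℝ) ≤ k := Nat.cast_nonneg _
    set t : ℝ := (4 * (k : ℝ) + 1) / (2 * L) with ht
    have ht0 : 0 ≤ t := by positivity
    have ht2 : t ≤ 2 := by
      rw [ht, div_le_iff₀ (by positivity)]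
      nlinarith
    have hsn : sn L k = |sin (π * t)| := by
      unfold sn
      rw [th_eq]
    have gen : ∀ (u : ℝ) (c : ℤ), Odd c → 2 * |u| = |4 * (k : ℝ) - c| / L → 2 * |u| ≤ sn L k →
        1 / √(sn L k) ≤ √L * (if |4 * ((k : ℕ) : ℝ) - c| ≤ σ * L then
          1 / √(|4 * ((k : ℕ) : ℝ) - c|) else 0) := by
      intro u c hc hu hle
      have hpos : 0 < |4 * (k : ℝ) - c| := by
        rw [abs_pos]
        intro h
        have h' : (4 * (k : ℤ) - c : ℤ) = 0 := by exact_mod_cast h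
        obtain ⟨m, hm⟩ := hc
        omega
      have h1 : 0 < 2 * |u| := by rw [hu]; positivity
      have h2 : |4 * ((k : ℕ) : ℝ) - c| ≤ σ * L := by
        rw [hu, div_le_iff₀ hLpos] at hle
        exact hle.trans (mul_le_mul_of_nonneg_right hk.le hL0)
      rw [if_pos h2]
      calc 1 / √(sn L k) ≤ 1 / √(2 * |u|) :=
            one_div_le_one_div_of_le (sqrt_pos.2 h1) (sqrt_le_sqrt hle)
        _ = √L * (1 / √(|4 * (k : ℝ) - c|)) := by
          rw [hu, sqrt_div hpos.le]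
          have : √(L : ℝ) ≠ 0 := (sqrt_pos.2 hLpos).ne'
          have : √(|4 * (k : ℝ) - c|) ≠ 0 := (sqrt_pos.2 hpos).ne'
          field_simp
    have nn : ∀ c : ℤ, 0 ≤ (if |4 * ((k : ℕ) : ℝ) - c| ≤ σ * L then
          1 / √(|4 * ((k : ℕ) : ℝ) - c|) else 0) := by
      intro c; split_ifs <;> positivity
    have n1 := nn (-1)
    have n2 := nn (2 * L - 1)
    have n3 := nn (4 * L - 1)
    have hsL : 0 ≤ √(L : ℝ) := sqrt_nonneg _
    have hlow := abs_sin_lower t ht0 ht2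
    rw [← hsn] at hlow
    rcases hlow with h | h | h
    · have g2 := gen t (-1) (by decide) (by
        rw [abs_of_nonneg ht0, ht]
        push_cast
        rw [abs_of_nonneg (by linarith)]
        field_simp
        ring) h
      exact g2.trans (mul_le_mul_of_nonneg_left (by linarith) hsL)
    · have g2 := gen (1 - t) (2 * L - 1) (⟨(L : ℤ) - 1, by ring⟩) (by
        have e : 1 - t = (-(4 * (k : ℝ) - (2 * L - 1))) / (2 * L) := by
          rw [ht]; field_simp; ring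
        rw [e, abs_div, abs_neg, abs_of_pos (show (0 : ℝ) < 2 * L by positivity)]
        push_cast
        field_simp) h
      exact g2.trans (mul_le_mul_of_nonneg_left (by linarith) hsL)
    · have g2 := gen (2 - t) (4 * L - 1) (⟨2 * (L : ℤ) - 1, by ring⟩) (by
        have e : 2 - t = (-(4 * (k : ℝ) - (4 * L - 1))) / (2 * L) := by
          rw [ht]; field_simp; ring
        rw [e, abs_div, abs_neg, abs_of_pos (show (0 : ℝ) < 2 * L by positivity)]
        push_cast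
        field_simp) h
      exact g2.trans (mul_le_mul_of_nonneg_left (by linarith) hsL)
  set φ : ℤ → ℕ → ℝ := fun c k => if |4 * (k : ℝ) - c| ≤ σ * L then
    1 / √(|4 * (k : ℝ) - c|) else 0 with hφ
  have hφ0 : ∀ c k, 0 ≤ φ c k := by
    intro c k; rw [hφ]; simp only; split_ifs <;> positivity
  have hsumφ : ∀ c : ℤ, Odd c → ∑ k : Fin L, φ c k ≤ 8 * √(σ * L) := by
    intro c hc
    rw [Fin.sum_univ_eq_sum_range (fun k : ℕ => φ c k) L, hφ]
    simp only
    rw [← sum_filter]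
    exact sum_odd_trunc L c hc (σ * L) hσ
  have hsL : 0 ≤ √(L : ℝ) := sqrt_nonneg _
  calc ∑ k ∈ univ.filter (fun k : Fin L => sn L k < σ), 1 / √(sn L k)
      ≤ ∑ k ∈ univ.filter (fun k : Fin L => sn L k < σ), √L * (φ (-1) k + φ (2 * L - 1) k +
          φ (4 * L - 1) k) := sum_le_sum fun k hk => hpt k (mem_filter.1 hk).2
    _ ≤ ∑ k : Fin L, √L * (φ (-1) k + φ (2 * L - 1) k + φ (4 * L - 1) k) :=
        sum_le_sum_of_subset_of_nonneg (filter_subset _ _) fun k _ _ =>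
          mul_nonneg hsL (add_nonneg (add_nonneg (hφ0 _ _) (hφ0 _ _)) (hφ0 _ _))
    _ = √L * (∑ k : Fin L, φ (-1) k + ∑ k : Fin L, φ (2 * L - 1) k +
          ∑ k : Fin L, φ (4 * L - 1) k) := by
        rw [← mul_sum, sum_add_distrib, sum_add_distrib]
    _ ≤ √L * (8 * √(σ * L) + 8 * √(σ * L) + 8 * √(σ * L)) := by
        apply mul_le_mul_of_nonneg_left _ hsL
        have a1 := hsumφ (-1) (by decide)
        have a2 := hsumφ (2 * L - 1) ⟨(L : ℤ) - 1, by ring⟩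
        have a3 := hsumφ (4 * L - 1) ⟨2 * (L : ℤ) - 1, by ring⟩
        linarith
    _ = 24 * (L * √σ) := by
        rw [sqrt_mul hσ0.le]
        have : √(L : ℝ) * √(L : ℝ) = L := mul_self_sqrt hL0
        calc √(L : ℝ) * (8 * (√σ * √L) + 8 * (√σ * √L) + 8 * (√σ * √L)) =
            24 * ((√(L : ℝ) * √L) * √σ) := by ring
          _ = _ := by rw [this]

end Pool.Agent.Helper2.AM
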