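import Pool.Agent.Helper2.AM.Slice

/-!
# Windows for functions supported in a small cube
-/

open Finset Real Matrix
open scoped ComplexOrder

noncomputable section

set_option linter.unusedSectionVars false

namespace Pool.Agent.Helper2.AM

variable {d : ℕ}

/-- The symbol after changing a coordinate. -/
lemma en_update (L : ℕ) (k : Fin d → Fin L) (j : Fin d) (t : Fin L) :
    en L (Function.update k j t) = (2 - 2 * cos (th L t)) +
      ∑ i ∈ univ.erase j, (2 - 2 * cos (th L (k i))) := by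
  unfold en
  rw [← Finset.add_sum_erase univ _ (mem_univ j), Function.update_self]
  congr 1
  refine Finset.sum_congr rfl fun i hi => ?_
  rw [Function.update_of_ne (Finset.ne_of_mem_erase hi)]

/-- Count of the coordinate `t` in an energy window. -/
lemma count_update (L : ℕ) (k : Fin d → Fin L) (j : Fin d) (E η M : ℝ) (hM : 0 < M) (hη : 0 ≤ η)
    (P : Fin L → Prop) [DecidablePred P] (hP : ∀ t, P t → M ≤ sn L t) :
    ∑ t, (if |en L (Function.update k j t) - E| ≤ η ∧ P t then (1 : ℝ) else 0) ≤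
      η * L / (π * M) + 2 := by
  rw [← Finset.sum_filter, Finset.sum_const, nsmul_eq_mul, mul_one]
  refine le_trans ?_ (count_one L M (2 + ∑ i ∈ univ.erase j, (2 - 2 * cos (th L (k i))) - E) η
    hM hη)
  have hsub : (univ.filter fun t : Fin L => |en L (Function.update k j t) - E| ≤ η ∧ P t) ⊆
      univ.filter fun t : Fin L => M ≤ sn L t ∧
        |2 * cos (th L t) - (2 + ∑ i ∈ univ.erase j, (2 - 2 * cos (th L (k i))) - E)| ≤ η := by
    intro t ht
    rw [mem_filter] at ht ⊢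
    obtain ⟨-, h1, h2⟩ := ht
    refine ⟨mem_univ _, hP t h2, ?_⟩
    rw [en_update] at h1
    rw [← abs_neg]
    convert h1 using 2
    ring
  exact_mod_cast Finset.card_le_card hsub

/-- Windows, all energies, dimension at least three. -/
lemma window_all (m R : ℕ) (E η : ℝ) (hη : 0 ≤ η) (hηL : 1 ≤ η * (2 * R + 1 : ℕ))
    (q : ℕ) (hq : 1 ≤ q) (hqL : q ≤ 2 * R + 1) (Q : Fin (m + 3) → Finset (Fin (2 * R + 1)))
    (hQ : ∀ j, (Q j).card ≤ q) (c : (Fin (m + 3) → Fin (2 * R + 1)) → ℂ)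
    (hc : ∀ j x, x j ∉ Q j → c x = 0) :
    ∑ k ∈ univ.filter (fun k : Fin (m + 3) → Fin (2 * R + 1) => |en (2 * R + 1) k - E| ≤ η),
      ‖(Bm (m + 3) R *ᵥ c) k‖ ^ 2 ≤
      (m + 3) * 1875 * q ^ 2 * η * ∑ k, ‖(Bm (m + 3) R *ᵥ c) k‖ ^ 2 := by
  have hL : (0 : ℝ) < ((2 * R + 1 : ℕ) : ℝ) := by positivity
  have hq' : (0 : ℝ) < q := by exact_mod_cast hq
  set G : (Fin (m + 3) → Fin (2 * R + 1)) → ℝ := fun k => ‖(Bm (m + 3) R *ᵥ c) k‖ ^ 2 with hG
  have hG0 : ∀ k, 0 ≤ G k := fun k => by rw [hG]; positivity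
  set F : Fin (m + 3) → (Fin (m + 3) → Fin (2 * R + 1)) → ℝ := fun j k =>
    if |en (2 * R + 1) k - E| ≤ η ∧ ∀ i, sn (2 * R + 1) (k i) ≤ sn (2 * R + 1) (k j) then 1 else 0 with hF
  have hF0 : ∀ j k, 0 ≤ F j k := by
    intro j k; rw [hF]; simp only; split_ifs <;> norm_num
  have hcov : ∑ k ∈ univ.filter (fun k : Fin (m + 3) → Fin (2 * R + 1) => |en (2 * R + 1) k - E| ≤ η), G k ≤
      ∑ j, ∑ k, F j k * G k := by
    rw [Finset.sum_comm, Finset.sum_filter]
    refine Finset.sum_le_sum fun k _ => ?_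
    split_ifs with h
    · obtain ⟨j, -, hj⟩ := Finset.exists_max_image (univ : Finset (Fin (m + 3)))
        (fun i => sn (2 * R + 1) (k i)) ⟨0, mem_univ _⟩
      have h1 : F j k * G k ≤ ∑ i, F i k * G k :=
        Finset.single_le_sum (f := fun i => F i k * G k)
          (fun i _ => mul_nonneg (hF0 i k) (hG0 k)) (mem_univ j)
      have h2 : F j k = 1 := by
        rw [hF]
        simp only
        rw [if_pos ⟨h, fun i => hj i (mem_univ _)⟩]
      rw [h2, one_mul] at h1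
      exact h1
    · exact Finset.sum_nonneg fun i _ => mul_nonneg (hF0 i k) (hG0 k)
  have hone : ∀ j, ∑ k, F j k * G k ≤ 1875 * q ^ 2 * η * ∑ k, G k := by
    intro j
    -- two further coordinates
    obtain ⟨a, b, haj, hbj, hab⟩ : ∃ a b : Fin (m + 3), a ≠ j ∧ b ≠ j ∧ a ≠ b :=
      ⟨j.succAbove 0, j.succAbove 1, Fin.succAbove_ne j 0, Fin.succAbove_ne j 1, by
        intro h
        exact absurd (Fin.succAbove_right_injective h) (by simp)⟩
    have h1 := slice_avg R c j (Q j) (hc j) (F j) (hF0 j)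
    have h2 : ∀ k, ∑ t, F j (Function.update k j t) ≤
        3 * η * (2 * R + 1 : ℕ) * ((1 / √(sn (2 * R + 1) (k b))) * (1 / √(sn (2 * R + 1) (k a)))) := by
      intro k
      have pa : 0 < √(sn (2 * R + 1) (k a)) := sqrt_pos.2 (sn_pos (2 * R + 1) _)
      have pb : 0 < √(sn (2 * R + 1) (k b)) := sqrt_pos.2 (sn_pos (2 * R + 1) _)
      have qa : √(sn (2 * R + 1) (k a)) ≤ 1 := sqrt_le_one.2 (sn_le_one _ _)
      have qb : √(sn (2 * R + 1) (k b)) ≤ 1 := sqrt_le_one.2 (sn_le_one _ _)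
      have hMpos : 0 < √(sn (2 * R + 1) (k a)) * √(sn (2 * R + 1) (k b)) := mul_pos pa pb
      have h3 := count_update (2 * R + 1) k j E η (√(sn (2 * R + 1) (k a)) * √(sn (2 * R + 1) (k b))) hMpos hη
        (fun t => ∀ i, sn (2 * R + 1) (Function.update k j t i) ≤ sn (2 * R + 1) t) (fun t ht => by
          have a0 := ht a
          have a1 := ht b
          rw [Function.update_of_ne haj] at a0
          rw [Function.update_of_ne hbj] at a1
          calc √(sn (2 * R + 1) (k a)) * √(sn (2 * R + 1) (k b)) ≤ √(sn (2 * R + 1) t) * √(sn (2 * R + 1) t) :=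
                mul_le_mul (sqrt_le_sqrt a0) (sqrt_le_sqrt a1) pb.le (sqrt_nonneg _)
            _ = sn (2 * R + 1) t := mul_self_sqrt (sn_pos (2 * R + 1) t).le)
      have e1 : ∑ t, F j (Function.update k j t) = ∑ t, (if |en (2 * R + 1) (Function.update k j t) - E| ≤ η ∧
          (∀ i, sn (2 * R + 1) (Function.update k j t i) ≤ sn (2 * R + 1) t) then (1 : ℝ) else 0) := by
        refine Finset.sum_congr rfl fun t _ => ?_
        rw [hF]
        simp only [Function.update_self]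
      rw [e1]
      refine h3.trans ?_
      have e2 : (1 / √(sn (2 * R + 1) (k b))) * (1 / √(sn (2 * R + 1) (k a))) =
          1 / (√(sn (2 * R + 1) (k a)) * √(sn (2 * R + 1) (k b))) := by
        field_simp
      rw [e2]
      have h4 : 1 ≤ 1 / (√(sn (2 * R + 1) (k a)) * √(sn (2 * R + 1) (k b))) := by
        rw [le_div_iff₀ hMpos, one_mul]
        calc √(sn (2 * R + 1) (k a)) * √(sn (2 * R + 1) (k b)) ≤ 1 * 1 := mul_le_mul qa qb pb.le zero_le_one
          _ = 1 := one_mul 1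
      have h5 : η * (2 * R + 1 : ℕ) / (π * (√(sn (2 * R + 1) (k a)) * √(sn (2 * R + 1) (k b)))) ≤
          η * (2 * R + 1 : ℕ) * (1 / (√(sn (2 * R + 1) (k a)) * √(sn (2 * R + 1) (k b)))) := by
        have hpi : (1 : ℝ) ≤ π := by linarith [pi_gt_three]
        have : η * (2 * R + 1 : ℕ) / (π * (√(sn (2 * R + 1) (k a)) * √(sn (2 * R + 1) (k b)))) =
            (η * (2 * R + 1 : ℕ) * (1 / (√(sn (2 * R + 1) (k a)) * √(sn (2 * R + 1) (k b))))) / π := by field_simp
        rw [this]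
        exact div_le_self (by positivity) hpi
      have h6 : 2 ≤ 2 * (η * (2 * R + 1 : ℕ)) * (1 / (√(sn (2 * R + 1) (k a)) * √(sn (2 * R + 1) (k b)))) := by
        have : 1 * 1 ≤ (η * (2 * R + 1 : ℕ)) * (1 / (√(sn (2 * R + 1) (k a)) * √(sn (2 * R + 1) (k b)))) :=
          mul_le_mul hηL h4 zero_le_one (by linarith)
        linarith
      linarith
    have h3 : ∑ k, (∑ t, F j (Function.update k j t)) * G k ≤
        3 * η * (2 * R + 1 : ℕ) * ∑ k, (1 / √(sn (2 * R + 1) (k b))) * (1 / √(sn (2 * R + 1) (k a))) * G k := by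
      rw [Finset.mul_sum]
      refine Finset.sum_le_sum fun k _ => ?_
      calc (∑ t, F j (Function.update k j t)) * G k ≤
            3 * η * (2 * R + 1 : ℕ) * ((1 / √(sn (2 * R + 1) (k b))) * (1 / √(sn (2 * R + 1) (k a)))) * G k :=
            mul_le_mul_of_nonneg_right (h2 k) (hG0 k)
        _ = _ := by ring
    have h4 := slice_sqrt R c a (Q a) (hc a) q (hQ a) hq hqL (fun k => 1 / √(sn (2 * R + 1) (k b)))
      (fun k => by positivity) (fun k t => by rw [Function.update_of_ne hab.symm])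
    have h5 := slice_sqrt R c b (Q b) (hc b) q (hQ b) hq hqL (fun _ => 1)
      (fun k => zero_le_one) (fun k t => rfl)
    simp only [one_mul] at h5
    have hsq : √(q : ℝ) * √q = q := mul_self_sqrt hq'.le
    have h6 : ∑ k, (1 / √(sn (2 * R + 1) (k b))) * (1 / √(sn (2 * R + 1) (k a))) * G k ≤ 625 * q * ∑ k, G k := by
      calc ∑ k, (1 / √(sn (2 * R + 1) (k b))) * (1 / √(sn (2 * R + 1) (k a))) * G k
          ≤ 25 * √q * ∑ k, (1 / √(sn (2 * R + 1) (k b))) * G k := h4
        _ ≤ 25 * √q * (25 * √q * ∑ k, G k) := mul_le_mul_of_nonneg_left h5 (by positivity)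
        _ = 625 * (√q * √q) * ∑ k, G k := by ring
        _ = 625 * q * ∑ k, G k := by rw [hsq]
    have hS0 : 0 ≤ ∑ k, G k := Finset.sum_nonneg fun k _ => hG0 k
    have hQj : ((Q j).card : ℝ) ≤ q := by exact_mod_cast hQ j
    calc ∑ k, F j k * G k
        ≤ ((Q j).card / ((2 * R + 1 : ℕ) : ℝ)) * ∑ k, (∑ t, F j (Function.update k j t)) * G k := h1
      _ ≤ ((Q j).card / ((2 * R + 1 : ℕ) : ℝ)) * (3 * η * (2 * R + 1 : ℕ) * (625 * q * ∑ k, G k)) := by
          apply mul_le_mul_of_nonneg_left _ (by positivity)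
          exact h3.trans (mul_le_mul_of_nonneg_left h6 (by positivity))
      _ = (Q j).card * (1875 * q * η * ∑ k, G k) := by field_simp; ring
      _ ≤ q * (1875 * q * η * ∑ k, G k) := mul_le_mul_of_nonneg_right hQj (by positivity)
      _ = _ := by ring
  calc ∑ k ∈ univ.filter (fun k : Fin (m + 3) → Fin (2 * R + 1) => |en (2 * R + 1) k - E| ≤ η), G k
      ≤ ∑ j, ∑ k, F j k * G k := hcov
    _ ≤ ∑ _j : Fin (m + 3), 1875 * q ^ 2 * η * ∑ k, G k := Finset.sum_le_sum fun j _ => hone j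
    _ = _ := by
      rw [sum_const, card_univ, Fintype.card_fin, nsmul_eq_mul]
      push_cast
      ring

/-- One coordinate has a large sine away from the thresholds. -/
lemma exists_sine (hd : 1 ≤ d) (L : ℕ) (k : Fin d → Fin L) (E η δ : ℝ) (hδ : 0 < δ)
    (hηδ : η ≤ δ / 2)
    (hE : ∀ i : ℕ, i ≤ d → δ ≤ |E - 4 * i|) (hk : |en L k - E| ≤ η) :
    ∃ j, √(δ / (8 * d)) ≤ sn L (k j) := by
  by_contra hcon
  push Not at hcon
  have hd' : (0 : ℝ) < d := by exact_mod_cast hd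
  set σ := √(δ / (8 * d)) with hσ
  have hσ2 : σ ^ 2 = δ / (8 * d) := sq_sqrt (by positivity)
  have hσ0 : 0 ≤ σ := sqrt_nonneg _
  -- each coordinate is close to `0` or `4`
  have hco : ∀ j, |(2 - 2 * cos (th L (k j))) - (if cos (th L (k j)) < 0 then 4 else 0)| ≤
      2 * σ ^ 2 := by
    intro j
    have h1 : sn L (k j) ^ 2 ≤ σ ^ 2 := pow_le_pow_left₀ (sn_pos L _).le (hcon j).le 2
    have h2 : sn L (k j) ^ 2 = 1 - cos (th L (k j)) ^ 2 := by
      unfold sn
      rw [sq_abs, sin_sq]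
    have h3 := neg_one_le_cos (th L (k j))
    have h4 := cos_le_one (th L (k j))
    rw [h2] at h1
    split_ifs with h
    · rw [abs_le]
      constructor <;> nlinarith
    · push Not at h
      rw [abs_le]
      constructor <;> nlinarith
  set n := (univ.filter fun j : Fin d => cos (th L (k j)) < 0).card with hn
  have hnd : n ≤ d := by
    have := Finset.card_filter_le (univ : Finset (Fin d)) (fun j => cos (th L (k j)) < 0)
    rwa [card_univ, Fintype.card_fin] at this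
  have hsum : |en L k - 4 * n| ≤ d * (2 * σ ^ 2) := by
    have e1 : (4 : ℝ) * n = ∑ j : Fin d, (if cos (th L (k j)) < 0 then (4 : ℝ) else 0) := by
      rw [hn, ← Finset.sum_filter, Finset.sum_const, nsmul_eq_mul]
      ring
    rw [e1]
    unfold en
    rw [← Finset.sum_sub_distrib]
    refine (Finset.abs_sum_le_sum_abs _ _).trans ?_
    calc ∑ j : Fin d, |(2 - 2 * cos (th L (k j))) - (if cos (th L (k j)) < 0 then 4 else 0)|
        ≤ ∑ _j : Fin d, 2 * σ ^ 2 := Finset.sum_le_sum fun j _ => hco j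
      _ = d * (2 * σ ^ 2) := by rw [sum_const, card_univ, Fintype.card_fin, nsmul_eq_mul]
  have h5 := hE n hnd
  have h6 : |E - 4 * n| ≤ |en L k - E| + |en L k - 4 * n| := by
    have e : E - 4 * (n : ℝ) = -(en L k - E) + (en L k - 4 * n) := by ring
    rw [e]
    refine (abs_add_le _ _).trans ?_
    rw [abs_neg]
  have h7 : d * (2 * σ ^ 2) = δ / 4 := by
    rw [hσ2]
    field_simp
    ring
  rw [h7] at hsum
  linarith

/-- Windows, bulk energies, any dimension. -/
lemma window_bulk (hd : 1 ≤ d) (R : ℕ) (E η δ : ℝ) (hδ : 0 < δ) (hη : 0 ≤ η)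
    (hηL : 1 ≤ η * (2 * R + 1 : ℕ)) (hE : ∀ i : ℕ, i ≤ d → δ ≤ |E - 4 * i|)
    (q : ℕ) (hq : 1 ≤ q) (Q : Fin d → Finset (Fin (2 * R + 1)))
    (hQ : ∀ j, (Q j).card ≤ q) (c : (Fin d → Fin (2 * R + 1)) → ℂ)
    (hc : ∀ j x, x j ∉ Q j → c x = 0) :
    ∑ k ∈ univ.filter (fun k : Fin d → Fin (2 * R + 1) => |en (2 * R + 1) k - E| ≤ η),
      ‖(Bm d R *ᵥ c) k‖ ^ 2 ≤
      (d * (1 / √(δ / (8 * d)) + 2) + 2 / δ) * q * η * ∑ k, ‖(Bm d R *ᵥ c) k‖ ^ 2 := by
  have hL : (0 : ℝ) < ((2 * R + 1 : ℕ) : ℝ) := by positivity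
  have hq' : (1 : ℝ) ≤ q := by exact_mod_cast hq
  have hd' : (0 : ℝ) < d := by exact_mod_cast hd
  set σ := √(δ / (8 * d)) with hσ
  have hσ0 : 0 < σ := sqrt_pos.2 (by positivity)
  set G : (Fin d → Fin (2 * R + 1)) → ℝ := fun k => ‖(Bm d R *ᵥ c) k‖ ^ 2 with hG
  have hG0 : ∀ k, 0 ≤ G k := fun k => by rw [hG]; positivity
  have hS0 : 0 ≤ ∑ k, G k := Finset.sum_nonneg fun k _ => hG0 k
  rcases le_or_gt η (δ / 2) with hηδ | hηδ
  · set F : Fin d → (Fin d → Fin (2 * R + 1)) → ℝ := fun j k =>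
      if |en (2 * R + 1) k - E| ≤ η ∧ σ ≤ sn (2 * R + 1) (k j) then 1 else 0 with hF
    have hF0 : ∀ j k, 0 ≤ F j k := by
      intro j k; rw [hF]; simp only; split_ifs <;> norm_num
    have hcov : ∑ k ∈ univ.filter (fun k : Fin d → Fin (2 * R + 1) => |en (2 * R + 1) k - E| ≤ η), G k ≤
        ∑ j, ∑ k, F j k * G k := by
      rw [Finset.sum_comm, Finset.sum_filter]
      refine Finset.sum_le_sum fun k _ => ?_
      split_ifs with h
      · obtain ⟨j, hj⟩ := exists_sine hd (2 * R + 1) k E η δ hδ hηδ hE h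
        have h1 : F j k * G k ≤ ∑ i, F i k * G k :=
          Finset.single_le_sum (f := fun i => F i k * G k)
            (fun i _ => mul_nonneg (hF0 i k) (hG0 k)) (mem_univ j)
        have h2 : F j k = 1 := by
          rw [hF]
          simp only
          rw [if_pos ⟨h, hj⟩]
        rw [h2, one_mul] at h1
        exact h1
      · exact Finset.sum_nonneg fun i _ => mul_nonneg (hF0 i k) (hG0 k)
    have hone : ∀ j, ∑ k, F j k * G k ≤ (1 / σ + 2) * q * η * ∑ k, G k := by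
      intro j
      have h1 := slice_avg R c j (Q j) (hc j) (F j) (hF0 j)
      have h2 : ∀ k, ∑ t, F j (Function.update k j t) ≤ (1 / σ + 2) * (η * (2 * R + 1 : ℕ)) := by
        intro k
        have h3 := count_update (2 * R + 1) k j E η σ hσ0 hη (fun t => σ ≤ sn (2 * R + 1) t) (fun t ht => ht)
        have e1 : ∑ t, F j (Function.update k j t) =
            ∑ t, (if |en (2 * R + 1) (Function.update k j t) - E| ≤ η ∧ σ ≤ sn (2 * R + 1) t then (1 : ℝ) else 0) := by
          refine Finset.sum_congr rfl fun t _ => ?_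
          rw [hF]
          simp only [Function.update_self]
        rw [e1]
        refine h3.trans ?_
        have h5 : η * (2 * R + 1 : ℕ) / (π * σ) ≤ η * (2 * R + 1 : ℕ) * (1 / σ) := by
          have hpi : (1 : ℝ) ≤ π := by linarith [pi_gt_three]
          have : η * (2 * R + 1 : ℕ) / (π * σ) = (η * (2 * R + 1 : ℕ) * (1 / σ)) / π := by field_simp
          rw [this]
          exact div_le_self (by positivity) hpi
        have h6 : (1 / σ + 2) * (η * (2 * R + 1 : ℕ)) = η * (2 * R + 1 : ℕ) * (1 / σ) + 2 * (η * (2 * R + 1 : ℕ)) := by ring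
        rw [h6]
        linarith
      have hQj : ((Q j).card : ℝ) ≤ q := by exact_mod_cast hQ j
      have h3 : ∑ k, (∑ t, F j (Function.update k j t)) * G k ≤
          (1 / σ + 2) * (η * (2 * R + 1 : ℕ)) * ∑ k, G k := by
        rw [Finset.mul_sum]
        exact Finset.sum_le_sum fun k _ => mul_le_mul_of_nonneg_right (h2 k) (hG0 k)
      calc ∑ k, F j k * G k
          ≤ ((Q j).card / ((2 * R + 1 : ℕ) : ℝ)) * ∑ k, (∑ t, F j (Function.update k j t)) * G k := h1
        _ ≤ ((Q j).card / ((2 * R + 1 : ℕ) : ℝ)) * ((1 / σ + 2) * (η * (2 * R + 1 : ℕ)) * ∑ k, G k) :=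
            mul_le_mul_of_nonneg_left h3 (by positivity)
        _ = (Q j).card * ((1 / σ + 2) * η * ∑ k, G k) := by field_simp
        _ ≤ q * ((1 / σ + 2) * η * ∑ k, G k) := mul_le_mul_of_nonneg_right hQj (by positivity)
        _ = _ := by ring
    calc ∑ k ∈ univ.filter (fun k : Fin d → Fin (2 * R + 1) => |en (2 * R + 1) k - E| ≤ η), G k
        ≤ ∑ j, ∑ k, F j k * G k := hcov
      _ ≤ ∑ _j : Fin d, (1 / σ + 2) * q * η * ∑ k, G k := Finset.sum_le_sum fun j _ => hone j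
      _ = d * (1 / σ + 2) * q * η * ∑ k, G k := by
        rw [sum_const, card_univ, Fintype.card_fin, nsmul_eq_mul]
        ring
      _ ≤ _ := by
        have : 0 ≤ 2 / δ * q * η * ∑ k, G k := by positivity
        linarith
  · have h1 : ∑ k ∈ univ.filter (fun k : Fin d → Fin (2 * R + 1) => |en (2 * R + 1) k - E| ≤ η), G k ≤ ∑ k, G k :=
      Finset.sum_le_sum_of_subset_of_nonneg (Finset.filter_subset _ _) fun k _ _ => hG0 k
    refine h1.trans ?_
    have h2 : 1 ≤ 2 / δ * η := by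
      rw [div_mul_eq_mul_div, le_div_iff₀ hδ]
      linarith
    have h3 : 1 ≤ (2 / δ) * q * η := by
      calc (1 : ℝ) ≤ 1 * (2 / δ * η) := by rw [one_mul]; exact h2
        _ ≤ q * (2 / δ * η) := mul_le_mul_of_nonneg_right hq' (by linarith)
        _ = _ := by ring
    have h4 : 1 ≤ (d * (1 / σ + 2) + 2 / δ) * q * η := by
      have : 0 ≤ d * (1 / σ + 2) * q * η := by positivity
      linarith
    calc ∑ k, G k = 1 * ∑ k, G k := (one_mul _).symm
      _ ≤ _ := mul_le_mul_of_nonneg_right h4 hS0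

/-- The window bound used in the main argument: exponent `a`, constant `A`, energies `S`. -/
def WB (d a : ℕ) (A : ℝ) (S : Set ℝ) : Prop :=
  ∀ (R : ℕ) (E0 ε : ℝ), E0 ∈ S → 0 < ε → ε ≤ 1 / 2 → 1 ≤ ε * (2 * R + 1 : ℕ) →
    ∀ (q : ℕ) (Q : Fin d → Finset (Fin (2 * R + 1))), 1 ≤ q → q ≤ 2 * R + 1 →
      (∀ j, (Q j).card ≤ q) → ∀ c : (Fin d → Fin (2 * R + 1)) → ℂ,
      (∀ j x, x j ∉ Q j → c x = 0) →
      ∑ k, wt (en (2 * R + 1) k) E0 ε * ‖(Bm d R *ᵥ c) k‖ ^ 2 ≤
        A * q ^ a * log (1 / ε) * nsq c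

theorem WB_all (m : ℕ) : WB (m + 3) 2 (12 * ((m + 3) * 1875) + 2) Set.univ := by
  intro R E0 ε _ hε hε1 hεL q Q hq hqL hQ c hc
  have hq' : (1 : ℝ) ≤ (q : ℝ) ^ 2 := one_le_pow₀ (by exact_mod_cast hq)
  have hns : ∑ k, ‖(Bm (m + 3) R *ᵥ c) k‖ ^ 2 = nsq c := nsq_Bm (m + 3) R c
  have hns0 : 0 ≤ nsq c := Finset.sum_nonneg fun i _ => by positivity
  have hlog : 0 ≤ log (1 / ε) := log_nonneg (by rw [le_div_iff₀ hε]; linarith)
  have h := sum_wt_log (fun k => en (2 * R + 1) k) (fun k => ‖(Bm (m + 3) R *ᵥ c) k‖ ^ 2)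
    (fun k => by positivity) E0 ε hε hε1 ((m + 3) * 1875 * q ^ 2) (nsq c) (by positivity) hns0
    hns.le (fun η hη => by
      have h0 : 0 ≤ η := hε.le.trans hη
      have h1 := window_all m R E0 η h0 (hεL.trans (mul_le_mul_of_nonneg_right hη (by positivity)))
        q hq hqL Q hQ c hc
      rw [hns] at h1
      exact h1)
  refine h.trans ?_
  apply mul_le_mul_of_nonneg_right _ hns0
  apply mul_le_mul_of_nonneg_right _ hlog
  nlinarith

/-- Bulk energies. -/
def bulk (d : ℕ) (δ : ℝ) : Set ℝ := {E | ∀ i : ℕ, i ≤ d → δ ≤ |E - 4 * i|}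

theorem WB_bulk (hd : 1 ≤ d) (δ : ℝ) (hδ : 0 < δ) :
    WB d 1 (12 * (d * (1 / √(δ / (8 * d)) + 2) + 2 / δ) + 2) (bulk d δ) := by
  intro R E0 ε hE0 hε hε1 hεL q Q hq hqL hQ c hc
  have hq' : (1 : ℝ) ≤ (q : ℝ) := by exact_mod_cast hq
  have hns : ∑ k, ‖(Bm d R *ᵥ c) k‖ ^ 2 = nsq c := nsq_Bm d R c
  have hns0 : 0 ≤ nsq c := Finset.sum_nonneg fun i _ => by positivity
  have hlog : 0 ≤ log (1 / ε) := log_nonneg (by rw [le_div_iff₀ hε]; linarith)
  set C := d * (1 / √(δ / (8 * d)) + 2) + 2 / δ with hC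
  have hC0 : 0 ≤ C := by positivity
  have h := sum_wt_log (fun k => en (2 * R + 1) k) (fun k => ‖(Bm d R *ᵥ c) k‖ ^ 2)
    (fun k => by positivity) E0 ε hε hε1 (C * q) (nsq c) (by positivity) hns0
    hns.le (fun η hη => by
      have h0 : 0 ≤ η := hε.le.trans hη
      have h1 := window_bulk hd R E0 η δ hδ h0
        (hεL.trans (mul_le_mul_of_nonneg_right hη (by positivity))) hE0 q hq Q hQ c hc
      rw [hns] at h1
      exact h1)
  refine h.trans ?_
  apply mul_le_mul_of_nonneg_right _ hns0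
  apply mul_le_mul_of_nonneg_right _ hlog
  rw [pow_one]
  nlinarith

end Pool.Agent.Helper2.AM
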